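import Pool.Agent.H91U.Defs
import Pool.Agent.H91S.Skew

/-! Independent pairs: basic properties. -/

set_option linter.unusedSectionVars false

namespace Pool.Agent.H91U

open Pool.Agent.H91.Mono Pool.Agent.H91S

variable {K V : Type*} [Field K] [CharZero K] [AddCommGroup V] [Module K V]
  {ψ : V →ₗ[K] V →ₗ[K] K} {Γ : Subgroup (V ≃ₗ[K] V)} {e f : V}

lemma hp_apply (e f v : V) :
    hp ψ e f v = ((ψ e f)⁻¹ * ψ v f) • e - ((ψ f e)⁻¹ * ψ v e) • f := by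
  simp only [hp, LinearMap.sub_apply, LinearMap.smul_apply, LinearMap.smulRight_apply,
    LinearMap.flip_apply, smul_smul]

lemma tor_apply (e f : V) (t : K) (v : V) :
    tor ψ e f t v = v + ((t - 1) * (ψ e f)⁻¹ * ψ v f) • e +
      ((t⁻¹ - 1) * (ψ f e)⁻¹ * ψ v e) • f := by
  simp only [tor, LinearMap.add_apply, LinearMap.smul_apply, LinearMap.smulRight_apply,
    LinearMap.flip_apply, smul_smul, Module.End.one_apply]

lemma ZZ_apply (u w v : V) : ZZ ψ u w v = ψ v u • w - ψ w v • u := by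
  simp only [ZZ, LinearMap.sub_apply, LinearMap.smulRight_apply, LinearMap.flip_apply]

lemma hp_swap (e f : V) : hp ψ f e = -hp ψ e f := by
  ext v
  rw [LinearMap.neg_apply, hp_apply, hp_apply, neg_sub]

lemma tor_swap (e f : V) (t : K) : tor ψ f e t = tor ψ e f t⁻¹ := by
  ext v
  rw [tor_apply, tor_apply, inv_inv]
  abel

lemma Pair.symm (h : Pair ψ Γ e f) : Pair ψ Γ f e where
  ee := h.ff
  ff := h.ee
  ef := h.fe
  fe := h.ef
  hh := by
    rw [hp_swap]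
    exact (lie Γ).neg_mem h.hh
  tt := fun t ht => by
    rw [tor_swap]
    exact h.tt _ (inv_ne_zero ht)

lemma Pair.he (h : Pair ψ Γ e f) : hp ψ e f e = e := by
  rw [hp_apply, h.ee, inv_mul_cancel₀ h.ef]
  simp

lemma Pair.hf (h : Pair ψ Γ e f) : hp ψ e f f = -f := by
  rw [hp_apply, h.ff, inv_mul_cancel₀ h.fe]
  simp

lemma Pair.ne (h : Pair ψ Γ e f) : e ≠ 0 := by
  rintro rfl
  exact h.ef (by rw [map_zero, LinearMap.zero_apply])

lemma Ctx.swap (hc : Ctx ψ Γ) (u v : V) : ψ u v = 0 ↔ ψ v u = 0 := by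
  rcases hc.eps with h | h
  · have h1 : ψ u v = -ψ v u := by
      have h2 := h (u + v)
      rw [map_add, map_add, LinearMap.add_apply, LinearMap.add_apply, h, h] at h2
      linear_combination h2
    rw [h1, neg_eq_zero]
  · rw [h]

/-- the form is `ε`-symmetric -/
lemma Ctx.exists_eps (hc : Ctx ψ Γ) : ∃ ε : K, ε ^ 2 = 1 ∧ ∀ u v, ψ v u = ε * ψ u v := by
  rcases hc.eps with h | h
  · refine ⟨-1, by norm_num, ?_⟩
    intro u v
    have h2 := h (u + v)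
    rw [map_add, map_add, LinearMap.add_apply, LinearMap.add_apply, h, h] at h2
    linear_combination h2
  · exact ⟨1, by norm_num, fun u v => by rw [one_mul, h]⟩

/-- `(hp ^ 2 + hp) / 2` is the projection onto the line of `e` -/
lemma Pair.sq (h : Pair ψ Γ e f) (v : V) :
    hp ψ e f (hp ψ e f v) + hp ψ e f v = (2 * ((ψ e f)⁻¹ * ψ v f)) • e := by
  conv_lhs => rw [hp_apply e f v]
  rw [map_sub, map_smul, map_smul, h.he, h.hf]
  module

lemma Pair.coord_e (h : Pair ψ Γ e f) {W : Submodule K V} (hW : Stab Γ W) {w : V} (hw : w ∈ W)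
    (hne : ψ w f ≠ 0) : e ∈ W := by
  have h1 := hW _ h.hh w hw
  have h2 := W.add_mem (hW _ h.hh _ h1) h1
  rw [h.sq] at h2
  have h3 : (2 * ((ψ e f)⁻¹ * ψ w f)) ≠ 0 :=
    mul_ne_zero two_ne_zero (mul_ne_zero (inv_ne_zero h.ef) hne)
  have h4 := W.smul_mem (2 * ((ψ e f)⁻¹ * ψ w f))⁻¹ h2
  rwa [smul_smul, inv_mul_cancel₀ h3, one_smul] at h4

lemma Pair.coord_f (h : Pair ψ Γ e f) {W : Submodule K V} (hW : Stab Γ W) {w : V} (hw : w ∈ W)
    (hne : ψ w e ≠ 0) : f ∈ W := h.symm.coord_e hW hw hne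

lemma ls_stab (Γ : Subgroup (V ≃ₗ[K] V)) (e : V) : Stab Γ (LS Γ e) := by
  intro x hx w hw
  rw [LS, Submodule.mem_sInf] at hw ⊢
  intro W hW
  exact hW.1 x hx w (hw W hW)

lemma mem_ls (Γ : Subgroup (V ≃ₗ[K] V)) (e : V) : e ∈ LS Γ e := by
  rw [LS, Submodule.mem_sInf]
  intro W hW
  exact hW.2

lemma ls_le {e : V} {W : Submodule K V} (hW : Stab Γ W) (he : e ∈ W) : LS Γ e ≤ W :=
  sInf_le ⟨hW, he⟩

lemma mem_perp {W : Submodule K V} {v : V} : v ∈ perp ψ W ↔ ∀ w ∈ W, ψ v w = 0 := Iff.rfl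

lemma Ctx.mem_perp' (hc : Ctx ψ Γ) {W : Submodule K V} {v : V} :
    v ∈ perp ψ W ↔ ∀ w ∈ W, ψ w v = 0 := by
  rw [mem_perp]
  exact forall₂_congr fun w _ => hc.swap v w

lemma Ctx.skew [FiniteDimensional K V] (hc : Ctx ψ Γ) {x : Module.End K V} (hx : x ∈ lie Γ)
    {u v : V} (h : ψ u v = 0) : ψ (x u) v + ψ u (x v) = 0 := lie_skew_gen hc.sim hx h

lemma Ctx.stab_perp [FiniteDimensional K V] (hc : Ctx ψ Γ) {W : Submodule K V} (hW : Stab Γ W) :
    Stab Γ (perp ψ W) := by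
  intro x hx v hv w hw
  have h1 := hc.skew hx (hv w hw)
  rw [hv _ (hW x hx w hw), add_zero] at h1
  exact h1

lemma stab_sup {W W' : Submodule K V} (h : Stab Γ W) (h' : Stab Γ W') : Stab Γ (W ⊔ W') := by
  intro x hx w hw
  obtain ⟨a, ha, b, hb, rfl⟩ := Submodule.mem_sup.1 hw
  rw [map_add]
  exact Submodule.add_mem_sup (h x hx a ha) (h' x hx b hb)

lemma stab_inf {W W' : Submodule K V} (h : Stab Γ W) (h' : Stab Γ W') : Stab Γ (W ⊓ W') :=
  fun x hx w hw => ⟨h x hx w hw.1, h' x hx w hw.2⟩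

/-- translates of independent pairs are independent pairs -/
lemma Ctx.pair_map (hc : Ctx ψ Γ) (h : Pair ψ Γ e f) {γ : V ≃ₗ[K] V} (hγ : γ ∈ Γ) :
    Pair ψ Γ (γ e) (γ f) := by
  obtain ⟨μ, hμ⟩ := hc.sim γ hγ
  have hinv : ∀ v, γ (γ⁻¹ v) = v := fun v => γ.apply_symm_apply v
  have hμ0 : μ ≠ 0 := by
    rintro rfl
    apply h.ef
    have h1 := hc.sim γ⁻¹ (Γ.inv_mem hγ)
    obtain ⟨ν, hν⟩ := h1
    have h2 := hν (γ e) (γ f)
    have h3 : ∀ v, (γ⁻¹ : V ≃ₗ[K] V) (γ v) = v := fun v => γ.symm_apply_apply v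
    rw [h3, h3, hμ, zero_mul, mul_zero] at h2
    exact h2
  have hv : ∀ v w, ψ v (γ w) = μ * ψ (γ⁻¹ v) w := by
    intro v w
    rw [← hμ, hinv]
  refine ⟨by rw [hμ, h.ee, mul_zero], by rw [hμ, h.ff, mul_zero], ?_, ?_, ?_, ?_⟩
  · rw [hμ]; exact mul_ne_zero hμ0 h.ef
  · rw [hμ]; exact mul_ne_zero hμ0 h.fe
  · have h1 := lie_conj h.hh hγ
    have h2 : hp ψ (γ e) (γ f) = (γ : Module.End K V) * hp ψ e f *
        ((γ⁻¹ : V ≃ₗ[K] V) : Module.End K V) := by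
      ext v
      rw [Module.End.mul_apply, Module.End.mul_apply]
      show _ = γ (hp ψ e f (γ⁻¹ v))
      rw [hp_apply, hp_apply, hμ, hμ, hv, hv, map_sub, map_smul, map_smul, mul_inv, mul_inv]
      congr 2 <;> field_simp
    rw [h2]
    exact h1
  · intro t ht
    have h2 : tor ψ (γ e) (γ f) t = (γ : Module.End K V) * tor ψ e f t *
        ((γ⁻¹ : V ≃ₗ[K] V) : Module.End K V) := by
      ext v
      rw [Module.End.mul_apply, Module.End.mul_apply]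
      show _ = γ (tor ψ e f t (γ⁻¹ v))
      rw [tor_apply, tor_apply, hμ, hμ, hv, hv, map_add, map_add, map_smul, map_smul, hinv]
      have a1 : (t - 1) * (μ * ψ e f)⁻¹ * (μ * ψ (γ⁻¹ v) f) =
          (t - 1) * (ψ e f)⁻¹ * ψ (γ⁻¹ v) f := by
        rw [mul_inv]
        field_simp
      have a2 : (t⁻¹ - 1) * (μ * ψ f e)⁻¹ * (μ * ψ (γ⁻¹ v) e) =
          (t⁻¹ - 1) * (ψ f e)⁻¹ * ψ (γ⁻¹ v) e := by
        rw [mul_inv]
        field_simp
      rw [a1, a2]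
    rw [h2]
    exact inCl_mul (inCl_mul (inCl_of_mem hγ) (h.tt t ht)) (inCl_of_mem (Γ.inv_mem hγ))

end Pool.Agent.H91U
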