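import Pool.Agent.H91.Mono.Ss2

/-! The stable commutant over an extension field is separated by the vectors that separate it over
the ground field.

PROOF. As in `comm_descend` (`H91/Mono/Ort6.lean`): for a linear form `κ : K →ₗ[E] E` the contracted
endomorphism `cκ v = (κ ⊗ id) (c (1 ⊗ v))` of `V` commutes with a subgroup of finite index of `Γ`, and
`cκ w = 0` for `w ∈ S`. So `cκ = 0` for all `κ`, so `c (1 ⊗ v) = 0` for all `v`, so `c = 0`. -/

set_option linter.unusedSectionVars false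

namespace Pool.Agent.H91U

open TensorProduct Pool.Agent.H91.Mono

theorem commK {E : Type*} [Field E] [CharZero E] {V : Type*} [AddCommGroup V] [Module E V]
    [FiniteDimensional E V] {Γ : Subgroup (V ≃ₗ[E] V)} {K : Type*} [Field K] [CharZero K]
    [Algebra E K] (S : Set V)
    (hS : ∀ c : Module.End E V, Comm Γ c → (∀ w ∈ S, c w = 0) → c = 0)
    (c : Module.End K (K ⊗[E] V)) (hc : Comm (Γ.map (bcE K)) c)
    (h : ∀ w ∈ S, c ((1 : K) ⊗ₜ[E] w) = 0) : c = 0 := by
  obtain ⟨Δ, hΔ, hcomm⟩ := hc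
  let Δ' : Subgroup Γ := Δ.comap ((bcE K).subgroupMap Γ)
  have hΔ' : Δ'.FiniteIndex := by
    refine ⟨?_⟩
    rw [Subgroup.index_comap_of_surjective _ ((bcE K).subgroupMap_surjective Γ)]
    exact hΔ.index_ne_zero
  let cκ : Module.Dual E K → Module.End E V := fun κ =>
    ctr K κ ∘ₗ (c.restrictScalars E) ∘ₗ (TensorProduct.mk E K V 1)
  have hcκ : ∀ κ v, cκ κ v = ctr K κ (c (1 ⊗ₜ[E] v)) := fun κ v => rfl
  have h1 : ∀ κ, Comm Γ (cκ κ) := by
    intro κ
    refine ⟨Δ', hΔ', ?_⟩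
    intro γ hγ v
    have h2 := hcomm ((bcE K).subgroupMap Γ γ) hγ (1 ⊗ₜ[E] v)
    have h3 : (((bcE K).subgroupMap Γ γ : Γ.map (bcE K)) : K ⊗[E] V ≃ₗ[K] K ⊗[E] V) =
        bcE K (γ : V ≃ₗ[E] V) := rfl
    rw [h3, bcE_tmul] at h2
    rw [hcκ, hcκ, h2, ctr_bcE]
  have h2 : ∀ v, c (1 ⊗ₜ[E] v) = 0 := by
    intro v
    apply ctr_separates
    intro κ
    have h3 : cκ κ = 0 := by
      apply hS _ (h1 κ)
      intro w hw
      rw [hcκ, h w hw, map_zero]
    rw [← hcκ, h3, LinearMap.zero_apply]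
  apply LinearMap.ext
  intro x
  rw [LinearMap.zero_apply]
  induction x using TensorProduct.induction_on with
  | zero => simp
  | add x y hx hy => rw [map_add, hx, hy, add_zero]
  | tmul a v =>
    have h3 : (a ⊗ₜ[E] v : K ⊗[E] V) = a • (1 ⊗ₜ[E] v) := by
      rw [TensorProduct.smul_tmul', smul_eq_mul, mul_one]
    rw [h3, map_smul, h2, smul_zero]

end Pool.Agent.H91U
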