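import Pool.Agent.H91S.Dens

/-! Semisimplicity is preserved by extension of scalars (characteristic zero).

PROOF. `A = alg Γ ≤ End_E V`, `V` is a semisimple `A`-module. The trace form of the left regular
representation of `A` is nondegenerate: its radical is a two-sided ideal of nilpotent elements (all
powers have trace zero), so it kills all simple submodules of `V`. Dual bases `u i, v i` give
`∑ v i * u i = 1` and `x (∑ v i ⊗ u i) = (∑ v i ⊗ u i) x`. If `π` is any `K`-linear projection of
`K ⊗ V` onto `W`, then `∑ v i π u i` is an equivariant projection onto `W`. -/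

set_option linter.unusedSectionVars false

namespace Pool.Agent.H91U

open TensorProduct Pool.Agent.H91.Mono Pool.Agent.H91S

section nil

variable {E : Type*} [Field E] [CharZero E]

private theorem bcs_nil {M : Type*} [AddCommGroup M] [Module E M] [FiniteDimensional E M]
    (f : Module.End E M) (h : ∀ k, 1 ≤ k → LinearMap.trace E M (f ^ k) = 0) : ∃ n, f ^ n = 0 := by
  classical
  have hP : minpoly E f ≠ 0 := minpoly.ne_zero (Algebra.IsIntegral.isIntegral f)
  obtain ⟨q, hq, hnd⟩ := (minpoly E f).exists_eq_pow_rootMultiplicity_mul_and_not_dvd hP 0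
  generalize (minpoly E f).rootMultiplicity 0 = n at hq
  rw [map_zero, sub_zero] at hq hnd
  have hcop : IsCoprime (Polynomial.X ^ (n + 1)) q := by
    apply IsCoprime.pow_left
    rw [Irreducible.coprime_iff_not_dvd Polynomial.irreducible_X]
    exact hnd
  obtain ⟨u, v, huv⟩ := hcop
  let e : Module.End E M := Polynomial.aeval f (u * Polynomial.X ^ (n + 1))
  have he1 : e = 1 - Polynomial.aeval f (v * q) := by
    have h1 := congrArg (Polynomial.aeval f) huv
    rw [map_add, map_one] at h1
    exact eq_sub_of_add_eq h1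
  have hzero : e * Polynomial.aeval f (v * q) = 0 := by
    show Polynomial.aeval f (u * Polynomial.X ^ (n + 1)) * Polynomial.aeval f (v * q) = 0
    rw [← map_mul]
    have h1 : u * Polynomial.X ^ (n + 1) * (v * q) = (u * v * Polynomial.X) * minpoly E f := by
      rw [hq]
      ring
    rw [h1, map_mul, minpoly.aeval, mul_zero]
  have hidem : IsIdempotentElem e := by
    show e * e = e
    conv_lhs => rw [he1, mul_sub, mul_one, ← he1, hzero, sub_zero]
  have htr : ∀ r : Polynomial E, LinearMap.trace E M (Polynomial.aeval f (r * Polynomial.X)) = 0 := by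
    intro r
    induction r using Polynomial.induction_on' with
    | add r s hr hs => rw [add_mul, map_add, map_add, hr, hs, add_zero]
    | monomial m a =>
      rw [Polynomial.monomial_mul_X, Polynomial.aeval_monomial, Algebra.algebraMap_eq_smul_one,
        smul_mul_assoc, one_mul, map_smul, h (m + 1) (by omega), smul_zero]
  have he0 : e = 0 := by
    refine (LinearMap.IsIdempotentElem.trace_eq_zero_iff hidem).1 ?_
    have h2 : u * Polynomial.X ^ (n + 1) = (u * Polynomial.X ^ n) * Polynomial.X := by ring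
    show LinearMap.trace E M (Polynomial.aeval f (u * Polynomial.X ^ (n + 1))) = 0
    rw [h2]
    exact htr _
  refine ⟨n, ?_⟩
  have h3 : Polynomial.aeval f (v * q) = 1 := by
    rw [he0] at he1
    exact (sub_eq_zero.1 he1.symm).symm
  have h4 : v * minpoly E f = Polynomial.X ^ n * (v * q) := by
    rw [hq]
    ring
  calc f ^ n = f ^ n * Polynomial.aeval f (v * q) := by rw [h3, mul_one]
    _ = Polynomial.aeval f (v * minpoly E f) := by
        rw [h4, map_mul _ (Polynomial.X ^ n), map_pow, Polynomial.aeval_X]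
    _ = 0 := by rw [map_mul, minpoly.aeval, mul_zero]

end nil

section cas

variable {E : Type*} [Field E] [CharZero E] {V : Type*} [AddCommGroup V] [Module E V]
  [FiniteDimensional E V] {Γ : Subgroup (V ≃ₗ[E] V)}

/-- the trace of the left multiplication -/
private noncomputable def bcs_tau (A : Subalgebra E (Module.End E V)) : A →ₗ[E] E :=
  (LinearMap.trace E A) ∘ₗ (LinearMap.mul E A)

private theorem bcs_tau_apply (A : Subalgebra E (Module.End E V)) (a : A) :
    bcs_tau A a = LinearMap.trace E A (LinearMap.mulLeft E a) := rfl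

private theorem bcs_comm (A : Subalgebra E (Module.End E V)) (a b : A) :
    bcs_tau A (a * b) = bcs_tau A (b * a) := by
  rw [bcs_tau_apply, bcs_tau_apply, LinearMap.mulLeft_mul, LinearMap.mulLeft_mul]
  exact LinearMap.trace_mul_comm E _ _

private theorem bcs_kill
    (hss : ∀ W : Submodule E V, (∀ γ ∈ Γ, ∀ w ∈ W, (γ : V ≃ₗ[E] V) w ∈ W) →
      ∃ W' : Submodule E V, (∀ γ ∈ Γ, ∀ w ∈ W', (γ : V ≃ₗ[E] V) w ∈ W') ∧ IsCompl W W')
    (a : alg Γ) (ha : ∀ b, bcs_tau (alg Γ) (a * b) = 0) : a = 0 := by
  classical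
  have := alg_ss hss
  have hnil : ∀ a : alg Γ, (∀ b, bcs_tau (alg Γ) (a * b) = 0) → ∃ n, a ^ n = 0 := by
    intro a ha
    obtain ⟨n, hn⟩ := bcs_nil (LinearMap.mulLeft E a) (fun k hk => by
      rw [LinearMap.pow_mulLeft, ← bcs_tau_apply]
      obtain ⟨j, rfl⟩ : ∃ j, k = j + 1 := ⟨k - 1, by omega⟩
      rw [pow_succ']
      exact ha _)
    refine ⟨n, ?_⟩
    rw [LinearMap.pow_mulLeft] at hn
    have h1 := LinearMap.congr_fun hn 1
    rw [LinearMap.mulLeft_apply, mul_one] at h1
    exact h1
  let W0 : Submodule (alg Γ) V :=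
    { carrier := {v | ∀ a : alg Γ, (∀ b, bcs_tau (alg Γ) (a * b) = 0) → a • v = 0}
      add_mem' := fun {x y} hx hy a ha => by rw [smul_add, hx a ha, hy a ha, add_zero]
      zero_mem' := fun a _ => smul_zero a
      smul_mem' := fun c v hv a ha => by
        rw [smul_smul]
        exact hv (a * c) fun b => by rw [mul_assoc]; exact ha _ }
  have hsim : ∀ S : Submodule (alg Γ) V, IsSimpleModule (alg Γ) S → S ≤ W0 := by
    intro S hS s hs a ha
    by_contra hne
    have hatom : IsAtom S := isSimpleModule_iff_isAtom.1 hS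
    have h1 : Submodule.span (alg Γ) {a • s} ≤ S :=
      Submodule.span_le.2 (Set.singleton_subset_iff.2 (S.smul_mem a hs))
    have h2 : Submodule.span (alg Γ) {a • s} = S := by
      rcases hatom.le_iff.1 h1 with h | h
      · exact absurd (Submodule.span_singleton_eq_bot.1 h) hne
      · exact h
    have h3 : s ∈ Submodule.span (alg Γ) {a • s} := by rw [h2]; exact hs
    obtain ⟨x, hx⟩ := Submodule.mem_span_singleton.1 h3
    rw [smul_smul] at hx
    obtain ⟨n, hn⟩ := hnil (x * a) (fun b => by
      rw [mul_assoc, bcs_comm, mul_assoc]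
      exact ha _)
    have h4 : ∀ m : ℕ, (x * a) ^ m • s = s := by
      intro m
      induction m with
      | zero => rw [pow_zero, one_smul]
      | succ m ih => rw [pow_succ, mul_smul, hx, ih]
    have h5 : s = 0 := by rw [← h4 n, hn, zero_smul]
    exact hne (by rw [h5, smul_zero])
  have htop : W0 = ⊤ := by
    rw [eq_top_iff, ← IsSemisimpleModule.sSup_simples_eq_top (alg Γ) V]
    exact sSup_le fun S hS => hsim S hS
  apply Subtype.ext
  refine LinearMap.ext fun v => ?_
  have h6 : v ∈ W0 := by rw [htop]; exact Submodule.mem_top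
  exact h6 a ha

/-- dual bases -/
private theorem bcs_dual
    (hss : ∀ W : Submodule E V, (∀ γ ∈ Γ, ∀ w ∈ W, (γ : V ≃ₗ[E] V) w ∈ W) →
      ∃ W' : Submodule E V, (∀ γ ∈ Γ, ∀ w ∈ W', (γ : V ≃ₗ[E] V) w ∈ W') ∧ IsCompl W W') :
    ∃ (n : ℕ) (u v : Fin n → alg Γ), ∑ i, v i * u i = 1 ∧
      ∀ x : alg Γ, ∃ t : Fin n → Fin n → E, (∀ i, x * v i = ∑ j, t j i • v j) ∧
        ∀ j, u j * x = ∑ i, t j i • u i := by
  classical
  let τ := bcs_tau (alg Γ)
  let Φ : alg Γ →ₗ[E] Module.Dual E (alg Γ) := (LinearMap.mul E (alg Γ)).compr₂ τ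
  have hΦ : ∀ a b, Φ a b = τ (a * b) := fun a b => rfl
  have hinj : Function.Injective Φ := by
    rw [injective_iff_map_eq_zero]
    intro a ha
    refine bcs_kill hss a fun b => ?_
    have h1 := LinearMap.congr_fun ha b
    exact h1
  have hsurj : Function.Surjective Φ :=
    (LinearMap.injective_iff_surjective_of_finrank_eq_finrank
      (Subspace.dual_finrank_eq).symm).1 hinj
  let b := Module.finBasis E (alg Γ)
  choose u hu using fun i => hsurj (b.coord i)
  have hu' : ∀ i y, τ (u i * y) = b.repr y i := fun i y => by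
    rw [← hΦ, hu, Module.Basis.coord_apply]
  have e1 : ∀ y : alg Γ, ∑ i, τ (u i * y) • b i = y := by
    intro y
    simp_rw [hu']
    exact b.sum_repr y
  have e2 : ∀ y : alg Γ, ∑ i, τ (y * b i) • u i = y := by
    intro y
    apply hinj
    refine LinearMap.ext fun z => ?_
    rw [hΦ, hΦ, Finset.sum_mul, map_sum]
    have h1 : ∀ i, τ ((τ (y * b i) • u i) * z) = τ (b.repr z i • (y * b i)) := by
      intro i
      rw [smul_mul_assoc, map_smul, map_smul, hu', smul_eq_mul, smul_eq_mul, mul_comm]
    simp_rw [h1]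
    rw [← map_sum]
    congr 1
    simp_rw [← mul_smul_comm]
    rw [← Finset.mul_sum, b.sum_repr]
  refine ⟨_, u, b, ?_, ?_⟩
  · have h1 : ∀ x, τ (x * ∑ i, b i * u i) = τ x := by
      intro x
      rw [Finset.mul_sum, map_sum]
      have h2 : τ x = ∑ i, b.repr (x * b i) i := by
        show LinearMap.trace E (alg Γ) (LinearMap.mulLeft E x) = _
        rw [LinearMap.trace_eq_matrix_trace E b, Matrix.trace]
        refine Finset.sum_congr rfl fun i _ => ?_
        rw [Matrix.diag_apply, LinearMap.toMatrix_apply, LinearMap.mulLeft_apply]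
      rw [h2]
      refine Finset.sum_congr rfl fun i _ => ?_
      rw [← hu', ← mul_assoc]
      exact bcs_comm _ _ _
    rw [← sub_eq_zero]
    refine bcs_kill hss _ fun y => ?_
    rw [bcs_comm, mul_sub, mul_one, map_sub, sub_eq_zero]
    exact h1 y
  · intro x
    refine ⟨fun j i => τ (u j * (x * b i)), fun i => (e1 _).symm, fun j => ?_⟩
    rw [← e2 (u j * x)]
    refine Finset.sum_congr rfl fun i _ => ?_
    rw [mul_assoc]

end cas

theorem ssK {E : Type*} [Field E] [CharZero E] {V : Type*} [AddCommGroup V] [Module E V]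
    [FiniteDimensional E V] {Γ : Subgroup (V ≃ₗ[E] V)}
    (hss : ∀ W : Submodule E V, (∀ γ ∈ Γ, ∀ w ∈ W, (γ : V ≃ₗ[E] V) w ∈ W) →
      ∃ W' : Submodule E V, (∀ γ ∈ Γ, ∀ w ∈ W', (γ : V ≃ₗ[E] V) w ∈ W') ∧ IsCompl W W')
    (K : Type*) [Field K] [Algebra E K] (W : Submodule K (K ⊗[E] V))
    (hW : ∀ γ ∈ Γ.map (bcE K), ∀ w ∈ W, (γ : K ⊗[E] V ≃ₗ[K] K ⊗[E] V) w ∈ W) :
    ∃ W' : Submodule K (K ⊗[E] V), (∀ γ ∈ Γ.map (bcE K), ∀ w ∈ W',
      (γ : K ⊗[E] V ≃ₗ[K] K ⊗[E] V) w ∈ W') ∧ IsCompl W W' := by
  classical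
  obtain ⟨n, u, v, huv, hx⟩ := bcs_dual hss
  let β : alg Γ → Module.End K (K ⊗[E] V) := fun a => (a : Module.End E V).baseChange K
  have βadd : ∀ a b, β (a + b) = β a + β b := fun a b => LinearMap.baseChange_add _ _
  have βsmul : ∀ (c : E) a, β (c • a) = c • β a := fun c a => LinearMap.baseChange_smul _ _
  have βmul : ∀ a b, β (a * b) = β a * β b := fun a b => by
    show ((a : Module.End E V) * (b : Module.End E V)).baseChange K = _
    rw [Module.End.mul_eq_comp, LinearMap.baseChange_comp]
    rfl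
  have βone : β 1 = 1 := by
    refine LinearMap.ext fun w => ?_
    show (1 : Module.End E V).baseChange K w = w
    induction w using TensorProduct.induction_on with
    | zero => rw [map_zero]
    | add x y hx hy => rw [map_add, hx, hy]
    | tmul a v => rw [LinearMap.baseChange_tmul]; rfl
  have βsum : ∀ (s : Finset (Fin n)) (f : Fin n → alg Γ), β (∑ i ∈ s, f i) = ∑ i ∈ s, β (f i) := by
    intro s f
    induction s using Finset.induction_on with
    | empty =>
      rw [Finset.sum_empty, Finset.sum_empty]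
      exact LinearMap.baseChange_zero
    | insert i s hi ih => rw [Finset.sum_insert hi, Finset.sum_insert hi, βadd, ih]
  have hWst' : ∀ y : Module.End E V, y ∈ Submodule.span E (imSet Γ) →
      ∀ w ∈ W, y.baseChange K w ∈ W := by
    intro y h1
    induction h1 using Submodule.span_induction with
    | mem x hx =>
      obtain ⟨γ, hγ, rfl⟩ := hx
      intro w hw
      exact hW _ ⟨γ, hγ, rfl⟩ w hw
    | zero =>
      intro w _
      rw [LinearMap.baseChange_zero]
      exact W.zero_mem
    | add x y _ _ hx hy =>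
      intro w hw
      rw [LinearMap.baseChange_add]
      exact W.add_mem (hx w hw) (hy w hw)
    | smul c x _ hx =>
      intro w hw
      rw [LinearMap.baseChange_smul, LinearMap.smul_apply]
      rw [← algebraMap_smul K c]
      exact W.smul_mem _ (hx w hw)
  have hWst : ∀ a : alg Γ, ∀ w ∈ W, β a w ∈ W := fun a => hWst' _ (mem_alg.1 a.2)
  obtain ⟨W1, hW1⟩ := W.exists_isCompl
  let π : Module.End K (K ⊗[E] V) := W.projection W1 hW1
  have hπW : ∀ x, π x ∈ W := fun x => Submodule.projection_apply_mem hW1 x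
  have hπ1 : ∀ w ∈ W, π w = w := fun w hw => Submodule.projection_apply_of_mem_left hW1 hw
  let ρ : Module.End K (K ⊗[E] V) := ∑ i, β (v i) * π * β (u i)
  have hρ : ∀ x, ρ x = ∑ i, β (v i) (π (β (u i) x)) := by
    intro x
    show (∑ i, β (v i) * π * β (u i)) x = _
    rw [LinearMap.sum_apply]
    rfl
  have hρW : ∀ x, ρ x ∈ W := by
    intro x
    rw [hρ]
    exact W.sum_mem fun i _ => hWst _ _ (hπW _)
  have hρ1 : ∀ w ∈ W, ρ w = w := by
    intro w hw
    rw [hρ]
    have h1 : ∀ i, β (v i) (π (β (u i) w)) = β (v i * u i) w := by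
      intro i
      rw [hπ1 _ (hWst _ _ hw), βmul]
      rfl
    simp_rw [h1]
    rw [← LinearMap.sum_apply, ← βsum, huv, βone]
    rfl
  have hcomm : ∀ x : alg Γ, β x * ρ = ρ * β x := by
    intro x
    obtain ⟨t, ht1, ht2⟩ := hx x
    show β x * ∑ i, β (v i) * π * β (u i) = (∑ i, β (v i) * π * β (u i)) * β x
    rw [Finset.mul_sum, Finset.sum_mul]
    have h1 : ∀ i, β x * (β (v i) * π * β (u i)) = ∑ j, t j i • (β (v j) * π * β (u i)) := by
      intro i
      rw [← mul_assoc, ← mul_assoc, ← βmul, ht1, βsum, Finset.sum_mul, Finset.sum_mul]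
      refine Finset.sum_congr rfl fun j _ => ?_
      rw [βsmul, smul_mul_assoc, smul_mul_assoc]
    have h2 : ∀ j, β (v j) * π * β (u j) * β x = ∑ i, t j i • (β (v j) * π * β (u i)) := by
      intro j
      rw [mul_assoc, ← βmul, ht2, βsum, Finset.mul_sum]
      refine Finset.sum_congr rfl fun i _ => ?_
      rw [βsmul, mul_smul_comm]
    simp_rw [h1, h2]
    exact Finset.sum_comm
  refine ⟨LinearMap.ker ρ, ?_, ?_⟩
  · rintro _ ⟨γ, hγ, rfl⟩ w hw
    have hmem : ((γ : V ≃ₗ[E] V) : Module.End E V) ∈ alg Γ := Algebra.subset_adjoin ⟨γ, hγ, rfl⟩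
    have h1 := LinearMap.congr_fun (hcomm ⟨_, hmem⟩) w
    rw [Module.End.mul_apply, Module.End.mul_apply, LinearMap.mem_ker.1 hw, map_zero] at h1
    rw [LinearMap.mem_ker]
    exact h1.symm
  · let ρ' : K ⊗[E] V →ₗ[K] W := ρ.codRestrict W hρW
    have h1 : ∀ x : W, ρ' x = x := fun x => Subtype.ext (hρ1 x.1 x.2)
    have h2 := LinearMap.isCompl_of_proj h1
    have h3 : LinearMap.ker ρ' = LinearMap.ker ρ := LinearMap.ker_codRestrict _ _ _
    rwa [h3] at h2

end Pool.Agent.H91U
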