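import Pool.Agent.H91S.Dens

/-! Extension of scalars of a semisimple group: from the nondegenerate trace form to complements.

PROOF. `A = alg Γ`, trace form nondegenerate on `A` (`hnd`). Dual basis `d i ∈ A` of a basis `b i`
of `A`; the algebra `alg (Γ.map (bcE K))` is inside the `K`-span of the `(b i).baseChange K`, and
its trace form is nondegenerate by pairing with the `(d i).baseChange K`. The Jacobson radical is
nilpotent, so its elements have trace `0` against all elements, so it is `⊥`; the ring is Artinian,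
so semisimple, and complements exist. -/

set_option linter.unusedSectionVars false

namespace Pool.Agent.H91U

open TensorProduct Pool.Agent.H91.Mono Pool.Agent.H91S

section Fi

variable {F : Type*} [Field F] {U : Type*} [AddCommGroup U] [Module F U]
  [FiniteDimensional F U] {Γ : Subgroup (U ≃ₗ[F] U)}

/-- a nondegenerate trace form on the generated algebra gives stable complements -/
theorem bcs_compl
    (hnd : ∀ a ∈ alg Γ, (∀ b ∈ alg Γ, LinearMap.trace F U (a * b) = 0) → a = 0)
    (W : Submodule F U) (hW : ∀ γ ∈ Γ, ∀ w ∈ W, (γ : U ≃ₗ[F] U) w ∈ W) :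
    ∃ W' : Submodule F U, (∀ γ ∈ Γ, ∀ w ∈ W', (γ : U ≃ₗ[F] U) w ∈ W') ∧ IsCompl W W' := by
  haveI : Module.Finite F (alg Γ) :=
    inferInstanceAs (Module.Finite F (Subalgebra.toSubmodule (alg Γ)))
  haveI : IsArtinianRing (alg Γ) := IsArtinianRing.of_finite F (alg Γ)
  have hJ : Ring.jacobson (alg Γ) = ⊥ := by
    rw [eq_bot_iff]
    intro a ha
    rw [Submodule.mem_bot]
    apply Subtype.ext
    refine hnd a.1 a.2 (fun b hb => ?_)
    have h1 : a * ⟨b, hb⟩ ∈ Ring.jacobson (alg Γ) :=
      Ideal.IsTwoSided.mul_mem_of_left _ ha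
    obtain ⟨n, hn⟩ := (inferInstance : IsSemiprimaryRing (alg Γ)).isNilpotent
    have h2 : (a * ⟨b, hb⟩) ^ n ∈ Ring.jacobson (alg Γ) ^ n := Ideal.pow_mem_pow h1 n
    rw [hn] at h2
    have h3 : (a * ⟨b, hb⟩) ^ n = 0 := by simpa using h2
    have h4 : (a.1 * b) ^ n = 0 := by
      have h5 := congrArg (Subtype.val) h3
      exact h5
    have h6 : IsNilpotent (LinearMap.trace F U (a.1 * b)) :=
      LinearMap.isNilpotent_trace_of_isNilpotent ⟨n, h4⟩
    exact h6.eq_zero
  haveI : IsSemisimpleRing (alg Γ) := IsArtinianRing.isSemisimpleRing_iff_jacobson.2 hJ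
  let W0 : Submodule (alg Γ) U :=
    { carrier := W
      add_mem' := fun h1 h2 => W.add_mem h1 h2
      zero_mem' := W.zero_mem
      smul_mem' := fun a w hw => alg_stab hW a.2 w hw }
  obtain ⟨W1, hc⟩ := exists_isCompl W0
  let W' : Submodule F U :=
    { carrier := W1
      add_mem' := fun h1 h2 => W1.add_mem h1 h2
      zero_mem' := W1.zero_mem
      smul_mem' := fun c w hw => W1.smul_mem (algebraMap F (alg Γ) c) hw }
  refine ⟨W', ?_, ?_⟩
  · intro γ hγ w hw
    have h1 : ((γ : U ≃ₗ[F] U) : Module.End F U) ∈ alg Γ :=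
      Algebra.subset_adjoin ⟨γ, hγ, rfl⟩
    exact W1.smul_mem (⟨_, h1⟩ : alg Γ) hw
  constructor
  · rw [Submodule.disjoint_def]
    intro x hx hx'
    exact Submodule.disjoint_def.1 hc.disjoint x hx hx'
  · rw [Submodule.codisjoint_iff_exists_add_eq]
    intro z
    obtain ⟨x, y, hx, hy, hxy⟩ := Submodule.codisjoint_iff_exists_add_eq.1 hc.codisjoint z
    exact ⟨x, y, hx, hy, hxy⟩

end Fi

variable {E : Type*} [Field E] {V : Type*} [AddCommGroup V] [Module E V]
  [FiniteDimensional E V] {Γ : Subgroup (V ≃ₗ[E] V)}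

/-- the trace form on the algebra of the extended group is nondegenerate -/
theorem bcs_nondegK
    (hnd : ∀ a ∈ alg Γ, (∀ b ∈ alg Γ, LinearMap.trace E V (a * b) = 0) → a = 0)
    (K : Type*) [Field K] [Algebra E K] :
    ∀ a ∈ alg (Γ.map (bcE K)), (∀ b ∈ alg (Γ.map (bcE K)),
      LinearMap.trace K (K ⊗[E] V) (a * b) = 0) → a = 0 := by
  classical
  haveI : Module.Finite E (alg Γ) :=
    inferInstanceAs (Module.Finite E (Subalgebra.toSubmodule (alg Γ)))
  let B : (alg Γ) →ₗ[E] Module.Dual E (alg Γ) :=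
    LinearMap.mk₂ E (fun a b => LinearMap.trace E V (a.1 * b.1))
      (fun a a' b => by
        change LinearMap.trace E V ((a.1 + a'.1) * b.1) = _
        rw [add_mul, map_add])
      (fun c a b => by
        change LinearMap.trace E V ((c • a.1) * b.1) = _
        rw [smul_mul_assoc, map_smul])
      (fun a b b' => by
        change LinearMap.trace E V (a.1 * (b.1 + b'.1)) = _
        rw [mul_add, map_add])
      (fun c a b => by
        change LinearMap.trace E V (a.1 * (c • b.1)) = _
        rw [mul_smul_comm, map_smul])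
  have hB : ∀ a b : alg Γ, B a b = LinearMap.trace E V (a.1 * b.1) := fun _ _ => rfl
  have hinj : Function.Injective B := by
    rw [injective_iff_map_eq_zero]
    intro a ha
    apply Subtype.ext
    refine hnd a.1 a.2 (fun b hb => ?_)
    have h1 := congrArg (fun f : Module.Dual E (alg Γ) => f ⟨b, hb⟩) ha
    exact h1
  have hsurj : Function.Surjective B :=
    (LinearMap.injective_iff_surjective_of_finrank_eq_finrank
      (Subspace.dual_finrank_eq (K := E) (V := alg Γ)).symm).1 hinj
  let b := Module.finBasis E (alg Γ)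
  choose d hd using fun i => hsurj (b.coord i)
  have hdb : ∀ i j, LinearMap.trace E V ((d i).1 * (b j).1) = if j = i then 1 else 0 := by
    intro i j
    rw [← hB, hd, Module.Basis.coord_apply, Module.Basis.repr_self, Finsupp.single_apply]
  -- base change of `alg Γ`
  have hbc : ∀ f ∈ alg Γ, f.baseChange K ∈ alg (Γ.map (bcE K)) := by
    intro f hf
    rw [mem_alg] at hf
    induction hf using Submodule.span_induction with
    | mem x hx =>
      obtain ⟨γ, hγ, rfl⟩ := hx
      exact Algebra.subset_adjoin ⟨bcE K γ, ⟨γ, hγ, rfl⟩, rfl⟩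
    | zero =>
      rw [LinearMap.baseChange_zero]
      exact Subalgebra.zero_mem _
    | add x y _ _ hx hy =>
      rw [LinearMap.baseChange_add]
      exact Subalgebra.add_mem _ hx hy
    | smul c x _ hx =>
      rw [LinearMap.baseChange_smul, ← algebraMap_smul K c]
      exact Subalgebra.smul_mem _ hx _
  -- the algebra is in the span of the base changed basis
  have hsp : ∀ f ∈ alg (Γ.map (bcE K)), f ∈ Submodule.span K
      (Set.range (fun i => ((b i).1).baseChange K)) := by
    intro f hf
    rw [mem_alg] at hf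
    refine Submodule.span_le.2 ?_ hf
    rintro x ⟨_, ⟨γ, hγ, rfl⟩, rfl⟩
    have h1 : ((γ : V ≃ₗ[E] V) : Module.End E V) ∈ alg Γ :=
      Algebra.subset_adjoin ⟨γ, hγ, rfl⟩
    have h2 : ((γ : V ≃ₗ[E] V) : Module.End E V) =
        ∑ i, b.repr ⟨_, h1⟩ i • (b i).1 := by
      have h3 := b.sum_repr (⟨_, h1⟩ : alg Γ)
      have h4 := congrArg (alg Γ).val h3
      rw [map_sum] at h4
      simp only [map_smul] at h4
      exact h4.symm
    have h5 : (((bcE K γ : K ⊗[E] V ≃ₗ[K] K ⊗[E] V)) : Module.End K (K ⊗[E] V)) =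
        ∑ i, algebraMap E K (b.repr ⟨_, h1⟩ i) • ((b i).1).baseChange K := by
      have h6 : (((bcE K γ : K ⊗[E] V ≃ₗ[K] K ⊗[E] V)) : Module.End K (K ⊗[E] V)) =
          ((γ : V ≃ₗ[E] V) : Module.End E V).baseChange K := rfl
      have h7 : ∀ s : Finset (Fin (Module.finrank E (alg Γ))),
          (∑ i ∈ s, b.repr ⟨_, h1⟩ i • (b i).1).baseChange K =
          ∑ i ∈ s, algebraMap E K (b.repr ⟨_, h1⟩ i) • ((b i).1).baseChange K := by
        intro s
        induction s using Finset.induction_on with
        | empty => rw [Finset.sum_empty, Finset.sum_empty, LinearMap.baseChange_zero]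
        | insert i s hi ih =>
          rw [Finset.sum_insert hi, Finset.sum_insert hi, LinearMap.baseChange_add, ih,
            LinearMap.baseChange_smul, algebraMap_smul]
      exact h6.trans ((congrArg (fun g : Module.End E V => g.baseChange K) h2).trans (h7 _))
    change (((bcE K γ : K ⊗[E] V ≃ₗ[K] K ⊗[E] V)) : Module.End K (K ⊗[E] V)) ∈ Submodule.span K
      (Set.range (fun i => ((b i).1).baseChange K))
    rw [h5]
    exact Submodule.sum_mem _ (fun i _ => Submodule.smul_mem _ _
      (Submodule.subset_span ⟨i, rfl⟩))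
  intro a ha h0
  obtain ⟨k, hk⟩ := (Submodule.mem_span_range_iff_exists_fun K).1 (hsp a ha)
  have hk0 : ∀ i, k i = 0 := by
    intro i
    have h1 := h0 _ (hbc (d i).1 (d i).2)
    rw [LinearMap.trace_mul_comm, ← hk, Finset.mul_sum, map_sum] at h1
    have h2 : ∀ j, LinearMap.trace K (K ⊗[E] V)
        (((d i).1).baseChange K * (k j • ((b j).1).baseChange K)) =
        if j = i then k j else 0 := by
      intro j
      have h3 : ((d i).1).baseChange K * ((b j).1).baseChange K =
          ((d i).1 * (b j).1).baseChange K := by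
        rw [Module.End.mul_eq_comp, Module.End.mul_eq_comp, LinearMap.baseChange_comp]
      rw [mul_smul_comm, map_smul, h3, LinearMap.trace_baseChange, hdb]
      split_ifs <;> simp
    rw [Finset.sum_congr rfl (fun j _ => h2 j), Finset.sum_ite_eq' Finset.univ i k,
      if_pos (Finset.mem_univ i)] at h1
    exact h1
  rw [← hk]
  simp [hk0]

/-- stable complements over the larger field, from the trace form over the small one -/
theorem bcs_of_nondeg
    (hnd : ∀ a ∈ alg Γ, (∀ b ∈ alg Γ, LinearMap.trace E V (a * b) = 0) → a = 0)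
    (K : Type*) [Field K] [Algebra E K] (W : Submodule K (K ⊗[E] V))
    (hW : ∀ γ ∈ Γ.map (bcE K), ∀ w ∈ W, (γ : K ⊗[E] V ≃ₗ[K] K ⊗[E] V) w ∈ W) :
    ∃ W' : Submodule K (K ⊗[E] V), (∀ γ ∈ Γ.map (bcE K), ∀ w ∈ W',
      (γ : K ⊗[E] V ≃ₗ[K] K ⊗[E] V) w ∈ W') ∧ IsCompl W W' :=
  bcs_compl (bcs_nondegK hnd K) W hW

end Pool.Agent.H91U
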