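import Pool.Agent.H91U.Basic

/-! Linear blocks: `A` and `B` isotropic and paired by the form.

PROOF. Let `A₀` be the set of the `a ∈ A` with `ψ a f = 0`, so `A = K e ⊕ A₀`. For `u ∈ A`, `w ∈ B`
with `ψ w u = 0` the element `1 + s • ZZ ψ u w` is in the closure and acts on `A` as
`a ↦ a - (s * ψ w a) • u`. Let `F` be the set of the vectors of `A₀` that are fixed by `g`. If
`F ≠ A₀`, take `a ∈ A₀` outside `F`; at most two such elements map `g a` to `a` (over `e` if
`g a ∈ A₀`) and fix `F`. If `F = A₀`, one more such element gives `g e = c • e`, and then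
`g = tor ψ e f c` on `A`, hence everywhere. -/

set_option linter.unusedSectionVars false

namespace Pool.Agent.H91U

open Pool.Agent.H91.Mono Pool.Agent.H91S

variable {K V : Type*} [Field K] [CharZero K] [AddCommGroup V] [Module K V]
  [FiniteDimensional K V] {ψ : V →ₗ[K] V →ₗ[K] K} {Γ : Subgroup (V ≃ₗ[K] V)} {e f : V}

/-- isometries that preserve `A` and `B` and are the identity on the orthogonal complement -/
structure BlkGlP (ψ : V →ₗ[K] V →ₗ[K] K) (A B : Submodule K V) (t : Module.End K V) : Prop where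
  iso : ∀ x y, ψ (t x) (t y) = ψ x y
  a : ∀ v ∈ A, t v ∈ A
  b : ∀ v ∈ B, t v ∈ B
  n : ∀ v ∈ perp ψ (A ⊔ B), t v = v

lemma BlkGlP.mul {A B : Submodule K V} {t t' : Module.End K V} (h : BlkGlP ψ A B t)
    (h' : BlkGlP ψ A B t') : BlkGlP ψ A B (t * t') where
  iso x y := by rw [Module.End.mul_apply, Module.End.mul_apply, h.iso, h'.iso]
  a v hv := h.a _ (h'.a v hv)
  b v hv := h.b _ (h'.b v hv)
  n v hv := by rw [Module.End.mul_apply, h'.n v hv, h.n v hv]

/-- transvections -/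
lemma BlkGl_tv (hc : Ctx ψ Γ) {A B : Submodule K V}
    (hAA : ∀ u ∈ A, ∀ u' ∈ A, ψ u u' = 0) (hBB : ∀ w ∈ B, ∀ w' ∈ B, ψ w w' = 0)
    (hz : ∀ u ∈ A, ∀ w ∈ B, ZZ ψ u w ∈ lie Γ)
    {u w : V} (hu : u ∈ A) (hw : w ∈ B) (hwu : ψ w u = 0) (s : K) :
    ∃ t t' : Module.End K V, BlkGlP ψ A B t ∧ InCl Γ t' ∧ t' * t = 1 ∧
      ∀ v ∈ A, t v = v - (s * ψ w v) • u := by
  obtain ⟨ε, hε, hsym⟩ := hc.exists_eps
  have huw : ψ u w = 0 := (hc.swap u w).2 hwu
  have huu := hAA u hu u hu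
  have hww := hBB w hw w hw
  set x := ZZ ψ u w with hx
  have hxa : ∀ v, x v = ψ v u • w - ψ w v • u := fun v => ZZ_apply u w v
  have hxx : x * x = 0 := by
    ext v
    rw [Module.End.mul_apply, hxa (x v), hxa v]
    simp only [map_sub, map_smul, LinearMap.sub_apply, LinearMap.smul_apply, smul_eq_mul, hwu, huu,
      hww, mul_zero, sub_zero, zero_smul, LinearMap.zero_apply]
  have hcl : ∀ r : K, InCl Γ (1 + r • x) := by
    intro r
    have h := inCl_exp (hz u hu w hw) (by rw [← hx, hxx, zero_mul]) r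
    rw [← hx, hxx, smul_zero, add_zero] at h
    exact h
  have hta : ∀ v, (1 + s • x) v = v + s • (ψ v u • w - ψ w v • u) := by
    intro v
    rw [LinearMap.add_apply, LinearMap.smul_apply, hxa, Module.End.one_apply]
  refine ⟨1 + s • x, 1 + (-s) • x, ⟨?_, ?_, ?_, ?_⟩, hcl _, ?_, ?_⟩
  · intro v v'
    rw [hta, hta]
    simp only [map_add, map_sub, map_smul, LinearMap.sub_apply, LinearMap.smul_apply,
      LinearMap.add_apply, smul_eq_mul, hwu, huw, huu, hww, mul_zero, sub_zero]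
    have e1 : ψ v' u = ε * ψ u v' := hsym u v'
    have e2 : ψ v w = ε * ψ w v := hsym w v
    rw [e1, e2]
    linear_combination (s * ψ u v' * ψ w v) * hε
  · intro v hv
    rw [hta, hAA v hv u hu, zero_smul, zero_sub]
    exact A.add_mem hv (A.smul_mem _ (A.neg_mem (A.smul_mem _ hu)))
  · intro v hv
    rw [hta, hBB w hw v hv, zero_smul, sub_zero]
    exact B.add_mem hv (B.smul_mem _ (B.smul_mem _ hw))
  · intro v hv
    have h1 : ψ v u = 0 := hv u (Submodule.mem_sup_left hu)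
    have h2 : ψ w v = 0 := (hc.swap w v).2 (hv w (Submodule.mem_sup_right hw))
    rw [hta, h1, h2, zero_smul, zero_smul, sub_zero, smul_zero, add_zero]
  · rw [add_mul, one_mul, mul_add, mul_one, smul_mul_smul_comm, hxx, smul_zero, add_zero, neg_smul]
    abel
  · intro v hv
    rw [hta, hAA v hv u hu, zero_smul, zero_sub, smul_neg, smul_smul, sub_eq_add_neg]

/-- functionals on `A` are given by `B` -/
lemma BlkGl_sep (hc : Ctx ψ Γ) {A B : Submodule K V}
    (hA : ∀ u ∈ A, (∀ w ∈ B, ψ u w = 0) → u = 0) (hB : ∀ w ∈ B, (∀ u ∈ A, ψ u w = 0) → w = 0)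
    (F : Submodule K V) {x : V} (hxA : x ∈ A) (hx : x ∉ F) :
    ∃ w ∈ B, (∀ v ∈ A, v ∈ F → ψ w v = 0) ∧ ψ w x ≠ 0 := by
  set Φ : B →ₗ[K] Module.Dual K A := ψ.domRestrict₁₂ B A with hΦ
  set Ψ : A →ₗ[K] Module.Dual K B := ψ.domRestrict₁₂ A B with hΨ
  have hΦi : Function.Injective Φ := by
    rw [← LinearMap.ker_eq_bot, LinearMap.ker_eq_bot']
    intro w hw
    apply Subtype.ext
    apply hB w w.2
    intro u hu
    rw [hc.swap]
    exact LinearMap.congr_fun hw ⟨u, hu⟩
  have hΨi : Function.Injective Ψ := by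
    rw [← LinearMap.ker_eq_bot, LinearMap.ker_eq_bot']
    intro u hu
    apply Subtype.ext
    apply hA u u.2
    intro w hw
    exact LinearMap.congr_fun hu ⟨w, hw⟩
  have h1 := LinearMap.finrank_le_finrank_of_injective hΦi
  have h2 := LinearMap.finrank_le_finrank_of_injective hΨi
  rw [Subspace.dual_finrank_eq] at h1 h2
  have h3 : Module.finrank K B = Module.finrank K (Module.Dual K A) := by
    rw [Subspace.dual_finrank_eq]
    exact le_antisymm h1 h2
  have hΦs := (LinearMap.injective_iff_surjective_of_finrank_eq_finrank h3).1 hΦi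
  obtain ⟨φ, hφ, hφF⟩ := F.exists_le_ker_of_notMem hx
  obtain ⟨w, hw⟩ := hΦs (φ.comp A.subtype)
  have h4 : ∀ v ∈ A, ψ w v = φ v := fun v hv => LinearMap.congr_fun hw ⟨v, hv⟩
  refine ⟨w, w.2, fun v hv hvF => ?_, ?_⟩
  · rw [h4 v hv]
    exact hφF hvF
  · rw [h4 x hxA]
    exact hφ

lemma BlkGl_red {t t' g : Module.End K V} (ht' : InCl Γ t') (h : t' * t = 1)
    (hg : InCl Γ (t * g)) : InCl Γ g := by
  have h1 : g = t' * (t * g) := by rw [← mul_assoc, h, one_mul]
  rw [h1]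
  exact inCl_mul ht' hg

/-- an isometry that is the identity on `A` is the identity -/
lemma BlkGl_one {A B : Submodule K V}
    (hB : ∀ w ∈ B, (∀ u ∈ A, ψ u w = 0) → w = 0)
    (hcompl : IsCompl (A ⊔ B) (perp ψ (A ⊔ B))) {g : Module.End K V} (hg : BlkGlP ψ A B g)
    (h1 : ∀ v ∈ A, g v = v) : g = 1 := by
  have h2 : ∀ w ∈ B, g w = w := by
    intro w hw
    rw [← sub_eq_zero]
    apply hB _ (B.sub_mem (hg.b w hw) hw)
    intro u hu
    rw [map_sub, sub_eq_zero]
    conv_lhs => rw [← h1 u hu]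
    exact hg.iso u w
  have h3 : (⊤ : Submodule K V) ≤ LinearMap.ker (g - 1) := by
    rw [← hcompl.sup_eq_top]
    refine sup_le (sup_le ?_ ?_) ?_
    · intro v hv
      rw [LinearMap.mem_ker, LinearMap.sub_apply, Module.End.one_apply, h1 v hv, sub_self]
    · intro v hv
      rw [LinearMap.mem_ker, LinearMap.sub_apply, Module.End.one_apply, h2 v hv, sub_self]
    · intro v hv
      rw [LinearMap.mem_ker, LinearMap.sub_apply, Module.End.one_apply, hg.n v hv, sub_self]
  ext v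
  have h4 := h3 (Submodule.mem_top (x := v))
  rw [LinearMap.mem_ker, LinearMap.sub_apply, Module.End.one_apply, sub_eq_zero] at h4
  rw [h4, Module.End.one_apply]

/-- the torus -/
lemma BlkGl_tor (hc : Ctx ψ Γ) (h : Pair ψ Γ e f) {A B : Submodule K V} (heA : e ∈ A)
    (hfB : f ∈ B) (hAA : ∀ u ∈ A, ∀ u' ∈ A, ψ u u' = 0) (hBB : ∀ w ∈ B, ∀ w' ∈ B, ψ w w' = 0)
    {t : K} (ht : t ≠ 0) : BlkGlP ψ A B (tor ψ e f t) := by
  obtain ⟨ε, hε, hsym⟩ := hc.exists_eps
  have hε0 : ε ≠ 0 := by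
    rintro rfl
    norm_num at hε
  have hef := h.ef
  refine ⟨?_, ?_, ?_, ?_⟩
  · intro v v'
    rw [tor_apply, tor_apply]
    simp only [map_add, map_smul, LinearMap.smul_apply, LinearMap.add_apply, smul_eq_mul, h.ee,
      h.ff, mul_zero, add_zero]
    have e1 : ψ e v' = ε * ψ v' e := hsym v' e
    have e2 : ψ f v' = ε * ψ v' f := hsym v' f
    have e3 : ψ f e = ε * ψ e f := hsym e f
    rw [e1, e2, e3]
    have hi : ε⁻¹ = ε := by
      field_simp
      exact hε.symm
    rw [mul_inv, hi]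
    field_simp
    linear_combination ((t - t ^ 2) * ψ v e * ψ v' f) * hε
  · intro v hv
    rw [tor_apply, hAA v hv e heA, mul_zero, zero_smul, add_zero]
    exact A.add_mem hv (A.smul_mem _ heA)
  · intro v hv
    rw [tor_apply, hBB v hv f hfB, mul_zero, zero_smul, add_zero]
    exact B.add_mem hv (B.smul_mem _ hfB)
  · intro v hv
    rw [tor_apply, hv e (Submodule.mem_sup_left heA), hv f (Submodule.mem_sup_right hfB), mul_zero,
      mul_zero, zero_smul, zero_smul, add_zero, add_zero]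

lemma BlkGl_tor_mul (h : Pair ψ Γ e f) {t : K} (ht : t ≠ 0) :
    tor ψ e f t * tor ψ e f t⁻¹ = 1 := by
  ext v
  have hef := h.ef
  have hfe := h.fe
  rw [Module.End.mul_apply, Module.End.one_apply, tor_apply, tor_apply]
  simp only [map_add, map_smul, LinearMap.smul_apply, LinearMap.add_apply, smul_eq_mul, h.ee,
      h.ff, mul_zero, add_zero, inv_inv]
  match_scalars
  · ring
  · field_simp
    ring
  · field_simp
    ring

theorem blk_gl (hc : Ctx ψ Γ) (h : Pair ψ Γ e f) (A B : Submodule K V) (heA : e ∈ A)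
    (hfB : f ∈ B) (hAA : ∀ u ∈ A, ∀ u' ∈ A, ψ u u' = 0) (hBB : ∀ w ∈ B, ∀ w' ∈ B, ψ w w' = 0)
    (hA : ∀ u ∈ A, (∀ w ∈ B, ψ u w = 0) → u = 0) (hB : ∀ w ∈ B, (∀ u ∈ A, ψ u w = 0) → w = 0)
    (hcompl : IsCompl (A ⊔ B) (perp ψ (A ⊔ B)))
    (hz : ∀ u ∈ A, ∀ w ∈ B, ZZ ψ u w ∈ lie Γ)
    (g : Module.End K V) (hg : ∀ x y, ψ (g x) (g y) = ψ x y) (hgA : ∀ v ∈ A, g v ∈ A)
    (hgB : ∀ v ∈ B, g v ∈ B) (hgN : ∀ v ∈ perp ψ (A ⊔ B), g v = v) : InCl Γ g := by
  have hP : BlkGlP ψ A B g := ⟨hg, hgA, hgB, hgN⟩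
  clear hg hgA hgB hgN
  set A₀ : Submodule K V := A ⊓ LinearMap.ker (ψ.flip f) with hA₀
  have hmem : ∀ v, v ∈ A₀ ↔ v ∈ A ∧ ψ v f = 0 := by
    intro v
    rw [hA₀, Submodule.mem_inf, LinearMap.mem_ker, LinearMap.flip_apply]
  have hinj : ∀ g : Module.End K V, BlkGlP ψ A B g → ∀ v ∈ A, g v = 0 → v = 0 := by
    intro g hP v hv h0
    apply hA v hv
    intro w _
    rw [← hP.iso, h0, map_zero, LinearMap.zero_apply]
  -- one move
  have hmove : ∀ (F : Submodule K V), (∀ v ∈ F, v ∈ A₀) → ∀ x ∈ A₀, x ∉ F → ∀ y ∈ A, ψ y f ≠ 0 →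
      (∃ t t' : Module.End K V, BlkGlP ψ A B t ∧ InCl Γ t' ∧ t' * t = 1 ∧ t x = y ∧
        ∀ v ∈ F, t v = v) ∧
      (∃ t t' : Module.End K V, BlkGlP ψ A B t ∧ InCl Γ t' ∧ t' * t = 1 ∧ t y = x ∧
        ∀ v ∈ F, t v = v) := by
    intro F hF x hx hxF y hy hyf
    obtain ⟨hxA, hxf⟩ := (hmem x).1 hx
    obtain ⟨w₀, hw₀, hwF, hwx⟩ := BlkGl_sep hc hA hB F hxA hxF
    have hfy : ψ f y ≠ 0 := fun h0 => hyf ((hc.swap f y).1 h0)
    have hfx : ψ f x = 0 := (hc.swap x f).1 hxf
    set k := (ψ w₀ x - ψ w₀ y) * (ψ f y)⁻¹ with hk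
    set w := w₀ + k • f with hw
    have hwB : w ∈ B := B.add_mem hw₀ (B.smul_mem _ hfB)
    have e1 : ψ w x = ψ w₀ x := by
      rw [hw, map_add, map_smul, LinearMap.add_apply, LinearMap.smul_apply, hfx, smul_zero,
        add_zero]
    have e2 : ψ w y = ψ w₀ x := by
      rw [hw, map_add, map_smul, LinearMap.add_apply, LinearMap.smul_apply, hk, smul_eq_mul,
        mul_assoc, inv_mul_cancel₀ hfy, mul_one]
      ring
    have e3 : ∀ v ∈ F, ψ w v = 0 := by
      intro v hv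
      obtain ⟨h1, h2⟩ := (hmem v).1 (hF v hv)
      rw [hw, map_add, map_smul, LinearMap.add_apply, LinearMap.smul_apply, hwF v h1 hv,
        (hc.swap v f).1 h2, smul_zero, add_zero]
    constructor
    · obtain ⟨t, t', ht, ht', htt, hta⟩ := BlkGl_tv hc hAA hBB hz (A.sub_mem hxA hy) hwB
        (by rw [map_sub, e1, e2, sub_self]) (ψ w₀ x)⁻¹
      refine ⟨t, t', ht, ht', htt, ?_, fun v hv => ?_⟩
      · rw [hta x hxA, e1, inv_mul_cancel₀ hwx, one_smul]
        abel
      · rw [hta v ((hmem v).1 (hF v hv)).1, e3 v hv, mul_zero, zero_smul, sub_zero]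
    · obtain ⟨t, t', ht, ht', htt, hta⟩ := BlkGl_tv hc hAA hBB hz (A.sub_mem hy hxA) hwB
        (by rw [map_sub, e1, e2, sub_self]) (ψ w₀ x)⁻¹
      refine ⟨t, t', ht, ht', htt, ?_, fun v hv => ?_⟩
      · rw [hta y hy, e2, inv_mul_cancel₀ hwx, one_smul]
        abel
      · rw [hta v ((hmem v).1 (hF v hv)).1, e3 v hv, mul_zero, zero_smul, sub_zero]
  induction hd : Module.finrank K A₀ - Module.finrank K (A₀ ⊓ LinearMap.ker (g - 1) :
      Submodule K V) using Nat.strong_induction_on generalizing g with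
  | _ n ih =>
  set F : Submodule K V := A₀ ⊓ LinearMap.ker (g - 1) with hF
  have hFm : ∀ v, v ∈ F ↔ v ∈ A₀ ∧ g v = v := by
    intro v
    rw [hF, Submodule.mem_inf, LinearMap.mem_ker, LinearMap.sub_apply, Module.End.one_apply,
      sub_eq_zero]
  by_cases hall : ∀ v ∈ A₀, g v = v
  · -- the last step
    have hge : g e ∈ A := hP.a e heA
    set c := ψ (g e) f * (ψ e f)⁻¹ with hcc
    have hc1 : c * ψ e f = ψ (g e) f := by
      rw [hcc, mul_assoc, inv_mul_cancel₀ h.ef, mul_one]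
    set a₀ := g e - c • e with ha₀
    have ha₀m : a₀ ∈ A₀ := by
      rw [hmem]
      refine ⟨A.sub_mem hge (A.smul_mem _ heA), ?_⟩
      rw [ha₀, map_sub, map_smul, LinearMap.sub_apply, LinearMap.smul_apply, smul_eq_mul, hc1,
        sub_self]
    have hc0 : c ≠ 0 := by
      intro h0
      have h1 : g e = a₀ := by rw [ha₀, h0, zero_smul, sub_zero]
      have h2 : g (e - a₀) = 0 := by
        rw [map_sub, hall a₀ ha₀m, h1, sub_self]
      have h3 := hinj g hP _ (A.sub_mem heA ((hmem _).1 ha₀m).1) h2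
      rw [sub_eq_zero] at h3
      apply h.ef
      rw [h3]
      exact ((hmem _).1 ha₀m).2
    have hfa : ψ f a₀ = 0 := (hc.swap _ _).1 ((hmem _).1 ha₀m).2
    have hfg : ψ f (g e) = c * ψ f e := by
      have h1 : g e = a₀ + c • e := by rw [ha₀]; abel
      rw [h1, map_add, map_smul, hfa, zero_add, smul_eq_mul]
    obtain ⟨t, t', ht, ht', htt, hta⟩ := BlkGl_tv hc hAA hBB hz ((hmem _).1 ha₀m).1 hfB hfa
      (c * ψ f e)⁻¹
    apply BlkGl_red ht' htt
    have h1 : t (g e) = c • e := by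
      rw [hta _ hge, hfg, inv_mul_cancel₀ (mul_ne_zero hc0 h.fe), one_smul, ha₀]
      abel
    have h2 : ∀ v ∈ A₀, t (g v) = v := by
      intro v hv
      rw [hall v hv, hta v ((hmem _).1 hv).1, (hc.swap v f).1 ((hmem _).1 hv).2, mul_zero,
        zero_smul, sub_zero]
    have hci : c⁻¹ ≠ 0 := inv_ne_zero hc0
    apply BlkGl_red (h.tt c hc0) (BlkGl_tor_mul h hc0)
    have h3 : BlkGlP ψ A B (tor ψ e f c⁻¹ * (t * g)) :=
      (BlkGl_tor hc h heA hfB hAA hBB hci).mul (ht.mul hP)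
    have h4 : tor ψ e f c⁻¹ * (t * g) = 1 := by
      apply BlkGl_one hB hcompl h3
      have h5 : ∀ v ∈ A₀, (tor ψ e f c⁻¹ * (t * g)) v = v := by
        intro v hv
        rw [Module.End.mul_apply, Module.End.mul_apply, h2 v hv, tor_apply,
          ((hmem _).1 hv).2, hAA v ((hmem _).1 hv).1 e heA, mul_zero, mul_zero, zero_smul,
          zero_smul, add_zero, add_zero]
      have h6 : (tor ψ e f c⁻¹ * (t * g)) e = e := by
        rw [Module.End.mul_apply, Module.End.mul_apply, h1, map_smul, tor_apply, h.ee, mul_zero,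
          zero_smul, add_zero, mul_assoc, inv_mul_cancel₀ h.ef, mul_one, sub_smul, one_smul,
          add_sub_cancel, smul_smul, mul_inv_cancel₀ hc0, one_smul]
      intro v hv
      have h7 : v - (ψ v f * (ψ e f)⁻¹) • e ∈ A₀ := by
        rw [hmem]
        refine ⟨A.sub_mem hv (A.smul_mem _ heA), ?_⟩
        rw [map_sub, map_smul, LinearMap.sub_apply, LinearMap.smul_apply, smul_eq_mul, mul_assoc,
          inv_mul_cancel₀ h.ef, mul_one, sub_self]
      have h8 := h5 _ h7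
      rw [map_sub, map_smul, h6] at h8
      exact sub_left_injective h8
    rw [h4]
    exact inCl_one
  · push Not at hall
    obtain ⟨a, ha, hga⟩ := hall
    have haF : a ∉ F := fun h0 => hga ((hFm a).1 h0).2
    have haA := ((hmem a).1 ha).1
    have hFA : ∀ v ∈ F, v ∈ A₀ := fun v hv => ((hFm v).1 hv).1
    -- enough: a move that fixes F and maps g a to a
    have hstep : ∀ g' : Module.End K V, BlkGlP ψ A B g' → (∀ v ∈ F, g' v = v) → g' a = a →
        InCl Γ g' := by
      intro g' hP' hF' ha'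
      refine ih (Module.finrank K A₀ - Module.finrank K (A₀ ⊓ LinearMap.ker (g' - 1) :
        Submodule K V)) ?_ g' hP' rfl
      have hlt : F < A₀ ⊓ LinearMap.ker (g' - 1) := by
        refine lt_of_le_of_ne ?_ ?_
        · intro v hv
          rw [Submodule.mem_inf, LinearMap.mem_ker, LinearMap.sub_apply, Module.End.one_apply,
            sub_eq_zero]
          exact ⟨hFA v hv, hF' v hv⟩
        · intro h0
          apply haF
          rw [h0, Submodule.mem_inf, LinearMap.mem_ker, LinearMap.sub_apply,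
            Module.End.one_apply, sub_eq_zero]
          exact ⟨ha, ha'⟩
      have h1 := Submodule.finrank_lt_finrank_of_lt hlt
      have h2 : Module.finrank K (A₀ ⊓ LinearMap.ker (g' - 1) : Submodule K V) ≤
          Module.finrank K A₀ := Submodule.finrank_mono inf_le_left
      omega
    have hgF : ∀ v ∈ F, g v = v := fun v hv => ((hFm v).1 hv).2
    by_cases hb : ψ (g a) f = 0
    · have hgaA₀ : g a ∈ A₀ := (hmem _).2 ⟨hP.a a haA, hb⟩
      have hgaF : g a ∉ F := by
        intro h0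
        have h1 := hgF _ h0
        have h2 : g (g a - a) = 0 := by rw [map_sub, h1, sub_self]
        have h3 := hinj g hP _ (A.sub_mem (hP.a a haA) haA) h2
        exact hga (sub_eq_zero.1 h3)
      obtain ⟨⟨t, t', ht, ht', htt, hta, htF⟩, -⟩ := hmove F hFA (g a) hgaA₀ hgaF e heA h.ef
      obtain ⟨-, ⟨r, r', hr, hr', hrr, hra, hrF⟩⟩ := hmove F hFA a ha haF e heA h.ef
      apply BlkGl_red ht' htt
      apply BlkGl_red hr' hrr
      apply hstep _ (hr.mul (ht.mul hP))
      · intro v hv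
        rw [Module.End.mul_apply, Module.End.mul_apply, hgF v hv, htF v hv, hrF v hv]
      · rw [Module.End.mul_apply, Module.End.mul_apply, hta, hra]
    · obtain ⟨-, ⟨r, r', hr, hr', hrr, hra, hrF⟩⟩ := hmove F hFA a ha haF (g a) (hP.a a haA) hb
      apply BlkGl_red hr' hrr
      apply hstep _ (hr.mul hP)
      · intro v hv
        rw [Module.End.mul_apply, hgF v hv, hrF v hv]
      · rw [Module.End.mul_apply, hra]

end Pool.Agent.H91U
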