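import Pool.Agent.H91U.Basic
import Pool.Agent.H91S.GenSo

/-! Orthogonal blocks.

PROOF of `blk_so`. `A` is nondegenerate, so `IsCompl A (perp ψ A)`; let `π` be the projection onto `A`
along `perp ψ A`, and `ext s v = s (π v) + (v - π v)` for `s : Module.End K A`. Apply `gen_so` to the space
`A` with the restricted form (`ψ.domRestrict₁₂ A A` or `(ψ.domRestrict A).compl ..`), the submonoid
`{s | InCl Γ (ext s)}` (`ext` is multiplicative: `inCl_mul`, `inCl_one`), and the restriction of `g` to `A`
(`g = ext (restriction)`, so the determinants agree: `LinearMap.det_eq..` block form, or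
`LinearMap.det` of a direct sum). The elements `EE` of `A` extend to the `EE` of `V`, which are in the
closure by `hz` and `inCl_exp` as in `symK` (`H91S/Main.lean`: `inCl_exp (hall e w) (XX_cube ..) 1`).
PROOF of `three_le`. `e`, `f` are linearly independent. If `finrank A ≤ 2` then `A = K e + K f`, and
`K e` is `Stab`: for `x ∈ lie Γ`, `ψ (x e) e = 0` (`hc.skew` with `ψ e e = 0`, symmetry, char 0), and
`x e = α e + β f` gives `β ψ f e = 0`. So `A ≤ K e ∌ f` (`hmin`). -/

set_option linter.unusedSectionVars false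

namespace Pool.Agent.H91U

open Pool.Agent.H91.Mono Pool.Agent.H91S Pool.Agent.H91O

variable {K V : Type*} [Field K] [CharZero K] [AddCommGroup V] [Module K V]
  [FiniteDimensional K V] {ψ : V →ₗ[K] V →ₗ[K] K} {Γ : Subgroup (V ≃ₗ[K] V)} {e f : V}

/-- `s` on `A` and the identity on `N` -/
noncomputable def blkSo_ext {A N : Submodule K V} (h : IsCompl A N) (s : Module.End K A) :
    Module.End K V :=
  ((Submodule.prodEquivOfIsCompl A N h : (A × N) ≃ₗ[K] V) : (A × N) →ₗ[K] V) ∘ₗ
    (LinearMap.prodMap s (1 : Module.End K N)) ∘ₗ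
      ((Submodule.prodEquivOfIsCompl A N h).symm : V →ₗ[K] (A × N))

lemma blkSo_ext_left {A N : Submodule K V} (h : IsCompl A N) (s : Module.End K A) (v : A) :
    blkSo_ext h s v = s v := by
  rw [blkSo_ext, LinearMap.comp_apply, LinearMap.comp_apply, LinearEquiv.coe_coe,
    LinearEquiv.coe_coe, Submodule.prodEquivOfIsCompl_symm_apply_left, LinearMap.prodMap_apply,
    Submodule.coe_prodEquivOfIsCompl', map_zero, ZeroMemClass.coe_zero, add_zero]

lemma blkSo_ext_right {A N : Submodule K V} (h : IsCompl A N) (s : Module.End K A) (v : N) :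
    blkSo_ext h s v = v := by
  rw [blkSo_ext, LinearMap.comp_apply, LinearMap.comp_apply, LinearEquiv.coe_coe,
    LinearEquiv.coe_coe, Submodule.prodEquivOfIsCompl_symm_apply_right, LinearMap.prodMap_apply,
    Submodule.coe_prodEquivOfIsCompl', map_zero, ZeroMemClass.coe_zero, zero_add,
    Module.End.one_apply]

lemma blkSo_ext_eq {A N : Submodule K V} (h : IsCompl A N) (s : Module.End K A)
    (g : Module.End K V) (h1 : ∀ v : A, g v = s v) (h2 : ∀ v : N, g v = v) :
    g = blkSo_ext h s := by
  ext v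
  obtain ⟨a, n, ha, hn, rfl⟩ := Submodule.codisjoint_iff_exists_add_eq.1 h.codisjoint v
  rw [map_add, map_add, blkSo_ext_left h s ⟨a, ha⟩, blkSo_ext_right h s ⟨n, hn⟩, h1 ⟨a, ha⟩,
    h2 ⟨n, hn⟩]

lemma blkSo_ext_mul {A N : Submodule K V} (h : IsCompl A N) (s t : Module.End K A) :
    blkSo_ext h (s * t) = blkSo_ext h s * blkSo_ext h t := by
  symm
  apply blkSo_ext_eq
  · intro v
    rw [Module.End.mul_apply, blkSo_ext_left, blkSo_ext_left, Module.End.mul_apply]
  · intro v
    rw [Module.End.mul_apply, blkSo_ext_right, blkSo_ext_right]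

lemma blkSo_ext_one {A N : Submodule K V} (h : IsCompl A N) :
    blkSo_ext h (1 : Module.End K A) = 1 := by
  symm
  apply blkSo_ext_eq
  · intro v
    rfl
  · intro v
    rfl

lemma blkSo_det {A N : Submodule K V} (h : IsCompl A N) (s : Module.End K A) :
    LinearMap.det (blkSo_ext h s) = LinearMap.det s := by
  rw [blkSo_ext, LinearMap.det_conj, LinearMap.det_prodMap, map_one, mul_one]

lemma blkSo_compl (hsw : ∀ u v, ψ u v = 0 ↔ ψ v u = 0) {A : Submodule K V}
    (hnd : ∀ u ∈ A, (∀ w ∈ A, ψ u w = 0) → u = 0) : IsCompl A (perp ψ A) := by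
  have hrefl : LinearMap.IsRefl ψ := fun x y hxy => (hsw x y).1 hxy
  have horth : LinearMap.BilinForm.orthogonal ψ A = perp ψ A := by
    ext v
    rw [LinearMap.BilinForm.mem_orthogonal_iff, mem_perp]
    exact forall₂_congr fun w _ => hsw w v
  rw [← horth, LinearMap.BilinForm.isCompl_orthogonal_iff_disjoint hrefl, horth,
    Submodule.disjoint_def]
  intro v hv hv'
  exact hnd v hv hv'

theorem three_le (hc : Ctx ψ Γ) (hsym : ∀ u v, ψ u v = ψ v u) (h : Pair ψ Γ e f)
    (A : Submodule K V) (hA : Stab Γ A) (heA : e ∈ A) (hfA : f ∈ A)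
    (hmin : ∀ W : Submodule K V, Stab Γ W → e ∈ W → A ≤ W) : 3 ≤ Module.finrank K A := by
  by_contra hlt
  have hli : LinearIndependent K ![e, f] := by
    rw [LinearIndependent.pair_iff]
    intro s t hst
    have h1 := congrArg (fun v => ψ v e) hst
    have h2 := congrArg (fun v => ψ v f) hst
    simp only [map_add, map_smul, LinearMap.add_apply, LinearMap.smul_apply, h.ee, h.ff,
      mul_zero, zero_add, add_zero, map_zero, LinearMap.zero_apply, smul_eq_mul] at h1 h2
    exact ⟨(mul_eq_zero.1 h2).resolve_right h.ef, (mul_eq_zero.1 h1).resolve_right h.fe⟩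
  have hle : Submodule.span K (Set.range ![e, f]) ≤ A := by
    rw [Submodule.span_le]
    rintro _ ⟨i, rfl⟩
    fin_cases i
    · exact heA
    · exact hfA
  have hfr := finrank_span_eq_card hli
  rw [Fintype.card_fin] at hfr
  have heq : Submodule.span K (Set.range ![e, f]) = A := by
    apply Submodule.eq_of_le_of_finrank_le hle
    rw [hfr]
    omega
  have hst : Stab Γ (K ∙ e) := by
    intro x hx w hw
    obtain ⟨a, rfl⟩ := Submodule.mem_span_singleton.1 hw
    rw [map_smul]
    apply Submodule.smul_mem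
    have h4 := hc.skew hx h.ee
    rw [hsym e (x e)] at h4
    have h5 : ψ (x e) e = 0 := by
      have h6 : (2 : K) * ψ (x e) e = 0 := by linear_combination h4
      exact (mul_eq_zero.1 h6).resolve_left two_ne_zero
    have h6 : x e ∈ Submodule.span K (Set.range ![e, f]) := by
      rw [heq]
      exact hA x hx e heA
    rw [Matrix.range_cons, Matrix.range_cons, Matrix.range_empty, Set.union_empty,
      Set.singleton_union, Submodule.mem_span_pair] at h6
    obtain ⟨α, β, h7⟩ := h6
    rw [← h7, map_add, map_smul, map_smul, LinearMap.add_apply, LinearMap.smul_apply,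
      LinearMap.smul_apply, h.ee, smul_zero, zero_add, smul_eq_mul] at h5
    have h8 : β = 0 := (mul_eq_zero.1 h5).resolve_right h.fe
    rw [← h7, h8, zero_smul, add_zero]
    exact Submodule.smul_mem _ _ (Submodule.mem_span_singleton_self e)
  have hf := hmin _ hst (Submodule.mem_span_singleton_self e) hfA
  obtain ⟨a, ha⟩ := Submodule.mem_span_singleton.1 hf
  apply h.ef
  rw [← ha, map_smul, h.ee, smul_zero]

theorem blk_so [IsAlgClosed K] (hsym : ∀ u v, ψ u v = ψ v u) (A : Submodule K V)
    (hnd : ∀ u ∈ A, (∀ w ∈ A, ψ u w = 0) → u = 0) (h3 : 3 ≤ Module.finrank K A)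
    (hz : ∀ u ∈ A, ∀ w ∈ A, XX ψ u w ∈ lie Γ)
    (g : Module.End K V) (hg : ∀ x y, ψ (g x) (g y) = ψ x y) (hgA : ∀ v ∈ A, g v ∈ A)
    (hgN : ∀ v ∈ perp ψ A, g v = v) (hdet : LinearMap.det g = 1) : InCl Γ g := by
  have hcpl : IsCompl A (perp ψ A) := blkSo_compl (fun u v => by rw [hsym]) hnd
  have hgs : g = blkSo_ext hcpl (g.restrict hgA) :=
    blkSo_ext_eq hcpl _ g (fun v => rfl) (fun v => hgN v v.2)
  let S : Submonoid (Module.End K A) :=
    { carrier := {s | InCl Γ (blkSo_ext hcpl s)}
      mul_mem' := fun {a b} ha hb => by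
        show InCl Γ (blkSo_ext hcpl (a * b))
        rw [blkSo_ext_mul]
        exact inCl_mul ha hb
      one_mem' := by
        show InCl Γ (blkSo_ext hcpl 1)
        rw [blkSo_ext_one]
        exact inCl_one }
  have hmem : g.restrict hgA ∈ S := by
    refine gen_so (ψ := ψ.domRestrict₁₂ A A) ?_ ?_ h3 S ?_ (g.restrict hgA) ?_ ?_
    · intro u v
      exact hsym u v
    · intro v hv
      have h1 := hnd v v.2 fun w hw => hv ⟨w, hw⟩
      exact Subtype.ext h1
    · intro e w h4 h5
      have h4' : ψ (w : V) e = 0 := h4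
      have h5' : ψ (w : V) w = 0 := h5
      show InCl Γ (blkSo_ext hcpl (EE (ψ.domRestrict₁₂ A A) e w))
      have h6 : EE ψ (e : V) w = blkSo_ext hcpl (EE (ψ.domRestrict₁₂ A A) e w) := by
        apply blkSo_ext_eq
        · intro v
          have h8 : EE (ψ.domRestrict₁₂ A A) e w v = _ :=
            EE_apply (ψ := ψ.domRestrict₁₂ A A) (fun u v => hsym u v) h4 h5 v
          rw [EE_apply hsym h4' h5', h8]
          rfl
        · intro v
          rw [EE_apply hsym h4' h5', v.2 _ e.2, v.2 _ w.2]
          simp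
      rw [← h6]
      exact inCl_exp (hz e e.2 w w.2) (XX_cube hsym h4' h5') 1
    · intro x y
      exact hg x y
    · rw [← blkSo_det hcpl, ← hgs]
      exact hdet
  rw [hgs]
  exact hmem

end Pool.Agent.H91U
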