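import Pool.Agent.H91U.Ext
import Pool.Agent.H91S.GenSp
import Pool.Agent.H91S.SpFull

/-! Symplectic blocks.

PROOF. `A` is nondegenerate, so `IsCompl A (perp ψ A)`; let `π` be the projection onto `A` along
`perp ψ A`, and `ext s v = s (π v) + (v - π v)` for `s : Module.End K A`. Apply `gen_sp` to the space `A`
with the restricted form, the submonoid `{s | InCl Γ (ext s)}` (`ext` is multiplicative: `inCl_mul`,
`inCl_one`), and the restriction of `g` to `A` (`g = ext (restriction)`). The transvections `tr` of `A`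
extend to the transvections of `V`, which are in the closure by `hz` and `inCl_exp` as in `altK`
(`H91S/Main.lean`, the block `have hT`). -/

set_option linter.unusedSectionVars false

namespace Pool.Agent.H91U

open Pool.Agent.H91.Mono Pool.Agent.H91S

variable {K V : Type*} [Field K] [CharZero K] [AddCommGroup V] [Module K V]
  [FiniteDimensional K V] {ψ : V →ₗ[K] V →ₗ[K] K} {Γ : Subgroup (V ≃ₗ[K] V)}

private lemma BlkSp_tr (halt : ∀ v, ψ v v = 0) {u : V} (hz : YY ψ u u ∈ lie Γ) (s : K) :
    InCl Γ (tr ψ u s) := by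
  have h3 : ((1 / 2 : K) • YY ψ u u) = (ψ.flip u).smulRight u := by
    ext v
    rw [LinearMap.smul_apply, YY_apply, LinearMap.smulRight_apply, LinearMap.flip_apply]
    module
  have h4 : (ψ.flip u).smulRight u ∈ lie Γ := by
    rw [← h3]
    exact (lie Γ).smul_mem _ hz
  have h5 : ((ψ.flip u).smulRight u : Module.End K V) * (ψ.flip u).smulRight u = 0 := by
    ext v
    rw [Module.End.mul_apply, LinearMap.smulRight_apply, LinearMap.smulRight_apply, map_smul,
      LinearMap.flip_apply, LinearMap.flip_apply, halt, smul_zero, zero_smul]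
    rfl
  have h6 := inCl_exp h4 (by rw [h5, zero_mul]) s
  rw [h5, smul_zero, add_zero] at h6
  exact h6

theorem blk_sp (halt : ∀ v, ψ v v = 0) (A : Submodule K V)
    (hnd : ∀ u ∈ A, (∀ w ∈ A, ψ u w = 0) → u = 0)
    (hz : ∀ u ∈ A, ∀ w ∈ A, YY ψ u w ∈ lie Γ)
    (g : Module.End K V) (hg : ∀ x y, ψ (g x) (g y) = ψ x y) (hgA : ∀ v ∈ A, g v ∈ A)
    (hgN : ∀ v ∈ perp ψ A, g v = v) : InCl Γ g := by
  have hc := isCompl_perp (ψ := ψ) A hnd
  have h1 : ∀ (u : A) (s : K), tr (rf ψ A) u s ∈ SE Γ hc := by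
    intro u s
    rw [mem_SE]
    have h2 : ext hc (tr (rf ψ A) u s) = tr ψ (u : V) s := by
      refine LinearMap.ext fun v => ?_
      rw [ext_apply, tr_apply, tr_apply, rf_apply, psi_prA]
      simp only [Submodule.coe_add, Submodule.coe_smul]
      abel
    rw [h2]
    exact BlkSp_tr halt (hz u u.2 u u.2) s
  have h3 := gen_sp (ψ := rf ψ A) (fun v => halt v)
    (fun v hv => Subtype.ext (hnd v v.2 fun w hw => hv ⟨w, hw⟩)) (SE Γ hc) h1
    (g.restrict hgA) (fun x y => hg x y)
  rw [mem_SE, ext_restrict hc g hgA hgN] at h3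
  exact h3

end Pool.Agent.H91U
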