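import Pool.Agent.H91S.SoFull

/-! Relative version of `so_full`: only the subspaces generated by `e` and by `f` are irreducible.

PROOF. Take over the proof of `H91S/SoFull.lean` (lemmas `HP.P1`, `P2`, `A1`, `A2`, `P3`, `P4` can be
used as they are). `W = K e + K f + Af ψ L e f + Af ψ L f e` is stable under `L` (proof of `HP.top`), so
it contains `A` and `B`. For `a ∈ Af ψ L e f`: `XX ψ f a e = ψ e f • a`, so `a ∈ A`; likewise
`Af ψ L f e ≤ B`.
Case `A = B`: as in `HP.exists_ne` (the stable subspace `K e + Af ψ L e f` would contain `A ∋ f`) there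
are `a, b ∈ Af ψ L e f` with `ψ b a ≠ 0`, so `Af ψ L f e ≤ Af ψ L e f` by `HP.P4`, and by symmetry
(exchange `e` and `f`) they are equal; `A = K e + K f + Af ψ L e f`; all `XX` of two such vectors are in
`L` (`hh`, membership in `Af`, `HP.P3`), as at the end of `so_full`.
Case `Disjoint A B`: `u ∈ A` is `α e + β f + a + a'`; `u - α e - a ∈ A` and `β f + a' ∈ B`, so both are 0
and `u = α e + a` with `a ∈ Af ψ L e f`; likewise `w = β f + a'` with `a' ∈ Af ψ L f e`. Now
`XX e f`, `XX e a'`, `XX a f`, `XX a a'` (`HP.P3`) are in `L`. -/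

set_option linter.unusedSectionVars false

namespace Pool.Agent.H91U

open Pool.Agent.H91O Pool.Agent.H91S

variable {K : Type*} [Field K] [CharZero K] {V : Type*} [AddCommGroup V] [Module K V]
variable {ψ : V →ₗ[K] V →ₗ[K] K}

variable {L : Submodule K (Module.End K V)} {c : K} {e f : V}

/-- `K e + K f + Af e f + Af f e` is stable -/
lemma SoPart.stable (h : HP ψ L c e f) (W : Submodule K V)
    (hW : W = K ∙ e ⊔ K ∙ f ⊔ (Af ψ L e f ⊔ Af ψ L f e)) : ∀ x ∈ L, ∀ w ∈ W, x w ∈ W := by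
  have he : e ∈ W := by
    rw [hW]
    exact Submodule.mem_sup_left (Submodule.mem_sup_left (Submodule.mem_span_singleton_self e))
  have hf : f ∈ W := by
    rw [hW]
    exact Submodule.mem_sup_left (Submodule.mem_sup_right (Submodule.mem_span_singleton_self f))
  have hA : Af ψ L e f ≤ W := by
    rw [hW]
    exact le_sup_left.trans le_sup_right
  have hA' : Af ψ L f e ≤ W := by
    rw [hW]
    exact le_sup_right.trans le_sup_right
  have hmd : ∀ u, md ψ c e f u ∈ W → u ∈ W := by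
    intro u hu
    rw [md_dec (ψ := ψ) (c := c) (e := e) (f := f) u]
    exact W.add_mem (W.add_mem (W.smul_mem _ he) hu) (W.smul_mem _ hf)
  intro x hx
  have h1 : W ≤ W.comap x := by
    conv_lhs => rw [hW]
    refine sup_le (sup_le ?_ ?_) (sup_le ?_ ?_)
    · rw [Submodule.span_singleton_le_iff_mem]
      exact hmd _ (hA (h.A1 hx))
    · rw [Submodule.span_singleton_le_iff_mem]
      refine hmd _ (hA' ?_)
      rw [← md_comm]
      exact h.swap.A1 hx
    · intro a ha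
      exact hmd _ (hA (h.A2 hx ha))
    · intro a ha
      refine hmd _ (hA' ?_)
      rw [← md_comm]
      exact h.swap.A2 hx ha
  exact h1

/-- decomposition of the vectors of `A` -/
lemma SoPart.dec (h : HP ψ L c e f) (A : Submodule K V)
    (hA' : ∀ W : Submodule K V, (∀ x ∈ L, ∀ w ∈ W, x w ∈ W) → e ∈ W → A ≤ W) (v : V)
    (hv : v ∈ A) : ∃ k1 k2 : K, ∃ a ∈ Af ψ L e f, ∃ a' ∈ Af ψ L f e,
      v = k1 • e + k2 • f + (a + a') := by
  obtain ⟨W, hW⟩ : ∃ W : Submodule K V,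
      W = K ∙ e ⊔ K ∙ f ⊔ (Af ψ L e f ⊔ Af ψ L f e) := ⟨_, rfl⟩
  have he : e ∈ W := by
    rw [hW]
    exact Submodule.mem_sup_left (Submodule.mem_sup_left (Submodule.mem_span_singleton_self e))
  have hvW := hA' W (SoPart.stable h W hW) he hv
  rw [hW, Submodule.mem_sup] at hvW
  obtain ⟨y, hy, z, hz, hyz⟩ := hvW
  rw [Submodule.mem_sup] at hy hz
  obtain ⟨y1, hy1, y2, hy2, rfl⟩ := hy
  obtain ⟨k1, rfl⟩ := Submodule.mem_span_singleton.1 hy1
  obtain ⟨k2, rfl⟩ := Submodule.mem_span_singleton.1 hy2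
  obtain ⟨z1, hz1, z2, hz2, rfl⟩ := hz
  exact ⟨k1, k2, z1, hz1, z2, hz2, hyz.symm⟩

lemma SoPart.af_le (h : HP ψ L c e f) (A : Submodule K V) (heA : e ∈ A)
    (hA : ∀ x ∈ L, ∀ w ∈ A, x w ∈ A) : Af ψ L e f ≤ A := by
  intro a ha
  have h1 := hA _ ha.2.2 e heA
  have e1 : XX ψ f a e = c • a := by
    rw [XX_apply, h.ef, h.sym e a, ha.1]
    module
  rw [e1] at h1
  exact (A.smul_mem_iff h.c0).1 h1

/-- `ψ` is not zero on `Af e f` if `f` is in the subspace generated by `e` -/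
lemma SoPart.exists_ne (h : HP ψ L c e f) (A : Submodule K V) (hfA : f ∈ A)
    (hA' : ∀ W : Submodule K V, (∀ x ∈ L, ∀ w ∈ W, x w ∈ W) → e ∈ W → A ≤ W) :
    ∃ a ∈ Af ψ L e f, ∃ b ∈ Af ψ L e f, ψ b a ≠ 0 := by
  by_contra hcon
  push Not at hcon
  obtain ⟨W, hW⟩ : ∃ W : Submodule K V, W = K ∙ e ⊔ Af ψ L e f := ⟨_, rfl⟩
  have he : e ∈ W := by
    rw [hW]
    exact Submodule.mem_sup_left (Submodule.mem_span_singleton_self e)
  have hA : Af ψ L e f ≤ W := by
    rw [hW]
    exact le_sup_right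
  have hmd : ∀ u, md ψ c e f u ∈ W → ψ u e = 0 → u ∈ W := by
    intro u hu hue
    rw [md_dec (ψ := ψ) (c := c) (e := e) (f := f) u, hue, zero_div, zero_smul, add_zero]
    exact W.add_mem (W.smul_mem _ he) hu
  have hst : ∀ x ∈ L, ∀ w ∈ W, x w ∈ W := by
    intro x hx
    obtain ⟨lam, hlam⟩ := h.mul x hx
    have hxe : ψ (x e) e = 0 := by
      have h1 := hlam e e
      rw [h.ee, mul_zero, h.sym e (x e)] at h1
      have h2 : (2 : K) * ψ (x e) e = 0 := by linear_combination h1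
      exact (mul_eq_zero.1 h2).resolve_left two_ne_zero
    have h1 : W ≤ W.comap x := by
      conv_lhs => rw [hW]
      refine sup_le ?_ ?_
      · rw [Submodule.span_singleton_le_iff_mem]
        exact hmd _ (hA (h.A1 hx)) hxe
      · intro a ha
        refine hmd _ (hA (h.A2 hx ha)) ?_
        have h2 := hlam a e
        rw [ha.1, mul_zero] at h2
        have h3 : ψ a (x e) = 0 := by
          rw [md_dec (ψ := ψ) (c := c) (e := e) (f := f) (x e), hxe, zero_div, zero_smul,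
            add_zero, map_add, map_smul, ha.1, smul_zero, zero_add]
          exact hcon _ (h.A1 hx) _ ha
        rwa [h3, add_zero] at h2
    exact h1
  have hf : f ∈ W := hA' W hst he hfA
  rw [hW, Submodule.mem_sup] at hf
  obtain ⟨y, hy, z, hz, hyz⟩ := hf
  obtain ⟨k, rfl⟩ := Submodule.mem_span_singleton.1 hy
  apply h.c0
  rw [← h.fe, ← hyz, map_add, map_smul, LinearMap.add_apply, LinearMap.smul_apply, h.ee,
    hz.1, smul_zero, add_zero]

lemma SoPart.le (h : HP ψ L c e f) (A : Submodule K V) (hfA : f ∈ A)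
    (hA' : ∀ W : Submodule K V, (∀ x ∈ L, ∀ w ∈ W, x w ∈ W) → e ∈ W → A ≤ W) :
    Af ψ L f e ≤ Af ψ L e f := by
  obtain ⟨a, ha, b, hb, hab⟩ := SoPart.exists_ne h A hfA hA'
  exact fun a' ha' => h.P4 ha hb ha' hab

theorem so_part (hsym : ∀ u v, ψ u v = ψ v u) (L : Submodule K (Module.End K V))
    (hbr : ∀ x ∈ L, ∀ y ∈ L, x * y - y * x ∈ L)
    (hsk : ∀ x ∈ L, ∀ u v, ψ u v = 0 → ψ (x u) v + ψ u (x v) = 0)
    (e f : V) (hee : ψ e e = 0) (hff : ψ f f = 0) (hef : ψ e f ≠ 0) (hh : XX ψ e f ∈ L)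
    (A B : Submodule K V) (heA : e ∈ A) (hfB : f ∈ B)
    (hA : ∀ x ∈ L, ∀ w ∈ A, x w ∈ A) (hB : ∀ x ∈ L, ∀ w ∈ B, x w ∈ B)
    (hA' : ∀ W : Submodule K V, (∀ x ∈ L, ∀ w ∈ W, x w ∈ W) → e ∈ W → A ≤ W)
    (hB' : ∀ W : Submodule K V, (∀ x ∈ L, ∀ w ∈ W, x w ∈ W) → f ∈ W → B ≤ W)
    (hcase : A = B ∨ Disjoint A B) (u w : V) (hu : u ∈ A) (hw : w ∈ B) : XX ψ u w ∈ L := by
  have h : HP ψ L (ψ e f) e f :=
    ⟨hsym, hbr, fun x hx => exists_mul hef (hsk x hx), hee, hff, rfl, hef, hh⟩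
  generalize ψ e f = c at h
  have hAfA : Af ψ L e f ≤ A := SoPart.af_le h A heA hA
  have hAfB : Af ψ L f e ≤ B := SoPart.af_le h.swap B hfB hB
  obtain ⟨k1, k2, a, ha, a', ha', hu1⟩ := SoPart.dec h A hA' u hu
  obtain ⟨l1, l2, b, hb, b', hb', hw1⟩ := SoPart.dec h.swap B hB' w hw
  rcases hcase with hAB | hAB
  · have hle : Af ψ L f e ≤ Af ψ L e f := SoPart.le h A (by rw [hAB]; exact hfB) hA'
    have hle' : Af ψ L e f ≤ Af ψ L f e := SoPart.le h.swap B (by rw [← hAB]; exact heA) hB'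
    have hall : ∀ x ∈ Af ψ L e f, ∀ y ∈ Af ψ L e f, ∀ p q r s : K,
        XX ψ (p • e + q • f + x) (r • e + s • f + y) ∈ L := by
      intro x hx y hy p q r s
      have hxf := hle' hx
      have hyf := hle' hy
      rw [XX_add_left, XX_add_left, XX_smul_left, XX_smul_left]
      simp only [XX_add, XX_smul, XX_self, smul_zero, zero_add, add_zero]
      refine L.add_mem (L.add_mem (L.smul_mem _ (L.add_mem (L.smul_mem _ h.hh) hyf.2.2))
        (L.smul_mem _ (L.add_mem (L.smul_mem _ h.swap.hh) hy.2.2))) ?_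
      refine L.add_mem (L.add_mem (L.smul_mem _ ?_) (L.smul_mem _ ?_)) (h.P3 hx hyf)
      · rw [XX_swap]
        exact L.neg_mem hxf.2.2
      · rw [XX_swap]
        exact L.neg_mem hx.2.2
    have h1 := hall (a + a') ((Af ψ L e f).add_mem ha (hle ha')) (b + b')
      ((Af ψ L e f).add_mem (hle hb) hb') k1 k2 l2 l1
    rw [hu1, hw1, add_comm (l1 • f) (l2 • e)]
    exact h1
  · have hu2 : u = k1 • e + a := by
      have h1 : u - (k1 • e + a) ∈ A := A.sub_mem hu (A.add_mem (A.smul_mem _ heA) (hAfA ha))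
      have h2 : u - (k1 • e + a) = k2 • f + a' := by
        rw [hu1]
        abel
      have h3 : u - (k1 • e + a) ∈ B := by
        rw [h2]
        exact B.add_mem (B.smul_mem _ hfB) (hAfB ha')
      exact sub_eq_zero.1 (Submodule.disjoint_def.1 hAB _ h1 h3)
    have hw2 : w = l1 • f + b := by
      have h1 : w - (l1 • f + b) ∈ B := B.sub_mem hw (B.add_mem (B.smul_mem _ hfB) (hAfB hb))
      have h2 : w - (l1 • f + b) = l2 • e + b' := by
        rw [hw1]
        abel
      have h3 : w - (l1 • f + b) ∈ A := by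
        rw [h2]
        exact A.add_mem (A.smul_mem _ heA) (hAfA hb')
      exact sub_eq_zero.1 (Submodule.disjoint_def.1 hAB _ h3 h1)
    rw [hu2, hw2, XX_add_left, XX_add, XX_add, XX_smul_left, XX_smul, XX_smul_left, XX_smul]
    refine L.add_mem (L.add_mem (L.smul_mem _ (L.smul_mem _ h.hh)) (L.smul_mem _ hb.2.2))
      (L.add_mem (L.smul_mem _ ?_) (h.P3 ha hb))
    rw [XX_swap]
    exact L.neg_mem ha.2.2

end Pool.Agent.H91U
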