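import Pool.Agent.H91U.SpPartS

/-! Relative version of `sp_full`: only the subspaces generated by `e` and by `f` are irreducible.

PROOF. Take over the proof of `H91S/SpFull.lean` (`P1`, `P1'`, `P2`, `AfS`, `YY_bracket` and so on can be
used). As in `SoPart.lean`: the subspace `W = K e + K f + (the a orthogonal to e, f with YY f a ∈ L) +
(the a orthogonal to e, f with YY e a ∈ L)` is stable under `L`, so it contains `A` and `B`;
`YY ψ f a e = ± ψ e f • a`, so the first lies in `A`, the second in `B`.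
Case `A = B`: as in `sp_full` all `YY` of two vectors of `A` are in `L` (first show `YY f f, YY e e ∈ L`
(`ff_mem`) and that the two subspaces agree).
Case `Disjoint A B`: `u ∈ A` is `α e + a`, `w ∈ B` is `β f + a'` (the other components lie in
`A ⊓ B`), and `YY e f`, `YY e a'`, `YY a f` are in `L`; `YY a a'` comes from the bracket of `YY f a` and
`YY e a'` (note: here `ψ` vanishes on `A` and on `B`: `YY f f` is not in `L`, and it is not needed). -/

set_option linter.unusedSectionVars false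

namespace Pool.Agent.H91U

open Pool.Agent.H91S

variable {K : Type*} [Field K] [CharZero K] {V : Type*} [AddCommGroup V] [Module K V]
variable {ψ : V →ₗ[K] V →ₗ[K] K}

theorem sp_part (halt : ∀ v, ψ v v = 0) (L : Submodule K (Module.End K V))
    (hbr : ∀ x ∈ L, ∀ y ∈ L, x * y - y * x ∈ L)
    (hsk : ∀ x ∈ L, ∀ u v, ψ u v = 0 → ψ (x u) v + ψ u (x v) = 0)
    (e f : V) (hef : ψ e f ≠ 0) (hh : YY ψ e f ∈ L)
    (A B : Submodule K V) (heA : e ∈ A) (hfB : f ∈ B)
    (hA : ∀ x ∈ L, ∀ w ∈ A, x w ∈ A) (hB : ∀ x ∈ L, ∀ w ∈ B, x w ∈ B)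
    (hA' : ∀ W : Submodule K V, (∀ x ∈ L, ∀ w ∈ W, x w ∈ W) → e ∈ W → A ≤ W)
    (hB' : ∀ W : Submodule K V, (∀ x ∈ L, ∀ w ∈ W, x w ∈ W) → f ∈ W → B ≤ W)
    (hcase : A = B ∨ Disjoint A B) (u w : V) (hu : u ∈ A) (hw : w ∈ B) : YY ψ u w ∈ L :=
  SpS.sp_partS halt L hbr hsk e f hef hh A B heA hfB hA hB hA' hB' hcase u w hu hw

end Pool.Agent.H91U
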