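import Pool.Agent.H91U.Cas
import Pool.Agent.H91U.SoPart
import Pool.Agent.H91U.SpPart
import Pool.Agent.H91U.BlkSo
import Pool.Agent.H91U.BlkSp
import Pool.Agent.H91U.BlkGl
import Pool.Agent.H91S.Main

/-! An isometry that is the identity outside a block. -/

set_option linter.unusedSectionVars false

namespace Pool.Agent.H91U

open Pool.Agent.H91.Mono Pool.Agent.H91S Pool.Agent.H91O

variable {K V : Type*} [Field K] [CharZero K] [AddCommGroup V] [Module K V]
  [FiniteDimensional K V] {ψ : V →ₗ[K] V →ₗ[K] K} {Γ : Subgroup (V ≃ₗ[K] V)} {e f : V}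

lemma zz_sym (hsym : ∀ u v, ψ u v = ψ v u) (u w : V) : ZZ ψ u w = XX ψ u w := by
  ext v
  rw [ZZ_apply, XX_apply, hsym w v]

lemma zz_alt (halt : ∀ v, ψ v v = 0) (u w : V) : ZZ ψ u w = YY ψ u w := by
  ext v
  rw [ZZ_apply, YY_apply, psi_swap halt w v]
  module

lemma zz_hp (hc : Ctx ψ Γ) (h : Pair ψ Γ e f) : ZZ ψ e f = (-ψ f e) • hp ψ e f := by
  obtain ⟨ε, hε, hs⟩ := hc.exists_eps
  ext v
  have h1 : ψ f v = ε * ψ v f := hs v f
  have h2 : ψ f e = ε * ψ e f := hs e f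
  have hε0 : ε ≠ 0 := by
    rintro rfl
    norm_num at hε
  have hef := h.ef
  rw [ZZ_apply, LinearMap.smul_apply, hp_apply, h1, h2, smul_sub, smul_smul, smul_smul]
  have e1 : -(ε * ψ e f) * ((ψ e f)⁻¹ * ψ v f) = -(ε * ψ v f) := by
    field_simp
  have e2 : -(ε * ψ e f) * ((ε * ψ e f)⁻¹ * ψ v e) = -ψ v e := by
    field_simp
  rw [e1, e2]
  module

theorem zz_mem (hc : Ctx ψ Γ) (h : Pair ψ Γ e f) {u w : V} (hu : u ∈ LS Γ e)
    (hw : w ∈ LS Γ f) : ZZ ψ u w ∈ lie Γ := by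
  have hcase : LS Γ e = LS Γ f ∨ Disjoint (LS Γ e) (LS Γ f) := by
    rcases dich hc h with h1 | h1
    · exact Or.inl h1.1
    · exact Or.inr h1.1
  have hmem : ZZ ψ e f ∈ lie Γ := by
    rw [zz_hp hc h]
    exact (lie Γ).smul_mem _ h.hh
  rcases hc.eps with halt | hsym
  · rw [zz_alt halt] at hmem ⊢
    exact sp_part halt (lie Γ) (fun x hx y hy => lie_bracket hx hy)
      (fun x hx u v huv => hc.skew hx huv) e f h.ef hmem (LS Γ e) (LS Γ f) (mem_ls Γ e)
      (mem_ls Γ f) (ls_stab Γ e) (ls_stab Γ f) (fun W hW he => ls_le hW he)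
      (fun W hW hf => ls_le hW hf) hcase u w hu hw
  · rw [zz_sym hsym] at hmem ⊢
    exact so_part hsym (lie Γ) (fun x hx y hy => lie_bracket hx hy)
      (fun x hx u v huv => hc.skew hx huv) e f h.ee h.ff h.ef hmem (LS Γ e) (LS Γ f)
      (mem_ls Γ e) (mem_ls Γ f) (ls_stab Γ e) (ls_stab Γ f) (fun W hW he => ls_le hW he)
      (fun W hW hf => ls_le hW hf) hcase u w hu hw

theorem blk [IsAlgClosed K] (hc : Ctx ψ Γ) (h : Pair ψ Γ e f) (g : Module.End K V)
    (hg : ∀ x y, ψ (g x) (g y) = ψ x y) (hgA : ∀ v ∈ LS Γ e, g v ∈ LS Γ e)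
    (hgB : ∀ v ∈ LS Γ f, g v ∈ LS Γ f)
    (hgN : ∀ v ∈ perp ψ (LS Γ e ⊔ LS Γ f), g v = v) :
    InCl Γ (g * g) ∧ ((∀ v, ψ v v = 0) → InCl Γ g) := by
  rcases dich hc h with ⟨heq, hnd⟩ | ⟨hdis, hAA, hBB, hA, hB⟩
  · rw [← heq, sup_idem] at hgN
    rcases hc.eps with halt | hsym
    · have h1 : InCl Γ g := blk_sp halt (LS Γ e) hnd (fun u hu w hw => by
        rw [← zz_alt halt]
        exact zz_mem hc h hu (heq ▸ hw)) g hg hgA hgN
      exact ⟨inCl_mul h1 h1, fun _ => h1⟩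
    · have h3 : 3 ≤ Module.finrank K (LS Γ e) :=
        three_le hc hsym h (LS Γ e) (ls_stab Γ e) (mem_ls Γ e) (heq ▸ mem_ls Γ f)
          (fun W hW he => ls_le hW he)
      have hz : ∀ u ∈ LS Γ e, ∀ w ∈ LS Γ e, XX ψ u w ∈ lie Γ := fun u hu w hw => by
        rw [← zz_sym hsym]
        exact zz_mem hc h hu (heq ▸ hw)
      have h1 : InCl Γ (g * g) := by
        refine blk_so hsym (LS Γ e) hnd h3 hz (g * g) ?_ ?_ ?_ ?_
        · intro x y
          rw [Module.End.mul_apply, Module.End.mul_apply, hg, hg]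
        · intro v hv
          exact hgA _ (hgA v hv)
        · intro v hv
          rw [Module.End.mul_apply, hgN v hv, hgN v hv]
        · rw [map_mul, ← pow_two]
          exact det_sq_of_iso hc.nd g hg
      refine ⟨h1, fun halt => ?_⟩
      exfalso
      apply h.ef
      have h2 := halt (e + f)
      rw [map_add, map_add, LinearMap.add_apply, LinearMap.add_apply, halt, halt, hsym f e] at h2
      have h4 : (2 : K) * ψ e f = 0 := by linear_combination h2
      rcases mul_eq_zero.1 h4 with h5 | h5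
      · exact absurd h5 two_ne_zero
      · exact h5
  · have h1 : InCl Γ g := blk_gl hc h (LS Γ e) (LS Γ f) (mem_ls Γ e) (mem_ls Γ f) hAA hBB hA hB
      (blk_compl hc h) (fun u hu w hw => zz_mem hc h hu hw) g hg hgA hgB hgN
    exact ⟨inCl_mul h1 h1, fun _ => h1⟩

end Pool.Agent.H91U
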