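import Pool.Agent.H91U.FDefs

/-! Frobenius vectors compatible with an algebra of rational endomorphisms. -/

namespace Pool.Agent.H91U

open Polynomial Pool.Agent.H93Tate Pool.Agent.H91.Mono Pool.Agent.H91S

/-- `v` is killed by `R(F)`, where `F ∈ Γ` has multiplier `q = p ^ n` and characteristic polynomial
`P ∈ ℚ[X]` with complex roots of absolute value `√q`, `R ∈ ℚ[X]` has only independent roots of `P` as
complex roots, or is irreducible with a root of K3 type of `P`, and `F` commutes with `ρ b` and the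
trace of `ρ b * F ^ k` is rational for all `b ∈ L` and all `k`. -/
def FrobVecL {E V L : Type*} [Field E] [CharZero E] [AddCommGroup V] [Module E V]
    [FiniteDimensional E V] [CommRing L] (ρ : L →+* Module.End E V) (ψ : V →ₗ[E] V →ₗ[E] E)
    (Γ : Subgroup (V ≃ₗ[E] V)) (v : V) : Prop :=
  ∃ (p n : ℕ) (_ : Fact p.Prime) (P R : ℚ[X]) (F : V ≃ₗ[E] V), 0 < n ∧ F ∈ Γ ∧
    (∀ u w, ψ (F u) (F w) = (p : E) ^ n * ψ u w) ∧
    LinearMap.charpoly (F : V →ₗ[E] V) = P.map (algebraMap ℚ E) ∧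
    (∀ z : ℂ, aeval z P = 0 → ‖z‖ ^ 2 = (p : ℝ) ^ n) ∧
    ((∀ z : ℂ, aeval z R = 0 → Indep ((p : ℂ) ^ n) P z) ∨
      (Irreducible R ∧ ∃ y : PadicAlgCl p, aeval y R = 0 ∧ K3Root p n P y)) ∧
    aeval (F : Module.End E V) (R.map (algebraMap ℚ E)) v = 0 ∧
    (∀ b : L, ρ b * (F : Module.End E V) = (F : Module.End E V) * ρ b) ∧
    ∀ (b : L) (k : ℕ), ∃ t : ℚ,
      LinearMap.trace E V (ρ b * (F : Module.End E V) ^ k) = algebraMap ℚ E t

end Pool.Agent.H91U
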