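import Pool.Agent.H91U.Clif

/-! Blocks.

PROOF. `A = LS Γ e`, `B = LS Γ f` are `IrrMin` (`clif hc h`, `clif hc h.symm`), so nonzero `Stab`
subspaces of `A` are `A`.
`dich`. Case `f ∈ A`: then `B ≤ A`, so `B = A` (`IrrMin`); `A ⊓ perp A` is `Stab`, not `A`
(`ψ e f ≠ 0`), so `⊥`. Case `f ∉ A`: by `coord_f` `ψ w e = 0` for all `w ∈ A`, so `e ∈ A ⊓ perp A`
(`hc.swap`), so `A ≤ perp A`. `e ∉ B` (else `A ≤ B`, `A = B ∋ f`), so likewise `B ≤ perp B`.
`A ⊓ B` is `Stab`; if it is `A` then `e ∈ B`; so `⊥`. `A ⊓ perp B` is `Stab` and does not contain `e`,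
so `⊥`; `B ⊓ perp A` likewise.
`blk_compl`: by `dich` the form is nondegenerate on `A ⊔ B` (second case: `u + w` orthogonal to `B`
gives `u = 0` as `ψ w w' = 0`, then `w = 0`), so `Disjoint`; the dimensions add up
(`LinearMap.BilinForm` / `LinearMap.IsRefl` lemmas such as `isCompl_orthogonal_of_restrict_nondegenerate`,
or directly: the map `V → Dual (A ⊔ B)` is injective on `A ⊔ B`, so onto; its kernel is `perp`).
`trich`: let `B' = LS Γ e ⊔ LS Γ f`, `N = perp B'`, `x = hp ψ e' f'`. If `x b = b` then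
`b ∈ K e'` (`h'.sq`). Write `e' = b + v`, `b ∈ B'`, `v ∈ N`: both are `Stab`, so `x b = b`, `x v = v`, so
`b, v ∈ K e'`. If `v ≠ 0`, `e' ∈ N`, third alternative (`ls_le`). If `v = 0`, `e' ∈ B'`; in case 1 of
`dich` `e' ∈ LS Γ e`, so `LS Γ e' = LS Γ e` by minimality; in case 2 write `e' = u + w` with
`u ∈ LS Γ e`, `w ∈ LS Γ f`; again `x u = u`, `x w = w`, so `u, w ∈ K e'`, one is nonzero, so `e'` lies in
`LS Γ e` or in `LS Γ f`. -/

set_option linter.unusedSectionVars false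

namespace Pool.Agent.H91U

open Pool.Agent.H91.Mono Pool.Agent.H91S

variable {K V : Type*} [Field K] [CharZero K] [AddCommGroup V] [Module K V]
  [FiniteDimensional K V] {ψ : V →ₗ[K] V →ₗ[K] K} {Γ : Subgroup (V ≃ₗ[K] V)} {e f e' f' : V}

lemma cas_stab_perp_not (hc : Ctx ψ Γ) {W : Submodule K V} {v w : V} (hv : v ∈ perp ψ W)
    (hw : w ∈ W) : ψ v w = 0 ∧ ψ w v = 0 := ⟨hv w hw, (hc.swap v w).1 (hv w hw)⟩

lemma cas_eq_of_le {U W : Submodule K V} (hU : IrrMin Γ U) (hW : Stab Γ W) (h0 : W ≠ ⊥)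
    (hle : W ≤ U) : W = U := (hU.2.2 W hW hle).resolve_left h0

lemma cas_ls_ne_bot {v : V} (hv : v ≠ 0) : LS Γ v ≠ ⊥ := by
  intro h0
  apply hv
  have h1 := mem_ls Γ v
  rw [h0] at h1
  exact (Submodule.mem_bot K).1 h1

theorem dich (hc : Ctx ψ Γ) (h : Pair ψ Γ e f) :
    (LS Γ e = LS Γ f ∧ ∀ u ∈ LS Γ e, (∀ w ∈ LS Γ e, ψ u w = 0) → u = 0) ∨
    (Disjoint (LS Γ e) (LS Γ f) ∧ (∀ u ∈ LS Γ e, ∀ u' ∈ LS Γ e, ψ u u' = 0) ∧
      (∀ w ∈ LS Γ f, ∀ w' ∈ LS Γ f, ψ w w' = 0) ∧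
      (∀ u ∈ LS Γ e, (∀ w ∈ LS Γ f, ψ u w = 0) → u = 0) ∧
      (∀ w ∈ LS Γ f, (∀ u ∈ LS Γ e, ψ u w = 0) → w = 0)) := by
  have hA := (clif hc h).1
  have hB := (clif hc h.symm).1
  have he := mem_ls Γ e
  have hf := mem_ls Γ f
  by_cases hfA : f ∈ LS Γ e
  · left
    have h1 : LS Γ f = LS Γ e :=
      cas_eq_of_le hA (ls_stab Γ f) hB.1 (ls_le (ls_stab Γ e) hfA)
    refine ⟨h1.symm, ?_⟩
    intro u hu hu'
    rcases hA.2.2 _ (stab_inf (ls_stab Γ e) (hc.stab_perp (ls_stab Γ e))) inf_le_left with h2 | h2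
    · have h3 : u ∈ LS Γ e ⊓ perp ψ (LS Γ e) := ⟨hu, hu'⟩
      rw [h2] at h3
      exact (Submodule.mem_bot K).1 h3
    · exfalso
      have h3 : e ∈ LS Γ e ⊓ perp ψ (LS Γ e) := by rw [h2]; exact he
      exact h.ef (h3.2 f hfA)
  · right
    have h1 : ∀ w ∈ LS Γ e, ψ w e = 0 := by
      intro w hw
      by_contra h2
      exact hfA (h.coord_f (ls_stab Γ e) hw h2)
    have heA : e ∈ perp ψ (LS Γ e) := by
      rw [hc.mem_perp']
      exact h1
    have hAA : LS Γ e ≤ perp ψ (LS Γ e) := ls_le (hc.stab_perp (ls_stab Γ e)) heA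
    have heB : e ∉ LS Γ f := by
      intro h2
      apply hfA
      have h3 : LS Γ e = LS Γ f :=
        cas_eq_of_le hB (ls_stab Γ e) hA.1 (ls_le (ls_stab Γ f) h2)
      rw [h3]
      exact hf
    have h4 : ∀ w ∈ LS Γ f, ψ w f = 0 := by
      intro w hw
      by_contra h2
      exact heB (h.coord_e (ls_stab Γ f) hw h2)
    have hfB : f ∈ perp ψ (LS Γ f) := by
      rw [hc.mem_perp']
      exact h4
    have hBB : LS Γ f ≤ perp ψ (LS Γ f) := ls_le (hc.stab_perp (ls_stab Γ f)) hfB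
    refine ⟨?_, ?_, ?_, ?_, ?_⟩
    · rw [disjoint_iff]
      rcases hA.2.2 _ (stab_inf (ls_stab Γ e) (ls_stab Γ f)) inf_le_left with h2 | h2
      · exact h2
      · exfalso
        have h3 : e ∈ LS Γ e ⊓ LS Γ f := by rw [h2]; exact he
        exact heB h3.2
    · intro u hu u' hu'
      exact hAA hu u' hu'
    · intro w hw w' hw'
      exact hBB hw w' hw'
    · intro u hu hu'
      rcases hA.2.2 _ (stab_inf (ls_stab Γ e) (hc.stab_perp (ls_stab Γ f))) inf_le_left with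
        h2 | h2
      · have h3 : u ∈ LS Γ e ⊓ perp ψ (LS Γ f) := ⟨hu, hu'⟩
        rw [h2] at h3
        exact (Submodule.mem_bot K).1 h3
      · exfalso
        have h3 : e ∈ LS Γ e ⊓ perp ψ (LS Γ f) := by rw [h2]; exact he
        exact h.ef (h3.2 f hf)
    · intro w hw hw'
      rcases hB.2.2 _ (stab_inf (ls_stab Γ f) (hc.stab_perp (ls_stab Γ e))) inf_le_left with
        h2 | h2
      · have h3 : w ∈ LS Γ f ⊓ perp ψ (LS Γ e) := ⟨hw, hc.mem_perp'.2 hw'⟩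
        rw [h2] at h3
        exact (Submodule.mem_bot K).1 h3
      · exfalso
        have h3 : f ∈ LS Γ f ⊓ perp ψ (LS Γ e) := by rw [h2]; exact hf
        exact h.fe (h3.2 e he)

theorem cas_nondeg (hc : Ctx ψ Γ) (h : Pair ψ Γ e f) {v : V} (hv : v ∈ LS Γ e ⊔ LS Γ f)
    (hv' : ∀ w ∈ LS Γ e ⊔ LS Γ f, ψ v w = 0) : v = 0 := by
  rcases dich hc h with ⟨h1, h2⟩ | ⟨_, hAA, hBB, hAB, hBA⟩
  · rw [← h1, sup_idem] at hv hv'
    exact h2 v hv hv'
  · obtain ⟨u, hu, w, hw, rfl⟩ := Submodule.mem_sup.1 hv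
    have hu0 : u = 0 := by
      apply hAB u hu
      intro w' hw'
      have h3 := hv' w' (Submodule.mem_sup_right hw')
      rw [map_add, LinearMap.add_apply, hBB w hw w' hw', add_zero] at h3
      exact h3
    have hw0 : w = 0 := by
      apply hBA w hw
      intro u' hu'
      have h3 := hv' u' (Submodule.mem_sup_left hu')
      rw [map_add, LinearMap.add_apply, hAA u hu u' hu', zero_add] at h3
      exact (hc.swap w u').1 h3
    rw [hu0, hw0, add_zero]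

theorem blk_compl (hc : Ctx ψ Γ) (h : Pair ψ Γ e f) :
    IsCompl (LS Γ e ⊔ LS Γ f) (perp ψ (LS Γ e ⊔ LS Γ f)) := by
  have hrefl : LinearMap.IsRefl ψ := fun x y hxy => (hc.swap x y).1 hxy
  have horth : LinearMap.BilinForm.orthogonal ψ (LS Γ e ⊔ LS Γ f) =
      perp ψ (LS Γ e ⊔ LS Γ f) := by
    ext v
    rw [LinearMap.BilinForm.mem_orthogonal_iff, hc.mem_perp']
  rw [← horth, LinearMap.BilinForm.isCompl_orthogonal_iff_disjoint hrefl, horth,
    Submodule.disjoint_def]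
  intro v hv hv'
  exact cas_nondeg hc h hv hv'

lemma cas_line (h' : Pair ψ Γ e' f') {v : V} (hv : hp ψ e' f' v = v) : ∃ c : K, v = c • e' := by
  have h1 := h'.sq v
  rw [hv, hv, ← two_smul K v, mul_smul] at h1
  exact ⟨(ψ e' f')⁻¹ * ψ v f', smul_right_injective V (two_ne_zero (α := K)) h1⟩

lemma cas_split {A B : Submodule K V} (hA : Stab Γ A) (hB : Stab Γ B) (hd : Disjoint A B)
    (h' : Pair ψ Γ e' f') {a b : V} (ha : a ∈ A) (hb : b ∈ B) (hab : e' = a + b) :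
    e' ∈ A ∨ e' ∈ B := by
  have h1 : hp ψ e' f' a + hp ψ e' f' b = a + b := by
    rw [← map_add, ← hab, h'.he]
  have h2 : hp ψ e' f' a - a = b - hp ψ e' f' b := by
    rw [sub_eq_sub_iff_add_eq_add, h1, add_comm]
  have h3 : hp ψ e' f' a - a = 0 := by
    apply Submodule.disjoint_def.1 hd
    · exact A.sub_mem (hA _ h'.hh a ha) ha
    · rw [h2]
      exact B.sub_mem hb (hB _ h'.hh b hb)
  have h4 : hp ψ e' f' a = a := sub_eq_zero.1 h3
  have h5 : hp ψ e' f' b = b := by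
    rw [h3] at h2
    exact (sub_eq_zero.1 h2.symm).symm
  obtain ⟨c, hc⟩ := cas_line h' h4
  obtain ⟨d, hd⟩ := cas_line h' h5
  by_cases hc0 : c = 0
  · right
    have ha0 : a = 0 := by rw [hc, hc0, zero_smul]
    rw [ha0, zero_add] at hab
    rw [hab]
    exact hb
  · left
    rw [hc] at ha
    have h6 := A.smul_mem c⁻¹ ha
    rwa [smul_smul, inv_mul_cancel₀ hc0, one_smul] at h6

theorem trich (hc : Ctx ψ Γ) (h : Pair ψ Γ e f) (h' : Pair ψ Γ e' f') :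
    LS Γ e' = LS Γ e ∨ LS Γ e' = LS Γ f ∨ LS Γ e' ≤ perp ψ (LS Γ e ⊔ LS Γ f) := by
  have hA := (clif hc h).1
  have hB := (clif hc h.symm).1
  have hcompl := blk_compl hc h
  have hst := stab_sup (ls_stab Γ e) (ls_stab Γ f)
  have key : ∀ {x : V}, IrrMin Γ (LS Γ x) → e' ∈ LS Γ x → LS Γ e' = LS Γ x := fun hx hm =>
    cas_eq_of_le hx (ls_stab Γ e') (cas_ls_ne_bot h'.ne) (ls_le (ls_stab Γ _) hm)
  obtain ⟨b, v, hb, hv, hbv⟩ := Submodule.codisjoint_iff_exists_add_eq.1 hcompl.codisjoint e'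
  rcases cas_split hst (hc.stab_perp hst) hcompl.disjoint h' hb hv hbv.symm with h1 | h1
  · rcases dich hc h with ⟨h2, -⟩ | ⟨hd, -⟩
    · left
      rw [← h2, sup_idem] at h1
      exact key hA h1
    · obtain ⟨u, hu, w, hw, huw⟩ := Submodule.mem_sup.1 h1
      rcases cas_split (ls_stab Γ e) (ls_stab Γ f) hd h' hu hw huw.symm with h2 | h2
      · exact Or.inl (key hA h2)
      · exact Or.inr (Or.inl (key hB h2))
  · exact Or.inr (Or.inr (ls_le (hc.stab_perp hst) h1))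

end Pool.Agent.H91U
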