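import Pool.Agent.H91U.Basic
import Pool.Agent.H91S.LieIrr

/-! The subspace generated by an independent vector is irreducible under the Lie algebra, and it is
the image of a projection in the stable commutant.

PROOF (adapts `irr_abs` of `H91S/LieIrr.lean`, whose parts c, d do not use `hirr`).
(a) Let `S` be the sum of all `IrrMin` subspaces. It is stable under `Γ` (`IrrMin.map`), so it has a
`Γ`-stable complement `D` (`hc.ss`), which is `Stab` (`lie_stab`). If `D ≠ ⊥`, it contains an `IrrMin`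
subspace (minimal nonzero `Stab` subspace below `D`), which lies in `S ⊓ D = ⊥`: contradiction. So
`S = ⊤`.
(b) `irr_exists` with `φ = ψ.flip f` (`φ e ≠ 0` is `h.ef`): some `IrrMin` subspace `U` contains `w` with
`ψ w f ≠ 0`, so `e ∈ U` (`h.coord_e`). `LS Γ e ≤ U` (`ls_le`) and `LS Γ e ≠ ⊥`, so `LS Γ e = U`.
(c) `T = irrT Γ U` is `sSupIndep`, hence finite, exactly as in `irr_abs` with `hp := h.coord_e`.
(d) `sSup T` is stable under `Γ`, so it has a `Γ`-stable complement `D` (`hc.ss`). `C = sSup (T \ {U}) ⊔ D`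
is a complement of `U`. The kernel `Δ` of the action on `T` preserves `U` and `C`, so the projection
onto `U` along `C` commutes with `Δ`. -/

set_option linter.unusedSectionVars false

namespace Pool.Agent.H91U

open Pool.Agent.H91.Mono Pool.Agent.H91S

variable {K V : Type*} [Field K] [CharZero K] [AddCommGroup V] [Module K V]
  [FiniteDimensional K V] {ψ : V →ₗ[K] V →ₗ[K] K} {Γ : Subgroup (V ≃ₗ[K] V)} {e f : V}

private theorem Clif_min {D : Submodule K V} (hD : Stab Γ D) (h0 : D ≠ ⊥) :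
    ∃ M, IrrMin Γ M ∧ M ≤ D := by
  obtain ⟨M, hM⟩ := exists_minimal_of_wellFoundedLT
    (fun W : Submodule K V => Stab Γ W ∧ W ≤ D ∧ W ≠ ⊥) ⟨D, hD, le_rfl, h0⟩
  refine ⟨M, ⟨hM.prop.2.2, hM.prop.1, ?_⟩, hM.prop.2.1⟩
  intro W hW hle
  by_cases h : W = ⊥
  · exact Or.inl h
  · exact Or.inr (le_antisymm hle (hM.le_of_le ⟨hW, hle.trans hM.prop.2.1, h⟩ hle))

private theorem Clif_top (hc : Ctx ψ Γ) : sSup {W : Submodule K V | IrrMin Γ W} = ⊤ := by
  set S := sSup {W : Submodule K V | IrrMin Γ W} with hS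
  have hst : ∀ γ ∈ Γ, ∀ w ∈ S, (γ : V ≃ₗ[K] V) w ∈ S := by
    intro γ hγ
    have h1 : S ≤ S.comap (γ : V →ₗ[K] V) := by
      apply sSup_le
      intro A hA
      rw [← Submodule.map_le_iff_le_comap]
      exact le_sSup (IrrMin.map hA hγ)
    intro w hw
    exact h1 hw
  obtain ⟨D, hD, hcompl⟩ := hc.ss S hst
  have hDst : Stab Γ D := fun x hx w hw => lie_stab D hD hx w hw
  by_cases h0 : D = ⊥
  · have h1 := hcompl.sup_eq_top
    rwa [h0, sup_bot_eq] at h1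
  · exfalso
    obtain ⟨M, hM, hMD⟩ := Clif_min hDst h0
    have hMS : M ≤ S := le_sSup hM
    apply hM.1
    rw [eq_bot_iff, ← hcompl.inf_eq_bot]
    exact le_inf hMS hMD

private theorem Clif_indep {e : V} (he0 : e ≠ 0) (φ : V →ₗ[K] K) (he : φ e ≠ 0)
    (hp : ∀ W : Submodule K V, Stab Γ W → ∀ w ∈ W, φ w ≠ 0 → e ∈ W) {U : Submodule K V}
    (hU : IrrMin Γ U) (heU : e ∈ U) : sSupIndep (irrT Γ U) := by
  have hTmin : ∀ A ∈ irrT Γ U, IrrMin Γ A := by
    rintro _ ⟨γ, rfl⟩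
    exact hU.map γ.2
  rintro A ⟨γ, rfl⟩
  have hA : IrrMin Γ (U.map ((γ : V ≃ₗ[K] V) : V →ₗ[K] V)) := hU.map γ.2
  have hS : Stab Γ (sSup (irrT Γ U \ {U.map ((γ : V ≃ₗ[K] V) : V →ₗ[K] V)})) :=
    irr_stab_sSup fun W hW => (hTmin W hW.1).2.1
  rcases hA.2.2 _ (irr_stab_inf hA.2.1 hS) inf_le_left with h | h
  · exact disjoint_iff.2 h
  · exfalso
    have heA : (γ : V ≃ₗ[K] V) e ∈ U.map ((γ : V ≃ₗ[K] V) : V →ₗ[K] V) :=
      Submodule.mem_map_of_mem heU
    have h1 : (γ : V ≃ₗ[K] V) e ∈ sSup (irrT Γ U \ {U.map ((γ : V ≃ₗ[K] V) : V →ₗ[K] V)}) :=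
      (inf_eq_left.1 h) heA
    obtain ⟨B, hB, w, hw, hφw⟩ := irr_exists
      (φ ∘ₗ (((γ : V ≃ₗ[K] V)⁻¹ : V ≃ₗ[K] V) : V →ₗ[K] V)) h1 (by
        show φ ((γ : V ≃ₗ[K] V)⁻¹ ((γ : V ≃ₗ[K] V) e)) ≠ 0
        have : (γ : V ≃ₗ[K] V)⁻¹ ((γ : V ≃ₗ[K] V) e) = e :=
          (γ : V ≃ₗ[K] V).symm_apply_apply e
        rwa [this])
    have hBm := hTmin B hB.1
    have h2 : e ∈ B.map (((γ : V ≃ₗ[K] V)⁻¹ : V ≃ₗ[K] V) : V →ₗ[K] V) :=
      hp _ (stab_map hBm.2.1 (Γ.inv_mem γ.2)) _ (Submodule.mem_map_of_mem hw) hφw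
    have h3 : (γ : V ≃ₗ[K] V) e ∈ B := by
      have := Submodule.mem_map_of_mem (f := ((γ : V ≃ₗ[K] V) : V →ₗ[K] V)) h2
      rwa [irr_map_inv'] at this
    have h4 : (γ : V ≃ₗ[K] V) e ≠ 0 := by
      intro h5
      exact he0 ((γ : V ≃ₗ[K] V).map_eq_zero_iff.1 h5)
    have h5 := hA.le heA h4 hBm.2.1 h3
    rcases hBm.2.2 _ hA.2.1 h5 with h6 | h6
    · exact hA.1 h6
    · exact hB.2 h6.symm

theorem clif (hc : Ctx ψ Γ) (h : Pair ψ Γ e f) :
    IrrMin Γ (LS Γ e) ∧ ∃ c : Module.End K V, Comm Γ c ∧ (∀ v, c v ∈ LS Γ e) ∧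
      ∀ u ∈ LS Γ e, c u = u := by
  have he0 : e ≠ 0 := h.ne
  -- (b) a minimal stable subspace which contains `e`
  obtain ⟨U, hU, heU⟩ : ∃ U, IrrMin Γ U ∧ e ∈ U := by
    have h1 : e ∈ sSup {W : Submodule K V | IrrMin Γ W} := by
      rw [Clif_top hc]
      exact Submodule.mem_top
    obtain ⟨U, hU, w, hw, hφw⟩ := irr_exists (ψ.flip f) h1 h.ef
    exact ⟨U, hU, h.coord_e hU.2.1 hw hφw⟩
  have hLS : LS Γ e = U := by
    rcases hU.2.2 _ (ls_stab Γ e) (ls_le hU.2.1 heU) with h1 | h1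
    · exfalso
      have h2 := mem_ls Γ e
      rw [h1] at h2
      exact he0 ((Submodule.mem_bot K).1 h2)
    · exact h1
  rw [hLS]
  refine ⟨hU, ?_⟩
  -- (c) independence
  have hind : sSupIndep (irrT Γ U) := Clif_indep he0 (ψ.flip f) h.ef
    (fun W hW w hw hne => h.coord_e hW hw hne) hU heU
  have hfin : (irrT Γ U).Finite := WellFoundedGT.finite_of_sSupIndep hind
  -- the kernel of the action on the translates
  let act : MulAction Γ (irrT Γ U) :=
    { smul := fun δ A => ⟨A.1.map ((δ : V ≃ₗ[K] V) : V →ₗ[K] V), irrT_map A.2 δ⟩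
      one_smul := by
        intro A
        apply Subtype.ext
        show A.1.map (((1 : Γ) : V ≃ₗ[K] V) : V →ₗ[K] V) = A.1
        exact Submodule.map_id _
      mul_smul := by
        intro γ δ A
        apply Subtype.ext
        show A.1.map (((γ * δ : Γ) : V ≃ₗ[K] V) : V →ₗ[K] V) =
          (A.1.map ((δ : V ≃ₗ[K] V) : V →ₗ[K] V)).map ((γ : V ≃ₗ[K] V) : V →ₗ[K] V)
        rw [← Submodule.map_comp]
        rfl }
  have : Finite (irrT Γ U) := hfin
  have hfix : ∀ γ : Γ, γ ∈ (MulAction.toPermHom Γ (irrT Γ U)).ker → ∀ A ∈ irrT Γ U,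
      A.map ((γ : V ≃ₗ[K] V) : V →ₗ[K] V) = A := by
    intro γ hγ A hA
    rw [MonoidHom.mem_ker] at hγ
    have h1 := congrArg (fun f : Equiv.Perm (irrT Γ U) => (f ⟨A, hA⟩).1) hγ
    exact h1
  -- (d) the complement
  have hst : ∀ γ ∈ Γ, ∀ w ∈ sSup (irrT Γ U), (γ : V ≃ₗ[K] V) w ∈ sSup (irrT Γ U) := by
    intro γ hγ
    have h1 : sSup (irrT Γ U) ≤ (sSup (irrT Γ U)).comap (γ : V →ₗ[K] V) := by
      apply sSup_le
      intro A hA
      rw [← Submodule.map_le_iff_le_comap]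
      exact le_sSup (irrT_map hA ⟨γ, hγ⟩)
    intro w hw
    exact h1 hw
  obtain ⟨D, hD, hcD⟩ := hc.ss _ hst
  set C₀ := sSup (irrT Γ U \ {U}) with hC₀
  have hle : C₀ ≤ sSup (irrT Γ U) := sSup_le_sSup Set.sdiff_subset
  have hUle : U ≤ sSup (irrT Γ U) := le_sSup (irrT_self U)
  have hcompl : IsCompl U (C₀ ⊔ D) := by
    constructor
    · rw [Submodule.disjoint_def]
      intro x hxU hx
      obtain ⟨y, hy, z, hz, hyz⟩ := Submodule.mem_sup.1 hx
      have h1 : z ∈ sSup (irrT Γ U) := by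
        have h2 : z = x - y := by rw [← hyz]; abel
        rw [h2]
        exact Submodule.sub_mem _ (hUle hxU) (hle hy)
      have h2 : z = 0 := Submodule.disjoint_def.1 hcD.disjoint z h1 hz
      rw [h2, add_zero] at hyz
      rw [hyz] at hy
      exact Submodule.disjoint_def.1 (hind (irrT_self U)) x hxU hy
    · rw [codisjoint_iff, ← top_le_iff, ← hcD.sup_eq_top, ← sup_assoc]
      refine sup_le_sup_right ?_ D
      apply sSup_le
      intro A hA
      by_cases h : A = U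
      · rw [h]; exact le_sup_left
      · have h1 : A ∈ irrT Γ U \ {U} := ⟨hA, h⟩
        exact le_sup_of_le_right (le_sSup h1)
  refine ⟨U.projection (C₀ ⊔ D) hcompl, ?_, fun v => Submodule.projection_apply_mem hcompl v,
    fun u hu => Submodule.projection_apply_of_mem_left hcompl hu⟩
  refine ⟨(MulAction.toPermHom Γ (irrT Γ U)).ker, Subgroup.finiteIndex_ker _, ?_⟩
  intro γ hγ v
  have hUγ : ∀ u ∈ U, (γ : V ≃ₗ[K] V) u ∈ U := by
    intro u hu
    have := Submodule.mem_map_of_mem (f := ((γ : V ≃ₗ[K] V) : V →ₗ[K] V)) hu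
    rw [hfix γ hγ U (irrT_self U)] at this
    exact this
  have hCγ : ∀ u ∈ C₀ ⊔ D, (γ : V ≃ₗ[K] V) u ∈ C₀ ⊔ D := by
    have h1 : C₀ ≤ C₀.comap ((γ : V ≃ₗ[K] V) : V →ₗ[K] V) := by
      apply sSup_le
      intro A hA
      rw [← Submodule.map_le_iff_le_comap, hfix γ hγ A hA.1]
      exact le_sSup hA
    intro u hu
    obtain ⟨y, hy, z, hz, rfl⟩ := Submodule.mem_sup.1 hu
    rw [map_add]
    exact Submodule.add_mem_sup (h1 hy) (hD _ γ.2 z hz)
  obtain ⟨u, hu, c, hc', rfl⟩ : ∃ u ∈ U, ∃ c ∈ C₀ ⊔ D, u + c = v := by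
    have : v ∈ U ⊔ (C₀ ⊔ D) := by rw [hcompl.sup_eq_top]; exact Submodule.mem_top
    exact Submodule.mem_sup.1 this
  rw [map_add, map_add, map_add, Submodule.projection_apply_of_mem_left hcompl hu,
    Submodule.projection_apply_of_mem_left hcompl (hUγ u hu),
    (Submodule.projection_apply_eq_zero_iff hcompl).2 hc',
    (Submodule.projection_apply_eq_zero_iff hcompl).2 (hCγ c hc'), add_zero, add_zero]

end Pool.Agent.H91U
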