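import Pool.Agent.H91S.K3

/-! All conjugates of a K3-type root are independent.

`H91S/K3.lean` (`indep_of_k3`) proves it for the complex root that corresponds to `y` under one
choice of embeddings of the splitting field `L`. Here `z` is any complex root of the irreducible
`R` with `R(y) = 0`: some embedding of `L` in `ℂ` maps the root `x'` with `jp x' = y` to `z`. -/

set_option linter.unusedSectionVars false

namespace Pool.Agent.H91U

open Polynomial TensorProduct Pool.Agent.H93Tate Pool.Agent.H91.Mono Pool.Agent.H91S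

variable {p n : ℕ} [hp : Fact p.Prime] {P : ℚ[X]}

private lemma slope_list (xs : List ℂ) (f : ℂ → PadicAlgCl p) (hf : ∀ z ∈ xs, f z ≠ 0) :
    slope p n (xs.map f).prod = (xs.map fun z => slope p n (f z)).sum := by
  induction xs with
  | nil => simp [H93Tate.slope]
  | cons a l ih =>
    have h1 : (l.map f).prod ≠ 0 := by
      rw [Ne, List.prod_eq_zero_iff, List.mem_map]
      rintro ⟨z, hz, h0⟩
      exact hf z (List.mem_cons_of_mem _ hz) h0
    rw [List.map_cons, List.prod_cons, slope_mul (hf a List.mem_cons_self) h1,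
      ih (fun z hz => hf z (List.mem_cons_of_mem _ hz)), List.map_cons, List.sum_cons]

private lemma sum_list (xs : List ℂ) (s : ℂ → ℝ) (δ : ℝ) (x x' : ℂ) (hxx : x ≠ x')
    (h1 : s x = δ) (h2 : s x' = -δ) (h3 : ∀ z ∈ xs, z ≠ x → z ≠ x' → s z = 0) :
    (xs.map s).sum = δ * ((xs.count x : ℝ) - xs.count x') := by
  induction xs with
  | nil => simp
  | cons a l ih =>
    rw [List.map_cons, List.sum_cons, ih (fun z hz => h3 z (List.mem_cons_of_mem _ hz)),
      List.count_cons, List.count_cons]
    by_cases ha : a = x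
    · subst ha
      have hne : ¬ a = x' := hxx
      simp only [hne, h1, beq_self_eq_true, beq_iff_eq, if_true, if_false]
      push_cast
      ring
    · by_cases hb : a = x'
      · subst hb
        simp only [ha, h2, beq_self_eq_true, beq_iff_eq, if_true, if_false]
        push_cast
        ring
      · simp only [ha, hb, beq_iff_eq, if_false, h3 a List.mem_cons_self ha hb]
        push_cast
        ring

private lemma norm_list (xs : List ℂ) (c : ℝ) (h : ∀ z ∈ xs, ‖z‖ ^ 2 = c) :
    ‖xs.prod‖ ^ 2 = c ^ xs.length := by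
  induction xs with
  | nil => simp
  | cons a l ih =>
    rw [List.prod_cons, norm_mul, mul_pow, h a List.mem_cons_self,
      ih (fun z hz => h z (List.mem_cons_of_mem _ hz)), List.length_cons, pow_succ, mul_comm]

private lemma sum_shift (xs : List ℂ) (f : ℂ → ℝ) :
    (xs.map fun z => f z - 1 / 2).sum = (xs.map f).sum - xs.length / 2 := by
  induction xs with
  | nil => simp
  | cons a l ih =>
    rw [List.map_cons, List.sum_cons, ih, List.map_cons, List.sum_cons, List.length_cons]
    push_cast
    ring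

private theorem core (hn : 0 < n) (hP : P ≠ 0)
    (hweil : ∀ z : ℂ, aeval z P = 0 → ‖z‖ ^ 2 = (p : ℝ) ^ n) (y : PadicAlgCl p)
    (hy1 : aeval y (derivative P) ≠ 0) (hy2 : slope p n y ≠ 1 / 2)
    (hy3 : ∀ z : PadicAlgCl p, aeval z P = 0 → z ≠ y → z * y ≠ (p : PadicAlgCl p) ^ n →
      slope p n z = 1 / 2) (jp : P.SplittingField →ₐ[ℚ] PadicAlgCl p)
    (jC : P.SplittingField →ₐ[ℚ] ℂ) (x' : P.SplittingField) (hx' : aeval x' P = 0)
    (hxy : jp x' = y) : Indep ((p : ℂ) ^ n) P (jC x') := by
  classical
  let L := P.SplittingField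
  have hjp : Function.Injective jp := jp.toRingHom.injective
  have hjC : Function.Injective jC := jC.toRingHom.injective
  have hp0 : (0 : ℝ) < (p : ℝ) ^ n := pow_pos (by exact_mod_cast hp.out.pos) n
  have hlift : ∀ z : ℂ, aeval z P = 0 → ∃ w : L, aeval w P = 0 ∧ jC w = z := by
    intro z hz
    have h1 := (SplittingField.splits P).image_rootSet jC
    have h2 : z ∈ P.rootSet ℂ := mem_rootSet.2 ⟨hP, hz⟩
    rw [← h1] at h2
    obtain ⟨w, hw, hwz⟩ := h2
    exact ⟨w, (mem_rootSet.1 hw).2, hwz⟩
  have hx0 : aeval (jC x') P = 0 := by rw [aeval_algHom_apply, hx', map_zero]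
  have hz0 : ∀ z : ℂ, aeval z P = 0 → z ≠ 0 := by
    intro z hz h0
    have h1 := hweil z hz
    rw [h0, norm_zero] at h1
    have h2 : (0 : ℝ) ^ 2 = 0 := by norm_num
    rw [h2] at h1
    exact hp0.ne h1
  have hxC : jC x' ≠ 0 := hz0 _ hx0
  have hx'0 : x' ≠ 0 := fun h0 => hxC (by rw [h0, map_zero])
  have hy00 : y ≠ 0 := by
    rw [← hxy]
    intro h0
    exact hx'0 (hjp (by rw [h0, map_zero]))
  have hpL : jC ((p : L) ^ n) = (p : ℂ) ^ n := by rw [map_pow, map_natCast]
  have hpp : jp ((p : L) ^ n) = (p : PadicAlgCl p) ^ n := by rw [map_pow, map_natCast]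
  have hpp0 : (p : PadicAlgCl p) ^ n ≠ 0 := pow_ne_zero _ (by exact_mod_cast hp.out.ne_zero)
  have hsq : jC x' ^ 2 ≠ (p : ℂ) ^ n := by
    intro h1
    have h2 : x' ^ 2 = (p : L) ^ n := by
      apply hjC
      rw [map_pow, h1, hpL]
    have h3 : y ^ 2 = (p : PadicAlgCl p) ^ n := by
      rw [← hxy, ← map_pow, h2, hpp]
    have h4 : slope p n (y ^ 2) = 1 := by rw [h3, slope_N hn]
    rw [slope_pow] at h4
    apply hy2
    push_cast at h4
    linarith
  refine ⟨hx0, ?_, hsq, ?_⟩
  · intro h1
    rw [aeval_algHom_apply] at h1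
    have h2 : aeval x' (derivative P) = 0 := hjC (by rw [h1, map_zero])
    apply hy1
    rw [← hxy, aeval_algHom_apply, h2, map_zero]
  · intro xs T hxs hprod
    -- preimages
    let w : ℂ → L := fun z => if h : ∃ v, jC v = z then h.choose else 0
    have hw : ∀ v, w (jC v) = v := by
      intro v
      have h1 : ∃ v', jC v' = jC v := ⟨v, rfl⟩
      have h2 : w (jC v) = h1.choose := dif_pos h1
      rw [h2]
      exact hjC h1.choose_spec
    have hwz : ∀ z, aeval z P = 0 → jC (w z) = z := by
      intro z hz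
      obtain ⟨v, -, rfl⟩ := hlift z hz
      rw [hw]
    have hwP : ∀ z, aeval z P = 0 → aeval (w z) P = 0 := by
      intro z hz
      obtain ⟨v, hv, rfl⟩ := hlift z hz
      rw [hw, hv]
    have hprodL : (xs.map w).prod = ((p : L) ^ n) ^ T := by
      apply hjC
      rw [map_list_prod, List.map_map, map_pow, hpL, ← hprod]
      congr 1
      conv_rhs => rw [← List.map_id xs]
      exact List.map_congr_left fun z hz => hwz z (hxs z hz)
    have hprodp : (xs.map fun z => jp (w z)).prod = ((p : PadicAlgCl p) ^ n) ^ T := by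
      have h1 := congrArg jp hprodL
      rw [map_list_prod, List.map_map, map_pow, hpp] at h1
      exact h1
    have hf0 : ∀ z ∈ xs, jp (w z) ≠ 0 := by
      intro z hz h0
      have h1 : w z = 0 := hjp (by rw [h0, map_zero])
      have h2 := hwz z (hxs z hz)
      rw [h1, map_zero] at h2
      exact hz0 z (hxs z hz) h2.symm
    have hslope : (xs.map fun z => slope p n (jp (w z))).sum = T := by
      rw [← slope_list xs (fun z => jp (w z)) hf0, hprodp, slope_pow, slope_N hn, mul_one]
    have hlen : xs.length = 2 * T := by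
      have h1 := norm_list xs ((p : ℝ) ^ n) (fun z hz => hweil z (hxs z hz))
      rw [hprod, norm_pow, norm_pow, Complex.norm_natCast, ← pow_mul] at h1
      have h2 := pow_right_injective₀ hp0 (ne_of_gt (one_lt_pow (p := p) hn)) h1
      omega
    have hsum : (xs.map fun z => slope p n (jp (w z)) - 1 / 2).sum = 0 := by
      rw [sum_shift xs (fun z => slope p n (jp (w z))), hslope, hlen]
      push_cast
      ring
    have hq : (p : ℂ) ^ n / jC x' = jC ((p : L) ^ n / x') := by
      rw [map_div₀, hpL]
    have hne : jC x' ≠ (p : ℂ) ^ n / jC x' := by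
      intro h1
      rw [eq_div_iff hxC] at h1
      exact hsq (by rw [pow_two]; exact h1)
    have hkey := sum_list xs (fun z => slope p n (jp (w z)) - 1 / 2) (slope p n y - 1 / 2)
      (jC x') ((p : ℂ) ^ n / jC x') hne
      (by rw [hw, hxy])
      (by
        rw [hq, hw, map_div₀, hpp, hxy]
        have h0 : (p : PadicAlgCl p) ^ n / y ≠ 0 := div_ne_zero hpp0 hy00
        have h1 : slope p n ((p : PadicAlgCl p) ^ n / y) + slope p n y = 1 := by
          rw [← slope_mul h0 hy00, div_mul_cancel₀ _ hy00, slope_N hn]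
        linarith)
      (by
        intro z hz h1 h2
        have h3 : slope p n (jp (w z)) = 1 / 2 := by
          apply hy3 (jp (w z))
          · rw [aeval_algHom_apply, hwP z (hxs z hz), map_zero]
          · intro h4
            rw [← hxy] at h4
            apply h1
            rw [← hjp h4, hwz z (hxs z hz)]
          · intro h4
            rw [← hxy, ← map_mul, ← hpp] at h4
            have h5 := congrArg jC (hjp h4)
            rw [map_mul, hwz z (hxs z hz), hpL] at h5
            apply h2
            rw [eq_div_iff hxC, h5]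
        show slope p n (jp (w z)) - 1 / 2 = 0
        rw [h3, sub_self])
    rw [hsum] at hkey
    rcases mul_eq_zero.1 hkey.symm with h1 | h1
    · exact absurd (by linarith) hy2
    · have h2 : ((xs.count (jC x') : ℕ) : ℝ) = ((xs.count ((p : ℂ) ^ n / jC x') : ℕ) : ℝ) := by
        linarith
      exact_mod_cast h2

theorem indep_of_k3r {p n : ℕ} [Fact p.Prime] {P : ℚ[X]} (hn : 0 < n) (hP : P ≠ 0)
    (hweil : ∀ z : ℂ, aeval z P = 0 → ‖z‖ ^ 2 = (p : ℝ) ^ n) {R : ℚ[X]} (hR : Irreducible R)
    (y : PadicAlgCl p) (hy : aeval y R = 0) (h0 : aeval y P = 0)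
    (h1 : aeval y (derivative P) ≠ 0) (h2 : slope p n y ≠ 1 / 2)
    (h3 : ∀ z : PadicAlgCl p, aeval z P = 0 → z ≠ y → z * y ≠ (p : PadicAlgCl p) ^ n →
      slope p n z = 1 / 2) (z : ℂ) (hz : aeval z R = 0) : Indep ((p : ℂ) ^ n) P z := by
  classical
  let L := P.SplittingField
  let jp : L →ₐ[ℚ] PadicAlgCl p := IsAlgClosed.lift
  have hjp : Function.Injective jp := jp.toRingHom.injective
  obtain ⟨x', hx', hxy⟩ : ∃ x' : L, aeval x' P = 0 ∧ jp x' = y := by
    have h1 := (SplittingField.splits P).image_rootSet jp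
    have h2 : y ∈ P.rootSet (PadicAlgCl p) := mem_rootSet.2 ⟨hP, h0⟩
    rw [← h1] at h2
    obtain ⟨z, hz, hzy⟩ := h2
    exact ⟨z, (mem_rootSet.1 hz).2, hzy⟩
  have hxR : aeval x' R = 0 := by
    apply hjp
    rw [← aeval_algHom_apply, hxy, hy, map_zero]
  obtain ⟨j, hj⟩ := IntermediateField.exists_algHom_of_splits_of_aeval (F := ℚ)
    (E := P.SplittingField) (K := ℂ) (x := x') (y := z)
    (fun s => ⟨(Algebra.IsAlgebraic.isAlgebraic s).isIntegral, IsAlgClosed.splits _⟩)
    (by rw [← minpoly.eq_of_irreducible hR hxR, map_mul, hz, zero_mul])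
  have h4 := core hn hP hweil y h1 h2 h3 jp j x' hx' hxy
  rwa [hj] at h4

end Pool.Agent.H91U
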