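import Pool.Agent.H91.Mono.Ss2
import Pool.Agent.H91S.ExpPoly

/-! The semisimple part of an element of the group lies in the Zariski closure (same proof as in
H91S/JordanP.lean, with the decomposition in the conclusion). -/

set_option linter.unusedSectionVars false

namespace Pool.Agent.H91U

open Pool.Agent.H91.Mono Pool.Agent.H91S

section EP

variable {K : Type*} [Field K] [CharZero K]

/-- exponential polynomials in two variables -/
private def EP (Φ : ℕ → K → K) : Prop :=
  ∃ (ι : Type) (_ : Fintype ι) (χ : ι → K) (p : ι → Polynomial K), (∀ i, χ i ≠ 0) ∧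
    ∀ m t, Φ m t = ∑ i, χ i ^ m * (p i).eval t

private lemma EP_single {χ : K} (h : χ ≠ 0) (p : Polynomial K) :
    EP (fun m t => χ ^ m * p.eval t) :=
  ⟨Unit, inferInstance, fun _ => χ, fun _ => p, fun _ => h, fun m t => by simp⟩

private lemma EP_congr {Φ Ψ : ℕ → K → K} (h : EP Φ) (e : ∀ m t, Ψ m t = Φ m t) : EP Ψ := by
  obtain ⟨ι, i1, χ, p, h0, h1⟩ := h
  exact ⟨ι, i1, χ, p, h0, fun m t => by rw [e, h1]⟩

private lemma EP_const (c : K) : EP (fun _ _ => c) :=
  EP_congr (EP_single one_ne_zero (Polynomial.C c)) fun m t => by simp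

private lemma EP_add {Φ Ψ : ℕ → K → K} (h : EP Φ) (h' : EP Ψ) :
    EP (fun m t => Φ m t + Ψ m t) := by
  obtain ⟨ι, i1, χ, p, h0, h1⟩ := h
  obtain ⟨ι', i1', χ', p', h0', h1'⟩ := h'
  refine ⟨ι ⊕ ι', inferInstance, Sum.elim χ χ', Sum.elim p p', ?_, fun m t => ?_⟩
  · rintro (i | i)
    · exact h0 i
    · exact h0' i
  · show Φ m t + Ψ m t = _
    rw [h1, h1', Fintype.sum_sum_type]
    rfl

private lemma EP_mul {Φ Ψ : ℕ → K → K} (h : EP Φ) (h' : EP Ψ) :
    EP (fun m t => Φ m t * Ψ m t) := by
  obtain ⟨ι, i1, χ, p, h0, h1⟩ := h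
  obtain ⟨ι', i1', χ', p', h0', h1'⟩ := h'
  refine ⟨ι × ι', inferInstance, fun i => χ i.1 * χ' i.2, fun i => p i.1 * p' i.2,
    fun i => mul_ne_zero (h0 _) (h0' _), fun m t => ?_⟩
  show Φ m t * Ψ m t = _
  rw [h1, h1', Finset.sum_mul_sum, Fintype.sum_prod_type]
  refine Finset.sum_congr rfl fun i _ => Finset.sum_congr rfl fun j _ => ?_
  rw [mul_pow, Polynomial.eval_mul]
  ring

private lemma EP_sum {ι : Type*} (s : Finset ι) (Φ : ι → ℕ → K → K) (h : ∀ i ∈ s, EP (Φ i)) :
    EP (fun m t => ∑ i ∈ s, Φ i m t) := by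
  classical
  induction s using Finset.induction_on with
  | empty => exact EP_congr (EP_const 0) fun m t => by simp
  | insert a s ha ih =>
    refine EP_congr (EP_add (h a (Finset.mem_insert_self a s))
      (ih fun i hi => h i (Finset.mem_insert_of_mem hi))) fun m t => ?_
    rw [Finset.sum_insert ha]

private lemma EP_zero {Φ : ℕ → K → K} (h : EP Φ) (h0 : ∀ m : ℕ, Φ m (m : K) = 0) (m : ℕ)
    (t : K) : Φ m t = 0 := by
  classical
  obtain ⟨ι, _, χ, p, hχ, h1⟩ := h
  let c : K → Polynomial K := fun x => ∑ i with χ i = x, p i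
  have key : ∀ m t, Φ m t = ∑ x ∈ Finset.univ.image χ, x ^ m * (c x).eval t := by
    intro m t
    rw [h1, ← Finset.sum_fiberwise_of_maps_to (s := Finset.univ) (t := Finset.univ.image χ)
      (g := χ) (fun i _ => Finset.mem_image_of_mem χ (Finset.mem_univ i))]
    refine Finset.sum_congr rfl fun x _ => ?_
    rw [Polynomial.eval_finset_sum, Finset.mul_sum]
    refine Finset.sum_congr rfl fun i hi => ?_
    rw [(Finset.mem_filter.1 hi).2]
  have hc := exp_poly' (Finset.univ.image χ) (by
    intro x hx
    obtain ⟨i, -, rfl⟩ := Finset.mem_image.1 hx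
    exact hχ i) c (fun m => by rw [← key]; exact h0 m)
  rw [key]
  exact Finset.sum_eq_zero fun x hx => by rw [hc x hx, Polynomial.eval_zero, mul_zero]

/-- binomial polynomials -/
private noncomputable def bin (K : Type*) [Field K] (k : ℕ) : Polynomial K :=
  Polynomial.C ((k.factorial : K)⁻¹) * descPochhammer K k

private lemma bin_nat (m k : ℕ) : (bin K k).eval (m : K) = (m.choose k : K) := by
  rw [bin, Polynomial.eval_mul, Polynomial.eval_C, descPochhammer_eval_eq_descFactorial,
    Nat.descFactorial_eq_factorial_mul_choose, Nat.cast_mul,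
    inv_mul_cancel_left₀ (Nat.cast_ne_zero.2 k.factorial_ne_zero)]

end EP

variable {K : Type*} [Field K] [CharZero K] {V : Type*} [AddCommGroup V] [Module K V]

/-- `s ^ m (1 + N) ^ t` -/
private noncomputable def GG (s N : Module.End K V) (d m : ℕ) (t : K) : Module.End K V :=
  s ^ m * ∑ k ∈ Finset.range d, ((bin K k).eval t) • N ^ k

private lemma GG_nat {s N : Module.End K V} {d : ℕ} (hN : N ^ d = 0) (hc : Commute s N) (m : ℕ) :
    GG s N d m (m : K) = (s * (1 + N)) ^ m := by
  have h1 : Commute s (1 + N) := (Commute.one_right s).add_right hc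
  rw [h1.mul_pow, GG]
  congr 1
  have h2 := (Commute.one_right N).add_pow m
  rw [add_comm 1 N, h2]
  have hzero : ∀ k, d ≤ k → N ^ k = 0 := fun k hk => pow_eq_zero_of_le hk hN
  have e1 : ∑ k ∈ Finset.range d, ((bin K k).eval (m : K)) • N ^ k =
      ∑ k ∈ Finset.range (d + (m + 1)), (m.choose k : K) • N ^ k := by
    rw [← Finset.sum_subset (s₁ := Finset.range d) (s₂ := Finset.range (d + (m + 1)))]
    · exact Finset.sum_congr rfl fun k _ => by rw [bin_nat]
    · exact Finset.range_subset_range.2 (by omega)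
    · intro k _ hk
      rw [hzero k (by rw [Finset.mem_range] at hk; omega), smul_zero]
  have e2 : ∑ k ∈ Finset.range (m + 1), N ^ k * 1 ^ (m - k) * ((m.choose k : ℕ) : Module.End K V) =
      ∑ k ∈ Finset.range (d + (m + 1)), (m.choose k : K) • N ^ k := by
    rw [← Finset.sum_subset (s₁ := Finset.range (m + 1)) (s₂ := Finset.range (d + (m + 1)))]
    · refine Finset.sum_congr rfl fun k _ => ?_
      rw [one_pow, mul_one, Nat.cast_smul_eq_nsmul, nsmul_eq_mul]
      exact (Nat.cast_commute _ _).symm.eq
    · exact Finset.range_subset_range.2 (by omega)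
    · intro k _ hk
      rw [Nat.choose_eq_zero_of_lt (by rw [Finset.mem_range] at hk; omega), Nat.cast_zero,
        zero_smul]
  rw [e1, e2]

private lemma GG_one (s N : Module.End K V) (d : ℕ) : GG s N (d + 1) 1 (0 : K) = s := by
  rw [GG, pow_one, Finset.sum_range_succ']
  have h1 : ∀ k, (bin K k).eval (0 : K) = ((0 : ℕ).choose k : K) := fun k => by
    have := bin_nat (K := K) 0 k
    rwa [Nat.cast_zero] at this
  rw [Finset.sum_eq_zero, zero_add, h1, Nat.choose_self, Nat.cast_one, one_smul, pow_zero, mul_one]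
  intro k _
  rw [h1, Nat.choose_zero_succ, Nat.cast_zero, zero_smul]

private lemma EP_fun {ι : Type*} [Fintype ι] (b : Module.Basis ι K V) (lam : ι → K)
    {s : Module.End K V} (hb : ∀ i, s (b i) = lam i • b i) (h0 : ∀ i, lam i ≠ 0)
    (N : Module.End K V) (d : ℕ) (φ : Module.Dual K (Module.End K V)) :
    EP (fun m t => φ (GG s N d m t)) := by
  classical
  have hs : ∀ m, s ^ m = ∑ i, lam i ^ m • (b.coord i).smulRight (b i) := by
    intro m
    apply b.ext
    intro j
    have h1 : (s ^ m) (b j) = lam j ^ m • b j := by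
      induction m with
      | zero => rw [pow_zero, pow_zero, one_smul, Module.End.one_apply]
      | succ m ih =>
        rw [pow_succ', Module.End.mul_apply, ih, map_smul, hb, smul_smul, ← pow_succ]
    rw [h1, LinearMap.sum_apply, Finset.sum_eq_single j]
    · rw [LinearMap.smul_apply, LinearMap.smulRight_apply, Module.Basis.coord_apply,
        Module.Basis.repr_self, Finsupp.single_eq_same, one_smul]
    · intro i _ hij
      rw [LinearMap.smul_apply, LinearMap.smulRight_apply, Module.Basis.coord_apply,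
        Module.Basis.repr_self, Finsupp.single_apply, if_neg (Ne.symm hij), zero_smul, smul_zero]
    · intro h
      exact absurd (Finset.mem_univ j) h
  have key : ∀ m t, φ (GG s N d m t) = ∑ i, ∑ k ∈ Finset.range d, lam i ^ m *
      (Polynomial.C (φ ((b.coord i).smulRight (b i) * N ^ k)) * bin K k).eval t := by
    intro m t
    rw [GG, hs, Finset.sum_mul_sum, map_sum]
    refine Finset.sum_congr rfl fun i _ => ?_
    rw [map_sum]
    refine Finset.sum_congr rfl fun k _ => ?_
    rw [smul_mul_smul_comm, map_smul, smul_eq_mul, Polynomial.eval_mul, Polynomial.eval_C]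
    ring
  refine EP_congr (EP_sum Finset.univ (fun i m t => ∑ k ∈ Finset.range d, lam i ^ m *
      (Polynomial.C (φ ((b.coord i).smulRight (b i) * N ^ k)) * bin K k).eval t) fun i _ =>
    EP_sum _ _ fun k _ => EP_single (h0 i) _) key

private lemma EP_ev {ι : Type*} [Fintype ι] (b : Module.Basis ι K V) (lam : ι → K)
    {s : Module.End K V} (hb : ∀ i, s (b i) = lam i • b i) (h0 : ∀ i, lam i ≠ 0)
    (N : Module.End K V) (d : ℕ) (f : MvPolynomial (Module.Dual K (Module.End K V)) K) :
    EP (fun m t => ev (GG s N d m t) f) := by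
  induction f using MvPolynomial.induction_on with
  | C c =>
    refine EP_congr (EP_const c) fun m t => ?_
    simp [ev]
  | add p q hp hq => exact EP_congr (EP_add hp hq) fun m t => map_add _ _ _
  | mul_X p φ hp =>
    refine EP_congr (EP_mul hp (EP_fun b lam hb h0 N d φ)) fun m t => ?_
    rw [map_mul, ev_X]

private lemma inCl_ss (Γ : Subgroup (V ≃ₗ[K] V)) {s N : Module.End K V} {ι : Type*} [Fintype ι]
    (b : Module.Basis ι K V) (lam : ι → K) (hb : ∀ i, s (b i) = lam i • b i)
    (h0 : ∀ i, lam i ≠ 0) (hc : Commute s N) (hN : IsNilpotent N)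
    (hΓ : ∀ m : ℕ, InCl Γ ((s * (1 + N)) ^ m)) : InCl Γ s := by
  obtain ⟨d, hd⟩ := hN
  have hd' : N ^ (d + 1) = 0 := by rw [pow_succ, hd, zero_mul]
  intro f hf
  have h1 := EP_zero (EP_ev b lam hb h0 N (d + 1) f) (fun m => by
    show ev (GG s N (d + 1) m (m : K)) f = 0
    rw [GG_nat hd' hc]
    exact hΓ m f hf) 1 0
  rw [GG_one] at h1
  exact h1

private lemma inCl_pow' {Γ : Subgroup (V ≃ₗ[K] V)} {g : Module.End K V} (h : InCl Γ g) (m : ℕ) :
    InCl Γ (g ^ m) := by
  induction m with
  | zero => rw [pow_zero]; exact inCl_one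
  | succ m ih => rw [pow_succ]; exact inCl_mul ih h

/-- adding a commuting nilpotent does not change the characteristic polynomial -/
private lemma charpoly_add_nil [FiniteDimensional K V] {s n : Module.End K V} (hc : Commute s n)
    (hn : IsNilpotent n) : LinearMap.charpoly (n + s) = LinearMap.charpoly s := by
  have hdet : ∀ M : Module.End K V, IsNilpotent M → LinearMap.det (1 - M) = 1 := by
    intro M hM
    have h1 := LinearMap.eval_charpoly M (1 : K)
    rw [hM.charpoly_eq_X_pow_finrank, Polynomial.eval_pow, Polynomial.eval_X, one_pow,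
      map_one] at h1
    exact h1.symm
  have key : ∀ x : K, (LinearMap.charpoly s * (LinearMap.charpoly (n + s) -
      LinearMap.charpoly s)).eval x = 0 := by
    intro x
    rw [Polynomial.eval_mul, Polynomial.eval_sub]
    by_cases hx : (LinearMap.charpoly s).eval x = 0
    · rw [hx, zero_mul]
    · rw [mul_eq_zero]
      right
      rw [sub_eq_zero, LinearMap.eval_charpoly, LinearMap.eval_charpoly]
      rw [LinearMap.eval_charpoly] at hx
      have hu : IsUnit ((algebraMap K (Module.End K V)) x - s) :=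
        (LinearMap.isUnit_iff_isUnit_det _).2 (isUnit_iff_ne_zero.2 hx)
      obtain ⟨u, hu⟩ := hu
      have hcom : Commute (u : Module.End K V) n := by
        rw [hu]
        exact Commute.sub_left (Algebra.commutes x n) hc
      have hnil : IsNilpotent ((↑u⁻¹ : Module.End K V) * n) :=
        (hcom.units_inv_left).isNilpotent_mul_left hn
      have e : (algebraMap K (Module.End K V)) x - (n + s) =
          (u : Module.End K V) * (1 - (↑u⁻¹ : Module.End K V) * n) := by
        rw [mul_sub, mul_one, ← mul_assoc, Units.mul_inv, one_mul, hu]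
        abel
      rw [e, map_mul, hdet _ hnil, mul_one, hu]
  have h1 : LinearMap.charpoly s * (LinearMap.charpoly (n + s) - LinearMap.charpoly s) = 0 :=
    Polynomial.funext fun x => by rw [key x, Polynomial.eval_zero]
  rcases mul_eq_zero.1 h1 with h2 | h2
  · exact absurd h2 (LinearMap.charpoly_monic s).ne_zero
  · exact sub_eq_zero.1 h2

/-- an eigenbasis of a semisimple endomorphism -/
private lemma JordanP_eigenbasis [IsAlgClosed K] [FiniteDimensional K V] (s : Module.End K V)
    (hs : s.IsSemisimple) :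
    ∃ (b : Module.Basis (Fin (Module.finrank K V)) K V) (lam : Fin (Module.finrank K V) → K),
      ∀ k, s (b k) = lam k • b k := by
  classical
  let eigenDecomp := DirectSum.isInternal_submodule_of_iSupIndep_of_iSup_eq_top
    s.eigenspaces_iSupIndep hs.iSup_eigenspace_eq_top
  let I := (ν : K) × Fin (Module.finrank K (s.eigenspace ν))
  let v : Module.Basis I K V :=
    eigenDecomp.collectedBasis fun μ ↦ Module.finBasis K (s.eigenspace μ)
  have : Fintype I := FiniteDimensional.fintypeBasisIndex v
  have hcard : Fintype.card I = Module.finrank K V := (Module.finrank_eq_card_basis v).symm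
  let e : I ≃ Fin (Module.finrank K V) := Fintype.equivFinOfCardEq hcard
  refine ⟨v.reindex e, fun k => (e.symm k).1, fun k => ?_⟩
  rw [Module.Basis.reindex_apply]
  exact Module.End.mem_eigenspace_iff.mp (eigenDecomp.collectedBasis_mem _ (e.symm k))

theorem EigvJ_rel [IsAlgClosed K] [FiniteDimensional K V] (Γ : Subgroup (V ≃ₗ[K] V))
    (F : V ≃ₗ[K] V) (hF : F ∈ Γ) :
    ∃ (s : V ≃ₗ[K] V) (n : Module.End K V), IsNilpotent n ∧ Commute (s : Module.End K V) n ∧
      (F : Module.End K V) = n + (s : Module.End K V) ∧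
      Module.End.IsSemisimple (s : Module.End K V) ∧
      LinearMap.charpoly (s : V →ₗ[K] V) = LinearMap.charpoly (F : V →ₗ[K] V) ∧
      InCl Γ (s : Module.End K V) ∧ InCl Γ ((s⁻¹ : V ≃ₗ[K] V) : Module.End K V) ∧
      ∀ (ψ : V →ₗ[K] V →ₗ[K] K) (q : K), (∀ u v, ψ (F u) (F v) = q * ψ u v) →
        ∀ u v, ψ (s u) (s v) = q * ψ u v := by
  classical
  obtain ⟨n, hnad, s, hsad, hnil, hss, hFns⟩ :=
    Module.End.exists_isNilpotent_isSemisimple (K := K) (f := (F : Module.End K V))
  have hFn : Commute (F : Module.End K V) n := Algebra.commute_of_mem_adjoin_self hnad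
  have hFs : Commute (F : Module.End K V) s := Algebra.commute_of_mem_adjoin_self hsad
  have hsn : Commute s n :=
    (Algebra.commute_of_mem_adjoin_singleton_of_commute hnad hFs.symm)
  -- units
  have hFu : IsUnit (F : Module.End K V) :=
    ⟨⟨(F : Module.End K V), ((F⁻¹ : V ≃ₗ[K] V) : Module.End K V),
      LinearMap.ext fun v => F.apply_symm_apply v, LinearMap.ext fun v => F.symm_apply_apply v⟩, rfl⟩
  have hsF : s = (F : Module.End K V) + -n := by rw [hFns]; abel
  have hsu : IsUnit s := by
    rw [hsF]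
    exact hnil.neg.isUnit_add_left_of_commute hFu hFn.symm.neg_left
  obtain ⟨su, hsu⟩ := hsu
  obtain ⟨b, lam, hb⟩ := JordanP_eigenbasis s hss
  have hlam : ∀ i, lam i ≠ 0 := by
    intro i h
    have h1 := hb i
    rw [h, zero_smul] at h1
    have h2 : (↑su⁻¹ : Module.End K V) (s (b i)) = b i := by
      rw [← Module.End.mul_apply, ← hsu, Units.inv_mul, Module.End.one_apply]
    rw [h1, map_zero] at h2
    exact b.ne_zero i h2.symm
  let sE : V ≃ₗ[K] V := LinearEquiv.ofLinear s (↑su⁻¹ : Module.End K V)
    (by rw [← hsu]; exact su.mul_inv) (by rw [← hsu]; exact su.inv_mul)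
  have hsE : (sE : Module.End K V) = s := rfl
  have hsEi : ((sE⁻¹ : V ≃ₗ[K] V) : Module.End K V) = (↑su⁻¹ : Module.End K V) := rfl
  obtain ⟨Fi, hFi⟩ : ∃ Fi : Module.End K V, Fi = ((F⁻¹ : V ≃ₗ[K] V) : Module.End K V) := ⟨_, rfl⟩
  have hFiF : Fi * (F : Module.End K V) = 1 := by
    rw [hFi]
    exact LinearMap.ext fun v => F.symm_apply_apply v
  have hFFi : (F : Module.End K V) * Fi = 1 := by
    rw [hFi]
    exact LinearMap.ext fun v => F.apply_symm_apply v
  have hFi_comm : ∀ y : Module.End K V, Commute (F : Module.End K V) y → Commute Fi y := by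
    intro y hy
    show Fi * y = y * Fi
    calc Fi * y = Fi * (y * ((F : Module.End K V) * Fi)) := by rw [hFFi, mul_one]
      _ = Fi * (y * (F : Module.End K V)) * Fi := by rw [mul_assoc, mul_assoc]
      _ = Fi * ((F : Module.End K V) * y) * Fi := by rw [hy.eq]
      _ = y * Fi := by rw [← mul_assoc, hFiF, one_mul]
  -- the two unipotent parts
  have hsiN : Commute (↑su⁻¹ : Module.End K V) n := by
    rw [← hsu] at hsn
    exact hsn.units_inv_left
  obtain ⟨N, hN⟩ : ∃ N : Module.End K V, N = (↑su⁻¹ : Module.End K V) * n := ⟨_, rfl⟩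
  have hNnil : IsNilpotent N := by
    rw [hN]
    exact hsiN.isNilpotent_mul_left hnil
  have hsN : Commute s N := by
    rw [hN, ← hsu]
    exact ((Commute.refl (su : Module.End K V)).units_inv_right).mul_right (by rw [hsu]; exact hsn)
  have hsN1 : s * (1 + N) = (F : Module.End K V) := by
    rw [hN, mul_add, mul_one, ← mul_assoc, ← hsu, Units.mul_inv, one_mul, hsu, hFns, add_comm]
  have hcl : InCl Γ s := inCl_ss Γ b lam hb hlam hsN hNnil fun m => by
    rw [hsN1]
    exact inCl_pow' (inCl_of_mem hF) m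
  obtain ⟨N', hN'⟩ : ∃ N' : Module.End K V, N' = -(Fi * n) := ⟨_, rfl⟩
  have hN'nil : IsNilpotent N' := by
    rw [hN']
    exact ((hFi_comm n hFn).isNilpotent_mul_left hnil).neg
  have hFis : Commute Fi s := hFi_comm s hFs
  have hsi : ∀ y : Module.End K V, Commute s y → Commute (↑su⁻¹ : Module.End K V) y := by
    intro y hy
    rw [← hsu] at hy
    exact hy.units_inv_left
  have hsN' : Commute (↑su⁻¹ : Module.End K V) N' := by
    rw [hN']
    exact ((hsi _ hFis.symm).mul_right hsiN).neg_right
  have hsN1' : (↑su⁻¹ : Module.End K V) * (1 + N') = Fi := by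
    have h1 : 1 + N' = Fi * s := by
      rw [hN', hsF, mul_add, hFiF, mul_neg]
    rw [h1, ← mul_assoc, (hsi Fi hFis.symm).eq, mul_assoc, ← hsu, Units.inv_mul, mul_one]
  have hbi : ∀ i, (↑su⁻¹ : Module.End K V) (b i) = (lam i)⁻¹ • b i := by
    intro i
    have h1 : b i = (lam i)⁻¹ • s (b i) := by
      rw [hb, smul_smul, inv_mul_cancel₀ (hlam i), one_smul]
    conv_lhs => rw [h1]
    rw [map_smul, ← Module.End.mul_apply, ← hsu, Units.inv_mul, Module.End.one_apply]
  have hcl' : InCl Γ (↑su⁻¹ : Module.End K V) :=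
    inCl_ss Γ b (fun i => (lam i)⁻¹) hbi (fun i => inv_ne_zero (hlam i)) hsN' hN'nil fun m => by
      rw [hsN1']
      refine inCl_pow' ?_ m
      rw [hFi]
      exact inCl_of_mem (Γ.inv_mem hF)
  refine ⟨sE, n, hnil, hsn, hFns, hss, ?_, hcl, hcl', ?_⟩
  · have h1 : (F : V →ₗ[K] V) = n + s := hFns
    rw [h1]
    exact (charpoly_add_nil hsn hnil).symm
  · intro ψ q hψ u v
    by_cases hq : q = 0
    · have h0 : ∀ u v, ψ u v = 0 := by
        intro u v
        have h1 := hψ (F.symm u) (F.symm v)
        rw [F.apply_symm_apply, F.apply_symm_apply, hq, zero_mul] at h1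
        exact h1
      rw [h0, h0, mul_zero]
    · obtain ⟨d, hd⟩ := hNnil
      have hd' : N ^ (d + 1) = 0 := by rw [pow_succ, hd, zero_mul]
      have hco : ∀ i w, EP (fun m t => b.repr (GG s N (d + 1) m t w) i) := by
        intro i w
        exact EP_fun b lam hb hlam N (d + 1) ((b.coord i) ∘ₗ (LinearMap.applyₗ w))
      have hexp : ∀ x y : V, ψ x y = ∑ i, ∑ j, b.repr x i * (b.repr y j * ψ (b i) (b j)) := by
        intro x y
        conv_lhs => rw [← b.sum_repr x]
        rw [map_sum, LinearMap.sum_apply]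
        refine Finset.sum_congr rfl fun i _ => ?_
        rw [map_smul, LinearMap.smul_apply, smul_eq_mul, ← Finset.mul_sum]
        congr 1
        conv_lhs => rw [← b.sum_repr y]
        rw [map_sum]
        refine Finset.sum_congr rfl fun j _ => ?_
        rw [map_smul, smul_eq_mul]
      have hEP : EP (fun m t => ψ (GG s N (d + 1) m t u) (GG s N (d + 1) m t v) +
          q ^ m * (Polynomial.C (-ψ u v)).eval t) := by
        refine EP_add ?_ (EP_single hq _)
        refine EP_congr (EP_sum Finset.univ (fun i m t => ∑ j,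
          b.repr (GG s N (d + 1) m t u) i * (b.repr (GG s N (d + 1) m t v) j * ψ (b i) (b j)))
          fun i _ => EP_sum _ _ fun j _ => EP_mul (hco i u) (EP_mul (hco j v) (EP_const _)))
          fun m t => hexp _ _
      have hz := EP_zero hEP (fun m => by
        have hpow : ∀ u v, ψ (((F : Module.End K V) ^ m) u) (((F : Module.End K V) ^ m) v) =
            q ^ m * ψ u v := by
          intro u v
          induction m generalizing u v with
          | zero => rw [pow_zero, pow_zero, one_mul]; rfl
          | succ m ih =>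
            rw [pow_succ, Module.End.mul_apply, Module.End.mul_apply, ih]
            show q ^ m * ψ (F u) (F v) = _
            rw [hψ]
            ring
        show ψ (GG s N (d + 1) m (m : K) u) (GG s N (d + 1) m (m : K) v) +
          q ^ m * (Polynomial.C (-ψ u v)).eval (m : K) = 0
        rw [GG_nat hd' hsN, hsN1, hpow, Polynomial.eval_C]
        ring) 1 0
      rw [GG_one, Polynomial.eval_C, pow_one] at hz
      show ψ (s u) (s v) = q * ψ u v
      linear_combination hz

end Pool.Agent.H91U
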