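import Pool.Agent.H91U.Basic
import Pool.Agent.H91U.EigvJ
import Pool.Agent.H91S.Jordan

/-! Vectors killed by `R(F)` are sums of independent vectors.

`Γ` is replaced by `Γ ⊔ zpowers s`, `s` the semisimple part of `F` (`EigvJ_rel`, `closure_ext`). Let `b` be
an eigenbasis of `s`, `lam` the eigenvalues, the images `jE (y k)` of the roots of `P` in the splitting
field. For each `i` with `R (lam i) = 0` the complex number `jC (y i)` is independent; as in
`H91S/Eig.lean` this gives a pair `b i`, `b j`, and `b i` spans the eigenspace of `s`. A vector killed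
by `R(F)` is a sum of eigenvectors of `s` killed by `R(F)`, with eigenvalues killed by `R`. -/

set_option linter.unusedSectionVars false

namespace Pool.Agent.H91U

open Polynomial Pool.Agent.H93Tate Pool.Agent.H91.Mono Pool.Agent.H91S

/-- an eigenbasis of a semisimple endomorphism -/
private lemma Eigv_basis {K V : Type*} [Field K] [IsAlgClosed K] [AddCommGroup V] [Module K V]
    [FiniteDimensional K V] (s : Module.End K V) (hs : s.IsSemisimple) :
    ∃ (b : Module.Basis (Fin (Module.finrank K V)) K V) (lam : Fin (Module.finrank K V) → K),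
      ∀ k, s (b k) = lam k • b k := by
  classical
  let eigenDecomp := DirectSum.isInternal_submodule_of_iSupIndep_of_iSup_eq_top
    s.eigenspaces_iSupIndep hs.iSup_eigenspace_eq_top
  let I := (ν : K) × Fin (Module.finrank K (s.eigenspace ν))
  let v : Module.Basis I K V :=
    eigenDecomp.collectedBasis fun μ ↦ Module.finBasis K (s.eigenspace μ)
  have : Fintype I := FiniteDimensional.fintypeBasisIndex v
  have hcard : Fintype.card I = Module.finrank K V := (Module.finrank_eq_card_basis v).symm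
  let e : I ≃ Fin (Module.finrank K V) := Fintype.equivFinOfCardEq hcard
  refine ⟨v.reindex e, fun k => (e.symm k).1, fun k => ?_⟩
  rw [Module.Basis.reindex_apply]
  exact Module.End.mem_eigenspace_iff.mp (eigenDecomp.collectedBasis_mem _ (e.symm k))

private lemma Eigv_charpoly {K V ι : Type*} [Field K] [AddCommGroup V] [Module K V]
    [FiniteDimensional K V] [Fintype ι] [DecidableEq ι] (s : Module.End K V)
    (b : Module.Basis ι K V) (lam : ι → K) (h : ∀ k, s (b k) = lam k • b k) :
    LinearMap.charpoly s = ∏ k, (X - C (lam k)) := by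
  rw [← LinearMap.charpoly_toMatrix s b]
  have h1 : LinearMap.toMatrix b b s = Matrix.diagonal lam := by
    ext i j
    rw [LinearMap.toMatrix_apply, h, map_smul, Module.Basis.repr_self, Finsupp.smul_apply,
      Finsupp.single_apply, Matrix.diagonal_apply]
    by_cases hij : i = j
    · subst hij
      simp
    · rw [if_neg hij, if_neg (fun h => hij h.symm), smul_zero]
  rw [h1, Matrix.charpoly_diagonal]

private lemma Eigv_uniq {K ι : Type*} [Field K] [Fintype ι] (lam : ι → K) (Q : K[X])
    (hQ : Q = ∏ k, (X - C (lam k))) (μ : K) (h0 : Q.eval μ = 0)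
    (h1 : (derivative Q).eval μ ≠ 0) : ∃ i, lam i = μ ∧ ∀ k, lam k = μ → k = i := by
  classical
  have h2 : ∃ i, lam i = μ := by
    rw [hQ, eval_prod, Finset.prod_eq_zero_iff] at h0
    obtain ⟨i, _, hi⟩ := h0
    refine ⟨i, ?_⟩
    rw [eval_sub, eval_X, eval_C, sub_eq_zero] at hi
    exact hi.symm
  obtain ⟨i, hi⟩ := h2
  refine ⟨i, hi, fun k hk => ?_⟩
  by_contra hne
  apply h1
  rw [hQ, ← Finset.mul_prod_erase Finset.univ _ (Finset.mem_univ i),
    ← Finset.mul_prod_erase (Finset.univ.erase i) _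
      (Finset.mem_erase.2 ⟨hne, Finset.mem_univ k⟩)]
  simp [derivative_mul, hi, hk]

section Core

variable {p n : ℕ} [hp : Fact p.Prime] {P : ℚ[X]}

/-- adding the semisimple part to the group -/
private lemma Eigv_ext {K V : Type*} [Field K] [CharZero K] [AddCommGroup V] [Module K V]
    (Γ : Subgroup (V ≃ₗ[K] V)) (s : V ≃ₗ[K] V) (hcl : InCl Γ (s : Module.End K V))
    (hcli : InCl Γ ((s⁻¹ : V ≃ₗ[K] V) : Module.End K V)) :
    (∀ g, InCl (Γ ⊔ Subgroup.zpowers s) g → InCl Γ g) ∧
      lie (Γ ⊔ Subgroup.zpowers s) ≤ lie Γ := by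
  apply closure_ext
  have key : ∀ δ ∈ Γ ⊔ Subgroup.zpowers s, InCl Γ ((δ : V ≃ₗ[K] V) : Module.End K V) ∧
      InCl Γ ((δ⁻¹ : V ≃ₗ[K] V) : Module.End K V) := by
    intro δ hδ
    rw [Subgroup.zpowers_eq_closure, ← Subgroup.closure_eq Γ, ← Subgroup.closure_union] at hδ
    induction hδ using Subgroup.closure_induction with
    | mem x hx =>
      rcases hx with hx | hx
      · exact ⟨inCl_of_mem hx, inCl_of_mem (Γ.inv_mem hx)⟩
      · rw [Set.mem_singleton_iff] at hx
        subst hx
        exact ⟨hcl, hcli⟩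
    | one =>
      refine ⟨inCl_one, ?_⟩
      rw [inv_one]
      exact inCl_one
    | mul x y _ _ hx hy =>
      refine ⟨inCl_mul hx.1 hy.1, ?_⟩
      rw [mul_inv_rev]
      exact inCl_mul hy.2 hx.2
    | inv x _ hx =>
      refine ⟨hx.2, ?_⟩
      rw [inv_inv]
      exact hx.1
  exact fun δ hδ => (key δ hδ).1

/-- relations between the eigenvalues have equal degrees -/
private lemma Eigv_deg (hn : 0 < n) (hweil : ∀ z : ℂ, aeval z P = 0 → ‖z‖ ^ 2 = (p : ℝ) ^ n)
    (hP0 : P ≠ 0) {K : Type*} [Field K] [CharZero K] [IsAlgClosed K] {ι : Type*} [Fintype ι]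
    (lam : ι → K) (hlam : ∀ k, aeval (lam k) P = 0) (m m' : ι → ℕ)
    (hm : ∏ k, lam k ^ m k = ∏ k, lam k ^ m' k) : ∑ k, m k = ∑ k, m' k := by
  classical
  let L := P.SplittingField
  let jC : L →ₐ[ℚ] ℂ := IsAlgClosed.lift
  let jE : L →ₐ[ℚ] K := IsAlgClosed.lift
  have hjE : Function.Injective jE := jE.toRingHom.injective
  have hy : ∀ k, ∃ z : L, aeval z P = 0 ∧ jE z = lam k := by
    intro k
    have h1 := (SplittingField.splits P).image_rootSet jE
    have h2 : lam k ∈ P.rootSet K := mem_rootSet.2 ⟨hP0, hlam k⟩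
    rw [← h1] at h2
    obtain ⟨z, hz, hzx⟩ := h2
    exact ⟨z, (mem_rootSet.1 hz).2, hzx⟩
  choose y hy0 hy1 using hy
  have hL : ∏ k, y k ^ m k = ∏ k, y k ^ m' k := by
    apply hjE
    simp only [map_prod, map_pow, hy1]
    exact hm
  have hnorm : ∀ k, ‖jC (y k)‖ ^ 2 = (p : ℝ) ^ n := fun k => hweil _ (by
    rw [aeval_algHom_apply, hy0, map_zero])
  have key : ∀ l : ι → ℕ, ‖jC (∏ k, y k ^ l k)‖ ^ 2 = ((p : ℝ) ^ n) ^ (∑ k, l k) := by
    intro l
    rw [map_prod, norm_prod, ← Finset.prod_pow, ← Finset.prod_pow_eq_pow_sum]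
    apply Finset.prod_congr rfl
    intro k _
    rw [map_pow, norm_pow, ← pow_mul, mul_comm, pow_mul, hnorm]
  have h1 := key m
  rw [hL, key m'] at h1
  exact (pow_right_injective₀ (lt_trans one_pos (one_lt_pow hn)) (one_lt_pow hn).ne' h1).symm

/-- an eigenvalue killed by `R` gives a pair -/
private lemma Eigv_core (hweil : ∀ z : ℂ, aeval z P = 0 → ‖z‖ ^ 2 = (p : ℝ) ^ n)
    {R : ℚ[X]} (hR : ∀ z : ℂ, aeval z R = 0 → Indep ((p : ℂ) ^ n) P z)
    {K : Type*} [Field K] [CharZero K] [IsAlgClosed K] {V : Type*}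
    [AddCommGroup V] [Module K V] [FiniteDimensional K V] (ψ : V →ₗ[K] V →ₗ[K] K)
    (hnd : ∀ v, (∀ w, ψ v w = 0) → v = 0)
    (Γ : Subgroup (V ≃ₗ[K] V)) (F : V ≃ₗ[K] V) (hF : F ∈ Γ) {ι : Type*} [Fintype ι]
    [DecidableEq ι] (b : Module.Basis ι K V) (lam : ι → K)
    (hb : ∀ k, (F : Module.End K V) (b k) = lam k • b k)
    (hcp : P.map (algebraMap ℚ K) = ∏ k, (X - C (lam k)))
    (hmult : ∀ u v, ψ (F u) (F v) = (p : K) ^ n * ψ u v) (i : ι) (hRi : aeval (lam i) R = 0) :
    (∀ k, lam k = lam i → k = i) ∧ ∃ j, Pair ψ Γ (b i) (b j) := by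
  classical
  have hP0 : P ≠ 0 := by
    intro h0
    have h1 : (∏ k, (X - C (lam k)) : K[X]) ≠ 0 :=
      Finset.prod_ne_zero_iff.2 fun k _ => X_sub_C_ne_zero _
    rw [← hcp, h0, Polynomial.map_zero] at h1
    exact h1 rfl
  let L := P.SplittingField
  let jC : L →ₐ[ℚ] ℂ := IsAlgClosed.lift
  let jE : L →ₐ[ℚ] K := IsAlgClosed.lift
  have hjC : Function.Injective jC := jC.toRingHom.injective
  have hjE : Function.Injective jE := jE.toRingHom.injective
  have hp0 : (0 : ℝ) < (p : ℝ) ^ n := pow_pos (by exact_mod_cast hp.out.pos) n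
  have hpC : jC ((p : L) ^ n) = (p : ℂ) ^ n := by rw [map_pow, map_natCast]
  have hpE : jE ((p : L) ^ n) = (p : K) ^ n := by rw [map_pow, map_natCast]
  have hpL : (p : L) ^ n ≠ 0 := pow_ne_zero _ (by exact_mod_cast hp.out.ne_zero)
  -- roots in the splitting field
  have hne : ∀ z : L, aeval z P = 0 → z ≠ 0 := by
    intro z hz h0
    have h1 := hweil (jC z) (by rw [aeval_algHom_apply, hz, map_zero])
    rw [h0, map_zero, norm_zero] at h1
    have h2 : (0 : ℝ) ^ 2 = 0 := by norm_num
    rw [h2] at h1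
    exact hp0.ne h1
  have hconj : ∀ z : L, aeval z P = 0 → ∀ Q : ℚ[X],
      (aeval ((p : L) ^ n / z) Q = 0 ↔ aeval z Q = 0) := by
    intro z hz Q
    have hz0 := hne z hz
    have hzC : jC z ≠ 0 := by rw [Ne, map_eq_zero]; exact hz0
    have h1 : (starRingEnd ℂ) (jC z) = jC ((p : L) ^ n / z) := by
      have h4 := hweil (jC z) (by rw [aeval_algHom_apply, hz, map_zero])
      rw [map_div₀, hpC, eq_div_iff hzC, mul_comm, Complex.mul_conj,
        Complex.normSq_eq_norm_sq, h4]
      push_cast
      rfl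
    have hc : (starRingEnd ℂ) (aeval (jC z) Q) = aeval ((starRingEnd ℂ) (jC z)) Q := by
      rw [aeval_def, hom_eval₂, aeval_def]
      congr 1
      exact (RingHom.ext fun q => by simp)
    rw [h1, aeval_algHom_apply, aeval_algHom_apply] at hc
    constructor
    · intro h
      rw [h, map_zero, map_eq_zero, map_eq_zero] at hc
      exact hc
    · intro h
      rw [h, map_zero, map_zero] at hc
      exact (map_eq_zero jC).1 hc.symm
  have hlam : ∀ k, ∃ z : L, aeval z P = 0 ∧ jE z = lam k := by
    intro k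
    have h0 : aeval (lam k) P = 0 := by
      rw [← eval_map_algebraMap, hcp, eval_prod]
      apply Finset.prod_eq_zero (Finset.mem_univ k)
      rw [eval_sub, eval_X, eval_C, sub_self]
    have h1 := (SplittingField.splits P).image_rootSet jE
    have h2 : lam k ∈ P.rootSet K := mem_rootSet.2 ⟨hP0, h0⟩
    rw [← h1] at h2
    obtain ⟨z, hz, hzx⟩ := h2
    exact ⟨z, (mem_rootSet.1 hz).2, hzx⟩
  choose y hy0 hy1 using hlam
  -- the independent root
  obtain ⟨x', hx'⟩ : ∃ x' : L, x' = y i := ⟨_, rfl⟩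
  have hx'0 : aeval x' P = 0 := by rw [hx']; exact hy0 i
  obtain ⟨x, hx'x⟩ : ∃ x : ℂ, jC x' = x := ⟨_, rfl⟩
  have hxR : aeval x R = 0 := by
    rw [← hx'x, aeval_algHom_apply]
    have h1 : jE (aeval x' R) = 0 := by
      rw [← aeval_algHom_apply, hx', hy1, hRi]
    rw [(map_eq_zero jE).1 h1, map_zero]
  obtain ⟨-, hx1, hx2, hx3⟩ := hR x hxR
  have hx'1 : aeval x' (derivative P) ≠ 0 := by
    intro h
    apply hx1
    rw [← hx'x, aeval_algHom_apply, h, map_zero]
  have hx'ne := hne x' hx'0
  have huniq : ∀ z : L, aeval z P = 0 → aeval z (derivative P) ≠ 0 →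
      ∃ i, y i = z ∧ ∀ k, y k = z → k = i := by
    intro z hz0 hz1
    obtain ⟨i, hi, hi'⟩ := Eigv_uniq lam (P.map (algebraMap ℚ K)) hcp (jE z)
      (by rw [eval_map_algebraMap, aeval_algHom_apply, hz0, map_zero])
      (by
        rw [derivative_map, eval_map_algebraMap, aeval_algHom_apply]
        intro h
        exact hz1 ((map_eq_zero jE).1 h))
    refine ⟨i, hjE ((hy1 i).trans hi), fun k hk => hi' k ?_⟩
    rw [← hy1, hk]
  have hi : y i = x' := hx'.symm
  have hi' : ∀ k, y k = x' → k = i := by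
    obtain ⟨i₀, hi₀, hi₀'⟩ := huniq x' hx'0 hx'1
    intro k hk
    rw [hi₀' k hk, hi₀' i hi]
  obtain ⟨j, hj, hj'⟩ := huniq ((p : L) ^ n / x') ((hconj x' hx'0 P).2 hx'0)
    (fun h => hx'1 ((hconj x' hx'0 _).1 h))
  have hij : i ≠ j := by
    intro h
    rw [← h, hi, eq_div_iff hx'ne] at hj
    apply hx2
    rw [← hx'x, ← map_pow, pow_two, hj, hpC]
  have hyne : ∀ k, y k ≠ 0 := fun k => hne _ (hy0 k)
  -- the four coincidences
  have e1 : ∀ k, x = jC (y k) ↔ k = i := by
    intro k
    constructor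
    · intro h
      apply hi'
      apply hjC
      rw [hx'x, h]
    · intro h
      rw [h, hi, hx'x]
  have e2 : ∀ k, x = (p : ℂ) ^ n / jC (y k) ↔ k = j := by
    intro k
    have h0 : (p : ℂ) ^ n / jC (y k) = jC ((p : L) ^ n / y k) := by rw [map_div₀, hpC]
    constructor
    · intro h
      apply hj'
      rw [h0, ← hx'x] at h
      have h1 := hjC h
      rw [h1, div_div_cancel₀ hpL]
    · intro h
      rw [h0, h, hj, div_div_cancel₀ hpL, hx'x]
  have e3 : ∀ k, (p : ℂ) ^ n / x = jC (y k) ↔ k = j := by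
    intro k
    have h0 : (p : ℂ) ^ n / x = jC ((p : L) ^ n / x') := by rw [map_div₀, hpC, hx'x]
    rw [h0]
    constructor
    · intro h
      exact hj' k (hjC h).symm
    · intro h
      rw [h, hj]
  have e4 : ∀ k, (p : ℂ) ^ n / x = (p : ℂ) ^ n / jC (y k) ↔ k = i := by
    intro k
    have h0 : (p : ℂ) ^ n / x = jC ((p : L) ^ n / x') := by rw [map_div₀, hpC, hx'x]
    have h0' : (p : ℂ) ^ n / jC (y k) = jC ((p : L) ^ n / y k) := by rw [map_div₀, hpC]
    rw [h0, h0']
    constructor
    · intro h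
      apply hi'
      have h1 := hjC h
      have h2 : (p : L) ^ n / ((p : L) ^ n / x') = (p : L) ^ n / ((p : L) ^ n / y k) := by
        rw [h1]
      rw [div_div_cancel₀ hpL, div_div_cancel₀ hpL] at h2
      exact h2.symm
    · intro h
      rw [h, hi]
  -- relations
  have hrel : ∀ m m' : ι → ℕ, ∏ k, lam k ^ m k = ∏ k, lam k ^ m' k →
      m i + m' j = m j + m' i := by
    intro m m' hm
    have hL : ∏ k, y k ^ m k = ∏ k, y k ^ m' k := by
      apply hjE
      simp only [map_prod, map_pow, hy1]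
      exact hm
    let M : Multiset ℂ := ∑ k, (m k • {jC (y k)} + m' k • {(p : ℂ) ^ n / jC (y k)})
    have hMprod : M.prod = ((p : ℂ) ^ n) ^ (∑ k, m' k) := by
      have h1 : M.prod = ∏ k, (jC (y k) ^ m k * ((p : ℂ) ^ n / jC (y k)) ^ m' k) := by
        rw [Multiset.prod_sum]
        apply Finset.prod_congr rfl
        intro k _
        rw [Multiset.prod_add, Multiset.prod_nsmul, Multiset.prod_nsmul,
          Multiset.prod_singleton, Multiset.prod_singleton]
      rw [h1, Finset.prod_mul_distrib]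
      have h2 : ∏ k, jC (y k) ^ m k = ∏ k, jC (y k) ^ m' k := by
        have h3 := congrArg jC hL
        simp only [map_prod, map_pow] at h3
        exact h3
      rw [h2, ← Finset.prod_mul_distrib, ← Finset.prod_pow_eq_pow_sum]
      apply Finset.prod_congr rfl
      intro k _
      rw [← mul_pow, mul_div_cancel₀]
      rw [Ne, map_eq_zero]
      exact hyne k
    have hMmem : ∀ z ∈ M, aeval z P = 0 := by
      intro z hz
      rw [Multiset.mem_sum] at hz
      obtain ⟨k, _, hk⟩ := hz
      rw [Multiset.mem_add] at hk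
      rcases hk with hk | hk
      · have h1 := Multiset.mem_of_mem_nsmul hk
        rw [Multiset.mem_singleton] at h1
        rw [h1, aeval_algHom_apply, hy0, map_zero]
      · have h1 := Multiset.mem_of_mem_nsmul hk
        rw [Multiset.mem_singleton] at h1
        have h0' : (p : ℂ) ^ n / jC (y k) = jC ((p : L) ^ n / y k) := by rw [map_div₀, hpC]
        rw [h1, h0', aeval_algHom_apply, (hconj (y k) (hy0 k) P).2 (hy0 k), map_zero]
    have h1 := hx3 M.toList (∑ k, m' k)
      (fun z hz => hMmem z (Multiset.mem_toList.1 hz)) (by rw [Multiset.prod_toList, hMprod])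
    rw [← Multiset.coe_count, ← Multiset.coe_count, Multiset.coe_toList] at h1
    have h2 : Multiset.count x M = m i + m' j := by
      rw [Multiset.count_sum']
      simp only [Multiset.count_add, Multiset.count_nsmul, Multiset.count_singleton, e1, e2]
      rw [Finset.sum_add_distrib]
      simp
    have h3 : Multiset.count ((p : ℂ) ^ n / x) M = m j + m' i := by
      rw [Multiset.count_sum']
      simp only [Multiset.count_add, Multiset.count_nsmul, Multiset.count_singleton, e3, e4]
      rw [Finset.sum_add_distrib]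
      simp
    rw [h2, h3] at h1
    exact h1
  -- the form
  have hform : ∀ k l, y k * y l ≠ (p : L) ^ n → ψ (b k) (b l) = 0 := by
    intro k l hkl
    have h1 := hmult (b k) (b l)
    have e1 : F (b k) = lam k • b k := hb k
    have e2 : F (b l) = lam l • b l := hb l
    rw [e1, e2, map_smul, map_smul, LinearMap.smul_apply, smul_eq_mul, smul_eq_mul] at h1
    have h2 : (lam k * lam l - (p : K) ^ n) * ψ (b k) (b l) = 0 := by linear_combination h1
    rcases mul_eq_zero.1 h2 with h3 | h3
    · exfalso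
      apply hkl
      apply hjE
      rw [map_mul, hy1, hy1, hpE]
      linear_combination h3
    · exact h3
  have hi2 : ∀ k, k ≠ j → y i * y k ≠ (p : L) ^ n := by
    intro k hk h
    apply hk
    apply hj'
    rw [eq_div_iff hx'ne, mul_comm, ← hi, h]
  have hj2 : ∀ k, k ≠ i → y j * y k ≠ (p : L) ^ n := by
    intro k hk h
    apply hk
    apply hi'
    rw [hj, div_mul_eq_mul_div, div_eq_iff hx'ne] at h
    exact mul_left_cancel₀ hpL h
  have f1 : ∀ k, k ≠ j → ψ (b i) (b k) = 0 := fun k hk => hform i k (hi2 k hk)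
  have f2 : ∀ k, k ≠ j → ψ (b k) (b i) = 0 := fun k hk =>
    hform k i (by rw [mul_comm]; exact hi2 k hk)
  have f3 : ∀ k, k ≠ i → ψ (b j) (b k) = 0 := fun k hk => hform j k (hj2 k hk)
  have f4 : ∀ k, k ≠ i → ψ (b k) (b j) = 0 := fun k hk =>
    hform k j (by rw [mul_comm]; exact hj2 k hk)
  have hef : ψ (b i) (b j) ≠ 0 := by
    intro h0
    apply b.ne_zero i
    apply hnd
    intro w
    rw [← b.sum_repr w, map_sum]
    apply Finset.sum_eq_zero
    intro k _
    rw [map_smul]
    by_cases hk : k = j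
    · rw [hk, h0, smul_zero]
    · rw [f1 k hk, smul_zero]
  have hfe : ψ (b j) (b i) ≠ 0 := by
    intro h0
    apply b.ne_zero j
    apply hnd
    intro w
    rw [← b.sum_repr w, map_sum]
    apply Finset.sum_eq_zero
    intro k _
    rw [map_smul]
    by_cases hk : k = i
    · rw [hk, h0, smul_zero]
    · rw [f3 k hk, smul_zero]
  have hee : ψ (b i) (b i) = 0 := f1 i hij
  have hff : ψ (b j) (b j) = 0 := f3 j hij.symm
  refine ⟨?_, j, hee, hff, hef, hfe, ?_, ?_⟩
  · intro k hk
    apply hi'
    apply hjE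
    rw [hy1, hk, ← hy1, hi]
  · have h1 : Pool.Agent.H91U.hp ψ (b i) (b j) = dg b (fun k => if k = i then 1 else if k = j then -1 else 0) := by
      apply b.ext
      intro k
      rw [hp_apply, dg_apply]
      by_cases h3 : k = i
      · rw [if_pos h3, h3, inv_mul_cancel₀ hef, hee]
        simp
      · by_cases h4 : k = j
        · rw [if_neg h3, if_pos h4, h4, inv_mul_cancel₀ hfe, hff]
          simp
        · rw [if_neg h3, if_neg h4, f4 k h3, f2 k h4]
          simp
    rw [h1]
    apply lie_torus hF hb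
    intro m m' hm
    have h1 := hrel m m' hm
    have key : ∀ l : ι → ℕ,
        ∑ k, (l k : K) * (if k = i then 1 else if k = j then -1 else 0) = (l i : K) - l j := by
      intro l
      have h2 : ∀ k, (l k : K) * (if k = i then 1 else if k = j then -1 else 0) =
          (if k = i then (l k : K) else 0) - (if k = j then (l k : K) else 0) := by
        intro k
        by_cases h3 : k = i
        · have h4 : ¬ k = j := fun h => hij (h3.symm.trans h)
          rw [if_pos h3, if_pos h3, if_neg h4, mul_one, sub_zero]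
        · by_cases h4 : k = j
          · rw [if_neg h3, if_neg h3, if_pos h4, if_pos h4]
            ring
          · rw [if_neg h3, if_neg h3, if_neg h4, if_neg h4]
            ring
      simp only [h2, Finset.sum_sub_distrib]
      simp
    have h3 := key (fun k => m k)
    have h4 := key (fun k => m' k)
    rw [h3, h4]
    have h5 : (m i : K) + m' j = m j + m' i := by exact_mod_cast h1
    linear_combination h5
  · intro t ht
    have h1 : tor ψ (b i) (b j) t =
        dg b (fun k => if k = i then t else if k = j then t⁻¹ else 1) := by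
      apply b.ext
      intro k
      rw [tor_apply, dg_apply]
      by_cases h3 : k = i
      · rw [if_pos h3, h3, mul_assoc, inv_mul_cancel₀ hef, hee]
        simp only [mul_one, mul_zero, zero_smul, add_zero]
        module
      · by_cases h4 : k = j
        · rw [if_neg h3, if_pos h4, h4, mul_assoc (t⁻¹ - 1), inv_mul_cancel₀ hfe, hff]
          simp only [mul_one, mul_zero, zero_smul, add_zero]
          module
        · rw [if_neg h3, if_neg h4, f4 k h3, f2 k h4]
          simp
    rw [h1]
    apply inCl_torus hF hb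
    intro m m' hm
    have h2 := hrel m m' hm
    have key : ∀ l : ι → ℕ,
        ∏ k, (if k = i then t else if k = j then t⁻¹ else 1) ^ l k = t ^ l i * t⁻¹ ^ l j := by
      intro l
      have h3 : ∀ k, (if k = i then t else if k = j then t⁻¹ else 1) ^ l k =
          (if k = i then t ^ l k else 1) * (if k = j then t⁻¹ ^ l k else 1) := by
        intro k
        by_cases h3 : k = i
        · have h4 : ¬ k = j := fun h => hij (h3.symm.trans h)
          rw [if_pos h3, if_pos h3, if_neg h4, mul_one]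
        · by_cases h4 : k = j
          · rw [if_neg h3, if_neg h3, if_pos h4, if_pos h4, one_mul]
          · rw [if_neg h3, if_neg h3, if_neg h4, if_neg h4, one_pow, one_mul]
      simp only [h3, Finset.prod_mul_distrib]
      simp
    have h3 := key (fun k => m k)
    have h4 := key (fun k => m' k)
    rw [h3, h4]
    have h5 : t ^ (m i) * t ^ (m' j) = t ^ (m j) * t ^ (m' i) := by
      rw [← pow_add, ← pow_add, h2]
    rw [inv_pow, inv_pow]
    field_simp
    linear_combination h5

end Core

/-- an eigenvector of the semisimple part killed by `R(F)` -/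
private lemma Eigv_nil {K V : Type*} [Field K] [AddCommGroup V] [Module K V]
    {F s n : Module.End K V} (hFns : F = n + s) (hn : IsNilpotent n) (hsn : Commute s n)
    (Q : K[X]) {μ : K} {v : V} (hs : s v = μ • v) (hQ : aeval F Q v = 0) (hv : v ≠ 0) :
    Q.eval μ = 0 := by
  classical
  obtain ⟨d, hd⟩ := hn
  have hex : ∃ k, (n ^ k) v = 0 := ⟨d, by rw [hd, LinearMap.zero_apply]⟩
  have hk := Nat.find_spec hex
  have hk0 : Nat.find hex ≠ 0 := by
    intro h0
    rw [h0, pow_zero, Module.End.one_apply] at hk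
    exact hv hk
  obtain ⟨k, hk'⟩ := Nat.exists_eq_succ_of_ne_zero hk0
  have hu : (n ^ k) v ≠ 0 := Nat.find_min hex (by omega)
  rw [hk', Nat.succ_eq_add_one, pow_succ', Module.End.mul_apply] at hk
  set u := (n ^ k) v with hu'
  have hFn : Commute F (n ^ k) := by
    rw [hFns]
    exact ((Commute.refl n).add_left hsn).pow_right k
  have hsu : s u = μ • u := by
    rw [hu', ← Module.End.mul_apply, (hsn.pow_right k).eq, Module.End.mul_apply, hs, map_smul]
  have hFu : F u = μ • u := by
    rw [hFns, LinearMap.add_apply, hk, hsu, zero_add]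
  have hQu : aeval F Q u = 0 := by
    have hc : Commute (aeval F Q) (n ^ k) := by
      have h1 := Algebra.commute_of_mem_adjoin_singleton_of_commute
        (aeval_mem_adjoin_singleton K F (p := Q)) hFn.symm
      exact h1.symm
    rw [hu', ← Module.End.mul_apply, hc.eq, Module.End.mul_apply, hQ, map_zero]
  have h2 : aeval F Q u = Q.eval μ • u :=
    Module.End.aeval_apply_of_hasEigenvector (f := F) (p := Q) ⟨Module.End.mem_eigenspace_iff.2 hFu, hu⟩
  rw [h2] at hQu
  exact (smul_eq_zero.1 hQu).resolve_right hu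

theorem eigv {p n : ℕ} [Fact p.Prime] {P : ℚ[X]} (hn : 0 < n)
    (hweil : ∀ z : ℂ, aeval z P = 0 → ‖z‖ ^ 2 = (p : ℝ) ^ n) {R : ℚ[X]}
    (hR : ∀ z : ℂ, aeval z R = 0 → Indep ((p : ℂ) ^ n) P z)
    {K : Type*} [Field K] [CharZero K] [IsAlgClosed K] {V : Type*}
    [AddCommGroup V] [Module K V] [FiniteDimensional K V] (ψ : V →ₗ[K] V →ₗ[K] K)
    (heps : (∀ v, ψ v v = 0) ∨ (∀ u v, ψ u v = ψ v u)) (hnd : ∀ v, (∀ w, ψ v w = 0) → v = 0)
    (Γ : Subgroup (V ≃ₗ[K] V)) (F : V ≃ₗ[K] V) (hF : F ∈ Γ)
    (hchar : LinearMap.charpoly (F : V →ₗ[K] V) = P.map (algebraMap ℚ K))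
    (hmult : ∀ u v, ψ (F u) (F v) = (p : K) ^ n * ψ u v)
    (v : V) (hv : aeval (F : Module.End K V) (R.map (algebraMap ℚ K)) v = 0) :
    v ∈ Submodule.span K {e : V | ∃ f, Pair ψ Γ e f} := by
  classical
  obtain ⟨s, N, hN, hsN, hFns, hss, hsc, hcl, hcli, hsm⟩ := EigvJ_rel Γ F hF
  obtain ⟨hext1, hext2⟩ := Eigv_ext Γ s hcl hcli
  obtain ⟨b, lam, hb⟩ := Eigv_basis (s : Module.End K V) hss
  have hcp : P.map (algebraMap ℚ K) = ∏ k, (X - C (lam k)) := by
    rw [← hchar, ← hsc]
    exact Eigv_charpoly _ b lam hb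
  have hsF : Commute (s : Module.End K V) (F : Module.End K V) := by
    rw [hFns]
    exact hsN.add_right (Commute.refl _)
  set Q : K[X] := R.map (algebraMap ℚ K) with hQ
  have hsQ : Commute (s : Module.End K V) (aeval (F : Module.End K V) Q) :=
    (Algebra.commute_of_mem_adjoin_singleton_of_commute
      (aeval_mem_adjoin_singleton K (F : Module.End K V) (p := Q)) hsF)
  let W : Submodule K V := LinearMap.ker (aeval (F : Module.End K V) Q)
  have hW : ∀ x ∈ W, (s : Module.End K V) x ∈ W := by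
    intro x hx
    have hx' : aeval (F : Module.End K V) Q x = 0 := hx
    show aeval (F : Module.End K V) Q ((s : Module.End K V) x) = 0
    rw [← Module.End.mul_apply, ← hsQ.eq, Module.End.mul_apply, hx', map_zero]
  have hvW : v ∈ W ⊓ ⨆ μ : K, Module.End.genEigenspace (s : Module.End K V) μ 1 := by
    refine ⟨hv, ?_⟩
    have h1 : (⨆ μ : K, Module.End.genEigenspace (s : Module.End K V) μ 1) = ⊤ := hss.iSup_eigenspace_eq_top
    rw [h1]
    trivial
  rw [Submodule.inf_iSup_genEigenspace hW] at hvW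
  refine (iSup_le (fun μ => ?_) : (⨆ μ : K, W ⊓ Module.End.genEigenspace (s : Module.End K V) μ 1) ≤ _) hvW
  rintro w ⟨hw1, hw2⟩
  by_cases hw0 : w = 0
  · rw [hw0]
    exact Submodule.zero_mem _
  have hsw : (s : Module.End K V) w = μ • w := Module.End.mem_eigenspace_iff.1 hw2
  have hμ : Q.eval μ = 0 := Eigv_nil hFns hN hsN Q hsw hw1 hw0
  have hμR : aeval μ R = 0 := by rw [← eval_map_algebraMap, ← hQ, hμ]
  -- coordinates
  have hco : ∀ k, b.repr w k * (lam k - μ) = 0 := by
    intro k
    have h1 := congrArg (fun z => b.repr z k) hsw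
    have h2 : (s : Module.End K V) w = ∑ l, b.repr w l • (lam l • b l) := by
      conv_lhs => rw [← b.sum_repr w]
      rw [map_sum]
      refine Finset.sum_congr rfl fun l _ => ?_
      rw [map_smul, hb]
    have h3 : b.repr ((s : Module.End K V) w) k = b.repr w k * lam k := by
      rw [h2, map_sum, Finsupp.coe_finset_sum, Finset.sum_apply, Finset.sum_eq_single k]
      · simp
      · intro l _ hl
        simp [Finsupp.single_apply, hl]
      · simp
    have h4 : b.repr (μ • w) k = μ * b.repr w k := by simp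
    have h5 : b.repr ((s : Module.End K V) w) k = b.repr (μ • w) k := h1
    rw [h3, h4] at h5
    linear_combination h5
  obtain ⟨i, hi⟩ : ∃ i, lam i = μ := by
    by_contra hno
    push Not at hno
    apply hw0
    rw [← b.sum_repr w]
    apply Finset.sum_eq_zero
    intro k _
    rcases mul_eq_zero.1 (hco k) with h1 | h1
    · rw [h1, zero_smul]
    · exact absurd (sub_eq_zero.1 h1) (hno k)
  obtain ⟨huni, j, hpair⟩ := Eigv_core hweil hR ψ hnd (Γ ⊔ Subgroup.zpowers s) s
    (le_sup_right (a := Γ) (Subgroup.mem_zpowers s)) b lam hb hcp (hsm ψ _ hmult) i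
    (by rw [hi]; exact hμR)
  have hw : w = b.repr w i • b i := by
    conv_lhs => rw [← b.sum_repr w]
    apply Finset.sum_eq_single i
    · intro k _ hk
      rcases mul_eq_zero.1 (hco k) with h1 | h1
      · rw [h1, zero_smul]
      · exact absurd (huni k ((sub_eq_zero.1 h1).trans hi.symm)) hk
    · simp
  rw [hw]
  apply Submodule.smul_mem
  apply Submodule.subset_span
  exact ⟨b j, hpair.ee, hpair.ff, hpair.ef, hpair.fe, hext2 hpair.hh,
    fun t ht => hext1 _ (hpair.tt t ht)⟩

theorem hom_cl {p n : ℕ} [Fact p.Prime] {P : ℚ[X]} (hn : 0 < n)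
    (hweil : ∀ z : ℂ, aeval z P = 0 → ‖z‖ ^ 2 = (p : ℝ) ^ n)
    {K : Type*} [Field K] [CharZero K] [IsAlgClosed K] {V : Type*}
    [AddCommGroup V] [Module K V] [FiniteDimensional K V]
    (Γ : Subgroup (V ≃ₗ[K] V)) (F : V ≃ₗ[K] V) (hF : F ∈ Γ)
    (hchar : LinearMap.charpoly (F : V →ₗ[K] V) = P.map (algebraMap ℚ K)) :
    ∀ ν : K, ν ≠ 0 → InCl Γ (ν • (1 : Module.End K V)) := by
  classical
  intro ν hν
  obtain ⟨s, N, hN, hsN, hFns, hss, hsc, hcl, hcli, hsm⟩ := EigvJ_rel Γ F hF
  obtain ⟨hext1, hext2⟩ := Eigv_ext Γ s hcl hcli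
  obtain ⟨b, lam, hb⟩ := Eigv_basis (s : Module.End K V) hss
  have hcp : P.map (algebraMap ℚ K) = ∏ k, (X - C (lam k)) := by
    rw [← hchar, ← hsc]
    exact Eigv_charpoly _ b lam hb
  have hP0 : P ≠ 0 := by
    intro h0
    have h1 : (∏ k, (X - C (lam k)) : K[X]) ≠ 0 :=
      Finset.prod_ne_zero_iff.2 fun k _ => X_sub_C_ne_zero _
    rw [← hcp, h0, Polynomial.map_zero] at h1
    exact h1 rfl
  have hlam : ∀ k, aeval (lam k) P = 0 := by
    intro k
    rw [← eval_map_algebraMap, hcp, eval_prod]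
    apply Finset.prod_eq_zero (Finset.mem_univ k)
    rw [eval_sub, eval_X, eval_C, sub_self]
  apply hext1
  have h1 : ν • (1 : Module.End K V) = dg b (fun _ => ν) := by
    apply b.ext
    intro k
    rw [dg_apply, LinearMap.smul_apply, Module.End.one_apply]
  rw [h1]
  apply inCl_torus (le_sup_right (a := Γ) (Subgroup.mem_zpowers s)) hb
  intro m m' hm
  rw [Finset.prod_pow_eq_pow_sum, Finset.prod_pow_eq_pow_sum,
    Eigv_deg hn hweil hP0 lam hlam _ _ hm]

end Pool.Agent.H91U
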