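import Pool.Agent.H91U.Fin
import Pool.Agent.H91U.Bcs
import Pool.Agent.H91U.Bcc
import Pool.Agent.H91U.Eigv

/-! Independent eigenvectors: the theorem over an arbitrary field of characteristic zero. -/

set_option linter.unusedSectionVars false

namespace Pool.Agent.H91U

open Polynomial TensorProduct Pool.Agent.H93Tate Pool.Agent.H91.Mono Pool.Agent.H91S

section bc

variable {E : Type*} [Field E] [CharZero E] (K : Type*) [Field K] [Algebra E K]
  {V : Type*} [AddCommGroup V] [Module E V] [FiniteDimensional E V]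
  {ψ : V →ₗ[E] V →ₗ[E] E} {Γ : Subgroup (V ≃ₗ[E] V)}

lemma mainu_aeval (F : V ≃ₗ[E] V) (R : ℚ[X]) [CharZero K] (w : V)
    (hw : aeval (F : Module.End E V) (R.map (algebraMap ℚ E)) w = 0) :
    aeval ((bcE K F : K ⊗[E] V ≃ₗ[K] K ⊗[E] V) : Module.End K (K ⊗[E] V))
      (R.map (algebraMap ℚ K)) ((1 : K) ⊗ₜ[E] w) = 0 := by
  have h1 : R.map (algebraMap ℚ K) = (R.map (algebraMap ℚ E)).map (algebraMap E K) := by
    rw [Polynomial.map_map]
    congr 1
    exact Subsingleton.elim _ _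
  have h2 : ((bcE K F : K ⊗[E] V ≃ₗ[K] K ⊗[E] V) : Module.End K (K ⊗[E] V)) =
      Module.End.baseChangeHom E K V (F : Module.End E V) := by
    rw [bcE_coe]
    rfl
  rw [h1, aeval_map_algebraMap, h2, aeval_algHom_apply]
  show (aeval (F : Module.End E V) (R.map (algebraMap ℚ E))).baseChange K
    ((1 : K) ⊗ₜ[E] w) = 0
  rw [LinearMap.baseChange_tmul, hw, tmul_zero]

lemma mainu_tate {w : V} (h : TateVec ψ Γ w) :
    TateVec (fK K ψ) (Γ.map (bcE K)) ((1 : K) ⊗ₜ[E] w) := by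
  obtain ⟨Δ, hΔ, hw⟩ := h
  refine ⟨Δ.map ((bcE K).subgroupMap Γ), ⟨?_⟩, ?_⟩
  · intro h0
    have h1 := Subgroup.index_map_dvd Δ ((bcE K).subgroupMap_surjective Γ)
    rw [h0, zero_dvd_iff] at h1
    exact hΔ.index_ne_zero h1
  · rintro γ' ⟨γ, hγ, rfl⟩
    obtain ⟨a, ha, hψ⟩ := hw γ hγ
    refine ⟨algebraMap E K a, ?_, ?_⟩
    · show bcE K (γ : V ≃ₗ[E] V) ((1 : K) ⊗ₜ[E] w) = _
      have h1 : bcE K (γ : V ≃ₗ[E] V) ((1 : K) ⊗ₜ[E] w) = (1 : K) ⊗ₜ[E] ((γ : V ≃ₗ[E] V) w) := rfl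
      rw [h1, ha, tmul_smul, algebraMap_smul]
    · intro u v
      show fK K ψ (bcE K (γ : V ≃ₗ[E] V) u) (bcE K (γ : V ≃ₗ[E] V) v) = _
      rw [fK_sim _ _ hψ, map_pow]

lemma mainu_ctx [CharZero K] (hψ : (∀ v, ψ v v = 0) ∨ (∀ u v, ψ u v = ψ v u))
    (hnd : ∀ v, (∀ w, ψ v w = 0) → v = 0)
    (hsim : ∀ γ ∈ Γ, ∃ μ : E, ∀ u v, ψ ((γ : V ≃ₗ[E] V) u) ((γ : V ≃ₗ[E] V) v) = μ * ψ u v)
    (hss : ∀ W : Submodule E V, (∀ γ ∈ Γ, ∀ w ∈ W, (γ : V ≃ₗ[E] V) w ∈ W) →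
      ∃ W' : Submodule E V, (∀ γ ∈ Γ, ∀ w ∈ W', (γ : V ≃ₗ[E] V) w ∈ W') ∧ IsCompl W W') :
    Ctx (fK K ψ) (Γ.map (bcE K)) where
  eps := by
    rcases hψ with h | h
    · exact Or.inl (fK_alt h)
    · exact Or.inr (fK_sym h)
  nd := by
    rcases hψ with halt | hsym
    · exact fK_nondeg (fun u v => psi_swap halt u v) hnd
    · exact fK_nondeg_sym hsym hnd
  sim := by
    rintro _ ⟨γ, hγ, rfl⟩
    obtain ⟨μ, hμ⟩ := hsim γ hγ
    exact ⟨algebraMap E K μ, fK_sim γ μ hμ⟩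
  ss := fun W hW => ssK hss K W hW

end bc

/-- **Independent eigenvectors.** -/
theorem mainU {E : Type*} [Field E] [CharZero E] (K : Type*) [Field K] [Algebra E K]
    [IsAlgClosure E K] {V : Type*}
    [AddCommGroup V] [Module E V] [FiniteDimensional E V] (ψ : V →ₗ[E] V →ₗ[E] E)
    (hψ : (∀ v, ψ v v = 0) ∨ (∀ u v, ψ u v = ψ v u)) (hnd : ∀ v, (∀ w, ψ v w = 0) → v = 0)
    (Γ : Subgroup (V ≃ₗ[E] V))
    (hsim : ∀ γ ∈ Γ, ∃ μ : E, ∀ u v, ψ ((γ : V ≃ₗ[E] V) u) ((γ : V ≃ₗ[E] V) v) = μ * ψ u v)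
    (hss : ∀ W : Submodule E V, (∀ γ ∈ Γ, ∀ w ∈ W, (γ : V ≃ₗ[E] V) w ∈ W) →
      ∃ W' : Submodule E V, (∀ γ ∈ Γ, ∀ w ∈ W', (γ : V ≃ₗ[E] V) w ∈ W') ∧ IsCompl W W')
    (hex : ∃ w, IndVec ψ Γ w ∧ w ≠ 0)
    (hsep : ∀ c : Module.End E V, Comm Γ c →
      (∀ w, (IndVec ψ Γ w ∨ TateVec ψ Γ w) → c w = 0) → c = 0)
    (g : V ≃ₗ[E] V) (μ : E) (hg : ∀ u v, ψ (g u) (g v) = μ * ψ u v) :
    ((∀ c : Module.End E V, Comm Γ c → ∀ v, c (g v) = g (c v)) →
      InCl Γ ((g * g : V ≃ₗ[E] V) : Module.End E V) ∧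
        ((∀ v, ψ v v = 0) → InCl Γ (g : Module.End E V))) ∧
    ((∀ c : Module.End E V, Comm Γ c → ∃ a : E, c = a • (1 : Module.End E V)) →
      (Odd (Module.finrank E V) ∨
        LinearMap.det (g : V →ₗ[E] V) = μ ^ (Module.finrank E V / 2)) →
      InCl Γ (g : Module.End E V)) := by
  classical
  have hac : IsAlgClosed K := IsAlgClosure.isAlgClosed E
  have halg : Algebra.IsAlgebraic E K := IsAlgClosure.isAlgebraic
  have hcz : CharZero K := charZero_of_injective_algebraMap (algebraMap E K).injective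
  have hvne : ∃ u v : V, ψ u v ≠ 0 := by
    obtain ⟨w, -, hw⟩ := hex
    by_contra hcon
    push Not at hcon
    exact hw (hnd w fun v => hcon w v)
  have hμE : μ ≠ 0 := by
    rintro rfl
    obtain ⟨u, v, huv⟩ := hvne
    apply huv
    have h1 := hg (g⁻¹ u) (g⁻¹ v)
    have h2 : ∀ v, g (g⁻¹ v) = v := fun v => g.apply_symm_apply v
    rw [h2, h2, zero_mul] at h1
    exact h1
  have hmapP : ∀ P : ℚ[X], (P.map (algebraMap ℚ E)).map (algebraMap E K) =
      P.map (algebraMap ℚ K) := by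
    intro P
    rw [Polynomial.map_map]
    congr 1
    exact Subsingleton.elim _ _
  constructor
  · intro hcomm
    have hc := mainu_ctx K hψ hnd hsim hss
    -- homotheties
    have hom : ∀ ν : K, ν ≠ 0 → InCl (Γ.map (bcE K)) (ν • (1 : Module.End K (K ⊗[E] V))) := by
      obtain ⟨w, ⟨p, n, P, R, F, hp, hn, hF, hmult, hchar, hweil, -, -⟩, -⟩ := hex
      have : Fact p.Prime := ⟨hp⟩
      refine hom_cl hn hweil (Γ.map (bcE K)) (bcE K F) ⟨F, hF, rfl⟩ ?_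
      rw [bcE_coe, LinearMap.charpoly_baseChange, hchar, hmapP]
    have hsepK : ∀ c : Module.End K (K ⊗[E] V), Comm (Γ.map (bcE K)) c →
        (∀ e f, Pair (fK K ψ) (Γ.map (bcE K)) e f → c e = 0) →
        (∀ v, TateVec (fK K ψ) (Γ.map (bcE K)) v → c v = 0) → c = 0 := by
      intro c hcc h1 h2
      refine commK {w | IndVec ψ Γ w ∨ TateVec ψ Γ w} hsep c hcc ?_
      rintro w (hw | hw)
      · obtain ⟨p, n, P, R, F, hp, hn, hF, hmult, hchar, hweil, hR, hv⟩ := hw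
        have : Fact p.Prime := ⟨hp⟩
        have h3 := eigv hn hweil hR (fK K ψ) hc.eps hc.nd (Γ.map (bcE K)) (bcE K F) ⟨F, hF, rfl⟩
          (by rw [bcE_coe, LinearMap.charpoly_baseChange, hchar, hmapP])
          (fun u v => by rw [fK_sim F _ hmult, map_pow, map_natCast])
          ((1 : K) ⊗ₜ[E] w) (mainu_aeval K F R w hv)
        have h4 : Submodule.span K {e : K ⊗[E] V | ∃ f, Pair (fK K ψ) (Γ.map (bcE K)) e f} ≤
            LinearMap.ker c := by
          rw [Submodule.span_le]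
          rintro e ⟨f, hef⟩
          exact h1 e f hef
        exact h4 h3
      · exact h2 _ (mainu_tate K hw)
    -- scaling
    obtain ⟨ν, hν⟩ := IsAlgClosed.exists_pow_nat_eq (algebraMap E K μ) (n := 2) (by norm_num)
    have hμ0 : algebraMap E K μ ≠ 0 := by
      rw [map_ne_zero_iff _ (algebraMap E K).injective]
      exact hμE
    have hν0 : ν ≠ 0 := by
      rintro rfl
      apply hμ0
      rw [← hν]
      norm_num
    obtain ⟨g', hg'⟩ : ∃ g' : Module.End K (K ⊗[E] V),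
        g' = ν⁻¹ • ((bcE K g : K ⊗[E] V ≃ₗ[K] K ⊗[E] V) : Module.End K (K ⊗[E] V)) := ⟨_, rfl⟩
    have hiso : ∀ x y, fK K ψ (g' x) (g' y) = fK K ψ x y := by
      intro x y
      rw [hg']
      show fK K ψ (ν⁻¹ • bcE K g x) (ν⁻¹ • bcE K g y) = _
      rw [map_smul, map_smul, LinearMap.smul_apply, fK_sim g μ hg, ← hν]
      simp only [smul_eq_mul]
      field_simp
    have hgc : ∀ c : Module.End K (K ⊗[E] V), Comm (Γ.map (bcE K)) c → c * g' = g' * c := by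
      intro c hcc
      rw [hg', mul_smul_comm, smul_mul_assoc, comm_descend K Γ g hcomm c hcc]
    have hfin : ((bcE K g : K ⊗[E] V ≃ₗ[K] K ⊗[E] V) : Module.End K (K ⊗[E] V)) =
        (ν • (1 : Module.End K (K ⊗[E] V))) * g' := by
      rw [hg', smul_mul_smul_comm, mul_inv_cancel₀ hν0, one_mul, one_smul]
    have hkey := finK hc hom hsepK g' hiso hgc
    constructor
    · apply inCl_descend K
      have h5 : ((bcE K (g * g) : K ⊗[E] V ≃ₗ[K] K ⊗[E] V) : Module.End K (K ⊗[E] V)) =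
          ((ν ^ 2) • (1 : Module.End K (K ⊗[E] V))) * (g' * g') := by
        have h6 : ((bcE K (g * g) : K ⊗[E] V ≃ₗ[K] K ⊗[E] V) : Module.End K (K ⊗[E] V)) =
            ((bcE K g : K ⊗[E] V ≃ₗ[K] K ⊗[E] V) : Module.End K (K ⊗[E] V)) *
            ((bcE K g : K ⊗[E] V ≃ₗ[K] K ⊗[E] V) : Module.End K (K ⊗[E] V)) := by
          rw [map_mul]
          rfl
        rw [h6, hfin]
        simp only [smul_mul_assoc, one_mul, mul_smul_comm, smul_smul, pow_two]
      rw [h5]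
      exact inCl_mul (hom _ (pow_ne_zero 2 hν0)) hkey.1
    · intro halt
      apply inCl_descend K
      rw [hfin]
      exact inCl_mul (hom ν hν0) (hkey.2 (fK_alt halt))
  · intro hsc hdet
    obtain ⟨w, ⟨p, n, P, R, F, hp, hn, hF, hmult, hchar, hweil, hR, hv⟩, hw⟩ := hex
    have : Fact p.Prime := ⟨hp⟩
    obtain ⟨x, hx⟩ : ∃ x : ℂ, Indep ((p : ℂ) ^ n) P x := by
      by_cases hd : R.degree = 0
      · exfalso
        rw [eq_C_of_degree_eq_zero hd, map_C, aeval_C] at hv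
        have h1 : (algebraMap ℚ E (R.coeff 0)) • w = 0 := hv
        rcases smul_eq_zero.1 h1 with h2 | h2
        · rw [map_eq_zero_iff _ (algebraMap ℚ E).injective] at h2
          rw [eq_C_of_degree_eq_zero hd, h2, C_0, degree_zero] at hd
          exact absurd hd (by simp)
        · exact hw h2
      · have hdC : (R.map (algebraMap ℚ ℂ)).degree ≠ 0 := by
          rwa [degree_map]
        obtain ⟨z, hz⟩ := IsAlgClosed.exists_root _ hdC
        refine ⟨z, hR z ?_⟩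
        rwa [IsRoot.def, eval_map, ← aeval_def] at hz
    refine strong hn hweil hx K ψ hψ hnd Γ hsim hss hsc F hF hchar hmult g μ hg (Or.inr hdet)

end Pool.Agent.H91U
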