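import Pool.Agent.H91U.FDefs
import Pool.Agent.H91U.MainU
import Pool.Agent.H91U.K3R

/-! Independent eigenvectors: final form. -/

set_option linter.unusedSectionVars false

namespace Pool.Agent.H91U

open Polynomial Pool.Agent.H93Tate Pool.Agent.H91.Mono Pool.Agent.H91S

lemma frobVec_ind {E V : Type*} [Field E] [CharZero E] [AddCommGroup V] [Module E V]
    [FiniteDimensional E V] {ψ : V →ₗ[E] V →ₗ[E] E} {Γ : Subgroup (V ≃ₗ[E] V)} {v : V}
    (h : FrobVec ψ Γ v) : IndVec ψ Γ v := by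
  obtain ⟨p, n, hp, P, R, F, hn, hF, hmult, hchar, hweil, hcond, hv⟩ := h
  have hP : P ≠ 0 := by
    rintro rfl
    have h1 := LinearMap.charpoly_monic (F : V →ₗ[E] V)
    rw [hchar, Polynomial.map_zero] at h1
    exact h1.ne_zero rfl
  rcases hcond with h | ⟨hR, y, hy, h0, h1, h2, h3⟩
  · exact ⟨p, n, P, R, F, hp.out, hn, hF, hmult, hchar, hweil, h, hv⟩
  · exact ⟨p, n, P, R, F, hp.out, hn, hF, hmult, hchar, hweil,
      fun z hz => indep_of_k3r hn hP hweil hR y hy h0 h1 h2 h3 z hz, hv⟩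

end Pool.Agent.H91U
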