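import Pool.Agent.H91U.CDefs
import Pool.Agent.H91U.Final

/-! Rational endomorphisms: separation over `E` follows from separation over `ℚ`.

PROOF. Let `(p, n, P, R, F)` be as in `FrobVecL`. All complex roots of `R` are simple roots of `P`
(`Indep`; in the K3 case by `indep_of_k3r`, see `frobVec_ind` in Final.lean). Let `R1 = gcd P R`,
`P = R1 * S`: `R1` and `S` are coprime (the roots of `R1` are simple roots of `P`), `R1 ∣ R`, and `R`, `S` are
coprime. With `u * R1 + w * S = 1` let `π = w(F) S(F)`: the projection onto `ker R1(F) = ker R(F)`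
(Cayley-Hamilton: `P(F) = 0`), a rational polynomial in `F`, so it commutes with `ρ b`, and
`trace (ρ b * π)` is rational for all `b ∈ L`.
Let `ε` be a basis of `E` over `ℚ`; `c = ∑ i, ε i • ρ (b i)` (finite sum; write the coefficients of an
element of the span in the basis). `c * π = 0`, so `0 = trace (c * ρ b' * π) = ∑ i, ε i * t i` with
`t i = trace (ρ (b i * b') * π)` rational, so `t i = 0` for all `i` and all `b' ∈ L`.
So each `b i` lies in the ideal `I = {b | trace (ρ (b * b') * π) = 0 for all b'}` of `L`. `L` is reduced and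
finite over `ℚ`, so Artinian, so semisimple (`IsArtinianRing.isSemisimpleRing_of_isReduced`), so
`I` is generated by an idempotent `e` (`IsSemisimpleRing.ideal_eq_span_idempotent`); `ρ e * π` is
an idempotent of trace 0, so it is 0 (`LinearMap.IsIdempotentElem..trace`, char 0), so `ρ b * π = 0` for
`b ∈ I`. (Alternative: `trace ((ρ b * π) ^ m) = 0` for all `m ≥ 1`, so `ρ b * π` is nilpotent; `b` is a root of
a squarefree polynomial, so it is also semisimple.)
So every `ρ (b i)` kills `ker R(F)` for all such data, so `ρ (b i) = 0` by `hsepQ`, so `c = 0`. -/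

set_option linter.unusedSectionVars false

namespace Pool.Agent.H91U

open Polynomial Pool.Agent.H93Tate Pool.Agent.H91.Mono Pool.Agent.H91S

lemma coef_proj {P R : ℚ[X]}
    (hind : ∀ z : ℂ, aeval z R = 0 → aeval z P = 0 → aeval z (derivative P) ≠ 0) :
    ∃ N u : ℚ[X], 1 - N = u * R ∧ P ∣ R * N := by
  obtain ⟨g, ⟨S, hS⟩, ⟨R', hR'⟩, a, b, hab⟩ : ∃ g : ℚ[X], g ∣ P ∧ g ∣ R ∧ ∃ a b : ℚ[X],
      g = P * a + R * b :=
    ⟨EuclideanDomain.gcd P R, EuclideanDomain.gcd_dvd_left P R, EuclideanDomain.gcd_dvd_right P R,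
      _, _, EuclideanDomain.gcd_eq_gcd_ab P R⟩
  have hcop : IsCoprime R S := by
    rw [Polynomial.isCoprime_iff_aeval_ne_zero_of_isAlgClosed ℚ ℂ]
    intro z
    by_contra hcon
    push Not at hcon
    obtain ⟨h1, h2⟩ := hcon
    have hPz : aeval z P = 0 := by rw [hS, map_mul, h2, mul_zero]
    have hg : aeval z g = 0 := by
      rw [hab, map_add, map_mul, map_mul, hPz, h1, zero_mul, zero_mul, add_zero]
    apply hind z h1 hPz
    rw [hS, derivative_mul, map_add, map_mul, map_mul, hg, h2, mul_zero, zero_mul, add_zero]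
  obtain ⟨u, w, huw⟩ := hcop
  refine ⟨w * S, u, ?_, R' * w, ?_⟩
  · rw [← huw]
    ring
  · rw [hR', hS]
    ring

lemma coef_commute {E V : Type*} [Field E] [AddCommGroup V] [Module E V]
    {f g : Module.End E V} (h : f * g = g * f) (Q : E[X]) :
    f * aeval g Q = aeval g Q * f := by
  have h1 : Commute f (aeval g Q) := by
    rw [Polynomial.aeval_eq_sum_range]
    refine Commute.sum_right _ _ _ (fun i _ => ?_)
    exact Commute.smul_right (Commute.pow_right h i) _
  exact h1

lemma coef_trace {E V : Type*} [Field E] [CharZero E] [AddCommGroup V] [Module E V]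
    {f g : Module.End E V}
    (h : ∀ k : ℕ, ∃ t : ℚ, LinearMap.trace E V (f * g ^ k) = algebraMap ℚ E t) (N : ℚ[X]) :
    ∃ t : ℚ, LinearMap.trace E V (f * aeval g (N.map (algebraMap ℚ E))) = algebraMap ℚ E t := by
  choose t ht using h
  refine ⟨∑ k ∈ Finset.range ((N.map (algebraMap ℚ E)).natDegree + 1), N.coeff k * t k, ?_⟩
  rw [Polynomial.aeval_eq_sum_range, Finset.mul_sum, map_sum, map_sum]
  refine Finset.sum_congr rfl (fun k _ => ?_)
  rw [Polynomial.coeff_map, mul_smul_comm, map_smul, ht, map_mul, smul_eq_mul]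

theorem coef_sep {E V L : Type*} [Field E] [CharZero E] [AddCommGroup V] [Module E V]
    [FiniteDimensional E V] [CommRing L] [Algebra ℚ L] [Module.Finite ℚ L] [IsReduced L]
    (ρ : L →+* Module.End E V) (ψ : V →ₗ[E] V →ₗ[E] E) (Γ : Subgroup (V ≃ₗ[E] V))
    (hsepQ : ∀ b : L, (∀ v, FrobVecL ρ ψ Γ v → ρ b v = 0) → ρ b = 0)
    (c : Module.End E V) (hc : c ∈ Submodule.span E (Set.range ρ))
    (h : ∀ v, FrobVec ψ Γ v → c v = 0) : c = 0 := by
  classical
  have hρ : ∀ (q : ℚ) (b : L), ρ (q • b) = (algebraMap ℚ E q) • ρ b := by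
    intro q b
    rw [Algebra.smul_def, map_mul]
    have h1 := RingHom.congr_fun (Subsingleton.elim (ρ.comp (algebraMap ℚ L))
      ((algebraMap E (Module.End E V)).comp (algebraMap ℚ E))) q
    rw [RingHom.comp_apply, RingHom.comp_apply] at h1
    rw [h1, ← Algebra.smul_def]
  obtain ⟨a, ha⟩ := (Finsupp.mem_span_range_iff_exists_finsupp).1 hc
  rw [Finsupp.sum] at ha
  have key : ∀ lam : E →ₗ[ℚ] ℚ, ∑ b ∈ a.support, algebraMap ℚ E (lam (a b)) • ρ b = 0 := by
    intro lam
    have hbl : ρ (∑ b ∈ a.support, lam (a b) • b) =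
        ∑ b ∈ a.support, algebraMap ℚ E (lam (a b)) • ρ b := by
      rw [map_sum]
      exact Finset.sum_congr rfl (fun b _ => hρ _ _)
    rw [← hbl]
    apply hsepQ
    rintro v ⟨p, n, hp, P, R, F, hn, hF, hmult, hchar, hweil, hcond, hRv, hcomm, htr⟩
    have hP : P ≠ 0 := by
      rintro rfl
      have h1 := LinearMap.charpoly_monic (F : V →ₗ[E] V)
      rw [hchar, Polynomial.map_zero] at h1
      exact h1.ne_zero rfl
    have hind : ∀ z : ℂ, aeval z R = 0 → Indep ((p : ℂ) ^ n) P z := by
      rcases hcond with h | ⟨hR, y, hy, h0, h1, h2, h3⟩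
      · exact h
      · exact fun z hz => indep_of_k3r hn hP hweil hR y hy h0 h1 h2 h3 z hz
    obtain ⟨N, u, h1, Q, hQ⟩ := coef_proj (P := P) (R := R) (fun z hz _ => (hind z hz).2.1)
    obtain ⟨π, hπ⟩ : ∃ π : Module.End E V,
        π = aeval (F : Module.End E V) (N.map (algebraMap ℚ E)) := ⟨_, rfl⟩
    have hPF : aeval (F : Module.End E V) (P.map (algebraMap ℚ E)) = 0 := by
      rw [← hchar]
      exact LinearMap.aeval_self_charpoly _
    have hRπ : aeval (F : Module.End E V) (R.map (algebraMap ℚ E)) * π = 0 := by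
      rw [hπ, ← map_mul, ← Polynomial.map_mul, hQ, Polynomial.map_mul, map_mul, hPF, zero_mul]
    have hπ1 : 1 - π = aeval (F : Module.End E V) (u.map (algebraMap ℚ E)) *
        aeval (F : Module.End E V) (R.map (algebraMap ℚ E)) := by
      rw [← map_mul, ← Polynomial.map_mul, ← h1, Polynomial.map_sub, Polynomial.map_one, map_sub,
        map_one, hπ]
    have hidem : π * π = π := by
      have h2 : (1 - π) * π = 0 := by rw [hπ1, mul_assoc, hRπ, mul_zero]
      rw [sub_mul, one_mul, sub_eq_zero] at h2
      exact h2.symm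
    have hcommπ : ∀ b : L, ρ b * π = π * ρ b := by
      intro b
      rw [hπ]
      exact coef_commute (hcomm b) _
    have htrπ : ∀ b : L, ∃ t : ℚ, LinearMap.trace E V (ρ b * π) = algebraMap ℚ E t := by
      intro b
      rw [hπ]
      exact coef_trace (htr b) N
    have hcπ : c * π = 0 := by
      ext w
      refine h (π w) ⟨p, n, hp, P, R, F, hn, hF, hmult, hchar, hweil, hcond, ?_⟩
      have h2 := LinearMap.congr_fun hRπ w
      exact h2
    choose t ht using htrπ
    let I : Ideal L :=
      { carrier := {b | ∀ b' : L, LinearMap.trace E V (ρ (b * b') * π) = 0}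
        add_mem' := by
          intro x y hx hy b'
          rw [add_mul, map_add, add_mul, map_add, hx b', hy b', add_zero]
        zero_mem' := by
          intro b'
          rw [zero_mul, map_zero, zero_mul, map_zero]
        smul_mem' := by
          intro r x hx b'
          rw [smul_eq_mul, mul_comm r x, mul_assoc]
          exact hx _ }
    have hI : (∑ b ∈ a.support, lam (a b) • b) ∈ I := by
      intro b'
      have h0 : ∑ b ∈ a.support, a b * algebraMap ℚ E (t (b * b')) = 0 := by
        have h2 : LinearMap.trace E V (c * (ρ b' * π)) = 0 := by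
          rw [hcommπ, ← mul_assoc, hcπ, zero_mul, map_zero]
        rw [← ha, Finset.sum_mul, map_sum] at h2
        rw [← h2]
        refine Finset.sum_congr rfl (fun b _ => ?_)
        rw [smul_mul_assoc, ← mul_assoc, ← map_mul, map_smul, ht, smul_eq_mul]
      have h0' : ∑ b ∈ a.support, t (b * b') • a b = 0 := by
        rw [← h0]
        refine Finset.sum_congr rfl (fun b _ => ?_)
        rw [Algebra.smul_def, mul_comm]
      have h0'' : ∑ b ∈ a.support, t (b * b') * lam (a b) = 0 := by
        have h3 := congrArg lam h0'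
        rw [map_sum, map_zero] at h3
        rw [← h3]
        refine Finset.sum_congr rfl (fun b _ => ?_)
        rw [map_smul, smul_eq_mul]
      have h4 : LinearMap.trace E V (ρ ((∑ b ∈ a.support, lam (a b) • b) * b') * π) =
          algebraMap ℚ E (∑ b ∈ a.support, t (b * b') * lam (a b)) := by
        rw [map_mul ρ, hbl, Finset.sum_mul, Finset.sum_mul, map_sum, map_sum]
        refine Finset.sum_congr rfl (fun b _ => ?_)
        rw [smul_mul_assoc, smul_mul_assoc, ← map_mul ρ, map_smul, ht, smul_eq_mul, map_mul,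
          mul_comm]
      rw [h4, h0'', map_zero]
    haveI : IsArtinianRing L := IsArtinianRing.of_finite ℚ L
    haveI : IsSemisimpleRing L := IsArtinianRing.isSemisimpleRing_of_isReduced L
    obtain ⟨e, he, hIe⟩ := IsSemisimpleRing.ideal_eq_span_idempotent I
    have heI : e ∈ I := by
      rw [hIe]
      exact Ideal.mem_span_singleton_self e
    have he0 : ρ e * π = 0 := by
      have hid : IsIdempotentElem (ρ e * π) := by
        have h5 : (ρ e * π) * (ρ e * π) = ρ e * π := by
          calc (ρ e * π) * (ρ e * π) = ρ e * (π * ρ e) * π := by simp only [mul_assoc]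
            _ = ρ e * (ρ e * π) * π := by rw [hcommπ]
            _ = (ρ e * ρ e) * (π * π) := by simp only [mul_assoc]
            _ = ρ e * π := by rw [hidem, ← map_mul, he.eq]
        exact h5
      refine (LinearMap.IsIdempotentElem.trace_eq_zero_iff hid).1 ?_
      have h6 := heI 1
      rwa [mul_one] at h6
    rw [hIe, Ideal.mem_span_singleton'] at hI
    obtain ⟨r, hr⟩ := hI
    have hπv : π v = v := by
      have h7 := LinearMap.congr_fun hπ1 v
      rw [Module.End.mul_apply, hRv, map_zero, LinearMap.sub_apply, Module.End.one_apply,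
        sub_eq_zero] at h7
      exact h7.symm
    have h8 : ρ (∑ b ∈ a.support, lam (a b) • b) * π = 0 := by
      rw [← hr, map_mul, mul_assoc, he0, mul_zero]
    have h9 := LinearMap.congr_fun h8 v
    rw [Module.End.mul_apply, hπv] at h9
    exact h9
  let ε := Module.Free.chooseBasis ℚ E
  let T := a.support.biUnion (fun b => (ε.repr (a b)).support)
  have hT : ∀ b ∈ a.support, a b = ∑ k ∈ T, algebraMap ℚ E (ε.repr (a b) k) * ε k := by
    intro b hb
    conv_lhs => rw [← ε.linearCombination_repr (a b), Finsupp.linearCombination_apply, Finsupp.sum]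
    rw [Finset.sum_subset (Finset.subset_biUnion_of_mem (fun b => (ε.repr (a b)).support) hb)]
    · exact Finset.sum_congr rfl (fun k _ => Algebra.smul_def _ _)
    · intro k _ hk
      rw [Finsupp.notMem_support_iff.1 hk, zero_smul]
  rw [← ha]
  have h10 : ∑ b ∈ a.support, a b • ρ b =
      ∑ k ∈ T, ε k • ∑ b ∈ a.support, algebraMap ℚ E (ε.repr (a b) k) • ρ b := by
    calc ∑ b ∈ a.support, a b • ρ b
        = ∑ b ∈ a.support, ∑ k ∈ T, ε k • (algebraMap ℚ E (ε.repr (a b) k) • ρ b) := by
          refine Finset.sum_congr rfl (fun b hb => ?_)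
          conv_lhs => rw [hT b hb, Finset.sum_smul]
          refine Finset.sum_congr rfl (fun k _ => ?_)
          rw [smul_smul, mul_comm]
      _ = ∑ k ∈ T, ∑ b ∈ a.support, ε k • (algebraMap ℚ E (ε.repr (a b) k) • ρ b) :=
          Finset.sum_comm
      _ = _ := by
          refine Finset.sum_congr rfl (fun k _ => ?_)
          rw [Finset.smul_sum]
  rw [h10]
  refine Finset.sum_eq_zero (fun k _ => ?_)
  have h11 := key (ε.coord k)
  simp only [Module.Basis.coord_apply] at h11
  rw [h11, smul_zero]

end Pool.Agent.H91U
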