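import Pool.Agent.H91U.CDefs
import Pool.Agent.H91U.Final

/-! Rational endomorphisms: separation over `E` follows from separation over `ℚ` (helper75). -/

set_option linter.unusedSectionVars false

namespace Pool.Agent.H91U

open Polynomial Pool.Agent.H93Tate Pool.Agent.H91.Mono Pool.Agent.H91S

/-- the cofactor of the greatest common divisor -/
lemma cs75_poly {P R : ℚ[X]} (h : ∀ z : ℂ, aeval z R = 0 → aeval z P = 0 ∧
    aeval z (derivative P) ≠ 0) : ∃ S : ℚ[X], P ∣ R * S ∧ IsCoprime S R := by
  classical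
  obtain ⟨S, hS⟩ := EuclideanDomain.gcd_dvd_left P R
  obtain ⟨R', hR'⟩ := EuclideanDomain.gcd_dvd_right P R
  refine ⟨S, ⟨R', ?_⟩, ?_⟩
  · calc R * S = (EuclideanDomain.gcd P R * R') * S := by rw [← hR']
      _ = (EuclideanDomain.gcd P R * S) * R' := by ring
      _ = P * R' := by rw [← hS]
  · refine (Polynomial.isCoprime_iff_aeval_ne_zero_of_isAlgClosed ℚ ℂ S R).2 fun z => ?_
    by_contra hz
    rw [not_or, not_not, not_not] at hz
    obtain ⟨h1, h2⟩ := h z hz.2
    have h3 : aeval z (EuclideanDomain.gcd P R) = 0 := by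
      rw [EuclideanDomain.gcd_eq_gcd_ab, map_add, map_mul, map_mul, h1, hz.2]
      ring
    apply h2
    have h4 : derivative P = derivative (EuclideanDomain.gcd P R) * S +
        EuclideanDomain.gcd P R * derivative S := by
      rw [← derivative_mul, ← hS]
    rw [h4, map_add, map_mul, map_mul, h3, hz.1]
    ring

/-- reduced and Artinian: every element is a unit times an idempotent -/
lemma cs75_reg {L : Type*} [CommRing L] [Algebra ℚ L] [Module.Finite ℚ L] [IsReduced L] (b : L) :
    ∃ y : L, b * (b * y) = b := by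
  have : IsArtinianRing L := IsArtinianRing.of_finite ℚ L
  obtain ⟨n, y, hy⟩ := IsArtinian.exists_pow_succ_smul_dvd b (1 : L)
  rw [smul_eq_mul, smul_eq_mul, mul_one] at hy
  refine ⟨y, ?_⟩
  have h1 : (b - b * (b * y)) ^ (n + 1) = 0 := by
    have h2 : b - b * (b * y) = b * (1 - b * y) := by ring
    have h3 : b ^ n * (1 - b * y) = 0 := by
      have : b ^ n * (1 - b * y) = b ^ n - b ^ n.succ * y := by
        rw [pow_succ]
        ring
      rw [this, hy, sub_self]
    rw [h2, mul_pow, pow_succ b n, pow_succ (1 - b * y) n]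
    calc b ^ n * b * ((1 - b * y) ^ n * (1 - b * y))
        = (b ^ n * (1 - b * y)) * (b * (1 - b * y) ^ n) := by ring
      _ = 0 := by rw [h3, zero_mul]
  have h4 := pow_eq_zero_iff (Nat.succ_ne_zero n) |>.1 h1
  rw [sub_eq_zero] at h4
  exact h4.symm

section cs75

variable {E V L : Type*} [Field E] [CharZero E] [AddCommGroup V] [Module E V]
    [FiniteDimensional E V] [CommRing L]

lemma cs75_comm {ρ : L →+* Module.End E V} {F : Module.End E V} (h : ∀ b : L, ρ b * F = F * ρ b)
    (b : L) (A : ℚ[X]) :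
    ρ b * aeval F (A.map (algebraMap ℚ E)) = aeval F (A.map (algebraMap ℚ E)) * ρ b := by
  have h1 : Commute (ρ b) F := h b
  induction A using Polynomial.induction_on' with
  | add A B hA hB =>
    rw [Polynomial.map_add, map_add, mul_add, add_mul, hA, hB]
  | monomial n a =>
    rw [Polynomial.map_monomial, aeval_monomial]
    have h2 : Commute (ρ b) (algebraMap E (Module.End E V) (algebraMap ℚ E a)) :=
      (Algebra.commutes _ _).symm
    exact h2.mul_right (h1.pow_right n)

lemma cs75_trace {ρ : L →+* Module.End E V} {F : Module.End E V}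
    (h : ∀ (b : L) (k : ℕ), ∃ t : ℚ, LinearMap.trace E V (ρ b * F ^ k) = algebraMap ℚ E t)
    (b : L) (A : ℚ[X]) :
    ∃ t : ℚ, LinearMap.trace E V (ρ b * aeval F (A.map (algebraMap ℚ E))) = algebraMap ℚ E t := by
  induction A using Polynomial.induction_on' with
  | add A B hA hB =>
    obtain ⟨s, hs⟩ := hA
    obtain ⟨t, ht⟩ := hB
    refine ⟨s + t, ?_⟩
    rw [Polynomial.map_add, map_add, mul_add, map_add, hs, ht, map_add]
  | monomial n a =>
    obtain ⟨t, ht⟩ := h b n
    refine ⟨a * t, ?_⟩
    rw [Polynomial.map_monomial, aeval_monomial, ← Algebra.smul_def, mul_smul_comm, map_smul, ht,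
      map_mul, smul_eq_mul]

/-- the finite sum over a `ℚ`-basis of `E` -/
lemma cs75_rep [Algebra ℚ L] (ρ : L →+* Module.End E V) {ι : Type*} (ε : Module.Basis ι ℚ E)
    (c : Module.End E V) (hc : c ∈ Submodule.span E (Set.range ρ)) :
    ∃ (s : Finset ι) (b : ι → L), c = ∑ i ∈ s, ε i • ρ (b i) := by
  classical
  rw [Finsupp.mem_span_range_iff_exists_finsupp] at hc
  obtain ⟨e, he⟩ := hc
  set s : Finset ι := e.support.biUnion fun x => (ε.repr (e x)).support with hs
  refine ⟨s, fun i => ∑ x ∈ e.support, (ε.repr (e x) i) • x, ?_⟩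
  have h1 : ∀ x ∈ e.support, e x = ∑ i ∈ s, (ε.repr (e x) i) • ε i := by
    intro x hx
    conv_lhs => rw [← ε.linearCombination_repr (e x)]
    rw [Finsupp.linearCombination_apply]
    refine Finsupp.sum_of_support_subset _ ?_ _ fun i _ => zero_smul ℚ (ε i)
    exact Finset.subset_biUnion_of_mem (fun x => (ε.repr (e x)).support) hx
  have h2 : ∀ (q : ℚ) (x : L), ρ (q • x) = algebraMap ℚ E q • ρ x := by
    intro q x
    have h3 : ρ.comp (algebraMap ℚ L) =
        (algebraMap E (Module.End E V)).comp (algebraMap ℚ E) := Subsingleton.elim _ _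
    have h4 : ρ (algebraMap ℚ L q) = algebraMap E (Module.End E V) (algebraMap ℚ E q) :=
      RingHom.congr_fun h3 q
    rw [Algebra.smul_def, map_mul, h4, ← Algebra.smul_def]
  rw [← he, Finsupp.sum]
  calc ∑ x ∈ e.support, e x • ρ x
      = ∑ x ∈ e.support, ∑ i ∈ s, algebraMap ℚ E (ε.repr (e x) i) • (ε i • ρ x) := by
        refine Finset.sum_congr rfl fun x hx => ?_
        conv_lhs => rw [h1 x hx]
        rw [Finset.sum_smul]
        refine Finset.sum_congr rfl fun i _ => ?_
        have h5 : (ε.repr (e x) i) • ε i = algebraMap ℚ E (ε.repr (e x) i) * ε i :=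
          Algebra.smul_def _ _
        rw [h5, mul_smul]
    _ = ∑ i ∈ s, ∑ x ∈ e.support, algebraMap ℚ E (ε.repr (e x) i) • (ε i • ρ x) :=
        Finset.sum_comm
    _ = ∑ i ∈ s, ε i • ρ (∑ x ∈ e.support, (ε.repr (e x) i) • x) := by
        refine Finset.sum_congr rfl fun i _ => ?_
        rw [map_sum, Finset.smul_sum]
        refine Finset.sum_congr rfl fun x _ => ?_
        rw [h2, smul_comm]

end cs75

theorem coef_sep75 {E V L : Type*} [Field E] [CharZero E] [AddCommGroup V] [Module E V]
    [FiniteDimensional E V] [CommRing L] [Algebra ℚ L] [Module.Finite ℚ L] [IsReduced L]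
    (ρ : L →+* Module.End E V) (ψ : V →ₗ[E] V →ₗ[E] E) (Γ : Subgroup (V ≃ₗ[E] V))
    (hsepQ : ∀ b : L, (∀ v, FrobVecL ρ ψ Γ v → ρ b v = 0) → ρ b = 0)
    (c : Module.End E V) (hc : c ∈ Submodule.span E (Set.range ρ))
    (h : ∀ v, FrobVec ψ Γ v → c v = 0) : c = 0 := by
  classical
  set ε := Module.Basis.ofVectorSpace ℚ E with hε
  obtain ⟨s, b, hb⟩ := cs75_rep ρ ε c hc
  have key : ∀ i ∈ s, ρ (b i) = 0 := by
    intro i hi
    apply hsepQ
    rintro v ⟨p, n, hp, P, R, F, hn, hF, hmult, hchar, hweil, hcond, hv, hcomm, htr⟩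
    have hP : P ≠ 0 := by
      rintro rfl
      have h1 := LinearMap.charpoly_monic (F : V →ₗ[E] V)
      rw [hchar, Polynomial.map_zero] at h1
      exact h1.ne_zero rfl
    have hsimple : ∀ z : ℂ, aeval z R = 0 → aeval z P = 0 ∧ aeval z (derivative P) ≠ 0 := by
      intro z hz
      rcases hcond with h | ⟨hR, y, hy, h0, h1, h2, h3⟩
      · exact ⟨(h z hz).1, (h z hz).2.1⟩
      · have := indep_of_k3r hn hP hweil hR y hy h0 h1 h2 h3 z hz
        exact ⟨this.1, this.2.1⟩
    obtain ⟨S, hPS, a, r, har⟩ := cs75_poly hsimple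
    set Fe : Module.End E V := (F : Module.End E V) with hFe
    set π : Module.End E V := aeval Fe ((a * S).map (algebraMap ℚ E)) with hπ
    have hCH : aeval Fe (P.map (algebraMap ℚ E)) = 0 := by
      rw [← hchar]
      exact LinearMap.aeval_self_charpoly _
    -- the range of `π` is killed by `R(F)`
    have hker : ∀ w, aeval Fe (R.map (algebraMap ℚ E)) (π w) = 0 := by
      intro w
      obtain ⟨T, hT⟩ := hPS
      have h1 : R * (a * S) = P * (T * a) := by
        calc R * (a * S) = (R * S) * a := by ring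
          _ = P * (T * a) := by rw [hT]; ring
      have h2 : aeval Fe (R.map (algebraMap ℚ E)) * π = 0 := by
        rw [hπ, ← map_mul, ← Polynomial.map_mul, h1, Polynomial.map_mul, map_mul, hCH, zero_mul]
      have := congrArg (fun f : Module.End E V => f w) h2
      exact this
    -- `π` is the identity on the kernel of `R(F)`
    have hid : ∀ w, aeval Fe (R.map (algebraMap ℚ E)) w = 0 → π w = w := by
      intro w hw
      have h1 : aeval Fe ((a * S + r * R).map (algebraMap ℚ E)) w = w := by
        rw [har, Polynomial.map_one, map_one]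
        rfl
      rw [Polynomial.map_add, map_add, Polynomial.map_mul (p := r) (q := R), map_mul] at h1
      rw [LinearMap.add_apply, Module.End.mul_apply, hw, map_zero, add_zero] at h1
      exact h1
    have hππ : π * π = π := by
      ext w
      exact hid _ (hker w)
    have hcπ : c * π = 0 := by
      ext w
      exact h _ ⟨p, n, hp, P, R, F, hn, hF, hmult, hchar, hweil, hcond, hker w⟩
    have hρπ : ∀ x : L, ρ x * π = π * ρ x := fun x => cs75_comm hcomm x (a * S)
    have htrace : ∀ x : L, LinearMap.trace E V (ρ (b i * x) * π) = 0 := by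
      intro x
      have h1 : ∀ j, ∃ t : ℚ, LinearMap.trace E V (ρ (b j * x) * π) = algebraMap ℚ E t :=
        fun j => cs75_trace htr (b j * x) (a * S)
      choose t ht using h1
      have h2 : c * (ρ x * π) = 0 := by
        rw [hρπ, ← mul_assoc, hcπ, zero_mul]
      have h3 : ∑ j ∈ s, t j • ε j = 0 := by
        have h4 : LinearMap.trace E V (c * (ρ x * π)) = ∑ j ∈ s, t j • ε j := by
          rw [hb, Finset.sum_mul, map_sum]
          refine Finset.sum_congr rfl fun j _ => ?_
          rw [smul_mul_assoc, map_smul, ← mul_assoc, ← map_mul, ht, smul_eq_mul, mul_comm,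
            ← Algebra.smul_def]
        rw [← h4, h2, map_zero]
      have h5 := linearIndependent_iff'.1 ε.linearIndependent s t h3 i hi
      rw [ht, h5, map_zero]
    obtain ⟨y, hy⟩ := cs75_reg (b i)
    have hidem : IsIdempotentElem (ρ (b i * y) * π) := by
      have h1 : (b i * y) * (b i * y) = b i * y := by
        calc (b i * y) * (b i * y) = (b i * (b i * y)) * y := by ring
          _ = b i * y := by rw [hy]
      show ρ (b i * y) * π * (ρ (b i * y) * π) = ρ (b i * y) * π
      calc ρ (b i * y) * π * (ρ (b i * y) * π)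
          = ρ (b i * y) * (π * ρ (b i * y)) * π := by simp only [mul_assoc]
        _ = ρ (b i * y) * (ρ (b i * y) * π) * π := by rw [hρπ]
        _ = (ρ (b i * y) * ρ (b i * y)) * (π * π) := by simp only [mul_assoc]
        _ = ρ (b i * y) * π := by rw [hππ, ← map_mul, h1]
    have hzero : ρ (b i * y) * π = 0 :=
      LinearMap.IsIdempotentElem.eq_zero_of_trace_eq_zero hidem (htrace y)
    have hfin : ρ (b i) * π = 0 := by
      rw [← hy, map_mul, mul_assoc, hzero, mul_zero]
    rw [← hid v hv]
    exact congrArg (fun f : Module.End E V => f v) hfin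
  rw [hb]
  refine Finset.sum_eq_zero fun i hi => ?_
  rw [key i hi, smul_zero]

end Pool.Agent.H91U
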