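import Pool.Agent.H91.Mono.Gal4

/-! Characteristic polynomials force the stable commutant to be scalar.

PROOF. `χ` = charpoly of `F₀`, irreducible over `E`, `α` a root in `K`, nondegenerate: all roots of `χ`
are conjugate to `α`, so no quotient of two different roots is a root of unity. Let `c` commute with
the subgroup `Δ` of finite index of `Γ` and `N > 0` with `F₀ ^ N ∈ Δ`
(`Subgroup.exists_pow_mem_of_index_ne_zero`).
(1) `c` commutes with `F₀`: the `N`-th powers of the roots are distinct, so `E(α ^ N) = E(α)` and
`F₀ ∈ E[F₀ ^ N]` (`F₀` is a root of its minimal polynomial `χ`, `E[F₀] ≅ E(α)` is a field; or over `K`: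
an eigenbasis of `F₀` is an eigenbasis of `F₀ ^ N` with distinct eigenvalues, so `c` preserves every
eigenline, so `c` commutes with `F₀`).
(2) The set `C` of all `c` with `Comm Γ c` is a subalgebra of `End V`; every element commutes with
`F₀`, and the centralizer of `F₀` is `E[F₀]` (cyclic: `V` is one-dimensional over the field `E[F₀]`).
So `C` is a subfield of `E[F₀]`, of degree `f = [C : E]`, and `V` is a `C`-vector space, so
`f ∣ finrank E V`.
(3) If `f ≠ 1` let `r` be a prime divisor of `f` and `G`, `β` as in `hprime`. Let `v ∈ E(β) ⊗ V` (or `K ⊗ V`)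
be an eigenvector of `G` for `β`. Every `c ∈ C` commutes with some `G ^ N`, `N > 0`, and `β ^ N` is a
simple eigenvalue of `G ^ N` (nondegenerate), so `c v = χ(c) v`: an `E`-algebra homomorphism
`χ : C → E(β)`, injective because `C` is a field. So `f ∣ [E(β) : E]` (tower), `r ∣ deg`: contradiction.
So `f = 1` and `C = E`. -/

set_option linter.unusedSectionVars false

namespace Pool.Agent.H91U

open Polynomial TensorProduct Pool.Agent.H91.Mono

section Aux

variable {E : Type*} [Field E] {V : Type*} [AddCommGroup V] [Module E V]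

lemma commsc_commute {c x : Module.End E V} (h : ∀ v, c (x v) = x (c v)) (q : E[X]) (v : V) :
    c (aeval x q v) = aeval x q (c v) := by
  induction q using Polynomial.induction_on' generalizing v with
  | add p q hp hq => rw [map_add, LinearMap.add_apply, LinearMap.add_apply, map_add, hp, hq]
  | monomial n a =>
    have hpow : ∀ (k : ℕ) (w : V), c ((x ^ k) w) = (x ^ k) (c w) := by
      intro k
      induction k with
      | zero => intro w; rfl
      | succ k ih =>
        intro w
        rw [pow_succ, Module.End.mul_apply, Module.End.mul_apply, ih, h]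
    rw [aeval_monomial, Module.End.mul_apply, Module.End.mul_apply,
      Module.algebraMap_end_apply, Module.algebraMap_end_apply, map_smul, hpow]

lemma commsc_pow (G : V ≃ₗ[E] V) (k : ℕ) (u : V) :
    ((G : Module.End E V) ^ k) u = (G ^ k) u := by
  induction k generalizing u with
  | zero => rfl
  | succ k ih =>
    rw [pow_succ', pow_succ', Module.End.mul_apply, ih]
    rfl

/-- the centralizer of an operator with irreducible characteristic polynomial -/
lemma commsc_cyclic [FiniteDimensional E V] {x c : Module.End E V}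
    (hirr : Irreducible (LinearMap.charpoly x)) (hcx : ∀ v, c (x v) = x (c v)) :
    ∃ p : E[X], c = aeval x p := by
  have hCH : aeval x (LinearMap.charpoly x) = 0 := LinearMap.aeval_self_charpoly x
  have hdeg : (LinearMap.charpoly x).natDegree = Module.finrank E V :=
    LinearMap.charpoly_natDegree x
  have hpos : 0 < Module.finrank E V := by
    rw [← hdeg]
    exact hirr.natDegree_pos
  obtain ⟨v0, hv0⟩ : ∃ v0 : V, v0 ≠ 0 := by
    have := Module.nontrivial_of_finrank_pos hpos
    exact exists_ne 0
  have hker : ∀ q : E[X], aeval x q v0 = 0 → LinearMap.charpoly x ∣ q := by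
    intro q hq
    by_contra hnd
    obtain ⟨a, b, hab⟩ := (hirr.coprime_iff_not_dvd.2 hnd).symm.symm
    apply hv0
    have h1 := congrArg (fun r => aeval x r v0) hab
    simp only [map_add, map_mul, map_one, LinearMap.add_apply, Module.End.mul_apply,
      Module.End.one_apply, hq, map_zero, add_zero] at h1
    have h2 : aeval x a (aeval x (LinearMap.charpoly x) v0) = 0 := by
      rw [hCH, LinearMap.zero_apply, map_zero]
    rw [h2] at h1
    exact h1.symm
  let Φ : degreeLT E (Module.finrank E V) →ₗ[E] V :=
    { toFun := fun q => aeval x (q : E[X]) v0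
      map_add' := fun q r => by
        rw [Submodule.coe_add, map_add, LinearMap.add_apply]
      map_smul' := fun a q => by
        rw [Submodule.coe_smul, map_smul, LinearMap.smul_apply, RingHom.id_apply] }
  have hΦ : ∀ q, Φ q = aeval x (q : E[X]) v0 := fun _ => rfl
  have hinj : Function.Injective Φ := by
    rw [injective_iff_map_eq_zero]
    intro q hq
    apply Subtype.ext
    have h1 := hker _ hq
    apply eq_zero_of_dvd_of_degree_lt h1
    have h2 := mem_degreeLT.1 q.2
    rw [degree_eq_natDegree hirr.ne_zero, hdeg]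
    exact h2
  have hfr : Module.finrank E (degreeLT E (Module.finrank E V)) = Module.finrank E V := by
    rw [(degreeLTEquiv E (Module.finrank E V)).finrank_eq, Module.finrank_fin_fun]
  have hfd : FiniteDimensional E (degreeLT E (Module.finrank E V)) :=
    (degreeLTEquiv E (Module.finrank E V)).symm.finiteDimensional
  have hsurj : Function.Surjective Φ :=
    (LinearMap.injective_iff_surjective_of_finrank_eq_finrank hfr).1 hinj
  obtain ⟨p, hp⟩ := hsurj (c v0)
  refine ⟨p, ?_⟩
  ext v
  obtain ⟨q, rfl⟩ := hsurj v
  rw [hΦ, commsc_commute hcx, ← hp, hΦ, ← Module.End.mul_apply, ← Module.End.mul_apply,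
    ← map_mul, ← map_mul, mul_comm]

end Aux

section Field

variable {E : Type*} [Field E] [CharZero E] {K : Type*} [Field K] [Algebra E K]
  [IsAlgClosure E K]

/-- stabilizers and degrees -/
lemma commsc_deg_dvd {s t : K} (h : ∀ σ : K ≃ₐ[E] K, σ s = s → σ t = t) :
    (minpoly E t).natDegree ∣ (minpoly E s).natDegree := by
  rw [← index_stab (E := E) t, ← index_stab (E := E) s]
  apply Subgroup.index_dvd_of_le
  intro σ hσ
  rw [MulAction.mem_stabilizer_iff] at hσ ⊢
  exact h σ hσ

lemma commsc_pow_gen {α : K} {N : ℕ} (h : ∀ σ : K ≃ₐ[E] K, σ (α ^ N) = α ^ N → σ α = α) :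
    ∃ q : E[X], α = aeval (α ^ N) q := by
  have halg : Algebra.IsAlgebraic E K := IsAlgClosure.isAlgebraic
  have hint : ∀ x : K, IsIntegral E x := fun x => Algebra.IsIntegral.isIntegral x
  have h1 : (minpoly E α).natDegree = (minpoly E (α ^ N)).natDegree := by
    apply Nat.dvd_antisymm
    · exact commsc_deg_dvd h
    · exact commsc_deg_dvd (fun σ hσ => by rw [map_pow, hσ])
  have hle : IntermediateField.adjoin E {α ^ N} ≤ IntermediateField.adjoin E {α} := by
    rw [IntermediateField.adjoin_simple_le_iff]
    exact pow_mem (IntermediateField.mem_adjoin_simple_self E α) N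
  have hfd : FiniteDimensional E (IntermediateField.adjoin E {α}) :=
    IntermediateField.adjoin.finiteDimensional (hint α)
  have heq : IntermediateField.adjoin E {α ^ N} = IntermediateField.adjoin E {α} := by
    apply IntermediateField.eq_of_le_of_finrank_eq hle
    rw [IntermediateField.adjoin.finrank (hint _), IntermediateField.adjoin.finrank (hint _), h1]
  have hmem : α ∈ IntermediateField.adjoin E {α ^ N} := by
    rw [heq]
    exact IntermediateField.mem_adjoin_simple_self E α
  have hmem2 : α ∈ (IntermediateField.adjoin E {α ^ N}).toSubalgebra := hmem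
  rw [IntermediateField.adjoin_simple_toSubalgebra_of_isAlgebraic (hint _).isAlgebraic,
    Algebra.adjoin_singleton_eq_range_aeval] at hmem2
  obtain ⟨q, hq⟩ := hmem2
  exact ⟨q, hq.symm⟩

end Field

section BC

variable {E : Type*} [Field E] {K : Type*} [Field K] [Algebra E K] {V : Type*} [AddCommGroup V]
  [Module E V]

/-- an eigenvalue of the base change is a root of every annihilating polynomial -/
lemma commsc_root {c : Module.End E V} {q : E[X]} (hq : aeval c q = 0) {t : K}
    {v : K ⊗[E] V} (hv0 : v ≠ 0) (hv : c.baseChange K v = t • v) : aeval t q = 0 := by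
  have hpow : ∀ k : ℕ, (c ^ k).baseChange K v = t ^ k • v := by
    intro k
    induction k with
    | zero =>
      rw [pow_zero, pow_zero, one_smul]
      have : (1 : Module.End E V).baseChange K = LinearMap.id := by
        ext x
        rfl
      rw [this, LinearMap.id_apply]
    | succ k ih =>
      have : (c ^ (k + 1)).baseChange K = (c ^ k).baseChange K ∘ₗ c.baseChange K := by
        rw [pow_succ, Module.End.mul_eq_comp, LinearMap.baseChange_comp]
      rw [this, LinearMap.comp_apply, hv, map_smul, ih, smul_smul, pow_succ']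
  have key : ∀ q : E[X], (aeval c q).baseChange K v = aeval t q • v := by
    intro q
    induction q using Polynomial.induction_on' with
    | add p q hp hq =>
      rw [map_add, LinearMap.baseChange_add, LinearMap.add_apply, hp, hq, map_add, add_smul]
    | monomial n a =>
      have h1 : (aeval c (monomial n a) : Module.End E V) = a • c ^ n := by
        rw [aeval_monomial, ← Algebra.smul_def]
      rw [h1, LinearMap.baseChange_smul, LinearMap.smul_apply, hpow, aeval_monomial,
        mul_smul, algebraMap_smul]
  have h1 := key q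
  rw [hq, LinearMap.baseChange_zero, LinearMap.zero_apply] at h1
  rcases smul_eq_zero.1 h1.symm with h2 | h2
  · exact h2
  · exact absurd h2 hv0

/-- an eigenvalue of `c` on a nondegenerate eigenvector of `G` is rational over the field of the
eigenvalue of `G` -/
lemma commsc_fixed {c : Module.End E V} {G : V ≃ₗ[E] V} {β t : K} {v : K ⊗[E] V}
    (hv : Nondeg (bcE K G) β v) (hcv : c.baseChange K v = t • v) (σ : K ≃ₐ[E] K)
    (hσ : σ β = β) : σ t = t := by
  let T : K ⊗[E] V ≃ₗ[E] K ⊗[E] V := TensorProduct.congr σ.toLinearEquiv (LinearEquiv.refl E V)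
  have hT : ∀ (a : K) (v : V), T (a ⊗ₜ[E] v) = σ a ⊗ₜ[E] v := fun a v => rfl
  have hTs : ∀ (k : K) (x : K ⊗[E] V), T (k • x) = σ k • T x := by
    intro k x
    induction x using TensorProduct.induction_on with
    | zero => simp
    | tmul a v =>
      rw [TensorProduct.smul_tmul', hT, hT, TensorProduct.smul_tmul', smul_eq_mul, smul_eq_mul,
        map_mul]
    | add x y hx hy => rw [smul_add, map_add, map_add, smul_add, hx, hy]
  have hTG : ∀ x, T (bcE K G x) = bcE K G (T x) := by
    intro x
    induction x using TensorProduct.induction_on with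
    | zero => simp
    | tmul a v => rw [bcE_tmul, hT, hT, bcE_tmul]
    | add x y hx hy => rw [map_add, map_add, map_add, map_add, hx, hy]
  have hTc : ∀ x, T (c.baseChange K x) = c.baseChange K (T x) := by
    intro x
    induction x using TensorProduct.induction_on with
    | zero => simp
    | tmul a v => rw [LinearMap.baseChange_tmul, hT, hT, LinearMap.baseChange_tmul]
    | add x y hx hy => rw [map_add, map_add, map_add, map_add, hx, hy]
  obtain ⟨hv0, hGv, hN⟩ := hv
  have h1 : bcE K G (T v) = β • T v := by
    rw [← hTG, hGv, hTs, hσ]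
  obtain ⟨s, hs⟩ := hN 1 one_pos (T v) (by rw [pow_one, pow_one]; exact h1)
  have hTv : T v ≠ 0 := by
    intro h0
    exact hv0 ((map_eq_zero_iff T T.injective).1 h0)
  have h2 : c.baseChange K (T v) = σ t • T v := by rw [← hTc, hcv, hTs]
  have h3 : c.baseChange K (T v) = t • T v := by
    rw [hs, map_smul, hcv, smul_comm]
  have h4 : σ t • T v = t • T v := by rw [← h2, h3]
  exact smul_left_injective K hTv h4

end BC

theorem comm_scalar {E : Type*} [Field E] [CharZero E] (K : Type*) [Field K] [Algebra E K]
    [IsAlgClosure E K] {V : Type*} [AddCommGroup V] [Module E V] [FiniteDimensional E V]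
    (Γ : Subgroup (V ≃ₗ[E] V)) (F₀ : V ≃ₗ[E] V) (hF₀ : F₀ ∈ Γ)
    (hirr : Irreducible (LinearMap.charpoly (F₀ : V →ₗ[E] V)))
    (α : K) (hα : NondegRoot F₀ α)
    (hprime : ∀ r : ℕ, r.Prime → r ∣ Module.finrank E V → ∃ G ∈ Γ, ∃ β : K,
      NondegRoot G β ∧ ¬ r ∣ (minpoly E β).natDegree)
    (c : Module.End E V) (hc : Comm Γ c) : ∃ a : E, c = a • (1 : Module.End E V) := by
  classical
  have hac : IsAlgClosed K := IsAlgClosure.isAlgClosed E
  have halg : Algebra.IsAlgebraic E K := IsAlgClosure.isAlgebraic
  have hcz : CharZero K := charZero_of_injective_algebraMap (algebraMap E K).injective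
  have hint : ∀ x : K, IsIntegral E x := fun x => Algebra.IsIntegral.isIntegral x
  have hmon : (LinearMap.charpoly (F₀ : V →ₗ[E] V)).Monic := LinearMap.charpoly_monic _
  have hroot : aeval α (LinearMap.charpoly (F₀ : V →ₗ[E] V)) = 0 := by
    have h1 : ((LinearMap.charpoly (F₀ : V →ₗ[E] V)).map (algebraMap E K)).IsRoot α := by
      rw [← rootMultiplicity_pos (hmon.map _).ne_zero, hα.1]
      exact one_pos
    rwa [IsRoot.def, eval_map_algebraMap] at h1
  have hmin : LinearMap.charpoly (F₀ : V →ₗ[E] V) = minpoly E α :=
    minpoly.eq_of_irreducible_of_monic hirr hroot hmon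
  have hCH : aeval (F₀ : Module.End E V) (LinearMap.charpoly (F₀ : V →ₗ[E] V)) = 0 :=
    LinearMap.aeval_self_charpoly _
  have hkill : ∀ g : E[X], aeval α g = 0 → aeval (F₀ : Module.End E V) g = 0 := by
    intro g hg
    have h1 : LinearMap.charpoly (F₀ : V →ₗ[E] V) ∣ g := by
      rw [hmin]
      exact minpoly.dvd E α hg
    obtain ⟨k, rfl⟩ := h1
    rw [map_mul, hCH, zero_mul]
  -- `c` commutes with a power of every element of `Γ`
  have hpow : ∀ G : V ≃ₗ[E] V, G ∈ Γ → ∃ N : ℕ, 0 < N ∧ ∀ v, c ((G ^ N) v) = (G ^ N) (c v) := by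
    intro G hG
    obtain ⟨Δ, hΔ, hcomm⟩ := hc
    obtain ⟨N, hN, -, hmem⟩ := Subgroup.exists_pow_mem_of_index_ne_zero hΔ.index_ne_zero
      (⟨G, hG⟩ : Γ)
    exact ⟨N, hN, fun v => hcomm _ hmem v⟩
  -- `c` commutes with `F₀`
  obtain ⟨N, hN, hcN⟩ := hpow F₀ hF₀
  obtain ⟨q, hq⟩ := commsc_pow_gen (E := E) (α := α) (N := N) (by
    intro σ hσ
    apply hα.2 (σ α) _ N hN
    · rw [← map_pow, hσ]
    · rw [aeval_algHom_apply, hroot, map_zero])
  have hF₀q : (F₀ : Module.End E V) = aeval ((F₀ : Module.End E V) ^ N) q := by
    have h1 := hkill (X - q.comp (X ^ N)) (by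
      rw [map_sub, aeval_X, aeval_comp, map_pow, aeval_X, ← hq, sub_self])
    rw [map_sub, aeval_X, aeval_comp, map_pow, aeval_X, sub_eq_zero] at h1
    exact h1
  have hcF : ∀ v, c ((F₀ : Module.End E V) v) = (F₀ : Module.End E V) (c v) := by
    intro v
    rw [hF₀q]
    apply commsc_commute
    intro w
    rw [commsc_pow, commsc_pow]
    exact hcN w
  obtain ⟨p, hp⟩ := commsc_cyclic hirr hcF
  -- the eigenvalue of `c`
  have hdeg1 : (minpoly E (aeval α p)).natDegree = 1 := by
    by_contra hne
    obtain ⟨r, hr, hrd⟩ := Nat.exists_prime_and_dvd hne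
    have hrn : r ∣ Module.finrank E V := by
      rw [← LinearMap.charpoly_natDegree (F₀ : V →ₗ[E] V), hmin]
      refine hrd.trans (commsc_deg_dvd ?_)
      intro σ hσ
      rw [← aeval_algHom_apply, hσ]
    obtain ⟨G, hG, β, ⟨hβ1, hβ2⟩, hβ3⟩ := hprime r hr hrn
    have hchG : LinearMap.charpoly ((bcE K G : K ⊗[E] V ≃ₗ[K] K ⊗[E] V) :
        K ⊗[E] V →ₗ[K] K ⊗[E] V) = (LinearMap.charpoly (G : V →ₗ[E] V)).map
        (algebraMap E K) := by
      rw [bcE_coe, LinearMap.charpoly_baseChange]
    obtain ⟨v, hv⟩ := nondeg_of (bcE K G) β (by rw [hchG]; exact hβ1) (by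
      intro γ hγ M hM hγM
      apply hβ2 γ _ M hM hγM
      rw [hchG, IsRoot.def, eval_map_algebraMap] at hγ
      exact hγ)
    obtain ⟨M, hM, hcM⟩ := hpow G hG
    -- `c` preserves the eigenline
    obtain ⟨t, ht⟩ : ∃ t : K, c.baseChange K v = t • v := by
      obtain ⟨-, hGv, hNd⟩ := hv
      apply hNd M hM
      have hpw : ∀ k : ℕ, (bcE K G ^ k) v = β ^ k • v := by
        intro k
        induction k with
        | zero => rw [pow_zero, pow_zero, one_smul]; rfl
        | succ k ih =>
          rw [pow_succ]
          show (bcE K G ^ k) (bcE K G v) = _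
          rw [hGv, map_smul, ih, smul_smul, pow_succ']
      have hcK : ∀ x : K ⊗[E] V, (bcE K G ^ M) (c.baseChange K x) =
          c.baseChange K ((bcE K G ^ M) x) := by
        intro x
        rw [← map_pow]
        induction x using TensorProduct.induction_on with
        | zero => simp
        | tmul a w =>
          rw [LinearMap.baseChange_tmul, bcE_tmul, bcE_tmul, LinearMap.baseChange_tmul, hcM]
        | add x y hx hy => rw [map_add, map_add, map_add, map_add, hx, hy]
      rw [hcK, hpw, map_smul]
    have hroot2 : aeval t (minpoly E (aeval α p)) = 0 := by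
      apply commsc_root (c := c) _ hv.1 ht
      rw [hp, ← aeval_comp]
      apply hkill
      rw [aeval_comp]
      exact minpoly.aeval E _
    have hmt : minpoly E (aeval α p) = minpoly E t :=
      minpoly.eq_of_irreducible_of_monic (minpoly.irreducible (hint _)) hroot2
        (minpoly.monic (hint _))
    apply hβ3
    rw [hmt] at hrd
    exact hrd.trans (commsc_deg_dvd fun σ hσ => commsc_fixed hv ht σ hσ)
  rw [minpoly.natDegree_eq_one_iff] at hdeg1
  obtain ⟨a, ha⟩ := hdeg1
  refine ⟨a, ?_⟩
  have h1 := hkill (p - C a) (by rw [map_sub, aeval_C, ha, sub_self])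
  rw [map_sub, aeval_C, sub_eq_zero] at h1
  rw [hp, h1, Algebra.algebraMap_eq_smul_one]

end Pool.Agent.H91U
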