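import Pool.Agent.H91S.K3
import Pool.Agent.H91.Mono.Crit
import Pool.Agent.H93Tate.FftSq

/-! Existence of an independent root. -/

set_option linter.unusedSectionVars false

namespace Pool.Agent.H91U

open Polynomial Pool.Agent.H93Tate Pool.Agent.H91.Mono Pool.Agent.H91S

/-- every root of a squarefree polynomial of maximal angle rank is independent -/
lemma indep_of_maxRank {q : ℂ} {P : ℚ[X]} (hP : Squarefree P)
    (hreal : ∀ z : ℂ, aeval z P = 0 → z ^ 2 ≠ q) (hmr : MaxRank q P) (z : ℂ)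
    (hz : aeval z P = 0) : Indep q P z := by
  refine ⟨hz, ?_, hreal z hz, fun xs T h1 h2 => hmr xs T h1 h2 z hz⟩
  intro h0
  have hsep : P.Separable := PerfectField.separable_iff_squarefree.2 hP
  obtain ⟨a, b, hab⟩ := hsep
  have h1 := congrArg (aeval z) hab
  rw [map_add, map_mul, map_mul, hz, h0, mul_zero, mul_zero, add_zero, map_one] at h1
  exact zero_ne_one h1

lemma exists_indep {p n : ℕ} [Fact p.Prime] {P : ℚ[X]} (hn : 0 < n) (hP : P ≠ 0)
    (hweil : ∀ z : ℂ, aeval z P = 0 → ‖z‖ ^ 2 = (p : ℝ) ^ n)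
    (hcond : (∃ x : ℂ, Indep ((p : ℂ) ^ n) P x) ∨ K3Cond p n P ∨
      (Irreducible P ∧ 2 < P.natDegree ∧ (CycleCond p n P ∨ HalfCond p n P ∨ SepCond p n P))) :
    ∃ x : ℂ, Indep ((p : ℂ) ^ n) P x := by
  rcases hcond with h | h | h
  · exact h
  · exact indep_of_k3 hn hP hweil h
  · obtain ⟨h1, h2, h3⟩ := Pool.Agent.H93Tate.Fft.cond_all hn hweil (Or.inl h)
    have hd : (P.map (algebraMap ℚ ℂ)).degree ≠ 0 := by
      rw [degree_map, degree_eq_natDegree hP]
      have := h.2.1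
      intro h4
      have h5 : P.natDegree = 0 := by exact_mod_cast h4
      omega
    obtain ⟨z, hz⟩ := IsAlgClosed.exists_root _ hd
    rw [IsRoot.def, eval_map, ← aeval_def] at hz
    exact ⟨z, indep_of_maxRank h1 h2 h3 z hz⟩

end Pool.Agent.H91U
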