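import Pool.Agent.H91S.Defs
import Pool.Agent.H91.Mono.Ss2

/-! Independent eigenvectors and Tate vectors: definitions. -/

namespace Pool.Agent.H91U

open Polynomial Pool.Agent.H91.Mono Pool.Agent.H91S

/-- `v` is a Tate vector: on a subgroup of finite index of `Γ` every element multiplies `v` by a
square root of its multiplier. -/
def TateVec {E V : Type*} [Field E] [AddCommGroup V] [Module E V] (ψ : V →ₗ[E] V →ₗ[E] E)
    (Γ : Subgroup (V ≃ₗ[E] V)) (v : V) : Prop :=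
  ∃ Δ : Subgroup Γ, Δ.FiniteIndex ∧ ∀ γ : Γ, γ ∈ Δ → ∃ a : E, (γ : V ≃ₗ[E] V) v = a • v ∧
    ∀ u w, ψ ((γ : V ≃ₗ[E] V) u) ((γ : V ≃ₗ[E] V) w) = a ^ 2 * ψ u w

/-- `v` is killed by `R(F)`, where `F ∈ Γ` has multiplier `q = p ^ n` and characteristic polynomial
`P ∈ ℚ[X]` with complex roots of absolute value `√q`, and all complex roots of `R ∈ ℚ[X]` are
independent roots of `P`. -/
def IndVec {E V : Type*} [Field E] [CharZero E] [AddCommGroup V] [Module E V]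
    [FiniteDimensional E V] (ψ : V →ₗ[E] V →ₗ[E] E) (Γ : Subgroup (V ≃ₗ[E] V)) (v : V) : Prop :=
  ∃ (p n : ℕ) (P R : ℚ[X]) (F : V ≃ₗ[E] V), p.Prime ∧ 0 < n ∧ F ∈ Γ ∧
    (∀ u w, ψ (F u) (F w) = (p : E) ^ n * ψ u w) ∧
    LinearMap.charpoly (F : V →ₗ[E] V) = P.map (algebraMap ℚ E) ∧
    (∀ z : ℂ, aeval z P = 0 → ‖z‖ ^ 2 = (p : ℝ) ^ n) ∧
    (∀ z : ℂ, aeval z R = 0 → Indep ((p : ℂ) ^ n) P z) ∧
    aeval (F : Module.End E V) (R.map (algebraMap ℚ E)) v = 0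

section K

variable {K V : Type*} [Field K] [AddCommGroup V] [Module K V]

/-- `1` on `e`, `-1` on `f`, `0` on the orthogonal complement -/
noncomputable def hp (ψ : V →ₗ[K] V →ₗ[K] K) (e f : V) : Module.End K V :=
  (ψ e f)⁻¹ • (ψ.flip f).smulRight e - (ψ f e)⁻¹ • (ψ.flip e).smulRight f

/-- `t` on `e`, `t⁻¹` on `f`, `1` on the orthogonal complement -/
noncomputable def tor (ψ : V →ₗ[K] V →ₗ[K] K) (e f : V) (t : K) : Module.End K V :=
  1 + ((t - 1) * (ψ e f)⁻¹) • (ψ.flip f).smulRight e +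
    ((t⁻¹ - 1) * (ψ f e)⁻¹) • (ψ.flip e).smulRight f

/-- `v ↦ ψ v u • w - ψ w v • u` -/
noncomputable def ZZ (ψ : V →ₗ[K] V →ₗ[K] K) (u w : V) : Module.End K V :=
  (ψ.flip u).smulRight w - (ψ w).smulRight u

/-- an independent pair -/
structure Pair (ψ : V →ₗ[K] V →ₗ[K] K) (Γ : Subgroup (V ≃ₗ[K] V)) (e f : V) : Prop where
  ee : ψ e e = 0
  ff : ψ f f = 0
  ef : ψ e f ≠ 0
  fe : ψ f e ≠ 0
  hh : hp ψ e f ∈ lie Γ
  tt : ∀ t : K, t ≠ 0 → InCl Γ (tor ψ e f t)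

/-- the setting over an algebraically closed field -/
structure Ctx (ψ : V →ₗ[K] V →ₗ[K] K) (Γ : Subgroup (V ≃ₗ[K] V)) : Prop where
  eps : (∀ v, ψ v v = 0) ∨ (∀ u v, ψ u v = ψ v u)
  nd : ∀ v, (∀ w, ψ v w = 0) → v = 0
  sim : ∀ γ ∈ Γ, ∃ μ : K, ∀ u v, ψ ((γ : V ≃ₗ[K] V) u) ((γ : V ≃ₗ[K] V) v) = μ * ψ u v
  ss : ∀ W : Submodule K V, (∀ γ ∈ Γ, ∀ w ∈ W, (γ : V ≃ₗ[K] V) w ∈ W) →
      ∃ W' : Submodule K V, (∀ γ ∈ Γ, ∀ w ∈ W', (γ : V ≃ₗ[K] V) w ∈ W') ∧ IsCompl W W'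

/-- the smallest subspace that contains `e` and is stable under the Lie algebra -/
noncomputable def LS (Γ : Subgroup (V ≃ₗ[K] V)) (e : V) : Submodule K V :=
  sInf {W | Stab Γ W ∧ e ∈ W}

/-- the orthogonal complement -/
def perp (ψ : V →ₗ[K] V →ₗ[K] K) (W : Submodule K V) : Submodule K V where
  carrier := {v | ∀ w ∈ W, ψ v w = 0}
  add_mem' := by
    intro a b ha hb w hw
    rw [map_add, LinearMap.add_apply, ha w hw, hb w hw, add_zero]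
  zero_mem' := by
    intro w _
    rw [map_zero, LinearMap.zero_apply]
  smul_mem' := by
    intro c a ha w hw
    rw [map_smul, LinearMap.smul_apply, ha w hw, smul_zero]

end K

end Pool.Agent.H91U
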