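import Pool.Agent.H91U.Basic

/-! Extension of endomorphisms of a nondegenerate subspace `A` by the identity on `perp ψ A`. -/

set_option linter.unusedSectionVars false

namespace Pool.Agent.H91U

open Pool.Agent.H91.Mono Pool.Agent.H91S

variable {K V : Type*} [Field K] [CharZero K] [AddCommGroup V] [Module K V]
  [FiniteDimensional K V] {ψ : V →ₗ[K] V →ₗ[K] K} {Γ : Subgroup (V ≃ₗ[K] V)}

/-- the restriction of the form -/
noncomputable def rf (ψ : V →ₗ[K] V →ₗ[K] K) (A : Submodule K V) : A →ₗ[K] A →ₗ[K] K :=
  ψ.domRestrict₁₂ A A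

lemma rf_apply (A : Submodule K V) (u w : A) : rf ψ A u w = ψ u w := rfl

lemma isCompl_perp (A : Submodule K V) (hnd : ∀ u ∈ A, (∀ w ∈ A, ψ u w = 0) → u = 0) :
    IsCompl A (perp ψ A) := by
  constructor
  · rw [Submodule.disjoint_def]
    intro u hu hu'
    exact hnd u hu hu'
  · rw [codisjoint_iff, eq_top_iff]
    intro v _
    have hinj : Function.Injective (rf ψ A) := by
      rw [← LinearMap.ker_eq_bot, LinearMap.ker_eq_bot']
      intro u hu
      refine Subtype.ext (hnd u u.2 fun w hw => ?_)
      have := LinearMap.congr_fun hu ⟨w, hw⟩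
      exact this
    have hsurj : Function.Surjective (rf ψ A) :=
      (LinearMap.injective_iff_surjective_of_finrank_eq_finrank
        (Subspace.dual_finrank_eq (K := K) (V := A)).symm).1 hinj
    obtain ⟨a, ha⟩ := hsurj ((ψ v).domRestrict A)
    have h1 : v - a ∈ perp ψ A := by
      intro w hw
      have h2 := LinearMap.congr_fun ha ⟨w, hw⟩
      have h3 : ψ a w = ψ v w := h2
      rw [map_sub, LinearMap.sub_apply, h3, sub_self]
    have h4 : v = a + (v - a) := by abel
    rw [h4]
    exact Submodule.add_mem_sup a.2 h1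

/-- the projection onto `A` along `perp ψ A` -/
noncomputable def prA {A : Submodule K V} (h : IsCompl A (perp ψ A)) : V →ₗ[K] A :=
  Submodule.projectionOnto A (perp ψ A) h

section ext
variable {A : Submodule K V} (h : IsCompl A (perp ψ A))

lemma prA_left (x : A) : prA h x = x := Submodule.projectionOnto_apply_left h x

lemma prA_right {x : V} (hx : x ∈ perp ψ A) : prA h x = 0 :=
  Submodule.projectionOnto_apply_right h ⟨x, hx⟩

lemma sub_prA_mem (v : V) : v - prA h v ∈ perp ψ A := by
  have h1 : prA h (v - prA h v) = 0 := by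
    rw [map_sub, prA_left, sub_self]
  have h2 : v - prA h v ∈ LinearMap.ker (Submodule.projectionOnto A (perp ψ A) h) := h1
  rwa [Submodule.ker_projectionOnto] at h2

/-- extension by the identity -/
noncomputable def ext (s : Module.End K A) : Module.End K V :=
  A.subtype ∘ₗ s ∘ₗ prA h + (1 - A.subtype ∘ₗ prA h)

lemma ext_apply (s : Module.End K A) (v : V) :
    ext h s v = (s (prA h v) : V) + (v - prA h v) := rfl

lemma ext_one : ext h (1 : Module.End K A) = 1 := by
  refine LinearMap.ext fun v => ?_
  rw [ext_apply, Module.End.one_apply, Module.End.one_apply]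
  abel

lemma prA_ext (s : Module.End K A) (v : V) : prA h (ext h s v) = s (prA h v) := by
  rw [ext_apply, map_add, prA_left, prA_right h (sub_prA_mem h v), add_zero]

lemma ext_mul (s t : Module.End K A) : ext h (s * t) = ext h s * ext h t := by
  refine LinearMap.ext fun v => ?_
  rw [Module.End.mul_apply, ext_apply h s, prA_ext, ext_apply h (s * t), ext_apply h t,
    Module.End.mul_apply]
  abel

/-- an endomorphism preserving `A` and trivial on `perp ψ A` is an extension -/
lemma ext_restrict (g : Module.End K V) (hgA : ∀ v ∈ A, g v ∈ A)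
    (hgN : ∀ v ∈ perp ψ A, g v = v) : ext h (g.restrict hgA) = g := by
  refine LinearMap.ext fun v => ?_
  rw [ext_apply, LinearMap.restrict_coe_apply, ← hgN _ (sub_prA_mem h v), ← map_add]
  congr 1
  abel

/-- the elements of `End A` whose extension is in the closure -/
noncomputable def SE (Γ : Subgroup (V ≃ₗ[K] V)) {A : Submodule K V} (h : IsCompl A (perp ψ A)) :
    Submonoid (Module.End K A) where
  carrier := {s | InCl Γ (ext h s)}
  mul_mem' := fun {s t} hs ht => by
    have h1 := inCl_mul hs ht
    rw [← ext_mul] at h1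
    exact h1
  one_mem' := by
    change InCl Γ (ext h 1)
    rw [ext_one]
    exact inCl_one

lemma mem_SE {s : Module.End K A} : s ∈ SE Γ h ↔ InCl Γ (ext h s) := Iff.rfl

lemma psi_prA (v : V) (u : A) : ψ (prA h v) u = ψ v u := by
  have h1 := sub_prA_mem h v u u.2
  rw [map_sub, LinearMap.sub_apply, sub_eq_zero] at h1
  exact h1.symm

end ext

end Pool.Agent.H91U
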