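import Pool.Agent.H91U.Defs

/-! Definitions of the statement. -/

namespace Pool.Agent.H91U

open Polynomial Pool.Agent.H93Tate Pool.Agent.H91.Mono Pool.Agent.H91S

/-- `y` is a simple root of `P` of slope different from `1 / 2` and all roots of `P` except `y` and
`q / y` have slope `1 / 2`. -/
def K3Root (p n : ℕ) [Fact p.Prime] (P : ℚ[X]) (y : PadicAlgCl p) : Prop :=
  aeval y P = 0 ∧ aeval y (derivative P) ≠ 0 ∧ slope p n y ≠ 1 / 2 ∧
    ∀ z : PadicAlgCl p, aeval z P = 0 → z ≠ y → z * y ≠ (p : PadicAlgCl p) ^ n →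
      slope p n z = 1 / 2

/-- `v` is killed by `R(F)`, where `F ∈ Γ` has multiplier `q = p ^ n` and characteristic polynomial
`P ∈ ℚ[X]` with complex roots of absolute value `√q`, and `R ∈ ℚ[X]` has only independent roots of
`P` as complex roots, or is irreducible with a root of K3 type of `P`. -/
def FrobVec {E V : Type*} [Field E] [CharZero E] [AddCommGroup V] [Module E V]
    [FiniteDimensional E V] (ψ : V →ₗ[E] V →ₗ[E] E) (Γ : Subgroup (V ≃ₗ[E] V)) (v : V) : Prop :=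
  ∃ (p n : ℕ) (_ : Fact p.Prime) (P R : ℚ[X]) (F : V ≃ₗ[E] V), 0 < n ∧ F ∈ Γ ∧
    (∀ u w, ψ (F u) (F w) = (p : E) ^ n * ψ u w) ∧
    LinearMap.charpoly (F : V →ₗ[E] V) = P.map (algebraMap ℚ E) ∧
    (∀ z : ℂ, aeval z P = 0 → ‖z‖ ^ 2 = (p : ℝ) ^ n) ∧
    ((∀ z : ℂ, aeval z R = 0 → Indep ((p : ℂ) ^ n) P z) ∨
      (Irreducible R ∧ ∃ y : PadicAlgCl p, aeval y R = 0 ∧ K3Root p n P y)) ∧
    aeval (F : Module.End E V) (R.map (algebraMap ℚ E)) v = 0

end Pool.Agent.H91U
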