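import Pool.Agent.H91U.FDefs

/-! The span of the Frobenius vectors is stable. -/

set_option linter.unusedSectionVars false

namespace Pool.Agent.H91U

open Polynomial Pool.Agent.H93Tate Pool.Agent.H91.Mono Pool.Agent.H91S

variable {E V : Type*} [Field E] [CharZero E] [AddCommGroup V] [Module E V]
  [FiniteDimensional E V] {ψ : V →ₗ[E] V →ₗ[E] E} {Γ : Subgroup (V ≃ₗ[E] V)}

lemma frobVec_map
    (hsim : ∀ γ ∈ Γ, ∃ μ : E, ∀ u v, ψ ((γ : V ≃ₗ[E] V) u) ((γ : V ≃ₗ[E] V) v) = μ * ψ u v)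
    {v : V} (hv : FrobVec ψ Γ v) {γ : V ≃ₗ[E] V} (hγ : γ ∈ Γ) : FrobVec ψ Γ (γ v) := by
  obtain ⟨p, n, hp, P, R, F, hn, hF, hmult, hchar, hweil, hcond, hR⟩ := hv
  obtain ⟨μ, hμ⟩ := hsim γ hγ
  obtain ⟨ν, hν⟩ := hsim γ⁻¹ (Γ.inv_mem hγ)
  have hinv : ∀ v, γ (γ⁻¹ v) = v := fun v => γ.apply_symm_apply v
  have hinv' : ∀ v, γ⁻¹ (γ v) = v := fun v => γ.symm_apply_apply v
  have hco : ((γ * F * γ⁻¹ : V ≃ₗ[E] V) : Module.End E V) =
      γ.conj ((F : V ≃ₗ[E] V) : Module.End E V) := by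
    ext v
    rfl
  refine ⟨p, n, hp, P, R, γ * F * γ⁻¹, hn, Γ.mul_mem (Γ.mul_mem hγ hF) (Γ.inv_mem hγ), ?_, ?_,
    hweil, hcond, ?_⟩
  · intro u w
    have h1 : ∀ v, (γ * F * γ⁻¹ : V ≃ₗ[E] V) v = γ (F (γ⁻¹ v)) := fun v => rfl
    rw [h1, h1, hμ, hmult, hν]
    have h2 : μ * (ν * ψ u w) = ψ u w := by
      rw [← hν, ← hμ, hinv, hinv]
    linear_combination (p : E) ^ n * h2
  · have h1 : LinearMap.charpoly ((γ * F * γ⁻¹ : V ≃ₗ[E] V) : V →ₗ[E] V) =
        LinearMap.charpoly (F : V →ₗ[E] V) := by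
      have h2 := LinearEquiv.charpoly_conj γ ((F : V ≃ₗ[E] V) : V →ₗ[E] V)
      rw [← h2]
      congr 1
    rw [h1, hchar]
  · rw [hco]
    have h1 : ∀ Q : E[X], aeval (γ.conj ((F : V ≃ₗ[E] V) : Module.End E V)) Q (γ v) =
        γ (aeval ((F : V ≃ₗ[E] V) : Module.End E V) Q v) := by
      intro Q
      induction Q using Polynomial.induction_on' with
      | add p q hp hq =>
        rw [map_add, map_add, LinearMap.add_apply, LinearMap.add_apply, hp, hq, map_add]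
      | monomial n a =>
        rw [← C_mul_X_pow_eq_monomial, map_mul, map_mul, aeval_C, aeval_C, map_pow, map_pow,
          aeval_X, aeval_X, Module.End.mul_apply, Module.End.mul_apply,
          Module.algebraMap_end_apply, Module.algebraMap_end_apply, map_smul]
        congr 1
        induction n with
        | zero => simp
        | succ n ih =>
          rw [pow_succ', pow_succ', Module.End.mul_apply, Module.End.mul_apply, ih]
          show γ (F (γ⁻¹ (γ _))) = _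
          rw [hinv']
          rfl
    rw [h1, hR, map_zero]

/-- if only 0 commutes with `Γ` and kills the Frobenius vectors, they span -/
theorem span_frob
    (hsim : ∀ γ ∈ Γ, ∃ μ : E, ∀ u v, ψ ((γ : V ≃ₗ[E] V) u) ((γ : V ≃ₗ[E] V) v) = μ * ψ u v)
    (hss : ∀ W : Submodule E V, (∀ γ ∈ Γ, ∀ w ∈ W, (γ : V ≃ₗ[E] V) w ∈ W) →
      ∃ W' : Submodule E V, (∀ γ ∈ Γ, ∀ w ∈ W', (γ : V ≃ₗ[E] V) w ∈ W') ∧ IsCompl W W')
    (hsep : ∀ c : Module.End E V, (∀ γ ∈ Γ, ∀ v, c ((γ : V ≃ₗ[E] V) v) = γ (c v)) →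
      (∀ w, FrobVec ψ Γ w → c w = 0) → c = 0) :
    Submodule.span E {w | FrobVec ψ Γ w} = ⊤ := by
  set S := Submodule.span E {w | FrobVec ψ Γ w} with hS
  have hSst : ∀ γ ∈ Γ, ∀ w ∈ S, (γ : V ≃ₗ[E] V) w ∈ S := by
    intro γ hγ
    have h1 : S ≤ S.comap (γ : V →ₗ[E] V) := by
      rw [hS, Submodule.span_le]
      intro w hw
      exact Submodule.subset_span (frobVec_map hsim hw hγ)
    exact fun w hw => h1 hw
  obtain ⟨D, hD, hc⟩ := hss S hSst
  have h1 := hsep (D.projection S hc.symm) (by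
    intro γ hγ v
    obtain ⟨d, hd, s, hs, rfl⟩ : ∃ d ∈ D, ∃ s ∈ S, d + s = v := by
      have : v ∈ D ⊔ S := by rw [hc.symm.sup_eq_top]; exact Submodule.mem_top
      exact Submodule.mem_sup.1 this
    rw [map_add, map_add, map_add, Submodule.projection_apply_of_mem_left hc.symm hd,
      Submodule.projection_apply_of_mem_left hc.symm (hD γ hγ d hd),
      (Submodule.projection_apply_eq_zero_iff hc.symm).2 hs,
      (Submodule.projection_apply_eq_zero_iff hc.symm).2 (hSst γ hγ s hs), add_zero, add_zero])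
    (fun w hw => (Submodule.projection_apply_eq_zero_iff hc.symm).2 (Submodule.subset_span hw))
  have hDb : D = ⊥ := by
    rw [eq_bot_iff]
    intro d hd
    have h2 := Submodule.projection_apply_of_mem_left hc.symm hd
    rw [h1, LinearMap.zero_apply] at h2
    rw [Submodule.mem_bot, ← h2]
  have h3 := hc.sup_eq_top
  rwa [hDb, sup_bot_eq] at h3

end Pool.Agent.H91U
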