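import Pool.Agent.H91U.Basic

/-! Tate vectors: an isometry commuting with the stable commutant is a scalar `± 1` on them. -/

set_option linter.unusedSectionVars false

namespace Pool.Agent.H91U

open Pool.Agent.H91.Mono Pool.Agent.H91S

variable {K V : Type*} [Field K] [CharZero K] [AddCommGroup V] [Module K V]
  [FiniteDimensional K V] {ψ : V →ₗ[K] V →ₗ[K] K} {Γ : Subgroup (V ≃ₗ[K] V)}

/-- a common subgroup of finite index -/
lemma tateS_common (V0 : Submodule K V) (hV0 : ∀ v, v ∈ V0 ↔ TateVec ψ Γ v) :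
    ∃ Δ : Subgroup Γ, Δ.FiniteIndex ∧ ∀ γ : Γ, γ ∈ Δ → ∃ a : K,
      (∀ v ∈ V0, (γ : V ≃ₗ[K] V) v = a • v) ∧
      (V0 ≠ ⊥ → ∀ u w, ψ ((γ : V ≃ₗ[K] V) u) ((γ : V ≃ₗ[K] V) w) = a ^ 2 * ψ u w) := by
  classical
  let b := Module.finBasis K V0
  have h1 : ∀ i j, ∃ Δ : Subgroup Γ, Δ.FiniteIndex ∧ ∀ γ : Γ, γ ∈ Δ → ∃ a : K,
      (γ : V ≃ₗ[K] V) ((b i : V) + b j) = a • ((b i : V) + b j) ∧
      ∀ u w, ψ ((γ : V ≃ₗ[K] V) u) ((γ : V ≃ₗ[K] V) w) = a ^ 2 * ψ u w := by
    intro i j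
    exact (hV0 _).1 (V0.add_mem (b i).2 (b j).2)
  choose D hD1 hD2 using h1
  refine ⟨⨅ i, ⨅ j, D i j, ?_, ?_⟩
  · have : ∀ i, (⨅ j, D i j).FiniteIndex := fun i => Subgroup.finiteIndex_iInf (hD1 i)
    exact Subgroup.finiteIndex_iInf this
  · intro γ hγ
    have hγ' : ∀ i j, γ ∈ D i j := by
      intro i j
      rw [Subgroup.mem_iInf] at hγ
      have := hγ i
      rw [Subgroup.mem_iInf] at this
      exact this j
    choose a ha1 ha2 using fun i j => hD2 i j γ (hγ' i j)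
    have hii : ∀ i, (γ : V ≃ₗ[K] V) (b i : V) = a i i • (b i : V) := by
      intro i
      have h2 := ha1 i i
      rw [← two_smul K (b i : V), map_smul, smul_comm] at h2
      exact smul_right_injective V (two_ne_zero (α := K)) h2
    have heq : ∀ i j, a i i = a j j := by
      intro i j
      by_cases hij : i = j
      · rw [hij]
      · have h2 := ha1 i j
        rw [map_add, hii, hii] at h2
        have h3 : (a i i - a i j) • b i + (a j j - a i j) • b j = 0 := by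
          apply Subtype.ext
          simp only [Submodule.coe_add, Submodule.coe_smul, Submodule.coe_zero]
          have h4 : (a i i • (b i : V) + a j j • (b j : V)) - a i j • ((b i : V) + b j) = 0 :=
            sub_eq_zero.2 h2
          rw [← h4]
          module
        have h5 : a i i - a i j = 0 := by
          have h6 := congrArg (fun v => b.repr v i) h3
          simpa [Finsupp.single_apply, hij, Ne.symm hij] using h6
        have h5' : a j j - a i j = 0 := by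
          have h6 := congrArg (fun v => b.repr v j) h3
          simpa [Finsupp.single_apply, hij, Ne.symm hij] using h6
        rw [sub_eq_zero.1 h5, sub_eq_zero.1 h5']
    by_cases hn : Nonempty (Fin (Module.finrank K V0))
    · obtain ⟨i0⟩ := hn
      refine ⟨a i0 i0, ?_, fun _ => ha2 i0 i0⟩
      intro v hv
      have h6 := b.sum_repr ⟨v, hv⟩
      have h7 : v = ∑ i, b.repr ⟨v, hv⟩ i • (b i : V) := by
        have h8 := congrArg (fun x : V0 => (x : V)) h6
        simp only [Submodule.coe_sum, Submodule.coe_smul] at h8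
        exact h8.symm
      rw [h7, map_sum, Finset.smul_sum]
      apply Finset.sum_congr rfl
      intro i _
      rw [map_smul, hii, heq i i0, smul_comm]
    · have h9 : V0 = ⊥ := by
        rw [not_nonempty_iff] at hn
        rw [← Submodule.finrank_eq_zero (R := K)]
        by_contra h10
        exact hn.false ⟨0, Nat.pos_of_ne_zero h10⟩
      refine ⟨1, ?_, fun h => absurd h9 h⟩
      intro v hv
      rw [h9, Submodule.mem_bot] at hv
      rw [hv, map_zero, smul_zero]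

theorem tateS_scal (hc : Ctx ψ Γ) (V0 : Submodule K V) (hV0 : ∀ v, v ∈ V0 ↔ TateVec ψ Γ v)
    (hst : ∀ γ ∈ Γ, ∀ v ∈ V0, (γ : V ≃ₗ[K] V) v ∈ V0) (g : Module.End K V)
    (hg : ∀ x y, ψ (g x) (g y) = ψ x y) (hgc : ∀ c : Module.End K V, Comm Γ c → c * g = g * c) :
    ∃ c0 : K, c0 ^ 2 = 1 ∧ ∀ v, TateVec ψ Γ v → g v = c0 • v := by
  by_cases hbot : V0 = ⊥
  · refine ⟨1, one_pow _, ?_⟩
    intro v hv
    rw [← hV0, hbot, Submodule.mem_bot] at hv
    rw [hv, map_zero, smul_zero]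
  obtain ⟨Δ, hΔ, hΔa⟩ := tateS_common V0 hV0
  -- the projection
  obtain ⟨D, hD, hDc⟩ := hc.ss V0 hst
  obtain ⟨v0, hv0, hv00⟩ := Submodule.exists_mem_ne_zero_of_ne_bot hbot
  obtain ⟨φ, hφ, -⟩ := (⊥ : Submodule K V).exists_le_ker_of_notMem (v := v0)
    (fun h => hv00 ((Submodule.mem_bot K).1 h))
  obtain ⟨pr, hpr⟩ : ∃ pr : Module.End K V, pr = V0.projection D hDc := ⟨_, rfl⟩
  have hprV : ∀ v ∈ V0, pr v = v := by
    intro v hv
    rw [hpr]
    exact Submodule.projection_apply_of_mem_left hDc hv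
  have hprD : ∀ v ∈ D, pr v = 0 := by
    intro v hv
    rw [hpr]
    exact Submodule.projection_apply_of_mem_right hDc hv
  have hdec : ∀ x : V, ∃ y ∈ V0, ∃ z ∈ D, y + z = x := by
    intro x
    have : x ∈ V0 ⊔ D := by rw [hDc.sup_eq_top]; trivial
    exact Submodule.mem_sup.1 this
  have hgw : ∀ w ∈ V0, φ (pr (g v0)) • w = g (φ v0 • w) := by
    intro w hw
    have h1 := hgc ((φ ∘ₗ pr).smulRight w) ⟨Δ, hΔ, fun γ hγ x => by
      obtain ⟨a, ha, -⟩ := hΔa γ hγ
      obtain ⟨y, hy, z, hz, rfl⟩ := hdec x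
      simp only [LinearMap.smulRight_apply, LinearMap.comp_apply, map_add, map_smul]
      rw [hprV y hy, hprD z hz, hprD _ (hD _ γ.2 z hz), hprV _ (hst _ γ.2 y hy), ha y hy,
        ha w hw, map_smul, map_zero, smul_eq_mul]
      module⟩
    have h2 := LinearMap.congr_fun h1 v0
    rw [Module.End.mul_apply, Module.End.mul_apply, LinearMap.smulRight_apply,
      LinearMap.smulRight_apply, LinearMap.comp_apply, LinearMap.comp_apply, hprV v0 hv0] at h2
    exact h2
  obtain ⟨c0, hc0⟩ : ∃ c0 : K, c0 = (φ v0)⁻¹ * φ (pr (g v0)) := ⟨_, rfl⟩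
  have hgc0 : ∀ w ∈ V0, g w = c0 • w := by
    intro w hw
    have h1 := hgw w hw
    rw [map_smul] at h1
    rw [hc0, mul_smul, h1, smul_smul, inv_mul_cancel₀ hφ, one_smul]
  refine ⟨c0, ?_, fun v hv => hgc0 v ((hV0 v).2 hv)⟩
  -- the orthogonal complement of `V0`
  have hPst : ∀ γ ∈ Γ, ∀ w ∈ perp ψ V0, (γ : V ≃ₗ[K] V) w ∈ perp ψ V0 := by
    intro γ hγ w hw v hv
    obtain ⟨μ, hμ⟩ := hc.sim γ hγ
    have h1 : γ (γ⁻¹ v) = v := γ.apply_symm_apply v
    rw [← h1, hμ, hw _ (hst _ (Γ.inv_mem hγ) v hv), mul_zero]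
  obtain ⟨M, hM, hMc⟩ := hc.ss _ hPst
  have hMV : ∀ x ∈ M, x ∈ V0 := by
    intro x hx
    rw [hV0]
    refine ⟨Δ, hΔ, fun γ hγ => ?_⟩
    obtain ⟨a, ha, ha2⟩ := hΔa γ hγ
    have ha2' := ha2 hbot
    refine ⟨a, ?_, ha2'⟩
    have h1 : (γ : V ≃ₗ[K] V) x - a • x ∈ M := M.sub_mem (hM _ γ.2 x hx) (M.smul_mem _ hx)
    have ha0 : a ≠ 0 := by
      rintro rfl
      have h2 := ha v0 hv0
      rw [zero_smul] at h2
      exact hv00 ((γ : V ≃ₗ[K] V).map_eq_zero_iff.1 h2)
    have h2 : (γ : V ≃ₗ[K] V) x - a • x ∈ perp ψ V0 := by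
      intro v hv
      have h3 := ha2' x v
      rw [ha v hv, map_smul, smul_eq_mul] at h3
      have h4 : a * (ψ ((γ : V ≃ₗ[K] V) x) v - a * ψ x v) = 0 := by linear_combination h3
      have h5 := (mul_eq_zero.1 h4).resolve_left ha0
      rw [map_sub, map_smul, LinearMap.sub_apply, LinearMap.smul_apply, smul_eq_mul]
      exact h5
    have h3 : (γ : V ≃ₗ[K] V) x - a • x = 0 :=
      (Submodule.disjoint_def.1 hMc.disjoint) _ h2 h1
    exact sub_eq_zero.1 h3
  obtain ⟨x, hx⟩ : ∃ x, ψ v0 x ≠ 0 := by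
    by_contra hcon
    push Not at hcon
    exact hv00 (hc.nd v0 hcon)
  obtain ⟨y, hy, z, hz, rfl⟩ : ∃ y ∈ perp ψ V0, ∃ z ∈ M, y + z = x := by
    have : x ∈ perp ψ V0 ⊔ M := by rw [hMc.sup_eq_top]; trivial
    exact Submodule.mem_sup.1 this
  have hvy : ψ v0 y = 0 := (hc.swap _ _).2 (hy v0 hv0)
  rw [map_add, hvy, zero_add] at hx
  have h1 := hg v0 z
  rw [hgc0 v0 hv0, hgc0 z (hMV z hz), map_smul, map_smul, LinearMap.smul_apply, smul_eq_mul,
    smul_eq_mul] at h1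
  have h2 : (c0 ^ 2 - 1) * ψ v0 z = 0 := by linear_combination h1
  exact sub_eq_zero.1 ((mul_eq_zero.1 h2).resolve_right hx)

end Pool.Agent.H91U
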