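import Pool.Agent.H91U.TateSub
import Pool.Agent.H91U.Basic
import Pool.Agent.H91U.TateS

/-! Tate vectors over an algebraically closed field.

PROOF of `tate_sub`. The zero vector: `a` with `a ^ 2 = μ γ` exists (`IsAlgClosed`). Stable under `Γ`:
`γ v` with the conjugate subgroup. Sums: let `v, w ≠ 0` be Tate vectors with `Δ, Δ'`, and
`Δ'' = Δ ⊓ Δ'`. For `γ ∈ Δ''` let `a, a'` be the two scalars (unique), homomorphisms
`Δ'' → Kˣ` with `a ^ 2 = a' ^ 2` (`= μ γ`, `ψ ≠ 0` because `hc.nd` and `v ≠ 0`), so `a / a'` has values in the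
finite group of square roots of 1 and its kernel has finite index in `Δ''`, hence in `Γ`; on it
`γ (v + w) = a • (v + w)`.
PROOF of `tate_scal`. Let `V0` be the subspace of Tate vectors. It is finite-dimensional, so one
subgroup `Δ0` of finite index acts on `V0` by scalars `a γ` (finitely many basis vectors; as above
the scalars agree on a smaller subgroup). Let `D` be a `Γ`-stable complement (`hc.ss`). For every
`c : End V0` the extension by 0 on `D` commutes with `Δ0`, so `g` commutes with it; so `g` maps `V0`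
into itself (take the projection onto `V0`) and is a scalar `c0` there (rank-one maps). If `V0 = ⊥` take
`c0 = 1`. Otherwise `ψ` restricted to `V0` is not 0: `N = {w ∈ D | ψ w v = 0 for all v ∈ V0}` is `Γ`-stable
(similitudes), so it has a `Γ`-stable complement `N'` in `V`; `M = N' ⊓ D` is `Γ`-stable with
`M ⊓ N = ⊥`, `D = N ⊔ M`. For `w ∈ M`, `v ∈ V0`, `γ ∈ Δ0`: `ψ (γ w) v = (a γ)⁻¹ ψ (γ w) (γ v) = a γ ψ w v`,
so `γ w - a γ • w ∈ M ⊓ N = ⊥`; so `w` is a Tate vector, `w ∈ V0 ⊓ D = ⊥`. So `M = ⊥`, `D` is orthogonal to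
`V0`, and nondegeneracy gives `v, w ∈ V0` with `ψ v w ≠ 0`; `ψ (g v) (g w) = c0 ^ 2 ψ v w` gives
`c0 ^ 2 = 1`. -/

set_option linter.unusedSectionVars false

namespace Pool.Agent.H91U

open Pool.Agent.H91.Mono Pool.Agent.H91S

variable {K V : Type*} [Field K] [CharZero K] [AddCommGroup V] [Module K V]
  [FiniteDimensional K V] {ψ : V →ₗ[K] V →ₗ[K] K} {Γ : Subgroup (V ≃ₗ[K] V)}

theorem tate_sub [IsAlgClosed K] (hc : Ctx ψ Γ) : ∃ V0 : Submodule K V,
    (∀ v, v ∈ V0 ↔ TateVec ψ Γ v) ∧ ∀ γ ∈ Γ, ∀ v ∈ V0, (γ : V ≃ₗ[K] V) v ∈ V0 :=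
  tate_subS hc

theorem tate_scal [IsAlgClosed K] (hc : Ctx ψ Γ) (g : Module.End K V)
    (hg : ∀ x y, ψ (g x) (g y) = ψ x y) (hgc : ∀ c : Module.End K V, Comm Γ c → c * g = g * c) :
    ∃ c0 : K, c0 ^ 2 = 1 ∧ ∀ v, TateVec ψ Γ v → g v = c0 • v := by
  obtain ⟨V0, h1, h2⟩ := tate_sub hc
  exact tateS_scal hc V0 h1 h2 g hg hgc

end Pool.Agent.H91U
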