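import Pool.Agent.H91U.Blk
import Pool.Agent.H91U.Tate

/-! Assembly over an algebraically closed field.

PROOF of `span_all`. `S = sSup {LS Γ e | Pair ψ Γ e f}` and the subspace `V0` of Tate vectors
(`tate_sub`) are `Γ`-stable (`hc.pair_map`, `stab_map`: `γ (LS Γ e)` is `Stab`, contains `γ e`, so
`LS Γ (γ e) ≤ γ (LS Γ e)` and equality by the inverse). So `S ⊔ V0` has a `Γ`-stable complement `D` and the
projection onto `D` along `S ⊔ V0` commutes with `Γ` (so `Comm Γ`, with `Δ = ⊤`) and kills all `e` and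
all Tate vectors; by `hsep` it is 0, so `D = ⊥`.
PROOF of `ind_step`. Strong induction on `finrank V - finrank (fixed space of g)`. If `g ≠ 1`, some pair
`(e, f)` has `g ≠ 1` on `LS Γ e` (`span_all`). Let `B = LS Γ e ⊔ LS Γ f`, `N = perp ψ B`, `IsCompl B N`
(`blk_compl`), `π` the projection onto `B` along `N`. `g` preserves `B` (and is bijective on it: an
isometry is injective) and hence `N`. `gB = g π + (1 - π)`, `g' = π + g (1 - π)` are isometries,
`g = gB g' = g' gB`, `blk` applies to `gB`. The fixed space of `g'` contains that of `g` and `B`. `g'`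
preserves `LS Γ e'` for every pair (`trich`: inside `B` it is the identity, inside `N` it is `g`), and
fixes the Tate vectors. So the induction hypothesis applies to `g'`, and `InCl` is multiplicative. -/

set_option linter.unusedSectionVars false

namespace Pool.Agent.H91U

open Pool.Agent.H91.Mono Pool.Agent.H91S

variable {K V : Type*} [Field K] [CharZero K] [AddCommGroup V] [Module K V]
  [FiniteDimensional K V] {ψ : V →ₗ[K] V →ₗ[K] K} {Γ : Subgroup (V ≃ₗ[K] V)}

lemma fin_ls_map {γ : V ≃ₗ[K] V} (hγ : γ ∈ Γ) (e : V) :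
    ∀ w ∈ LS Γ e, γ w ∈ LS Γ (γ e) := by
  have h1 : LS Γ e ≤ (LS Γ (γ e)).map ((γ⁻¹ : V ≃ₗ[K] V) : V →ₗ[K] V) := by
    apply ls_le (stab_map (ls_stab Γ (γ e)) (Γ.inv_mem hγ))
    have h2 : ((γ⁻¹ : V ≃ₗ[K] V) : V →ₗ[K] V) (γ e) = e := γ.symm_apply_apply e
    have h3 := Submodule.mem_map_of_mem (f := ((γ⁻¹ : V ≃ₗ[K] V) : V →ₗ[K] V))
      (mem_ls Γ (γ e))
    rwa [h2] at h3
  intro w hw
  obtain ⟨y, hy, rfl⟩ := Submodule.mem_map.1 (h1 hw)
  have h2 : γ (((γ⁻¹ : V ≃ₗ[K] V) : V →ₗ[K] V) y) = y := γ.apply_symm_apply y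
  rw [h2]
  exact hy

theorem span_all [IsAlgClosed K] (hc : Ctx ψ Γ)
    (hsep : ∀ c : Module.End K V, Comm Γ c → (∀ e f, Pair ψ Γ e f → c e = 0) →
      (∀ v, TateVec ψ Γ v → c v = 0) → c = 0)
    (W : Submodule K V) (hW : ∀ e f, Pair ψ Γ e f → LS Γ e ≤ W)
    (hW' : ∀ v, TateVec ψ Γ v → v ∈ W) : W = ⊤ := by
  obtain ⟨V0, hV0, hV0s⟩ := tate_sub hc
  obtain ⟨S, hS⟩ : ∃ S : Submodule K V,
      S = sSup {A : Submodule K V | ∃ e f, Pair ψ Γ e f ∧ A = LS Γ e} := ⟨_, rfl⟩
  have hle : ∀ e f, Pair ψ Γ e f → LS Γ e ≤ S := by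
    intro e f h
    rw [hS]
    exact le_sSup ⟨e, f, h, rfl⟩
  have hSW : S ≤ W := by
    rw [hS]
    apply sSup_le
    rintro A ⟨e, f, h, rfl⟩
    exact hW e f h
  have hSst : ∀ γ ∈ Γ, ∀ w ∈ S, (γ : V ≃ₗ[K] V) w ∈ S := by
    intro γ hγ
    have h1 : S ≤ S.comap (γ : V →ₗ[K] V) := by
      conv_lhs => rw [hS]
      apply sSup_le
      rintro A ⟨e, f, h, rfl⟩ w hw
      exact hle _ _ (hc.pair_map h hγ) (fin_ls_map hγ e w hw)
    intro w hw
    exact h1 hw
  have hTst : ∀ γ ∈ Γ, ∀ w ∈ S ⊔ V0, (γ : V ≃ₗ[K] V) w ∈ S ⊔ V0 := by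
    intro γ hγ w hw
    obtain ⟨a, ha, b, hb, rfl⟩ := Submodule.mem_sup.1 hw
    rw [map_add]
    exact Submodule.add_mem_sup (hSst γ hγ a ha) (hV0s γ hγ b hb)
  obtain ⟨D, hDst, hcompl⟩ := hc.ss _ hTst
  have hcD : D.projection (S ⊔ V0) hcompl.symm = 0 := by
    apply hsep
    · refine ⟨⊤, inferInstance, ?_⟩
      intro γ _ v
      obtain ⟨a, d, ha, hd, rfl⟩ := Submodule.codisjoint_iff_exists_add_eq.1
        hcompl.codisjoint v
      rw [map_add, map_add, map_add,
        Submodule.projection_apply_of_mem_left hcompl.symm hd,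
        Submodule.projection_apply_of_mem_left hcompl.symm (hDst γ γ.2 d hd),
        (Submodule.projection_apply_eq_zero_iff hcompl.symm).2 ha,
        (Submodule.projection_apply_eq_zero_iff hcompl.symm).2 (hTst γ γ.2 a ha),
        zero_add, zero_add]
    · intro e f h
      exact (Submodule.projection_apply_eq_zero_iff hcompl.symm).2
        (Submodule.mem_sup_left (hle e f h (mem_ls Γ e)))
    · intro v hv
      exact (Submodule.projection_apply_eq_zero_iff hcompl.symm).2
        (Submodule.mem_sup_right ((hV0 v).2 hv))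
  have hDbot : D = ⊥ := by
    rw [Submodule.eq_bot_iff]
    intro d hd
    rw [← Submodule.projection_apply_of_mem_left hcompl.symm hd, hcD, LinearMap.zero_apply]
  have hT : S ⊔ V0 = ⊤ := by
    have := hcompl.sup_eq_top
    rwa [hDbot, sup_bot_eq] at this
  rw [eq_top_iff, ← hT]
  exact sup_le hSW fun v hv => hW' v ((hV0 v).1 hv)

/-- the fixed space -/
def finFix (g : Module.End K V) : Submodule K V := LinearMap.ker (g - 1)

lemma mem_finFix {g : Module.End K V} {v : V} : v ∈ finFix g ↔ g v = v := by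
  rw [finFix, LinearMap.mem_ker, LinearMap.sub_apply, Module.End.one_apply, sub_eq_zero]

theorem ind_step [IsAlgClosed K] (hc : Ctx ψ Γ)
    (hall : ∀ W : Submodule K V, (∀ e f, Pair ψ Γ e f → LS Γ e ≤ W) →
      (∀ v, TateVec ψ Γ v → v ∈ W) → W = ⊤)
    (g : Module.End K V) (hg : ∀ x y, ψ (g x) (g y) = ψ x y)
    (hgp : ∀ e f, Pair ψ Γ e f → ∀ v ∈ LS Γ e, g v ∈ LS Γ e)
    (hgt : ∀ v, TateVec ψ Γ v → g v = v) :
    InCl Γ (g * g) ∧ ((∀ v, ψ v v = 0) → InCl Γ g) := by
  have hmain : ∀ X : Submodule K V, ∀ g : Module.End K V, finFix g = X →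
      (∀ x y, ψ (g x) (g y) = ψ x y) →
      (∀ e f, Pair ψ Γ e f → ∀ v ∈ LS Γ e, g v ∈ LS Γ e) →
      (∀ v, TateVec ψ Γ v → g v = v) →
      InCl Γ (g * g) ∧ ((∀ v, ψ v v = 0) → InCl Γ g) := by
    intro X
    induction X using WellFoundedGT.induction with
    | ind X IH =>
    intro g hX hg hgp hgt
    by_cases hex : ∃ e f, Pair ψ Γ e f ∧ ∃ v ∈ LS Γ e, g v ≠ v
    · obtain ⟨e, f, h, v0, hv0, hv0g⟩ := hex
      have hcompl := blk_compl hc h
      have hgB : ∀ v ∈ LS Γ e ⊔ LS Γ f, g v ∈ LS Γ e ⊔ LS Γ f := by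
        intro v hv
        obtain ⟨a, ha, b, hb, rfl⟩ := Submodule.mem_sup.1 hv
        rw [map_add]
        exact Submodule.add_mem_sup (hgp e f h a ha) (hgp f e h.symm b hb)
      have hinj : Function.Injective g := by
        rw [injective_iff_map_eq_zero]
        intro v hv
        apply hc.nd
        intro w
        rw [← hg, hv, map_zero, LinearMap.zero_apply]
      have hsurj : ∀ w ∈ LS Γ e ⊔ LS Γ f, ∃ w' ∈ LS Γ e ⊔ LS Γ f, g w' = w := by
        have h1 : Function.Injective (g.restrict hgB) := by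
          intro a b hab
          apply Subtype.ext
          apply hinj
          exact congrArg Subtype.val hab
        have h2 := LinearMap.injective_iff_surjective.1 h1
        intro w hw
        obtain ⟨w', hw'⟩ := h2 ⟨w, hw⟩
        exact ⟨w', w'.2, congrArg Subtype.val hw'⟩
      have hgN : ∀ v ∈ perp ψ (LS Γ e ⊔ LS Γ f), g v ∈ perp ψ (LS Γ e ⊔ LS Γ f) := by
        intro v hv w hw
        obtain ⟨w', hw', rfl⟩ := hsurj w hw
        rw [hg]
        exact hv w' hw'
      -- the two parts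
      obtain ⟨π, hπB, hπN⟩ : ∃ π : Module.End K V, (∀ v ∈ LS Γ e ⊔ LS Γ f, π v = v) ∧
          ∀ v ∈ perp ψ (LS Γ e ⊔ LS Γ f), π v = 0 :=
        ⟨(LS Γ e ⊔ LS Γ f).projection _ hcompl,
          fun v hv => Submodule.projection_apply_of_mem_left hcompl hv,
          fun v hv => (Submodule.projection_apply_eq_zero_iff hcompl).2 hv⟩
      have hdec : ∀ v, ∃ b ∈ LS Γ e ⊔ LS Γ f, ∃ n ∈ perp ψ (LS Γ e ⊔ LS Γ f), v = b + n := by
        intro v
        obtain ⟨b, n, hb, hn, hbn⟩ := Submodule.codisjoint_iff_exists_add_eq.1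
          hcompl.codisjoint v
        exact ⟨b, hb, n, hn, hbn.symm⟩
      obtain ⟨gB, hgB1, hgB2⟩ : ∃ gB : Module.End K V, (∀ v ∈ LS Γ e ⊔ LS Γ f, gB v = g v) ∧
          ∀ v ∈ perp ψ (LS Γ e ⊔ LS Γ f), gB v = v := by
        refine ⟨g * π + (1 - π), ?_, ?_⟩
        · intro v hv
          rw [LinearMap.add_apply, Module.End.mul_apply, LinearMap.sub_apply,
            Module.End.one_apply, hπB v hv, sub_self, add_zero]
        · intro v hv
          rw [LinearMap.add_apply, Module.End.mul_apply, LinearMap.sub_apply,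
            Module.End.one_apply, hπN v hv, map_zero, zero_add, sub_zero]
      obtain ⟨g', hg1, hg2⟩ : ∃ g' : Module.End K V, (∀ v ∈ LS Γ e ⊔ LS Γ f, g' v = v) ∧
          ∀ v ∈ perp ψ (LS Γ e ⊔ LS Γ f), g' v = g v := by
        refine ⟨π + g * (1 - π), ?_, ?_⟩
        · intro v hv
          rw [LinearMap.add_apply, Module.End.mul_apply, LinearMap.sub_apply,
            Module.End.one_apply, hπB v hv, sub_self, map_zero, add_zero]
        · intro v hv
          rw [LinearMap.add_apply, Module.End.mul_apply, LinearMap.sub_apply,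
            Module.End.one_apply, hπN v hv, zero_add, sub_zero]
      have hort : ∀ b ∈ LS Γ e ⊔ LS Γ f, ∀ n ∈ perp ψ (LS Γ e ⊔ LS Γ f),
          ψ b n = 0 ∧ ψ n b = 0 := fun b hb n hn => ⟨(hc.swap n b).1 (hn b hb), hn b hb⟩
      have hisoB : ∀ x y, ψ (gB x) (gB y) = ψ x y := by
        intro x y
        obtain ⟨b, hb, n, hn, rfl⟩ := hdec x
        obtain ⟨b', hb', n', hn', rfl⟩ := hdec y
        rw [map_add, map_add gB, hgB1 b hb, hgB2 n hn, hgB1 b' hb', hgB2 n' hn']
        simp only [map_add, LinearMap.add_apply]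
        rw [hg, (hort _ (hgB b hb) n' hn').1, (hort _ (hgB b' hb') n hn).2,
          (hort b hb n' hn').1, (hort b' hb' n hn).2]
      have hiso' : ∀ x y, ψ (g' x) (g' y) = ψ x y := by
        intro x y
        obtain ⟨b, hb, n, hn, rfl⟩ := hdec x
        obtain ⟨b', hb', n', hn', rfl⟩ := hdec y
        rw [map_add, map_add g', hg1 b hb, hg2 n hn, hg1 b' hb', hg2 n' hn']
        simp only [map_add, LinearMap.add_apply]
        rw [hg, (hort b hb _ (hgN n' hn')).1, (hort b' hb' _ (hgN n hn)).2,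
          (hort b hb n' hn').1, (hort b' hb' n hn).2]
      have hfac : g = gB * g' := by
        ext v
        obtain ⟨b, hb, n, hn, rfl⟩ := hdec v
        rw [Module.End.mul_apply, map_add g', hg1 b hb, hg2 n hn, map_add gB, hgB1 b hb,
          hgB2 _ (hgN n hn), map_add]
      have hcom : g' * gB = gB * g' := by
        ext v
        obtain ⟨b, hb, n, hn, rfl⟩ := hdec v
        rw [Module.End.mul_apply, Module.End.mul_apply, map_add g', hg1 b hb, hg2 n hn,
          map_add gB, map_add gB, hgB1 b hb, hgB2 _ (hgN n hn), hgB2 n hn, map_add,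
          hg1 _ (hgB b hb), hg2 n hn]
      have hfixle : finFix g ≤ finFix g' := by
        intro v hv
        rw [mem_finFix] at hv ⊢
        obtain ⟨b, hb, n, hn, rfl⟩ := hdec v
        have h1 : g b - b = n - g n := by
          rw [sub_eq_sub_iff_add_eq_add, ← map_add, hv, add_comm]
        have h2 : n - g n = 0 := by
          apply Submodule.disjoint_def.1 hcompl.disjoint
          · rw [← h1]
            exact Submodule.sub_mem _ (hgB b hb) hb
          · exact Submodule.sub_mem _ hn (hgN n hn)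
        rw [map_add, hg1 b hb, hg2 n hn, (sub_eq_zero.1 h2).symm]
      have hv0' : v0 ∈ finFix g' := mem_finFix.2 (hg1 v0 (Submodule.mem_sup_left hv0))
      have hlt : X < finFix g' := by
        rw [← hX]
        refine lt_of_le_of_ne hfixle ?_
        intro heq
        rw [← heq, mem_finFix] at hv0'
        exact hv0g hv0'
      have hIH := IH (finFix g') hlt g' rfl hiso' (by
        intro e' f' h' v hv
        rcases trich hc h h' with h1 | h1 | h1
        · rw [hg1 v (Submodule.mem_sup_left (h1 ▸ hv))]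
          exact hv
        · rw [hg1 v (Submodule.mem_sup_right (h1 ▸ hv))]
          exact hv
        · rw [hg2 v (h1 hv)]
          exact hgp e' f' h' v hv) (by
        intro v hv
        exact mem_finFix.1 (hfixle (mem_finFix.2 (hgt v hv))))
      have hblk := blk hc h gB hisoB
        (fun v hv => by
          rw [hgB1 v (Submodule.mem_sup_left hv)]
          exact hgp e f h v hv)
        (fun v hv => by
          rw [hgB1 v (Submodule.mem_sup_right hv)]
          exact hgp f e h.symm v hv) hgB2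
      constructor
      · have h1 : g * g = gB * gB * (g' * g') := by
          rw [hfac, mul_assoc, mul_assoc, ← mul_assoc g' gB g', hcom, mul_assoc gB g' g']
        rw [h1]
        exact inCl_mul hblk.1 hIH.1
      · intro halt
        rw [hfac]
        exact inCl_mul (hblk.2 halt) (hIH.2 halt)
    · push Not at hex
      have h1 : finFix g = ⊤ := by
        apply hall
        · intro e f h v hv
          exact mem_finFix.2 (hex e f h v hv)
        · intro v hv
          exact mem_finFix.2 (hgt v hv)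
      have h2 : g = 1 := by
        ext v
        have h3 : v ∈ finFix g := by rw [h1]; exact Submodule.mem_top
        exact mem_finFix.1 h3
      rw [h2, mul_one]
      exact ⟨inCl_one, fun _ => inCl_one⟩
  exact hmain _ g rfl hg hgp hgt

theorem finK [IsAlgClosed K] (hc : Ctx ψ Γ)
    (hom : ∀ ν : K, ν ≠ 0 → InCl Γ (ν • (1 : Module.End K V)))
    (hsep : ∀ c : Module.End K V, Comm Γ c → (∀ e f, Pair ψ Γ e f → c e = 0) →
      (∀ v, TateVec ψ Γ v → c v = 0) → c = 0)
    (g : Module.End K V) (hg : ∀ x y, ψ (g x) (g y) = ψ x y)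
    (hgc : ∀ c : Module.End K V, Comm Γ c → c * g = g * c) :
    InCl Γ (g * g) ∧ ((∀ v, ψ v v = 0) → InCl Γ g) := by
  obtain ⟨c0, hc0, hT⟩ := tate_scal hc g hg hgc
  have hne : c0 ≠ 0 := by
    rintro rfl
    norm_num at hc0
  have hpres : ∀ e f, Pair ψ Γ e f → ∀ v ∈ LS Γ e, g v ∈ LS Γ e := by
    intro e f h v hv
    obtain ⟨-, c, hcc, hr, hi⟩ := clif hc h
    have h1 := LinearMap.congr_fun (hgc c hcc) v
    rw [Module.End.mul_apply, Module.End.mul_apply, hi v hv] at h1
    rw [← h1]
    exact hr _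
  have hkey := ind_step hc (fun W h1 h2 => span_all hc hsep W h1 h2) (c0 • g)
    (fun x y => by
      rw [LinearMap.smul_apply, LinearMap.smul_apply, map_smul, map_smul, LinearMap.smul_apply,
        smul_eq_mul, smul_eq_mul, hg]
      linear_combination (ψ x y) * hc0)
    (fun e f h v hv => (LS Γ e).smul_mem _ (hpres e f h v hv))
    (fun v hv => by
      rw [LinearMap.smul_apply, hT v hv, smul_smul, ← pow_two, hc0, one_smul])
  have h1 : (c0 • g) * (c0 • g) = g * g := by
    rw [smul_mul_smul_comm, ← pow_two, hc0, one_smul]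
  refine ⟨h1 ▸ hkey.1, fun halt => ?_⟩
  have h2 := inCl_mul (hom c0 hne) (hkey.2 halt)
  have h3 : c0 • (1 : Module.End K V) * c0 • g = g := by
    rw [smul_mul_smul_comm, ← pow_two, hc0, one_smul, one_mul]
  rwa [h3] at h2

end Pool.Agent.H91U
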