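import Mathlib

/-! Transvections and one family of homotheties of a line generate the linear group (for
`BlkGl.lean`). -/

set_option linter.unusedSectionVars false

namespace Pool.Agent.H91U

open LinearMap

variable {K A : Type*} [Field K] [AddCommGroup A] [Module K A] [FiniteDimensional K A]

lemma GenGl_inv {φ : Module.Dual K A} {u : A} (h : φ u = 0) :
    transvection φ (-u) * transvection φ u = (1 : Module.End K A) := by
  ext x
  rw [Module.End.mul_apply, transvection.apply, transvection.apply, map_add, map_smul, h,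
    smul_zero, add_zero, smul_neg, Module.End.one_apply]
  abel

/-- a product of at most two transvections that moves `a` to `b` and fixes `F` -/
lemma GenGl_step (F : Submodule K A) (S : Submonoid (Module.End K A))
    (hS : ∀ (φ : Module.Dual K A) (u : A), φ u = 0 → transvection φ u ∈ S) (a b : A)
    (ha : a ∉ F) (hb : b ∉ F) (htop : F ⊔ Submodule.span K {a} ≠ ⊤) :
    ∃ t ∈ S, ∃ t' ∈ S, t' * t = 1 ∧ t a = b ∧ (∀ x ∈ F, t x = x) ∧ LinearMap.det t = 1 := by
  have one : ∀ a b : A, a ∉ F ⊔ Submodule.span K {b - a} →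
      ∃ t ∈ S, ∃ t' ∈ S, t' * t = 1 ∧ t a = b ∧ (∀ x ∈ F, t x = x) ∧ LinearMap.det t = 1 := by
    intro a b h
    obtain ⟨φ, hφ, hφF⟩ := (F ⊔ Submodule.span K {b - a}).exists_le_ker_of_notMem h
    have h1 : φ (b - a) = 0 := LinearMap.mem_ker.1 (hφF
      (Submodule.mem_sup_right (Submodule.mem_span_singleton_self _)))
    have h2 : ∀ x ∈ F, φ x = 0 := fun x hx => LinearMap.mem_ker.1 (hφF
      (Submodule.mem_sup_left hx))
    have h3 : ((φ a)⁻¹ • φ) (b - a) = 0 := by
      rw [LinearMap.smul_apply, h1, smul_zero]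
    have h3' : ((φ a)⁻¹ • φ) (-(b - a)) = 0 := by
      rw [map_neg, h3, neg_zero]
    refine ⟨transvection ((φ a)⁻¹ • φ) (b - a), hS _ _ h3,
      transvection ((φ a)⁻¹ • φ) (-(b - a)), hS _ _ h3', GenGl_inv h3, ?_, ?_, ?_⟩
    · rw [transvection.apply, LinearMap.smul_apply, smul_eq_mul, inv_mul_cancel₀ hφ, one_smul]
      abel
    · intro x hx
      rw [transvection.apply, LinearMap.smul_apply, h2 x hx, smul_zero, zero_smul, add_zero]
    · rw [transvection.det, h3, add_zero]
  by_cases h : a ∈ F ⊔ Submodule.span K {b - a}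
  · obtain ⟨w, -, hw⟩ : ∃ w ∈ (⊤ : Submodule K A), w ∉ F ⊔ Submodule.span K {a} := by
      have h1 : F ⊔ Submodule.span K {a} < ⊤ := lt_top_iff_ne_top.2 htop
      exact Set.exists_of_ssubset h1
    have hba : b ∈ F ⊔ Submodule.span K {a} := by
      obtain ⟨y, hy, z, hz, hyz⟩ := Submodule.mem_sup.1 h
      obtain ⟨c, rfl⟩ := Submodule.mem_span_singleton.1 hz
      have hc : c ≠ 0 := by
        rintro rfl
        rw [zero_smul, add_zero] at hyz
        exact ha (hyz ▸ hy)
      have h1 : b = c⁻¹ • (-y) + (c⁻¹ * (1 + c)) • a := by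
        have h2 : c • b = -y + (1 + c) • a := by
          have h3 : (y + c • (b - a)) + (c • a - y) = a + (c • a - y) := by rw [hyz]
          rw [smul_sub] at h3
          calc c • b = y + (c • b - c • a) + (c • a - y) := by abel
            _ = a + (c • a - y) := h3
            _ = -y + (1 + c) • a := by rw [add_smul, one_smul]; abel
        rw [mul_smul, ← smul_add, ← h2, smul_smul, inv_mul_cancel₀ hc, one_smul]
      rw [h1]
      exact Submodule.add_mem_sup (F.smul_mem _ (F.neg_mem hy))
        (Submodule.smul_mem _ _ (Submodule.mem_span_singleton_self _))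
    obtain ⟨t, ht, t', ht', e1, e2, e3, e4⟩ := one a w (by
      intro h1
      obtain ⟨y, hy, z, hz, hyz⟩ := Submodule.mem_sup.1 h1
      obtain ⟨c, rfl⟩ := Submodule.mem_span_singleton.1 hz
      by_cases hc : c = 0
      · rw [hc, zero_smul, add_zero] at hyz
        exact ha (hyz ▸ hy)
      · apply hw
        have h2 : w = c⁻¹ • (-y) + (c⁻¹ * (1 + c)) • a := by
          have h3 : c • w = -y + (1 + c) • a := by
            have h4 : (y + c • (w - a)) + (c • a - y) = a + (c • a - y) := by rw [hyz]
            rw [smul_sub] at h4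
            calc c • w = y + (c • w - c • a) + (c • a - y) := by abel
              _ = a + (c • a - y) := h4
              _ = -y + (1 + c) • a := by rw [add_smul, one_smul]; abel
          rw [mul_smul, ← smul_add, ← h3, smul_smul, inv_mul_cancel₀ hc, one_smul]
        rw [h2]
        exact Submodule.add_mem_sup (F.smul_mem _ (F.neg_mem hy))
          (Submodule.smul_mem _ _ (Submodule.mem_span_singleton_self _)))
    obtain ⟨r, hr, r', hr', f1, f2, f3, f4⟩ := one w b (by
      intro h1
      obtain ⟨y, hy, z, hz, hyz⟩ := Submodule.mem_sup.1 h1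
      obtain ⟨c, rfl⟩ := Submodule.mem_span_singleton.1 hz
      have h2 : (1 + c) • w = y + c • b := by
        have h3 : (y + c • (b - w)) + c • w = w + c • w := by rw [hyz]
        rw [smul_sub] at h3
        calc (1 + c) • w = w + c • w := by rw [add_smul, one_smul]
          _ = y + (c • b - c • w) + c • w := h3.symm
          _ = y + c • b := by abel
      by_cases hc : 1 + c = 0
      · rw [hc, zero_smul] at h2
        have hc' : c = -1 := by linear_combination hc
        rw [hc', neg_one_smul] at h2
        have h3 : b = y := by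
          have h4 : (0 : A) + b = y + -b + b := by rw [h2]
          rw [zero_add, neg_add_cancel_right] at h4
          exact h4
        exact hb (h3 ▸ hy)
      · apply hw
        have h3 : w = (1 + c)⁻¹ • (y + c • b) := by
          rw [← h2, smul_smul, inv_mul_cancel₀ hc, one_smul]
        rw [h3]
        exact Submodule.smul_mem _ _ (Submodule.add_mem _ (Submodule.mem_sup_left hy)
          (Submodule.smul_mem _ _ hba)))
    refine ⟨r * t, S.mul_mem hr ht, t' * r', S.mul_mem ht' hr', ?_, ?_, fun x hx => ?_, ?_⟩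
    · rw [mul_assoc, ← mul_assoc r' r t, f1, one_mul, e1]
    · rw [Module.End.mul_apply, e2, f2]
    · rw [Module.End.mul_apply, e3 x hx, f3 x hx]
    · rw [LinearMap.det.map_mul, e4, f4, one_mul]
  · exact one a b h

/-- transvections generate the special linear group -/
theorem gen_sl (S : Submonoid (Module.End K A))
    (hS : ∀ (φ : Module.Dual K A) (u : A), φ u = 0 → transvection φ u ∈ S)
    (g : Module.End K A) (hg : LinearMap.det g = 1) : g ∈ S := by
  induction hd : Module.finrank K A - Module.finrank K (LinearMap.ker (g - 1))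
    using Nat.strong_induction_on generalizing g with
  | _ d ih =>
  have hfix : ∀ x, x ∈ LinearMap.ker (g - 1) ↔ g x = x := by
    intro x
    rw [LinearMap.mem_ker, LinearMap.sub_apply, Module.End.one_apply, sub_eq_zero]
  by_cases hF : LinearMap.ker (g - 1) = ⊤
  · have : g = 1 := by
      rw [LinearMap.ker_eq_top] at hF
      exact sub_eq_zero.1 hF
    rw [this]
    exact S.one_mem
  · obtain ⟨v, -, hv⟩ : ∃ v ∈ (⊤ : Submodule K A), v ∉ LinearMap.ker (g - 1) := by
      have h1 : LinearMap.ker (g - 1) < ⊤ := lt_top_iff_ne_top.2 hF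
      exact Set.exists_of_ssubset h1
    have hginj : Function.Injective g := by
      have h1 : IsUnit (LinearMap.det g) := by rw [hg]; exact isUnit_one
      exact ((Module.End.isUnit_iff _).1 ((LinearMap.isUnit_iff_isUnit_det g).2 h1)).1
    have hgv : g v ∉ LinearMap.ker (g - 1) := by
      rw [hfix] at hv ⊢
      exact fun h => hv (hginj h)
    by_cases htop : LinearMap.ker (g - 1) ⊔ Submodule.span K {g v} = ⊤
    · obtain ⟨φ, hφ, hφF⟩ := (LinearMap.ker (g - 1)).exists_le_ker_of_notMem hv
      have h2 : ∀ x, g x = x → φ x = 0 := fun x hx => LinearMap.mem_ker.1 (hφF ((hfix x).2 hx))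
      -- `v` spans a complement of the fixed space as well
      have hv' : ∀ x, ∃ (y : A) (c : K), g y = y ∧ x = y + c • v := by
        intro x
        have hx : g x ∈ LinearMap.ker (g - 1) ⊔ Submodule.span K {g v} := by
          rw [htop]; trivial
        obtain ⟨y, hy, z, hz, hyz⟩ := Submodule.mem_sup.1 hx
        obtain ⟨c, rfl⟩ := Submodule.mem_span_singleton.1 hz
        refine ⟨y, c, (hfix y).1 hy, hginj ?_⟩
        rw [map_add, map_smul, (hfix y).1 hy, hyz]
      have h3 : g = transvection ((φ v)⁻¹ • φ) (g v - v) := by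
        ext x
        obtain ⟨y, c, hy, rfl⟩ := hv' x
        have h4 : ((φ v)⁻¹ • φ) (y + c • v) = c := by
          rw [map_add, map_smul, LinearMap.smul_apply, LinearMap.smul_apply, h2 y hy, smul_zero,
            zero_add, smul_eq_mul, smul_eq_mul, inv_mul_cancel₀ hφ, mul_one]
        rw [transvection.apply, h4, map_add, map_smul, hy, smul_sub]
        abel
      have h4 := hg
      rw [h3, transvection.det] at h4
      rw [h3]
      exact hS _ _ (by linear_combination h4)
    · obtain ⟨t, ht, t', ht', e1, e2, e3, e4⟩ := GenGl_step (LinearMap.ker (g - 1)) S hS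
        (g v) v hgv hv htop
      have h2 : LinearMap.ker (g - 1) < LinearMap.ker (t * g - 1) := by
        refine lt_of_le_of_ne (fun x hx => ?_) fun h => ?_
        · rw [LinearMap.mem_ker, LinearMap.sub_apply, Module.End.one_apply, sub_eq_zero,
            Module.End.mul_apply, (hfix x).1 hx, e3 x hx]
        · apply hv
          rw [h, LinearMap.mem_ker, LinearMap.sub_apply, Module.End.one_apply, sub_eq_zero,
            Module.End.mul_apply, e2]
      have h3 := Submodule.finrank_lt_finrank_of_lt h2
      have h4 := Submodule.finrank_le (LinearMap.ker (t * g - 1))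
      have h5 := ih _ (by omega) (t * g) (by rw [LinearMap.det.map_mul, e4, hg, one_mul]) rfl
      have h6 : g = t' * (t * g) := by rw [← mul_assoc, e1, one_mul]
      rw [h6]
      exact S.mul_mem ht' h5

/-- transvections and the homotheties of one line generate the linear group -/
theorem gen_gl (S : Submonoid (Module.End K A))
    (hS : ∀ (φ : Module.Dual K A) (u : A), φ u = 0 → transvection φ u ∈ S)
    (φ₀ : Module.Dual K A) (e : A) (he : φ₀ e ≠ 0)
    (hD : ∀ t : K, t ≠ 0 → transvection (((t - 1) * (φ₀ e)⁻¹) • φ₀) e ∈ S)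
    (g : Module.End K A) (hg : LinearMap.det g ≠ 0) : g ∈ S := by
  set c := LinearMap.det g with hc
  have hdet : ∀ t : K, LinearMap.det (transvection (((t - 1) * (φ₀ e)⁻¹) • φ₀) e) = t := by
    intro t
    rw [transvection.det, LinearMap.smul_apply, smul_eq_mul, mul_assoc, inv_mul_cancel₀ he]
    ring
  have hinv : transvection (((c⁻¹ - 1) * (φ₀ e)⁻¹) • φ₀) e *
      transvection (((c - 1) * (φ₀ e)⁻¹) • φ₀) e = (1 : Module.End K A) := by
    ext x
    rw [Module.End.mul_apply, transvection.apply, transvection.apply, map_add, map_smul,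
      Module.End.one_apply]
    simp only [LinearMap.smul_apply, smul_eq_mul]
    rw [add_assoc, ← add_smul]
    have h1 : (c - 1) * (φ₀ e)⁻¹ * φ₀ x + ((c⁻¹ - 1) * (φ₀ e)⁻¹ * φ₀ x +
        (c - 1) * (φ₀ e)⁻¹ * φ₀ x * ((c⁻¹ - 1) * (φ₀ e)⁻¹ * φ₀ e)) = 0 := by
      field_simp
      ring
    rw [h1, zero_smul, add_zero]
  have h1 : g * transvection (((c⁻¹ - 1) * (φ₀ e)⁻¹) • φ₀) e ∈ S := by
    apply gen_sl S hS
    rw [LinearMap.det.map_mul, hdet, ← hc, mul_inv_cancel₀ hg]
  have h2 : g = (g * transvection (((c⁻¹ - 1) * (φ₀ e)⁻¹) • φ₀) e) *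
      transvection (((c - 1) * (φ₀ e)⁻¹) • φ₀) e := by
    rw [mul_assoc, hinv, mul_one]
  rw [h2]
  exact S.mul_mem h1 (hD c hg)

end Pool.Agent.H91U
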