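import Mathlib

/-! An endomorphism with irreducible characteristic polynomial has no stable subspaces. -/

set_option linter.unusedSectionVars false

namespace Pool.Agent.H91U

open Polynomial

theorem irr_charpoly {E V : Type*} [Field E] [AddCommGroup V] [Module E V] [FiniteDimensional E V]
    (F : Module.End E V) (hirr : Irreducible (LinearMap.charpoly F)) (W : Submodule E V)
    (hW : ∀ w ∈ W, F w ∈ W) : W = ⊥ ∨ W = ⊤ := by
  by_cases hb : W = ⊥
  · exact Or.inl hb
  right
  obtain ⟨w, hw, hw0⟩ := (Submodule.ne_bot_iff W).1 hb
  have hWp : ∀ Q : E[X], aeval F Q w ∈ W := by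
    intro Q
    induction Q using Polynomial.induction_on' with
    | add p q hp hq =>
      rw [map_add, LinearMap.add_apply]
      exact W.add_mem hp hq
    | monomial n a =>
      rw [← C_mul_X_pow_eq_monomial, map_mul, aeval_C, map_pow, aeval_X, Module.End.mul_apply]
      refine W.smul_mem a ?_
      induction n with
      | zero => simpa using hw
      | succ n ih =>
        rw [pow_succ', Module.End.mul_apply]
        exact hW _ ih
  -- the polynomials of degree less than `dim V` map injectively
  let φ : Polynomial.degreeLT E (Module.finrank E V) →ₗ[E] W :=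
    { toFun := fun Q => ⟨aeval F (Q : E[X]) w, hWp Q⟩
      map_add' := by
        intro a b
        apply Subtype.ext
        show aeval F ((a : E[X]) + (b : E[X])) w = _
        rw [map_add, LinearMap.add_apply]
        rfl
      map_smul' := by
        intro c a
        apply Subtype.ext
        show aeval F (c • (a : E[X])) w = _
        rw [map_smul, LinearMap.smul_apply]
        rfl }
  have hinj : Function.Injective φ := by
    rw [← LinearMap.ker_eq_bot, LinearMap.ker_eq_bot']
    intro Q hQ
    by_contra hne
    have hQ0 : (Q : E[X]) ≠ 0 := fun h => hne (Subtype.ext h)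
    have h1 : aeval F (Q : E[X]) w = 0 := congrArg Subtype.val hQ
    have hdeg : (Q : E[X]).degree < (Module.finrank E V : WithBot ℕ) := mem_degreeLT.1 Q.2
    have hcop : IsCoprime (LinearMap.charpoly F) (Q : E[X]) := by
      rw [hirr.coprime_iff_not_dvd]
      intro hd
      have h2 := Polynomial.degree_le_of_dvd hd hQ0
      rw [Polynomial.degree_eq_natDegree (LinearMap.charpoly_monic F).ne_zero,
        LinearMap.charpoly_natDegree] at h2
      exact absurd hdeg (not_lt.2 h2)
    obtain ⟨a, b, hab⟩ := hcop
    apply hw0
    have h3 := congrArg (fun p => aeval F p w) hab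
    simp only [map_add, map_mul, LinearMap.aeval_self_charpoly, mul_zero, zero_add, map_one,
      Module.End.mul_apply, Module.End.one_apply, h1, map_zero] at h3
    exact h3.symm
  have hle := LinearMap.finrank_le_finrank_of_injective hinj
  have h4 : Module.finrank E (Polynomial.degreeLT E (Module.finrank E V)) =
      Module.finrank E V := by
    rw [(Polynomial.degreeLTEquiv E (Module.finrank E V)).finrank_eq]
    simp
  rw [h4] at hle
  exact Submodule.eq_top_of_finrank_eq (le_antisymm (Submodule.finrank_le W) hle)

end Pool.Agent.H91U
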