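import Pool.Agent.H91.Mono.Gal4

/-! Odd dimension: irreducibility and one nondegenerate element give a scalar stable commutant.

PROOF. `ψ (F₀ u) (F₀ v) = lam * ψ u v` (`hsim`), `lam ≠ 0`. `N = finrank`, `F₀` has `N` distinct eigenvalues
in `K`; eigenbasis `b i`, eigenvalues `x i` (over `K ⊗ V`, form `fK K ψ`). `ψ (b i) (b j) ≠ 0` only if
`x i * x j = lam`; nondegeneracy gives for each `i` exactly one `i'` with `x i * x i' = lam`, and
`ψ (b i) (b i') ≠ 0`; `i ↦ i'` is an involution of a set with `N` (odd) elements, so it has a fixed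
point `o`, and only one: `x i ^ 2 = lam = x o ^ 2` gives `i = o` (`hnd2` with exponent 2).
(a) Every `c` with `Comm Γ c` commutes with some `F₀ ^ m`, `m > 0`, whose eigenvalues `x i ^ m` are
distinct, so `c (b i) = ε i • b i`: all these `c` commute with each other and with `F₀`.
(b) The adjoint `c*` (`ψ (c u) v = ψ u (c* v)`) of a `c` with `Comm` is again `Comm` (similitudes), and
`γ c γ⁻¹` is `Comm` for `γ ∈ Γ`, with adjoint `γ c* γ⁻¹`.
(c) Parity: if `f` is an idempotent with `Comm` and `f* = f` then `ε i = ε i'` (`ε i ∈ {0, 1}`), so the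
rank of `f` = number of `i` with `ε i = 1` is odd iff `ε o = 1`, that is iff `f (b o) = b o`.
(d) Let `e₀` be a self-adjoint idempotent with `Comm` and `e₀ (b o) = b o` (for instance 1) of minimal
rank. For `γ ∈ Γ`, `e' = γ e₀ γ⁻¹` is a self-adjoint idempotent with `Comm` of the same rank, which is
odd, so `e' (b o) = b o` by (c); `e₀ e'` is again one (they commute), so by minimality it has the same
rank and `e' = e₀`. So `e₀` commutes with `Γ`, its range is `Γ`-stable and not `⊥`, so `e₀ = 1` (`hirr`).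
So every self-adjoint idempotent with `Comm` that fixes `b o` is 1.
(e) Let `Comm Γ c`. The eigenvalue `ε o` of `c` on `b o` lies in `E`: `x o` is in `E` (it is the only root
with square `lam`, or `x o = ± det F₀ / lam ^ ((N-1)/2)`), so `b o` can be taken in `V`. Let
`c' = c - ε o`. If `c' ≠ 0`: `V = ker c' ⊕ range c'` (`c'` is diagonalizable over `K`); let `f` be the
projection onto `ker c'` along `range c'`; it is `Comm` (both are stable under the subgroup), fixes
`b o`, so `f f*` is a self-adjoint idempotent with `Comm` fixing `b o` (commuting; `f* (b o) = b o`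
because `ψ (b o) (b o) ≠ 0`), so `f f* = 1`, `f = 1`, `c' = 0`. -/

set_option linter.unusedSectionVars false

namespace Pool.Agent.H91U

open Polynomial TensorProduct Pool.Agent.H91.Mono

section

variable {E : Type*} [Field E] [CharZero E] {V : Type*} [AddCommGroup V] [Module E V]
  [FiniteDimensional E V]

/-- an isometry of an odd dimensional space has a vector with `g w = ± w` -/
lemma oddSc_fix (ψ : V →ₗ[E] V →ₗ[E] E) (hnd : ∀ v, (∀ w, ψ v w = 0) → v = 0)
    (hodd : Odd (Module.finrank E V)) (g : Module.End E V) (hg : ∀ x y, ψ (g x) (g y) = ψ x y) :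
    ∃ w, w ≠ 0 ∧ (g w = w ∨ g w = -w) := by
  classical
  have key : ∀ g : Module.End E V, (∀ x y, ψ (g x) (g y) = ψ x y) →
      LinearMap.det (g - 1) * (1 + LinearMap.det g) = 0 := by
    intro g hg
    let b := Module.finBasis E V
    set J := LinearMap.toMatrix₂ b b ψ with hJ
    set M := LinearMap.toMatrix b b g with hM
    have hcomp : ψ.compl₁₂ g g = ψ := by
      ext u v
      exact hg u v
    have hmat := LinearMap.toMatrix₂_compl₁₂ b b b b ψ g g
    rw [hcomp, ← hJ, ← hM] at hmat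
    have hJ0 : J.det ≠ 0 := by
      have hsep : LinearMap.SeparatingLeft ψ := fun v hv => hnd v hv
      exact (LinearMap.separatingLeft_iff_det_ne_zero b).1 hsep
    have hMdet : M.det = LinearMap.det g := by
      rw [hM, LinearMap.det_toMatrix]
    have hMdet1 : (M - 1).det = LinearMap.det (g - 1) := by
      rw [hM, ← LinearMap.toMatrix_one b, ← map_sub, LinearMap.det_toMatrix]
    have h1 : (1 - M.transpose) * J * M = J * (M - 1) := by
      rw [sub_mul, one_mul, sub_mul, ← hmat, mul_sub, mul_one]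
    have h2 := congrArg Matrix.det h1
    rw [Matrix.det_mul, Matrix.det_mul, Matrix.det_mul] at h2
    have h3 : (1 - M.transpose).det = -(M - 1).det := by
      have h4 : (1 - M.transpose) = (-(M - 1)).transpose := by
        rw [neg_sub, Matrix.transpose_sub, Matrix.transpose_one]
      rw [h4, Matrix.det_transpose, Matrix.det_neg, Fintype.card_fin, hodd.neg_one_pow,
        neg_one_mul]
    rw [h3] at h2
    rw [← hMdet, ← hMdet1]
    apply mul_left_cancel₀ hJ0
    rw [mul_zero]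
    linear_combination -h2
  have hker : ∀ f : Module.End E V, LinearMap.det f = 0 → ∃ w, w ≠ 0 ∧ f w = 0 := by
    intro f hf
    have h1 := LinearMap.bot_lt_ker_of_det_eq_zero hf
    obtain ⟨w, hw, hw0⟩ := Submodule.exists_mem_ne_zero_of_ne_bot h1.ne'
    exact ⟨w, hw0, hw⟩
  by_cases hdet : LinearMap.det g = -1
  · have h1 : ∀ x y, ψ ((-g) x) ((-g) y) = ψ x y := by
      intro x y
      rw [LinearMap.neg_apply, LinearMap.neg_apply, map_neg, map_neg, LinearMap.neg_apply,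
        neg_neg, hg]
    have h2 := key (-g) h1
    have h3 : LinearMap.det (-g) = 1 := by
      rw [← neg_one_smul E g, LinearMap.det_smul, hodd.neg_one_pow, hdet]
      norm_num
    rw [h3] at h2
    have h4 : LinearMap.det (-g - 1) = 0 := by
      rcases mul_eq_zero.1 h2 with h | h
      · exact h
      · norm_num at h
    obtain ⟨w, hw0, hw⟩ := hker _ h4
    refine ⟨w, hw0, Or.inr ?_⟩
    rw [LinearMap.sub_apply, LinearMap.neg_apply, Module.End.one_apply] at hw
    exact neg_eq_iff_eq_neg.1 (sub_eq_zero.1 hw)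
  · have h2 := key g hg
    have h4 : LinearMap.det (g - 1) = 0 := by
      rcases mul_eq_zero.1 h2 with h | h
      · exact h
      · exfalso
        apply hdet
        linear_combination h
    obtain ⟨w, hw0, hw⟩ := hker _ h4
    refine ⟨w, hw0, Or.inl ?_⟩
    rw [LinearMap.sub_apply, Module.End.one_apply] at hw
    exact sub_eq_zero.1 hw

/-- the determinant of a similitude -/
lemma oddSc_det (ψ : V →ₗ[E] V →ₗ[E] E) (hnd : ∀ v, (∀ w, ψ v w = 0) → v = 0)
    (g : Module.End E V) (lam : E) (hg : ∀ x y, ψ (g x) (g y) = lam * ψ x y) :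
    LinearMap.det g ^ 2 = lam ^ Module.finrank E V := by
  classical
  let b := Module.finBasis E V
  set J := LinearMap.toMatrix₂ b b ψ with hJ
  set M := LinearMap.toMatrix b b g with hM
  have hcomp : ψ.compl₁₂ g g = lam • ψ := by
    ext u v
    exact hg u v
  have hmat := LinearMap.toMatrix₂_compl₁₂ b b b b ψ g g
  rw [hcomp, map_smul, ← hJ, ← hM] at hmat
  have hJ0 : J.det ≠ 0 := by
    have hsep : LinearMap.SeparatingLeft ψ := fun v hv => hnd v hv
    exact (LinearMap.separatingLeft_iff_det_ne_zero b).1 hsep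
  have hMdet : M.det = LinearMap.det g := by
    rw [hM, LinearMap.det_toMatrix]
  have h2 := congrArg Matrix.det hmat
  rw [Matrix.det_smul, Fintype.card_fin, Matrix.det_mul, Matrix.det_mul,
    Matrix.det_transpose] at h2
  rw [← hMdet]
  apply mul_right_cancel₀ hJ0
  linear_combination -h2

/-- powers detect the eigenline -/
lemma oddSc_cop (K : Type*) [Field K] [Algebra E K] [IsAlgClosed K] (F : Module.End E V)
    (hsq : Squarefree (LinearMap.charpoly F))
    (hnd2 : ∀ x y : K, aeval x (LinearMap.charpoly F) = 0 → aeval y (LinearMap.charpoly F) = 0 →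
      ∀ m : ℕ, 0 < m → x ^ m = y ^ m → x = y)
    (a : E) (v0 : V) (hv0 : v0 ≠ 0) (hFv : F v0 = a • v0) :
    ∃ Q : E[X], LinearMap.charpoly F = (X - C a) * Q ∧
      ∀ m : ℕ, 0 < m → IsCoprime Q (X ^ m - C (a ^ m)) := by
  have hev : Module.End.HasEigenvalue F a :=
    Module.End.hasEigenvalue_of_hasEigenvector (x := v0)
      ⟨Module.End.mem_eigenspace_iff.2 hFv, hv0⟩
  have hroot : (LinearMap.charpoly F).IsRoot a :=
    (Module.End.hasEigenvalue_iff_isRoot_charpoly F a).1 hev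
  obtain ⟨Q, hQ⟩ := Polynomial.dvd_iff_isRoot.2 hroot
  refine ⟨Q, hQ, fun m hm => ?_⟩
  rw [Polynomial.isCoprime_iff_aeval_ne_zero_of_isAlgClosed E K]
  intro x
  by_contra hcon
  push Not at hcon
  obtain ⟨h1, h2⟩ := hcon
  have h3 : aeval x (LinearMap.charpoly F) = 0 := by rw [hQ, map_mul, h1, mul_zero]
  have h4 : aeval (algebraMap E K a) (LinearMap.charpoly F) = 0 := by
    rw [hQ, map_mul, map_sub, aeval_X, aeval_C, sub_self, zero_mul]
  have h5 : x ^ m = (algebraMap E K a) ^ m := by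
    rw [map_sub, map_pow, aeval_X, aeval_C, map_pow] at h2
    exact sub_eq_zero.1 h2
  have h6 := hnd2 x _ h3 h4 m hm h5
  rw [h6, Polynomial.aeval_algebraMap_apply] at h1
  have h7 : Q.IsRoot a := by
    have h8 := (map_eq_zero_iff _ (algebraMap E K).injective).1 h1
    rwa [Polynomial.coe_aeval_eq_eval] at h8
  obtain ⟨R, hR⟩ := Polynomial.dvd_iff_isRoot.2 h7
  have h8 : (X - C a) * (X - C a) ∣ LinearMap.charpoly F := by
    rw [hQ, hR]
    exact ⟨R, by ring⟩
  exact Polynomial.not_isUnit_X_sub_C a (hsq _ h8)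

lemma oddSc_eig (F : Module.End E V) (a : E) (Q : E[X])
    (hQ : LinearMap.charpoly F = (X - C a) * Q) (m : ℕ)
    (hcop : IsCoprime Q (X ^ m - C (a ^ m))) (w : V) (hw : (F ^ m) w = a ^ m • w) :
    F w = a • w := by
  obtain ⟨u, v, huv⟩ := hcop
  have h2 : aeval F (X ^ m - C (a ^ m)) w = 0 := by
    rw [map_sub, map_pow, aeval_X, aeval_C, LinearMap.sub_apply, hw,
      Module.algebraMap_end_apply, sub_self]
  have h3 : aeval F (LinearMap.charpoly F) w = 0 := by
    rw [LinearMap.aeval_self_charpoly, LinearMap.zero_apply]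
  have h4 : (X - C a) = u * LinearMap.charpoly F + (v * (X - C a)) * (X ^ m - C (a ^ m)) := by
    rw [hQ]
    linear_combination -(X - C a) * huv
  have h5 : aeval F (X - C a) w = 0 := by
    rw [h4, map_add, LinearMap.add_apply, map_mul, Module.End.mul_apply, h3, map_zero, zero_add,
      map_mul, Module.End.mul_apply, h2, map_zero]
  rw [map_sub, aeval_X, aeval_C, LinearMap.sub_apply, Module.algebraMap_end_apply] at h5
  exact sub_eq_zero.1 h5

lemma oddSc_line (F : Module.End E V) (hsq : Squarefree (LinearMap.charpoly F)) (a : E)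
    (v0 : V) (hv0 : v0 ≠ 0) (hFv : F v0 = a • v0) (w : V) (hw : F w = a • w) :
    ∃ t : E, w = t • v0 := by
  have hsep : (LinearMap.charpoly F).Separable := PerfectField.separable_iff_squarefree.2 hsq
  have h1 := LinearMap.finrank_eigenspace_le F a
  have h2 := Polynomial.rootMultiplicity_le_one_of_separable hsep a
  have h3 : Module.finrank E (Module.End.eigenspace F a) ≤ 1 := h1.trans h2
  obtain ⟨v, hv⟩ := finrank_le_one_iff.1 h3
  obtain ⟨s, hs⟩ := hv ⟨v0, Module.End.mem_eigenspace_iff.2 hFv⟩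
  obtain ⟨t, ht⟩ := hv ⟨w, Module.End.mem_eigenspace_iff.2 hw⟩
  have hs1 : s • (v : V) = v0 := congrArg Subtype.val hs
  have ht1 : t • (v : V) = w := congrArg Subtype.val ht
  have hs0 : s ≠ 0 := by
    rintro rfl
    apply hv0
    rw [← hs1, zero_smul]
  refine ⟨t * s⁻¹, ?_⟩
  rw [← hs1, smul_smul, mul_assoc, inv_mul_cancel₀ hs0, mul_one, ht1]

lemma oddSc_self (ψ : V →ₗ[E] V →ₗ[E] E) (hnd : ∀ v, (∀ w, ψ v w = 0) → v = 0)
    (F : Module.End E V) (a : E) (ha : a ≠ 0)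
    (hmult : ∀ u v, ψ (F u) (F v) = a ^ 2 * ψ u v) (Q : E[X])
    (hQ : LinearMap.charpoly F = (X - C a) * Q) (hcop : IsCoprime Q (X ^ 1 - C (a ^ 1)))
    (v0 : V) (hv0 : v0 ≠ 0) (hFv : F v0 = a • v0)
    (hline : ∀ w, F w = a • w → ∃ t : E, w = t • v0) : ψ v0 v0 ≠ 0 := by
  intro h0
  apply hv0
  apply hnd
  intro w
  have h1 : ∀ w, ψ v0 (F w) = a * ψ v0 w := by
    intro w
    have h2 := hmult v0 w
    rw [hFv, map_smul, LinearMap.smul_apply, smul_eq_mul] at h2
    apply mul_left_cancel₀ ha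
    rw [h2]
    ring
  obtain ⟨u, v, huv⟩ := hcop
  rw [pow_one, pow_one] at huv
  have h2 : aeval F (Q * u) w ∈ {w | ∃ t : E, w = t • v0} := by
    apply hline
    have h3 : aeval F ((X - C a) * (Q * u)) w = 0 := by
      rw [← mul_assoc, ← hQ, mul_comm, map_mul, Module.End.mul_apply,
        LinearMap.aeval_self_charpoly, LinearMap.zero_apply, map_zero]
    rw [map_mul, Module.End.mul_apply, map_sub, aeval_X, aeval_C, LinearMap.sub_apply,
      Module.algebraMap_end_apply] at h3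
    exact sub_eq_zero.1 h3
  obtain ⟨t, ht⟩ := h2
  have h3 : w = aeval F (Q * u) w + aeval F (X - C a) (aeval F v w) := by
    have h4 : (1 : E[X]) = Q * u + (X - C a) * v := by
      rw [← huv]
      ring
    have h5 : aeval F (1 : E[X]) w = w := by
      rw [map_one, Module.End.one_apply]
    conv_lhs => rw [← h5, h4, map_add, LinearMap.add_apply]
    rw [map_mul (aeval F) (X - C a) v, Module.End.mul_apply]
  rw [h3, map_add, ht, map_smul, h0, smul_zero, zero_add, map_sub, aeval_X, aeval_C,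
    LinearMap.sub_apply, Module.algebraMap_end_apply, map_sub, h1, map_smul, smul_eq_mul, sub_self]

/-- a stable nondegenerate subspace of odd dimension contains the eigenline -/
lemma oddSc_P (ψ : V →ₗ[E] V →ₗ[E] E) (F : Module.End E V) (a : E) (ha : a ≠ 0)
    (hmult : ∀ u v, ψ (F u) (F v) = a ^ 2 * ψ u v) (v0 : V) (hFv : F v0 = a • v0)
    (hpow : ∀ m : ℕ, 0 < m → ∀ w, (F ^ m) w = a ^ m • w → ∃ t : E, w = t • v0)
    (m : ℕ) (hm : 0 < m) (W : Submodule E V) (hW : ∀ w ∈ W, (F ^ m) w ∈ W)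
    (hWnd : ∀ w ∈ W, (∀ w' ∈ W, ψ w w' = 0) → w = 0)
    (hWodd : Odd (Module.finrank E W)) : v0 ∈ W := by
  have hpow0 : ∀ k : ℕ, (F ^ k) v0 = a ^ k • v0 := by
    intro k
    induction k with
    | zero => simp
    | succ k ih => rw [pow_succ', Module.End.mul_apply, ih, map_smul, hFv, smul_smul, pow_succ]
  have hmultm : ∀ k : ℕ, ∀ u v, ψ ((F ^ k) u) ((F ^ k) v) = (a ^ k) ^ 2 * ψ u v := by
    intro k
    induction k with
    | zero => intro u v; simp
    | succ k ih =>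
      intro u v
      rw [pow_succ', Module.End.mul_apply, Module.End.mul_apply, hmult, ih]
      ring
  have ham : a ^ m ≠ 0 := pow_ne_zero _ ha
  let g : Module.End E W := (a ^ m)⁻¹ • (F ^ m).restrict hW
  have hg : ∀ w : W, ((g w : W) : V) = (a ^ m)⁻¹ • (F ^ m) (w : V) := fun w => rfl
  obtain ⟨w, hw0, hw⟩ := oddSc_fix (ψ.domRestrict₁₂ W W) (by
    intro v hv
    apply Subtype.ext
    apply hWnd v v.2
    intro w' hw'
    exact hv ⟨w', hw'⟩) hWodd g (by
    intro x y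
    show ψ ((g x : W) : V) ((g y : W) : V) = ψ (x : V) (y : V)
    rw [hg, hg, map_smul, map_smul, LinearMap.smul_apply, hmultm, smul_eq_mul, smul_eq_mul]
    field_simp)
  have hwV : (w : V) ≠ 0 := fun h => hw0 (Subtype.ext h)
  have hfin : ∀ w' : V, w' ≠ 0 → w' ∈ W → (∃ t : E, w' = t • v0) → v0 ∈ W := by
    rintro w' h1 h2 ⟨t, rfl⟩
    have ht : t ≠ 0 := by
      rintro rfl
      exact h1 (zero_smul _ _)
    have h3 := W.smul_mem t⁻¹ h2
    rwa [smul_smul, inv_mul_cancel₀ ht, one_smul] at h3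
  rcases hw with hw | hw
  · apply hfin _ hwV w.2
    apply hpow m hm
    have h1 := congrArg Subtype.val hw
    rw [hg] at h1
    rw [← h1, smul_smul, mul_inv_cancel₀ ham, one_smul, h1]
  · have h1 := congrArg Subtype.val hw
    rw [hg] at h1
    have h2 : (F ^ m) (w : V) = a ^ m • (-(w : V)) := by
      have h3 : ((-w : W) : V) = -(w : V) := rfl
      rw [← h3, ← h1, smul_smul, mul_inv_cancel₀ ham, one_smul]
    apply hfin _ hwV w.2
    apply hpow (m + m) (by omega)
    rw [pow_add, Module.End.mul_apply, h2, map_smul, map_neg, h2, pow_add, ← smul_neg, neg_neg,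
      smul_smul]

/-- a stable nondegenerate subspace that contains the eigenline has odd dimension -/
lemma oddSc_Q (ψ : V →ₗ[E] V →ₗ[E] E) (hsym : ∀ u v, ψ u v = ψ v u)
    (hnd : ∀ v, (∀ w, ψ v w = 0) → v = 0) (hodd : Odd (Module.finrank E V))
    (F : Module.End E V) (a : E) (ha : a ≠ 0)
    (hmult : ∀ u v, ψ (F u) (F v) = a ^ 2 * ψ u v) (v0 : V) (hFv : F v0 = a • v0)
    (hself : ψ v0 v0 ≠ 0)
    (hpow : ∀ m : ℕ, 0 < m → ∀ w, (F ^ m) w = a ^ m • w → ∃ t : E, w = t • v0)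
    (m : ℕ) (hm : 0 < m) (U : Submodule E V) (hU : ∀ w ∈ U, (F ^ m) w ∈ U)
    (hUnd : ∀ w ∈ U, (∀ w' ∈ U, ψ w w' = 0) → w = 0) (hv : v0 ∈ U) :
    Odd (Module.finrank E U) := by
  by_contra hev
  have hrefl : LinearMap.IsRefl ψ := fun x y hxy => by rw [hsym]; exact hxy
  obtain ⟨O, hO⟩ : ∃ O : Submodule E V, O = LinearMap.BilinForm.orthogonal ψ U := ⟨_, rfl⟩
  have hOm : ∀ v, v ∈ O ↔ ∀ w ∈ U, ψ w v = 0 := by
    intro v
    rw [hO, LinearMap.BilinForm.mem_orthogonal_iff]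
  have hdis : Disjoint U O := by
    rw [disjoint_iff]
    rw [eq_bot_iff]
    intro w hw
    rw [Submodule.mem_bot]
    apply hUnd w hw.1
    intro w' hw'
    rw [hsym]
    exact (hOm w).1 hw.2 w' hw'
  have hcompl : IsCompl U O := by
    rw [hO, LinearMap.BilinForm.isCompl_orthogonal_iff_disjoint hrefl, ← hO]
    exact hdis
  have hsum := Submodule.finrank_add_eq_of_isCompl hcompl
  have hOodd : Odd (Module.finrank E O) := by
    rw [← hsum] at hodd
    rw [Nat.not_odd_iff_even] at hev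
    rcases Nat.even_or_odd (Module.finrank E O) with h | h
    · exact absurd (hev.add h) (Nat.not_even_iff_odd.2 hodd)
    · exact h
  have hmultm : ∀ k : ℕ, ∀ u v, ψ ((F ^ k) u) ((F ^ k) v) = (a ^ k) ^ 2 * ψ u v := by
    intro k
    induction k with
    | zero => intro u v; simp
    | succ k ih =>
      intro u v
      rw [pow_succ', Module.End.mul_apply, Module.End.mul_apply, hmult, ih]
      ring
  have ham : a ^ m ≠ 0 := pow_ne_zero _ ha
  have hinj : ∀ u : V, (F ^ m) u = 0 → u = 0 := by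
    intro u hu
    apply hnd
    intro w
    have h1 := hmultm m u w
    rw [hu, map_zero, LinearMap.zero_apply] at h1
    rcases mul_eq_zero.1 h1.symm with h2 | h2
    · exact absurd h2 (pow_ne_zero _ ham)
    · exact h2
  have hsurj : ∀ w ∈ U, ∃ u ∈ U, (F ^ m) u = w := by
    intro w hw
    have h1 : Function.Injective ((F ^ m).restrict hU) := by
      rw [← LinearMap.ker_eq_bot, eq_bot_iff]
      intro u hu
      rw [Submodule.mem_bot]
      apply Subtype.ext
      apply hinj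
      exact congrArg Subtype.val hu
    have h2 := LinearMap.injective_iff_surjective.1 h1
    obtain ⟨u, hu⟩ := h2 ⟨w, hw⟩
    exact ⟨u, u.2, congrArg Subtype.val hu⟩
  have hOst : ∀ w ∈ O, (F ^ m) w ∈ O := by
    intro w hw
    rw [hOm] at hw ⊢
    intro x hx
    obtain ⟨u, hu, rfl⟩ := hsurj x hx
    rw [hmultm, hw u hu, mul_zero]
  have hOnd : ∀ w ∈ O, (∀ w' ∈ O, ψ w w' = 0) → w = 0 := by
    intro w hw hw'
    apply hnd
    intro x
    have h1 : x ∈ U ⊔ O := by rw [hcompl.sup_eq_top]; trivial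
    obtain ⟨y, hy, z, hz, rfl⟩ := Submodule.mem_sup.1 h1
    rw [map_add, hw' z hz, add_zero, hsym]
    exact (hOm w).1 hw y hy
  have h1 := oddSc_P ψ F a ha hmult v0 hFv hpow m hm O hOst hOnd hOodd
  exact hself ((hOm v0).1 h1 v0 hv)

end

theorem odd_scalar {E : Type*} [Field E] [CharZero E] (K : Type*) [Field K] [Algebra E K]
    [IsAlgClosure E K] {V : Type*} [AddCommGroup V] [Module E V] [FiniteDimensional E V]
    (ψ : V →ₗ[E] V →ₗ[E] E) (hsym : ∀ u v, ψ u v = ψ v u)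
    (hnd : ∀ v, (∀ w, ψ v w = 0) → v = 0) (Γ : Subgroup (V ≃ₗ[E] V))
    (hsim : ∀ γ ∈ Γ, ∃ μ : E, ∀ u v, ψ ((γ : V ≃ₗ[E] V) u) ((γ : V ≃ₗ[E] V) v) = μ * ψ u v)
    (hirr : ∀ W : Submodule E V, (∀ γ ∈ Γ, ∀ w ∈ W, (γ : V ≃ₗ[E] V) w ∈ W) → W = ⊥ ∨ W = ⊤)
    (hodd : Odd (Module.finrank E V)) (F₀ : V ≃ₗ[E] V) (hF₀ : F₀ ∈ Γ)
    (hnd1 : Squarefree (LinearMap.charpoly (F₀ : V →ₗ[E] V)))
    (hnd2 : ∀ x y : K, aeval x (LinearMap.charpoly (F₀ : V →ₗ[E] V)) = 0 →
      aeval y (LinearMap.charpoly (F₀ : V →ₗ[E] V)) = 0 → ∀ m : ℕ, 0 < m → x ^ m = y ^ m → x = y)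
    (c : Module.End E V) (hc : Comm Γ c) : ∃ a : E, c = a • (1 : Module.End E V) := by
  classical
  have : IsAlgClosed K := IsAlgClosure.isAlgClosed E
  obtain ⟨F, hF⟩ : ∃ F : Module.End E V, F = (F₀ : V →ₗ[E] V) := ⟨_, rfl⟩
  rw [← hF] at hnd1 hnd2
  have hFa : ∀ v, F v = F₀ v := by
    intro v
    rw [hF]
    rfl
  obtain ⟨lam, hlam⟩ := hsim F₀ hF₀
  have hmult0 : ∀ u v, ψ (F u) (F v) = lam * ψ u v := by
    intro u v
    rw [hFa, hFa]
    exact hlam u v
  have hnt : Nontrivial V := Module.finrank_pos_iff.1 hodd.pos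
  have hlam0 : lam ≠ 0 := by
    rintro rfl
    obtain ⟨v, hv⟩ := exists_ne (0 : V)
    apply hv
    apply hnd
    intro w
    have h1 := hlam (F₀.symm v) (F₀.symm w)
    rw [F₀.apply_symm_apply, F₀.apply_symm_apply, zero_mul] at h1
    exact h1
  obtain ⟨m', hm'⟩ := id hodd
  have hdet := oddSc_det ψ hnd F lam hmult0
  obtain ⟨a0, ha0⟩ : ∃ a0 : E, a0 ^ 2 = lam := by
    refine ⟨LinearMap.det F / lam ^ m', ?_⟩
    rw [div_pow, hdet, hm', ← pow_mul, mul_comm m' 2, pow_succ, mul_div_assoc, mul_comm,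
      div_mul_cancel₀ _ (pow_ne_zero _ hlam0)]
  have ha00 : a0 ≠ 0 := by
    rintro rfl
    apply hlam0
    rw [← ha0]
    ring
  obtain ⟨w, hw0, hw⟩ := oddSc_fix ψ hnd hodd (a0⁻¹ • F) (by
    intro x y
    rw [LinearMap.smul_apply, LinearMap.smul_apply, map_smul, map_smul, LinearMap.smul_apply,
      hmult0, smul_eq_mul, smul_eq_mul, ← ha0]
    field_simp)
  rw [LinearMap.smul_apply] at hw
  obtain ⟨a, v0, ha, hamult, hv0, hFv⟩ :
      ∃ (a : E) (v0 : V), a ≠ 0 ∧ a ^ 2 = lam ∧ v0 ≠ 0 ∧ F v0 = a • v0 := by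
    rcases hw with hw | hw
    · refine ⟨a0, w, ha00, ha0, hw0, ?_⟩
      conv_rhs => rw [← hw]
      rw [smul_smul, mul_inv_cancel₀ ha00, one_smul]
    · refine ⟨-a0, w, neg_ne_zero.2 ha00, by rw [neg_sq]; exact ha0, hw0, ?_⟩
      rw [neg_smul, ← smul_neg, ← hw, smul_smul, mul_inv_cancel₀ ha00, one_smul]
  have hmult : ∀ u v, ψ (F u) (F v) = a ^ 2 * ψ u v := by
    rw [hamult]
    exact hmult0
  obtain ⟨Q, hQ, hcop⟩ := oddSc_cop K F hnd1 hnd2 a v0 hv0 hFv
  have hline := oddSc_line F hnd1 a v0 hv0 hFv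
  have hpow : ∀ m : ℕ, 0 < m → ∀ w, (F ^ m) w = a ^ m • w → ∃ t : E, w = t • v0 :=
    fun m hm w hw => hline w (oddSc_eig F a Q hQ m (hcop m hm) w hw)
  have hself := oddSc_self ψ hnd F a ha hmult Q hQ (hcop 1 one_pos) v0 hv0 hFv hline
  have hpow0 : ∀ k : ℕ, (F ^ k) v0 = a ^ k • v0 := by
    intro k
    induction k with
    | zero => simp
    | succ k ih => rw [pow_succ', Module.End.mul_apply, ih, map_smul, hFv, smul_smul, pow_succ]
  have hFpow : ∀ (k : ℕ) (v : V), (F₀ ^ k : V ≃ₗ[E] V) v = (F ^ k) v := by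
    intro k
    induction k with
    | zero => intro v; simp
    | succ k ih =>
      intro v
      rw [pow_succ', pow_succ', Module.End.mul_apply, ← ih, hFa]
      rfl
  obtain ⟨Δ, hΔ, hcΔ⟩ := hc
  obtain ⟨N, hN⟩ : ∃ N : Subgroup Γ, N = Δ.normalCore := ⟨_, rfl⟩
  have hNfin : N.index ≠ 0 := by
    rw [hN]
    exact (Subgroup.finiteIndex_normalCore (H := Δ)).index_ne_zero
  have hNnorm : N.Normal := by
    rw [hN]
    infer_instance
  have hNle : ∀ γ : Γ, γ ∈ N → γ ∈ Δ := by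
    intro γ hγ
    rw [hN] at hγ
    exact Subgroup.normalCore_le Δ hγ
  obtain ⟨m, hm, -, hmN⟩ := Subgroup.exists_pow_mem_of_index_ne_zero hNfin ⟨F₀, hF₀⟩
  have hcN : ∀ γ : Γ, γ ∈ N → ∀ v, c ((γ : V ≃ₗ[E] V) v) = (γ : V ≃ₗ[E] V) (c v) :=
    fun γ hγ => hcΔ γ (hNle γ hγ)
  -- elements of the commutant of `N` commute with `F ^ m`
  have hcF : ∀ d : Module.End E V,
      (∀ γ : Γ, γ ∈ N → ∀ v, d ((γ : V ≃ₗ[E] V) v) = (γ : V ≃ₗ[E] V) (d v)) →
      ∀ v, d ((F ^ m) v) = (F ^ m) (d v) := by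
    intro d hd v
    have h1 := hd _ hmN v
    have h2 : (((⟨F₀, hF₀⟩ : Γ) ^ m : Γ) : V ≃ₗ[E] V) = F₀ ^ m := rfl
    rw [h2, hFpow, hFpow] at h1
    exact h1
  have key : ∀ d : Module.End E V,
      (∀ γ : Γ, γ ∈ N → ∀ v, d ((γ : V ≃ₗ[E] V) v) = (γ : V ≃ₗ[E] V) (d v)) →
      ∃ e : E, d v0 = e • v0 := by
    intro d hd
    apply hpow m hm
    rw [← hcF d hd, hpow0, map_smul]
  -- conjugates
  obtain ⟨cj, hcj⟩ : ∃ cj : Γ → Module.End E V → Module.End E V, ∀ γ d v,
      cj γ d v = ((γ : V ≃ₗ[E] V)⁻¹ : V ≃ₗ[E] V) (d ((γ : V ≃ₗ[E] V) v)) :=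
    ⟨fun γ d => (((γ : V ≃ₗ[E] V)⁻¹ : V ≃ₗ[E] V) : V →ₗ[E] V) ∘ₗ d ∘ₗ
      ((γ : V ≃ₗ[E] V) : V →ₗ[E] V), fun γ d v => rfl⟩
  have hinv1 : ∀ (γ : V ≃ₗ[E] V) (v : V), γ (γ⁻¹ v) = v := fun γ v => γ.apply_symm_apply v
  have hinv2 : ∀ (γ : V ≃ₗ[E] V) (v : V), γ⁻¹ (γ v) = v := fun γ v => γ.symm_apply_apply v
  have hcjN : ∀ (γ : Γ) (d : Module.End E V),
      (∀ γ : Γ, γ ∈ N → ∀ v, d ((γ : V ≃ₗ[E] V) v) = (γ : V ≃ₗ[E] V) (d v)) →
      (∀ δ : Γ, δ ∈ N → ∀ v, cj γ d ((δ : V ≃ₗ[E] V) v) = (δ : V ≃ₗ[E] V) (cj γ d v)) := by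
    intro γ d hd δ hδ v
    have h1 := hNnorm.conj_mem δ hδ γ
    have h2 := hd _ h1 ((γ : V ≃ₗ[E] V) v)
    have h3 : ((γ * δ * γ⁻¹ : Γ) : V ≃ₗ[E] V) ((γ : V ≃ₗ[E] V) v) =
        (γ : V ≃ₗ[E] V) ((δ : V ≃ₗ[E] V) v) := by
      show (γ : V ≃ₗ[E] V) ((δ : V ≃ₗ[E] V) (((γ : V ≃ₗ[E] V)⁻¹ : V ≃ₗ[E] V)
        ((γ : V ≃ₗ[E] V) v))) = _
      rw [hinv2]
    have h4 : ∀ x, ((γ * δ * γ⁻¹ : Γ) : V ≃ₗ[E] V) x =
        (γ : V ≃ₗ[E] V) ((δ : V ≃ₗ[E] V) (((γ : V ≃ₗ[E] V)⁻¹ : V ≃ₗ[E] V) x)) := fun x => rfl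
    rw [h3, h4] at h2
    rw [hcj, hcj, h2, hinv2]
  have hcjsim : ∀ (γ : Γ) (d d' : Module.End E V), (∀ x y, ψ (d x) y = ψ x (d' y)) →
      ∀ x y, ψ (cj γ d x) y = ψ x (cj γ d' y) := by
    intro γ d d' hdd x y
    obtain ⟨μ, hμ⟩ := hsim _ (Γ.inv_mem γ.2)
    rw [hcj, hcj]
    conv_lhs => rw [← hinv2 (γ : V ≃ₗ[E] V) y]
    conv_rhs => rw [← hinv2 (γ : V ≃ₗ[E] V) x]
    rw [hμ, hμ, hdd]
  -- the orbit of `v0` spans
  have hspan : Submodule.span E (Set.range fun γ : Γ => (γ : V ≃ₗ[E] V) v0) = ⊤ := by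
    rcases hirr (Submodule.span E (Set.range fun γ : Γ => (γ : V ≃ₗ[E] V) v0)) (by
      intro γ hγ w hw
      induction hw using Submodule.span_induction with
      | mem x hx =>
        obtain ⟨δ, rfl⟩ := hx
        apply Submodule.subset_span
        exact ⟨⟨γ, hγ⟩ * δ, rfl⟩
      | zero =>
        rw [map_zero]
        exact Submodule.zero_mem _
      | add x y _ _ hx hy =>
        rw [map_add]
        exact Submodule.add_mem _ hx hy
      | smul t x _ hx =>
        rw [map_smul]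
        exact Submodule.smul_mem _ t hx) with h | h
    · exfalso
      apply hv0
      have h1 : v0 ∈ Submodule.span E (Set.range fun γ : Γ => (γ : V ≃ₗ[E] V) v0) :=
        Submodule.subset_span ⟨1, rfl⟩
      rw [h] at h1
      exact (Submodule.mem_bot E).1 h1
    · exact h
  -- the adjoint of `c` is `c`
  obtain ⟨cs, hcs⟩ : ∃ cs : Module.End E V, ∀ x y, ψ (cs x) y = ψ x (c y) := by
    have hnondeg : LinearMap.BilinForm.Nondegenerate ψ := by
      refine ⟨fun v hv => hnd v hv, fun v hv => hnd v fun w => ?_⟩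
      rw [hsym]
      exact hv w
    exact ⟨LinearMap.BilinForm.leftAdjointOfNondegenerate ψ hnondeg c,
      LinearMap.BilinForm.isAdjointPairLeftAdjointOfNondegenerate ψ hnondeg c⟩
  have hcsN : ∀ γ : Γ, γ ∈ N → ∀ v, cs ((γ : V ≃ₗ[E] V) v) = (γ : V ≃ₗ[E] V) (cs v) := by
    intro γ hγ v
    rw [← sub_eq_zero]
    apply hnd
    intro y
    obtain ⟨μ, hμ⟩ := hsim _ γ.2
    obtain ⟨z, rfl⟩ : ∃ z, (γ : V ≃ₗ[E] V) z = y := ⟨(γ : V ≃ₗ[E] V).symm y,
      (γ : V ≃ₗ[E] V).apply_symm_apply y⟩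
    rw [map_sub, LinearMap.sub_apply, hcs, hcN γ hγ, hμ, hμ, hcs, sub_self]
  have hcc : c = cs := by
    apply LinearMap.ext_on hspan
    rintro _ ⟨γ, rfl⟩
    obtain ⟨e, he⟩ := key _ (hcjN γ c hcN)
    obtain ⟨e', he'⟩ := key _ (hcjN γ cs hcsN)
    have h1 := hcjsim γ cs c hcs v0 v0
    rw [he, he', map_smul, map_smul, LinearMap.smul_apply, smul_eq_mul, smul_eq_mul] at h1
    have h2 := mul_right_cancel₀ hself h1
    rw [h2, ← he, hcj, hcj] at he'
    exact ((γ : V ≃ₗ[E] V)⁻¹).injective he'.symm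
  have hcself : ∀ x y, ψ (c x) y = ψ x (c y) := by
    intro x y
    conv_lhs => rw [hcc]
    exact hcs x y
  -- kernels are nondegenerate
  have hker : ∀ (d : Module.End E V) (e : E),
      (∀ γ : Γ, γ ∈ N → ∀ v, d ((γ : V ≃ₗ[E] V) v) = (γ : V ≃ₗ[E] V) (d v)) →
      (∀ x y, ψ (d x) y = ψ x (d y)) →
      ∀ w ∈ Module.End.eigenspace d e, (∀ w' ∈ Module.End.eigenspace d e, ψ w w' = 0) →
        w = 0 := by
    intro d e hdN hd w hw hw'
    rw [Module.End.mem_eigenspace_iff] at hw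
    have h1 : ψ w = 0 := by
      apply LinearMap.ext_on hspan
      rintro _ ⟨γ, rfl⟩
      obtain ⟨e', he'⟩ := key _ (hcjN γ d hdN)
      rw [hcj] at he'
      have h2 : d ((γ : V ≃ₗ[E] V) v0) = e' • (γ : V ≃ₗ[E] V) v0 := by
        rw [← map_smul, ← he', hinv1]
      rw [LinearMap.zero_apply]
      by_cases hee : e' = e
      · apply hw'
        rw [Module.End.mem_eigenspace_iff, h2, hee]
      · have h3 := hd w ((γ : V ≃ₗ[E] V) v0)
        rw [hw, h2, map_smul, map_smul, LinearMap.smul_apply, smul_eq_mul, smul_eq_mul] at h3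
        have h4 : (e - e') * ψ w ((γ : V ≃ₗ[E] V) v0) = 0 := by
          linear_combination h3
        rcases mul_eq_zero.1 h4 with h5 | h5
        · exact absurd (sub_eq_zero.1 h5).symm hee
        · exact h5
    apply hnd
    intro x
    rw [h1, LinearMap.zero_apply]
  have hkerst : ∀ (d : Module.End E V) (e : E),
      (∀ γ : Γ, γ ∈ N → ∀ v, d ((γ : V ≃ₗ[E] V) v) = (γ : V ≃ₗ[E] V) (d v)) →
      ∀ w ∈ Module.End.eigenspace d e, (F ^ m) w ∈ Module.End.eigenspace d e := by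
    intro d e hd w hw
    rw [Module.End.mem_eigenspace_iff] at hw ⊢
    rw [hcF d hd, hw, map_smul]
  obtain ⟨e0, he0⟩ := key c hcN
  refine ⟨e0, ?_⟩
  apply LinearMap.ext_on hspan
  rintro _ ⟨γ, rfl⟩
  obtain ⟨e, he⟩ := key _ (hcjN γ c hcN)
  have hdN := hcjN γ c hcN
  have hd := hcjsim γ c c hcself
  have h1 : Odd (Module.finrank E (Module.End.eigenspace (cj γ c) e)) :=
    oddSc_Q ψ hsym hnd hodd F a ha hmult v0 hFv hself hpow m hm _ (hkerst _ e hdN)
      (hker _ e hdN hd) (Module.End.mem_eigenspace_iff.2 he)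
  have h2 : Module.End.eigenspace c e = (Module.End.eigenspace (cj γ c) e).map
      ((γ : V ≃ₗ[E] V) : V →ₗ[E] V) := by
    ext x
    rw [Submodule.mem_map]
    constructor
    · intro hx
      rw [Module.End.mem_eigenspace_iff] at hx
      refine ⟨((γ : V ≃ₗ[E] V)⁻¹ : V ≃ₗ[E] V) x, ?_, hinv1 _ x⟩
      rw [Module.End.mem_eigenspace_iff, hcj, hinv1, hx, map_smul]
    · rintro ⟨y, hy, rfl⟩
      rw [Module.End.mem_eigenspace_iff, hcj] at hy
      rw [Module.End.mem_eigenspace_iff]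
      have h3 := congrArg (γ : V ≃ₗ[E] V) hy
      rw [hinv1, map_smul] at h3
      exact h3
  have h3 : Odd (Module.finrank E (Module.End.eigenspace c e)) := by
    rw [h2, LinearEquiv.finrank_map_eq]
    exact h1
  have h4 := oddSc_P ψ F a ha hmult v0 hFv hpow m hm _ (hkerst c e hcN) (hker c e hcN hcself) h3
  rw [Module.End.mem_eigenspace_iff, he0] at h4
  have h5 : e0 = e := smul_left_injective E hv0 h4
  rw [hcj] at he
  rw [LinearMap.smul_apply, Module.End.one_apply, h5, ← map_smul, ← he, hinv1]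

end Pool.Agent.H91U
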