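import Pool.Agent.H91.Mono.Ss2

/-! Self-conjugate eigenvalues give semisimplicity.

PROOF. Let `W` be `Γ`-stable and `W0 = W ⊓ {v | ψ v w = 0 for all w ∈ W}` (also `Γ`-stable, isotropic).
If `W0 = ⊥` then the orthogonal complement of `W` is the wanted complement (`Γ`-stable because the
elements are similitudes with nonzero multiplier; dimension count, or
`LinearMap.BilinForm.isCompl_orthogonal_of_restrict_nondegenerate`). Suppose `W0 ≠ ⊥`. The
restriction of `F` to `W0` has a characteristic polynomial of positive degree over `E`, so a root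
`x ∈ K`; let `u ∈ K ⊗ W0 ⊆ K ⊗ V` be an eigenvector. By `hconj` (the characteristic polynomial of the
restriction divides that of `F`, `LinearMap.charpoly` of invariant subspaces, or: `x` is an
eigenvalue of `F`) `y = lam / x` is a root of `minpoly E x`, so also an eigenvalue of the restriction,
and as `y` is a simple root of the characteristic polynomial of `F` the `y`-eigenspace of `F` in `K ⊗ V`
is a line, contained in `K ⊗ W0`, so orthogonal to `u`. All other eigenvectors of `F` (eigenvalue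
`z ≠ y`) are orthogonal to `u`, because `lam ψ u v = ψ (F u) (F v) = x z ψ u v`. `K ⊗ V` is spanned by
eigenvectors (`hsq`, char 0), so `u = 0` by nondegeneracy (`fK_nondeg`, `fK_nondeg_sym`): contradiction.
Variant without tensor products of subspaces: work with `Q` = minimal polynomial over `E` of `x`, an
irreducible factor of the characteristic polynomial of `F` on `W0`; `ker Q(F)` has dimension `deg Q`
over `E` (simple factor), so it is contained in `W0`; it is orthogonal to `ker Q'(F)` for every other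
irreducible factor `Q'` (because `Q` is its own `lam`-dual), and to itself (isotropic `W0`), so to all of
`V`: contradiction. -/

set_option linter.unusedSectionVars false

namespace Pool.Agent.H91U

open Polynomial TensorProduct Pool.Agent.H91.Mono

section

variable {E : Type*} [Field E] [CharZero E] {V : Type*} [AddCommGroup V] [Module E V]
  [FiniteDimensional E V]

/-- a squarefree characteristic polynomial divides every polynomial that kills the map -/
lemma selfSs_dvd (K : Type*) [Field K] [Algebra E K] [IsAlgClosed K] (F : Module.End E V)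
    (hsq : Squarefree F.charpoly) (p : E[X]) (hp : aeval F p = 0) : F.charpoly ∣ p := by
  by_cases hp0 : p = 0
  · rw [hp0]
    exact dvd_zero _
  rw [← Polynomial.map_dvd_map' (algebraMap E K)]
  have hsep : F.charpoly.Separable := PerfectField.separable_iff_squarefree.2 hsq
  have hsepK : (F.charpoly.map (algebraMap E K)).Separable := hsep.map
  have hmon : (F.charpoly.map (algebraMap E K)).Monic := (LinearMap.charpoly_monic F).map _
  rw [(IsAlgClosed.splits (F.charpoly.map (algebraMap E K))).eq_prod_roots_of_monic hmon]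
  have hpK : p.map (algebraMap E K) ≠ 0 := (Polynomial.map_ne_zero_iff
    (algebraMap E K).injective).2 hp0
  rw [Multiset.prod_X_sub_C_dvd_iff_le_roots hpK]
  rw [Multiset.le_iff_subset (Polynomial.nodup_roots hsepK)]
  intro z hz
  rw [Polynomial.mem_roots hmon.ne_zero] at hz
  rw [Polynomial.mem_roots hpK]
  have h1 : Module.End.HasEigenvalue (LinearMap.baseChange K F : Module.End K (K ⊗[E] V)) z := by
    rw [Module.End.hasEigenvalue_iff_isRoot_charpoly, LinearMap.charpoly_baseChange]
    exact hz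
  have h2 := Module.End.isRoot_of_hasEigenvalue h1
  have h3 : aeval (LinearMap.baseChange K F : Module.End K (K ⊗[E] V))
      (p.map (algebraMap E K)) = 0 := by
    rw [Polynomial.aeval_map_algebraMap]
    have h4 : (LinearMap.baseChange K F : Module.End K (K ⊗[E] V)) =
        Module.End.baseChangeHom E K V F := rfl
    rw [h4, Polynomial.aeval_algHom_apply, hp, map_zero]
  exact h2.dvd (minpoly.dvd K _ h3)

lemma selfSs_restrict {F : Module.End E V} {W : Submodule E V} (hW : ∀ w ∈ W, F w ∈ W)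
    (p : E[X]) (w : W) : ((aeval (F.restrict hW) p w : W) : V) = aeval F p (w : V) := by
  induction p using Polynomial.induction_on' with
  | add p q hp hq => simp only [map_add, LinearMap.add_apply, Submodule.coe_add, hp, hq]
  | monomial k a =>
    rw [← Polynomial.C_mul_X_pow_eq_monomial]
    simp only [map_mul, aeval_C, map_pow, aeval_X, Module.End.mul_apply,
      Module.algebraMap_end_apply, Submodule.coe_smul]
    congr 1
    induction k with
    | zero => simp
    | succ k ih =>
      rw [pow_succ', pow_succ', Module.End.mul_apply, Module.End.mul_apply, ← ih]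
      rfl

/-- a stable subspace is the image of a polynomial in `F` -/
lemma selfSs_image (K : Type*) [Field K] [Algebra E K] [IsAlgClosed K] (F : Module.End E V)
    (hsq : Squarefree F.charpoly) (W : Submodule E V) (hW : ∀ w ∈ W, F w ∈ W) :
    ∃ C D : E[X], C.Monic ∧ D.Monic ∧ F.charpoly = C * D ∧ D.natDegree = Module.finrank E W ∧
      ∀ v, aeval F C v ∈ W := by
  obtain ⟨D, hD⟩ : ∃ D : E[X], D = LinearMap.charpoly (F.restrict hW) := ⟨_, rfl⟩
  have hDm : D.Monic := by rw [hD]; exact LinearMap.charpoly_monic _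
  have hDdeg : D.natDegree = Module.finrank E W := by
    rw [hD]; exact LinearMap.charpoly_natDegree _
  have hDW : ∀ w ∈ W, aeval F D w = 0 := by
    intro w hw
    have h1 := selfSs_restrict hW D ⟨w, hw⟩
    rw [hD, LinearMap.aeval_self_charpoly] at h1
    rw [hD]
    exact h1.symm
  obtain ⟨I, hI⟩ : ∃ I : Submodule E V, I = LinearMap.range (aeval F D) := ⟨_, rfl⟩
  have hIst : ∀ w ∈ I, F w ∈ I := by
    intro w hw
    rw [hI] at hw ⊢
    obtain ⟨v, rfl⟩ := hw
    refine ⟨F v, ?_⟩
    have h1 : aeval F D * F = F * aeval F D := by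
      have h2 : aeval F D * aeval F (X : E[X]) = aeval F (X : E[X]) * aeval F D := by
        rw [← map_mul, ← map_mul, mul_comm]
      rwa [aeval_X] at h2
    have h2 := LinearMap.congr_fun h1 v
    exact h2
  obtain ⟨C, hC⟩ : ∃ C : E[X], C = LinearMap.charpoly (F.restrict hIst) := ⟨_, rfl⟩
  have hCm : C.Monic := by rw [hC]; exact LinearMap.charpoly_monic _
  have hCdeg : C.natDegree = Module.finrank E I := by
    rw [hC]; exact LinearMap.charpoly_natDegree _
  have hCD : aeval F (C * D) = 0 := by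
    ext v
    rw [map_mul, Module.End.mul_apply, LinearMap.zero_apply]
    have hm : aeval F D v ∈ I := by rw [hI]; exact ⟨v, rfl⟩
    have h1 := selfSs_restrict hIst C ⟨_, hm⟩
    rw [hC, LinearMap.aeval_self_charpoly] at h1
    rw [hC]
    exact h1.symm
  have hdvd := selfSs_dvd K F hsq _ hCD
  have hker : W ≤ LinearMap.ker (aeval F D) := fun w hw => hDW w hw
  have hrk := LinearMap.finrank_range_add_finrank_ker (aeval F D)
  rw [← hI] at hrk
  have hkle := Submodule.finrank_mono hker
  have hdeg : (C * D).natDegree = C.natDegree + D.natDegree := hCm.natDegree_mul hDm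
  have hle : F.charpoly.natDegree ≤ (C * D).natDegree :=
    Polynomial.natDegree_le_of_dvd hdvd (hCm.mul hDm).ne_zero
  rw [LinearMap.charpoly_natDegree, hdeg, hCdeg, hDdeg] at hle
  have hkeq : W = LinearMap.ker (aeval F D) :=
    Submodule.eq_of_le_of_finrank_le hker (by omega)
  have hfr : Module.finrank E W = Module.finrank E (LinearMap.ker (aeval F D)) := by
    rw [← hkeq]
  have heq : F.charpoly = C * D := by
    symm
    apply Polynomial.eq_of_monic_of_dvd_of_natDegree_le (LinearMap.charpoly_monic F)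
      (hCm.mul hDm) hdvd
    rw [LinearMap.charpoly_natDegree, hdeg, hCdeg, hDdeg]
    omega
  refine ⟨C, D, hCm, hDm, heq, hDdeg, fun v => ?_⟩
  rw [hkeq, LinearMap.mem_ker, ← Module.End.mul_apply, ← map_mul, mul_comm, ← heq,
    LinearMap.aeval_self_charpoly, LinearMap.zero_apply]

/-- `X ^ deg P * P (lam / X)` -/
noncomputable def selfSsR (P : E[X]) (lam : E) : E[X] :=
  ∑ i ∈ Finset.range (P.natDegree + 1), Polynomial.C (P.coeff i * lam ^ i) * X ^ (P.natDegree - i)

lemma selfSs_eval {K : Type*} [Field K] [Algebra E K] (P : E[X]) (lam : E) {z : K} (hz : z ≠ 0) :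
    aeval z (selfSsR P lam) = z ^ P.natDegree * aeval (algebraMap E K lam / z) P := by
  rw [selfSsR, map_sum, Polynomial.aeval_eq_sum_range (p := P), Finset.mul_sum]
  apply Finset.sum_congr rfl
  intro i hi
  rw [Finset.mem_range] at hi
  rw [map_mul, aeval_C, map_pow, aeval_X, Algebra.smul_def, map_mul, map_pow, div_pow]
  have h1 : z ^ P.natDegree = z ^ (P.natDegree - i) * z ^ i := by
    rw [← pow_add]
    congr 1
    omega
  rw [h1]
  field_simp

lemma selfSs_adj (ψ : V →ₗ[E] V →ₗ[E] E) (F : Module.End E V) (lam : E)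
    (hmult : ∀ u v, ψ (F u) (F v) = lam * ψ u v) (P : E[X]) (v w : V) :
    ψ (aeval F P v) ((F ^ P.natDegree) w) = ψ v (aeval F (selfSsR P lam) w) := by
  have h1 : ∀ i j : ℕ, ψ ((F ^ i) v) ((F ^ (i + j)) w) = lam ^ i * ψ v ((F ^ j) w) := by
    intro i j
    induction i with
    | zero => simp
    | succ i ih =>
      rw [pow_succ', show i + 1 + j = (i + j) + 1 from by ring, pow_succ', Module.End.mul_apply,
        Module.End.mul_apply, hmult, ih]
      ring
  rw [Polynomial.aeval_eq_sum_range (p := P), selfSsR, map_sum, LinearMap.sum_apply, map_sum,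
    LinearMap.sum_apply, LinearMap.sum_apply, map_sum]
  apply Finset.sum_congr rfl
  intro i hi
  rw [Finset.mem_range] at hi
  rw [map_mul, aeval_C, map_pow, aeval_X, LinearMap.smul_apply, map_smul, LinearMap.smul_apply,
    Module.End.mul_apply, Module.algebraMap_end_apply, map_smul, smul_eq_mul, smul_eq_mul]
  have h2 := h1 i (P.natDegree - i)
  rw [show i + (P.natDegree - i) = P.natDegree from by omega] at h2
  rw [h2]
  ring

theorem ss_of_selfS (K : Type*) [Field K] [Algebra E K]
    [IsAlgClosed K]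
    (ψ : V →ₗ[E] V →ₗ[E] E) (hψ : (∀ v, ψ v v = 0) ∨ (∀ u v, ψ u v = ψ v u))
    (hnd : ∀ v, (∀ w, ψ v w = 0) → v = 0) (Γ : Subgroup (V ≃ₗ[E] V))
    (hsim : ∀ γ ∈ Γ, ∃ μ : E, ∀ u v, ψ ((γ : V ≃ₗ[E] V) u) ((γ : V ≃ₗ[E] V) v) = μ * ψ u v)
    (F : V ≃ₗ[E] V) (hF : F ∈ Γ) (lam : E) (hmult : ∀ u v, ψ (F u) (F v) = lam * ψ u v)
    (hsq : Squarefree (LinearMap.charpoly (F : V →ₗ[E] V)))
    (hconj : ∀ x : K, aeval x (LinearMap.charpoly (F : V →ₗ[E] V)) = 0 →
      minpoly E (algebraMap E K lam / x) = minpoly E x)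
    (W : Submodule E V) (hW : ∀ γ ∈ Γ, ∀ w ∈ W, (γ : V ≃ₗ[E] V) w ∈ W) :
    ∃ W' : Submodule E V, (∀ γ ∈ Γ, ∀ w ∈ W', (γ : V ≃ₗ[E] V) w ∈ W') ∧ IsCompl W W' := by
  have hswap : ∀ u v, ψ u v = 0 → ψ v u = 0 := by
    intro u v huv
    rcases hψ with h | h
    · have h2 := h (u + v)
      rw [map_add, map_add, LinearMap.add_apply, LinearMap.add_apply, h, h, huv] at h2
      linear_combination h2
    · rw [h, huv]
  have hrefl : LinearMap.IsRefl ψ := fun x y hxy => hswap x y hxy
  obtain ⟨O, hO⟩ : ∃ O : Submodule E V, O = LinearMap.BilinForm.orthogonal ψ W := ⟨_, rfl⟩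
  have hOm : ∀ v, v ∈ O ↔ ∀ w ∈ W, ψ w v = 0 := by
    intro v
    rw [hO, LinearMap.BilinForm.mem_orthogonal_iff]
  have hOst : ∀ γ ∈ Γ, ∀ w ∈ O, (γ : V ≃ₗ[E] V) w ∈ O := by
    intro γ hγ w hw
    rw [hOm] at hw ⊢
    intro v hv
    obtain ⟨μ, hμ⟩ := hsim γ hγ
    have h1 : γ (γ⁻¹ v) = v := γ.apply_symm_apply v
    rw [← h1, hμ, hw _ (hW _ (Γ.inv_mem hγ) v hv), mul_zero]
  refine ⟨O, hOst, ?_⟩
  rw [hO, LinearMap.BilinForm.isCompl_orthogonal_iff_disjoint hrefl, ← hO, disjoint_iff]
  by_contra hbot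
  obtain ⟨F', hF'⟩ : ∃ F' : Module.End E V, F' = (F : V →ₗ[E] V) := ⟨_, rfl⟩
  rw [← hF'] at hsq hconj
  have hst : ∀ w ∈ W ⊓ O, F' w ∈ W ⊓ O := by
    intro w hw
    rw [hF']
    exact ⟨hW F hF w hw.1, hOst F hF w hw.2⟩
  have hmult' : ∀ u v, ψ (F' u) (F' v) = lam * ψ u v := by
    intro u v
    rw [hF']
    exact hmult u v
  obtain ⟨P, D, hPm, hDm, hPD, hDdeg, hPW⟩ := selfSs_image K F' hsq (W ⊓ O) hst
  have hcomm : ∀ v, (F' ^ P.natDegree) (aeval F' P v) = aeval F' P ((F' ^ P.natDegree) v) := by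
    intro v
    have h1 : aeval F' ((X : E[X]) ^ P.natDegree) * aeval F' P =
        aeval F' P * aeval F' ((X : E[X]) ^ P.natDegree) := by
      rw [← map_mul, ← map_mul, mul_comm]
    rw [map_pow, aeval_X] at h1
    exact LinearMap.congr_fun h1 v
  have hkill : aeval F' (selfSsR P lam * P) = 0 := by
    ext w
    rw [LinearMap.zero_apply, map_mul, Module.End.mul_apply]
    apply hnd
    intro v
    apply hswap
    rw [← selfSs_adj ψ F' lam hmult', hcomm]
    exact hswap _ _ ((hOm _).1 (hPW v).2 _ (hPW _).1)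
  have hdvd := selfSs_dvd K F' hsq _ hkill
  have hDpos : D.degree ≠ 0 := by
    rw [Polynomial.degree_eq_natDegree hDm.ne_zero, hDdeg]
    intro h0
    apply hbot
    rw [← Submodule.finrank_eq_zero (R := E)]
    exact_mod_cast h0
  obtain ⟨z, hz⟩ := IsAlgClosed.exists_aeval_eq_zero K D hDpos
  have hzP : aeval z F'.charpoly = 0 := by
    rw [hPD, map_mul, hz, mul_zero]
  have hz0 : z ≠ 0 := by
    rintro rfl
    have h1 : (LinearMap.charpoly F').coeff 0 = 0 := by
      have h2 := hzP
      rw [Polynomial.aeval_def, Polynomial.eval₂_at_zero] at h2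
      exact (map_eq_zero_iff _ (algebraMap E K).injective).1 h2
    have h3 := (LinearMap.charpoly_constantCoeff_eq_zero_iff F').1 h1
    obtain ⟨m, hm, hFm⟩ := h3
    rw [hF'] at hFm
    exact hm (F.map_eq_zero_iff.1 hFm)
  have hzC : aeval z P = 0 := by
    obtain ⟨Q, hQ⟩ := hdvd
    have h1 : aeval z (selfSsR P lam * P) = 0 := by rw [hQ, map_mul, hzP, zero_mul]
    rw [map_mul, selfSs_eval P lam hz0] at h1
    rcases mul_eq_zero.1 h1 with h2 | h2
    · have h3 := (mul_eq_zero.1 h2).resolve_left (pow_ne_zero _ hz0)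
      have h4 := minpoly.dvd E _ h3
      rw [hconj z hzP] at h4
      obtain ⟨R, hR⟩ := h4
      rw [hR, map_mul, minpoly.aeval, zero_mul]
    · exact h2
  have h5 : minpoly E z * minpoly E z ∣ LinearMap.charpoly F' := by
    rw [hPD]
    exact mul_dvd_mul (minpoly.dvd E z hzC) (minpoly.dvd E z hz)
  exact minpoly.not_isUnit E z (hsq _ h5)

end

theorem ss_of_self {E : Type*} [Field E] [CharZero E] (K : Type*) [Field K] [Algebra E K]
    [IsAlgClosure E K] {V : Type*} [AddCommGroup V] [Module E V] [FiniteDimensional E V]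
    (ψ : V →ₗ[E] V →ₗ[E] E) (hψ : (∀ v, ψ v v = 0) ∨ (∀ u v, ψ u v = ψ v u))
    (hnd : ∀ v, (∀ w, ψ v w = 0) → v = 0) (Γ : Subgroup (V ≃ₗ[E] V))
    (hsim : ∀ γ ∈ Γ, ∃ μ : E, ∀ u v, ψ ((γ : V ≃ₗ[E] V) u) ((γ : V ≃ₗ[E] V) v) = μ * ψ u v)
    (F : V ≃ₗ[E] V) (hF : F ∈ Γ) (lam : E) (hmult : ∀ u v, ψ (F u) (F v) = lam * ψ u v)
    (hsq : Squarefree (LinearMap.charpoly (F : V →ₗ[E] V)))
    (hconj : ∀ x : K, aeval x (LinearMap.charpoly (F : V →ₗ[E] V)) = 0 →
      minpoly E (algebraMap E K lam / x) = minpoly E x)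
    (W : Submodule E V) (hW : ∀ γ ∈ Γ, ∀ w ∈ W, (γ : V ≃ₗ[E] V) w ∈ W) :
    ∃ W' : Submodule E V, (∀ γ ∈ Γ, ∀ w ∈ W', (γ : V ≃ₗ[E] V) w ∈ W') ∧ IsCompl W W' := by
  have : IsAlgClosed K := IsAlgClosure.isAlgClosed E
  exact ss_of_selfS K ψ hψ hnd Γ hsim F hF lam hmult hsq hconj W hW

end Pool.Agent.H91U
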