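import Pool.Agent.H91S.SpFull

/-! `sp_part`: proof (helper80). -/

set_option linter.unusedSectionVars false

namespace Pool.Agent.H91U.SpS

open Pool.Agent.H91S

variable {K : Type*} [Field K] [CharZero K] {V : Type*} [AddCommGroup V] [Module K V]
variable {ψ : V →ₗ[K] V →ₗ[K] K}

lemma YYs_comm (u w : V) : YY ψ u w = YY ψ w u := by
  ext v; simp only [YY_apply]; module

lemma YYs_al (u u' w : V) : YY ψ (u + u') w = YY ψ u w + YY ψ u' w := by
  ext v; simp only [YY_apply, LinearMap.add_apply, map_add]; module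

lemma YYs_ar (u w w' : V) : YY ψ u (w + w') = YY ψ u w + YY ψ u w' := by
  ext v; simp only [YY_apply, LinearMap.add_apply, map_add]; module

lemma YYs_sl (a : K) (u w : V) : YY ψ (a • u) w = a • YY ψ u w := by
  ext v; simp only [YY_apply, LinearMap.smul_apply, map_smul, smul_eq_mul]; module

lemma YYs_sr (a : K) (u w : V) : YY ψ u (a • w) = a • YY ψ u w := by
  ext v; simp only [YY_apply, LinearMap.smul_apply, map_smul, smul_eq_mul]; module

lemma YYs_nl (u w : V) : YY ψ (-u) w = -YY ψ u w := by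
  ext v; simp only [YY_apply, LinearMap.neg_apply, map_neg]; module

lemma YYs_nr (u w : V) : YY ψ u (-w) = -YY ψ u w := by
  ext v; simp only [YY_apply, LinearMap.neg_apply, map_neg]; module

lemma YYs_zl (w : V) : YY ψ 0 w = 0 := by
  ext v; simp only [YY_apply, LinearMap.zero_apply, map_zero]; module

lemma YYs_zr (w : V) : YY ψ w 0 = 0 := by
  ext v; simp only [YY_apply, LinearMap.zero_apply, map_zero]; module

lemma br (x : Module.End K V) (μ : K) (hx : ∀ u v, ψ (x u) v + ψ u (x v) = μ * ψ u v) (u w : V) :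
    x * YY ψ u w - YY ψ u w * x = YY ψ (x u) w + YY ψ u (x w) - μ • YY ψ u w := by
  ext v
  simp only [LinearMap.sub_apply, Module.End.mul_apply, YY_apply, map_add, map_smul,
    LinearMap.add_apply, LinearMap.smul_apply]
  rw [eq_sub_of_add_eq (hx v u), eq_sub_of_add_eq (hx v w)]
  module

lemma mu_ex (x : Module.End K V) (hsk : ∀ u v, ψ u v = 0 → ψ (x u) v + ψ u (x v) = 0) (e f : V)
    (hef : ψ e f ≠ 0) : ∃ μ : K, ∀ u v, ψ (x u) v + ψ u (x v) = μ * ψ u v := by
  have hL : ∀ u v v', ψ u v' ≠ 0 →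
      ψ (x u) v + ψ u (x v) = (ψ (x u) v' + ψ u (x v')) / ψ u v' * ψ u v := by
    intro u v v' h
    have h1 : ψ u (v - (ψ u v / ψ u v') • v') = 0 := by
      rw [map_sub, map_smul, smul_eq_mul]; field_simp; ring
    have h2 := hsk _ _ h1
    simp only [map_sub, map_smul, smul_eq_mul] at h2
    field_simp at h2 ⊢
    linear_combination h2
  have hR : ∀ u u' v, ψ u' v ≠ 0 →
      ψ (x u) v + ψ u (x v) = (ψ (x u') v + ψ u' (x v)) / ψ u' v * ψ u v := by
    intro u u' v h
    have h1 : ψ (u - (ψ u v / ψ u' v) • u') v = 0 := by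
      rw [map_sub, map_smul, LinearMap.sub_apply, LinearMap.smul_apply, smul_eq_mul]
      field_simp; ring
    have h2 := hsk _ _ h1
    simp only [map_sub, map_smul, smul_eq_mul, LinearMap.sub_apply, LinearMap.smul_apply] at h2
    field_simp at h2 ⊢
    linear_combination h2
  set μ := (ψ (x e) f + ψ e (x f)) / ψ e f with hμ
  have hf : ∀ u, ψ (x u) f + ψ u (x f) = μ * ψ u f := fun u => hR u e f hef
  have hgen : ∀ u v, ψ u f ≠ 0 → ψ (x u) v + ψ u (x v) = μ * ψ u v := by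
    intro u v h
    rw [hL u v f h, hf u, mul_div_assoc, div_self h, mul_one]
  refine ⟨μ, fun u v => ?_⟩
  by_cases h : ψ u f = 0
  · have h1 : ψ (u + e) f ≠ 0 := by
      rw [map_add, LinearMap.add_apply, h, zero_add]; exact hef
    have h2 := hgen (u + e) v h1
    have h3 := hgen e v hef
    simp only [map_add, LinearMap.add_apply] at h2
    linear_combination h2 - h3
  · exact hgen u v h

/-- separation of weights -/
lemma weights (L : Submodule K (Module.End K V)) (T : Module.End K (Module.End K V))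
    (hT : ∀ y ∈ L, T y ∈ L) {a b c d g : Module.End K V}
    (ha : T a = (2 : K) • a) (hb : T b = b) (hc : T c = 0) (hd : T d = -d)
    (hg : T g = (-2 : K) • g) (h : a + b + c + d + g ∈ L) : d ∈ L ∧ g ∈ L := by
  have h1 := hT _ h
  have h2 := hT _ h1
  have h3 := hT _ h2
  have h4 := hT _ h3
  simp only [map_add, map_smul, map_neg, ha, hb, hc, hd, hg, map_zero] at h1 h2 h3 h4
  constructor
  · have := L.smul_mem (-(1 / 6 : K)) (L.add_mem (L.sub_mem (L.sub_mem h4 h3) (L.smul_mem (4 : K) h2))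
      (L.smul_mem (4 : K) h1))
    convert this using 1
    module
  · have := L.smul_mem (1 / 24 : K) (L.add_mem (L.sub_mem (L.sub_mem h4 (L.smul_mem (2 : K) h3)) h2)
      (L.smul_mem (2 : K) h1))
    convert this using 1
    module

section main

variable (halt : ∀ v, ψ v v = 0) (L : Submodule K (Module.End K V))
    (hbr : ∀ x ∈ L, ∀ y ∈ L, x * y - y * x ∈ L)
    (hsk : ∀ x ∈ L, ∀ u v, ψ u v = 0 → ψ (x u) v + ψ u (x v) = 0)

include halt in
lemma anti (u v : V) : ψ u v = -ψ v u := by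
  have h := halt (u + v)
  simp only [map_add, LinearMap.add_apply, halt] at h
  linear_combination h

include hbr hsk in
lemma star {e f : V} (hef : ψ e f ≠ 0) {x : Module.End K V} (hx : x ∈ L) {u w : V}
    (h : YY ψ u w ∈ L) : YY ψ (x u) w + YY ψ u (x w) ∈ L := by
  obtain ⟨μ, hμ⟩ := mu_ex x (hsk x hx) e f hef
  have h1 := br x μ hμ u w
  have h2 := hbr x hx _ h
  have h3 : YY ψ (x u) w + YY ψ u (x w) = (x * YY ψ u w - YY ψ u w * x) + μ • YY ψ u w := by
    rw [h1]; abel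
  rw [h3]
  exact L.add_mem h2 (L.smul_mem _ h)

include halt in
lemma skewYY (a b u v : V) : ψ (YY ψ a b u) v + ψ u (YY ψ a b v) = 0 * ψ u v := by
  simp only [YY_apply, map_add, map_smul, LinearMap.add_apply, LinearMap.smul_apply, smul_eq_mul]
  rw [anti halt b v, anti halt a v]
  ring

include halt in
lemma brYY (a b u w : V) : YY ψ a b * YY ψ u w - YY ψ u w * YY ψ a b =
    YY ψ (YY ψ a b u) w + YY ψ u (YY ψ a b w) := by
  rw [br (YY ψ a b) 0 (fun u v => skewYY halt a b u v) u w, zero_smul, sub_zero]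

include halt in
/-- decomposition of a vector -/
lemma dec {e f : V} (hef : ψ e f ≠ 0) (v : V) : ∃ (p q : K) (m : V),
    v = p • e + m + q • f ∧ ψ m e = 0 ∧ ψ m f = 0 := by
  have hfe : ψ f e = -ψ e f := anti halt f e
  refine ⟨ψ v f / ψ e f, ψ e v / ψ e f, v - (ψ v f / ψ e f) • e - (ψ e v / ψ e f) • f, by abel,
    ?_, ?_⟩
  · simp only [map_sub, map_smul, LinearMap.sub_apply, LinearMap.smul_apply, smul_eq_mul, halt,
      hfe]
    rw [anti halt v e]
    field_simp
    ring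
  · simp only [map_sub, map_smul, LinearMap.sub_apply, LinearMap.smul_apply, smul_eq_mul, halt]
    field_simp
    ring

include halt hbr hsk in
/-- the key step -/
lemma key {e f : V} (hef : ψ e f ≠ 0) (hh : YY ψ e f ∈ L) {x : Module.End K V} (hx : x ∈ L)
    {α : K} {v0 : V} (hv4 : ψ v0 e = 0) (hv5 : ψ v0 f = 0) (hfv0 : YY ψ f v0 ∈ L)
    {p q : K} {m : V} (hm3 : x (α • e + v0) = p • e + m + q • f) (hm4 : ψ m e = 0)
    (hm5 : ψ m f = 0) : YY ψ f m ∈ L ∧ q • YY ψ f f ∈ L := by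
  have hfe : ψ f e = -ψ e f := anti halt f e
  let T : Module.End K (Module.End K V) :=
    (1 / ψ e f) • (LinearMap.mulLeft K (YY ψ e f) - LinearMap.mulRight K (YY ψ e f))
  have hTapp : ∀ y, T y = (1 / ψ e f) • (YY ψ e f * y - y * YY ψ e f) := fun y => rfl
  have hTL : ∀ y ∈ L, T y ∈ L := fun y hy => by
    rw [hTapp]; exact L.smul_mem _ (hbr _ hh _ hy)
  have hTYY : ∀ u w, T (YY ψ u w) = YY ψ ((1 / ψ e f) • YY ψ e f u) w +
      YY ψ u ((1 / ψ e f) • YY ψ e f w) := by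
    intro u w
    rw [hTapp, brYY halt, smul_add, YYs_sl, YYs_sr]
  have he : (1 / ψ e f) • YY ψ e f e = e := by
    rw [YY_apply, halt, zero_smul, zero_add, smul_smul, one_div, inv_mul_cancel₀ hef,
      one_smul]
  have hf : (1 / ψ e f) • YY ψ e f f = -f := by
    rw [YY_apply, halt, zero_smul, add_zero, hfe, smul_smul]
    have : 1 / ψ e f * -ψ e f = -1 := by field_simp
    rw [this, neg_one_smul]
  have h0 : ∀ v, ψ v e = 0 → ψ v f = 0 → (1 / ψ e f) • YY ψ e f v = 0 := by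
    intro v h1 h2
    rw [YY_apply, h1, h2, zero_smul, zero_smul, add_zero, smul_zero]
  have hfe' : YY ψ f e ∈ L := by rw [YYs_comm]; exact hh
  have hfv : YY ψ f (α • e + v0) ∈ L := by
    rw [YYs_ar, YYs_sr]
    exact L.add_mem (L.smul_mem _ hfe') hfv0
  have hy := star L hbr hsk hef hx hfv
  obtain ⟨α', δ', a', hx3, hx4, hx5⟩ := dec halt hef (x f)
  have hkey := weights L T hTL (a := (α' * α) • YY ψ e e)
    (b := α' • YY ψ e v0 + α • YY ψ a' e)
    (c := YY ψ a' v0 + (δ' * α + p) • YY ψ f e)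
    (d := δ' • YY ψ f v0 + YY ψ f m) (g := q • YY ψ f f)
    (by rw [map_smul, hTYY, he]; module)
    (by rw [map_add, map_smul, map_smul, hTYY, hTYY, he, h0 v0 hv4 hv5, h0 a' hx4 hx5, YYs_zl,
          YYs_zr, add_zero, zero_add])
    (by rw [map_add, map_smul, hTYY, hTYY, he, hf, h0 v0 hv4 hv5, h0 a' hx4 hx5, YYs_zl,
          YYs_zr, YYs_nl]; simp)
    (by rw [map_add, map_smul, hTYY, hTYY, hf, h0 v0 hv4 hv5, h0 m hm4 hm5, YYs_zr, YYs_nl,
          YYs_nl]; module)
    (by rw [map_smul, hTYY, hf, YYs_nl, YYs_nr]; module)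
    (by
      have h1 : YY ψ (x f) (α • e + v0) + YY ψ f (x (α • e + v0)) = (α' * α) • YY ψ e e +
          (α' • YY ψ e v0 + α • YY ψ a' e) + (YY ψ a' v0 + (δ' * α + p) • YY ψ f e) +
          (δ' • YY ψ f v0 + YY ψ f m) + q • YY ψ f f := by
        rw [hx3, hm3]
        simp only [YYs_al, YYs_ar, YYs_sl, YYs_sr]
        module
      rw [← h1]; exact hy)
  refine ⟨?_, hkey.2⟩
  have h1 := L.sub_mem hkey.1 (L.smul_mem δ' hfv0)
  rwa [add_sub_cancel_left] at h1

/-- the middle vectors `a` with `YY f a ∈ L` -/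
def M0 (ψ : V →ₗ[K] V →ₗ[K] K) (L : Submodule K (Module.End K V)) (e f : V) : Submodule K V where
  carrier := {v | ψ v e = 0 ∧ ψ v f = 0 ∧ YY ψ f v ∈ L}
  zero_mem' := ⟨by simp, by simp, by rw [YYs_zr]; exact L.zero_mem⟩
  add_mem' := by
    rintro a b ⟨h1, h2, h3⟩ ⟨h4, h5, h6⟩
    refine ⟨by rw [map_add, LinearMap.add_apply, h1, h4, add_zero],
      by rw [map_add, LinearMap.add_apply, h2, h5, add_zero], ?_⟩
    rw [YYs_ar]
    exact L.add_mem h3 h6
  smul_mem' := by
    rintro a b ⟨h1, h2, h3⟩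
    refine ⟨by rw [map_smul, LinearMap.smul_apply, h1, smul_zero],
      by rw [map_smul, LinearMap.smul_apply, h2, smul_zero], ?_⟩
    rw [YYs_sr]
    exact L.smul_mem _ h3

lemma mem_M0 {e f v : V} : v ∈ M0 ψ L e f ↔ ψ v e = 0 ∧ ψ v f = 0 ∧ YY ψ f v ∈ L := Iff.rfl

include halt hbr hsk in
/-- if `f` lies in the smallest stable subspace containing `e` then `YY f f ∈ L` -/
lemma ff_memS {e f : V} (hef : ψ e f ≠ 0) (hh : YY ψ e f ∈ L)
    (hmin : ∀ W : Submodule K V, (∀ x ∈ L, ∀ w ∈ W, x w ∈ W) → e ∈ W → f ∈ W) :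
    YY ψ f f ∈ L := by
  by_contra hff
  let W : Submodule K V := Submodule.span K {e} ⊔ M0 ψ L e f
  have heW : e ∈ W := Submodule.mem_sup_left (Submodule.mem_span_singleton_self e)
  have hmem : ∀ v, v ∈ W ↔ ∃ (α : K) (a : V), a ∈ M0 ψ L e f ∧ v = α • e + a := by
    intro v
    constructor
    · intro h
      obtain ⟨y, hy, z, hz, rfl⟩ := Submodule.mem_sup.1 h
      obtain ⟨α, rfl⟩ := Submodule.mem_span_singleton.1 hy
      exact ⟨α, z, hz, rfl⟩
    · rintro ⟨α, a, ha, rfl⟩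
      exact Submodule.add_mem_sup (Submodule.smul_mem _ _ (Submodule.mem_span_singleton_self e)) ha
  have hst : ∀ x ∈ L, ∀ w ∈ W, x w ∈ W := by
    intro x hx v hv
    obtain ⟨α, a, ha, rfl⟩ := (hmem v).1 hv
    obtain ⟨p, q, m, hm1, hm2, hm3⟩ := dec halt hef (x (α • e + a))
    obtain ⟨k1, k2⟩ := key halt L hbr hsk hef hh hx ha.1 ha.2.1 ha.2.2 hm1 hm2 hm3
    have hq : q = 0 := by
      by_contra hq
      apply hff
      have := L.smul_mem q⁻¹ k2
      rwa [smul_smul, inv_mul_cancel₀ hq, one_smul] at this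
    rw [hmem]
    exact ⟨p, m, ⟨hm2, hm3, k1⟩, by rw [hm1, hq, zero_smul, add_zero]⟩
  obtain ⟨α, a, ha, hf⟩ := (hmem f).1 (hmin W hst heW)
  apply hef
  have h1 : ψ e f = ψ e (α • e + a) := by rw [← hf]
  rw [h1, map_add, map_smul, halt, smul_zero, zero_add, anti halt e a, ha.1, neg_zero]

end main

theorem sp_partS (halt : ∀ v, ψ v v = 0) (L : Submodule K (Module.End K V))
    (hbr : ∀ x ∈ L, ∀ y ∈ L, x * y - y * x ∈ L)
    (hsk : ∀ x ∈ L, ∀ u v, ψ u v = 0 → ψ (x u) v + ψ u (x v) = 0)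
    (e f : V) (hef : ψ e f ≠ 0) (hh : YY ψ e f ∈ L)
    (A B : Submodule K V) (heA : e ∈ A) (hfB : f ∈ B)
    (hA : ∀ x ∈ L, ∀ w ∈ A, x w ∈ A) (hB : ∀ x ∈ L, ∀ w ∈ B, x w ∈ B)
    (hA' : ∀ W : Submodule K V, (∀ x ∈ L, ∀ w ∈ W, x w ∈ W) → e ∈ W → A ≤ W)
    (hB' : ∀ W : Submodule K V, (∀ x ∈ L, ∀ w ∈ W, x w ∈ W) → f ∈ W → B ≤ W)
    (hcase : A = B ∨ Disjoint A B) (u w : V) (hu : u ∈ A) (hw : w ∈ B) : YY ψ u w ∈ L := by
  have hfe : ψ f e ≠ 0 := by
    rw [anti halt f e]; exact neg_ne_zero.2 hef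
  have hh' : YY ψ f e ∈ L := by rw [YYs_comm]; exact hh
  have hst2 : ∀ a b u w, YY ψ a b ∈ L → YY ψ u w ∈ L →
      YY ψ (YY ψ a b u) w + YY ψ u (YY ψ a b w) ∈ L := by
    intro a b u w h1 h2
    rw [← brYY halt]
    exact hbr _ h1 _ h2
  rcases hcase with hAB | hAB
  · -- case `A = B`
    subst hAB
    have hff : YY ψ f f ∈ L := ff_memS halt L hbr hsk hef hh fun W h1 h2 => hA' W h1 h2 hfB
    have hee : YY ψ e e ∈ L := ff_memS halt L hbr hsk hfe hh' fun W h1 h2 => hB' W h1 h2 heA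
    have hMN : ∀ v, YY ψ f v ∈ L → YY ψ e v ∈ L := by
      intro v hv
      have h1 := hst2 e e f v hee hv
      simp only [YY_apply ψ e e, YYs_al, YYs_ar, YYs_sl, YYs_sr] at h1
      have h2 : YY ψ e v = (2 * ψ f e)⁻¹ • ((ψ f e • YY ψ e v + ψ f e • YY ψ e v +
          (ψ v e • YY ψ f e + ψ v e • YY ψ f e)) - (2 * ψ v e) • YY ψ f e) := by
        have : (ψ f e • YY ψ e v + ψ f e • YY ψ e v +
          (ψ v e • YY ψ f e + ψ v e • YY ψ f e)) - (2 * ψ v e) • YY ψ f e =
            (2 * ψ f e) • YY ψ e v := by module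
        rw [this, smul_smul, inv_mul_cancel₀ (mul_ne_zero two_ne_zero hfe), one_smul]
      rw [h2]
      exact L.smul_mem _ (L.sub_mem h1 (L.smul_mem _ hh'))
    let M : Submodule K V :=
      { carrier := {v | YY ψ f v ∈ L}
        zero_mem' := by
          show YY ψ f (0 : V) ∈ L
          rw [YYs_zr]; exact L.zero_mem
        add_mem' := by
          intro a b h1 h2
          show YY ψ f (a + b) ∈ L
          rw [YYs_ar]
          exact L.add_mem h1 h2
        smul_mem' := by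
          intro a b h1
          show YY ψ f (a • b) ∈ L
          rw [YYs_sr]
          exact L.smul_mem _ h1 }
    have hMmem : ∀ v, v ∈ M ↔ YY ψ f v ∈ L := fun v => Iff.rfl
    have hstep : ∀ x ∈ L, ∀ v, YY ψ f v ∈ L →
        ψ v f • YY ψ (x e) f + ψ e f • YY ψ f (x v) ∈ L := by
      intro x hx v hv
      have h1 := star L hbr hsk hef hx (hMN v hv)
      have h2 := hbr _ hff _ h1
      have h3 : YY ψ f f * (YY ψ (x e) v + YY ψ e (x v)) -
          (YY ψ (x e) v + YY ψ e (x v)) * YY ψ f f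
          = (YY ψ f f * YY ψ (x e) v - YY ψ (x e) v * YY ψ f f) +
            (YY ψ f f * YY ψ e (x v) - YY ψ e (x v) * YY ψ f f) := by
        rw [mul_add, add_mul]; abel
      rw [h3, brYY halt, brYY halt] at h2
      simp only [YY_apply ψ f f, YYs_al, YYs_ar, YYs_sl, YYs_sr] at h2
      have h4 : ψ v f • YY ψ (x e) f + ψ e f • YY ψ f (x v) = (1 / 2 : K) •
          ((ψ (x e) f • YY ψ f v + ψ (x e) f • YY ψ f v +
            (ψ v f • YY ψ (x e) f + ψ v f • YY ψ (x e) f) +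
          (ψ e f • YY ψ f (x v) + ψ e f • YY ψ f (x v) +
            (ψ (x v) f • YY ψ e f + ψ (x v) f • YY ψ e f))) -
          (2 * ψ (x e) f) • YY ψ f v - (2 * ψ (x v) f) • YY ψ e f) := by module
      rw [h4]
      exact L.smul_mem _ (L.sub_mem (L.sub_mem h2 (L.smul_mem _ hv)) (L.smul_mem _ hh))
    have hxe : ∀ x ∈ L, YY ψ f (x e) ∈ L := by
      intro x hx
      have h1 := hstep x hx e hh'
      rw [YYs_comm (x e) f] at h1
      have h2 : YY ψ f (x e) = (2 * ψ e f)⁻¹ • (ψ e f • YY ψ f (x e) + ψ e f • YY ψ f (x e)) := by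
        have : ψ e f • YY ψ f (x e) + ψ e f • YY ψ f (x e) = (2 * ψ e f) • YY ψ f (x e) := by
          module
        rw [this, smul_smul, inv_mul_cancel₀ (mul_ne_zero two_ne_zero hef), one_smul]
      rw [h2]
      exact L.smul_mem _ h1
    have hMst : ∀ x ∈ L, ∀ v ∈ M, x v ∈ M := by
      intro x hx v hv
      have h1 := hstep x hx v hv
      rw [YYs_comm (x e) f] at h1
      have h2 := L.sub_mem h1 (L.smul_mem (ψ v f) (hxe x hx))
      rw [add_sub_cancel_left] at h2
      have h3 := L.smul_mem (ψ e f)⁻¹ h2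
      rwa [smul_smul, inv_mul_cancel₀ hef, one_smul] at h3
    have hAM : A ≤ M := hA' M hMst ((hMmem e).2 hh')
    have hM : ∀ v ∈ A, YY ψ f v ∈ L := fun v hv => (hMmem v).1 (hAM hv)
    have hN : ∀ v ∈ A, YY ψ e v ∈ L := fun v hv => hMN v (hM v hv)
    have h1 := hst2 f u e w (hM u hu) (hN w hw)
    simp only [YY_apply ψ f u, YYs_al, YYs_ar, YYs_sl, YYs_sr] at h1
    have h2 : YY ψ u w = (ψ e f)⁻¹ • ((ψ e f • YY ψ u w + ψ e u • YY ψ f w +
        (ψ w f • YY ψ e u + ψ w u • YY ψ e f)) - ψ e u • YY ψ f w - ψ w f • YY ψ e u -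
        ψ w u • YY ψ e f) := by
      have : (ψ e f • YY ψ u w + ψ e u • YY ψ f w +
        (ψ w f • YY ψ e u + ψ w u • YY ψ e f)) - ψ e u • YY ψ f w - ψ w f • YY ψ e u -
        ψ w u • YY ψ e f = ψ e f • YY ψ u w := by module
      rw [this, smul_smul, inv_mul_cancel₀ hef, one_smul]
    rw [h2]
    exact L.smul_mem _ (L.sub_mem (L.sub_mem (L.sub_mem h1 (L.smul_mem _ (hM w hw)))
      (L.smul_mem _ (hN u hu))) (L.smul_mem _ hh))
  · -- case `Disjoint A B`
    have hMA : ∀ a ∈ M0 ψ L e f, a ∈ A := by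
      intro a ha
      have h1 := hA _ ha.2.2 e heA
      rw [YY_apply, anti halt e a, ha.1, neg_zero, zero_smul, add_zero] at h1
      have h2 := A.smul_mem (ψ e f)⁻¹ h1
      rwa [smul_smul, inv_mul_cancel₀ hef, one_smul] at h2
    have hNB : ∀ a ∈ M0 ψ L f e, a ∈ B := by
      intro a ha
      have h1 := hB _ ha.2.2 f hfB
      rw [YY_apply, anti halt f a, ha.1, neg_zero, zero_smul, add_zero] at h1
      have h2 := B.smul_mem (ψ f e)⁻¹ h1
      rwa [smul_smul, inv_mul_cancel₀ hfe, one_smul] at h2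
    let W : Submodule K V := (Submodule.span K {e} ⊔ M0 ψ L e f) ⊔
      (Submodule.span K {f} ⊔ M0 ψ L f e)
    have hmem : ∀ v, v ∈ W ↔ ∃ (α β : K) (a b : V), a ∈ M0 ψ L e f ∧ b ∈ M0 ψ L f e ∧
        v = (α • e + a) + (β • f + b) := by
      intro v
      constructor
      · intro h
        obtain ⟨y, hy, z, hz, rfl⟩ := Submodule.mem_sup.1 h
        obtain ⟨y1, hy1, y2, hy2, rfl⟩ := Submodule.mem_sup.1 hy
        obtain ⟨z1, hz1, z2, hz2, rfl⟩ := Submodule.mem_sup.1 hz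
        obtain ⟨α, rfl⟩ := Submodule.mem_span_singleton.1 hy1
        obtain ⟨β, rfl⟩ := Submodule.mem_span_singleton.1 hz1
        exact ⟨α, β, y2, z2, hy2, hz2, rfl⟩
      · rintro ⟨α, β, a, b, ha, hb, rfl⟩
        exact Submodule.add_mem_sup
          (Submodule.add_mem_sup (Submodule.smul_mem _ _ (Submodule.mem_span_singleton_self e)) ha)
          (Submodule.add_mem_sup (Submodule.smul_mem _ _ (Submodule.mem_span_singleton_self f)) hb)
    have hst : ∀ x ∈ L, ∀ w ∈ W, x w ∈ W := by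
      intro x hx v hv
      obtain ⟨α, β, a, b, ha, hb, rfl⟩ := (hmem v).1 hv
      obtain ⟨p, q, m, hm1, hm2, hm3⟩ := dec halt hef (x (α • e + a))
      obtain ⟨p', q', m', hn1, hn2, hn3⟩ := dec halt hfe (x (β • f + b))
      have k1 := (key halt L hbr hsk hef hh hx ha.1 ha.2.1 ha.2.2 hm1 hm2 hm3).1
      have k2 := (key halt L hbr hsk hfe hh' hx hb.1 hb.2.1 hb.2.2 hn1 hn2 hn3).1
      rw [hmem, map_add, hm1, hn1]
      exact ⟨p + q', q + p', m, m', ⟨hm2, hm3, k1⟩, ⟨hn2, hn3, k2⟩, by module⟩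
    have heW : e ∈ W := (hmem e).2 ⟨1, 0, 0, 0, Submodule.zero_mem _, Submodule.zero_mem _, by
      module⟩
    have hfW : f ∈ W := (hmem f).2 ⟨0, 1, 0, 0, Submodule.zero_mem _, Submodule.zero_mem _, by
      module⟩
    obtain ⟨α, β, a, b, ha, hb, hu1⟩ := (hmem u).1 (hA' W hst heW hu)
    obtain ⟨α', β', a', b', ha', hb', hw1⟩ := (hmem w).1 (hB' W hst hfW hw)
    have hz : β • f + b = 0 := by
      have h1 : β • f + b ∈ B := B.add_mem (B.smul_mem _ hfB) (hNB b hb)
      have h2 : β • f + b ∈ A := by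
        have : β • f + b = u - (α • e + a) := by rw [hu1]; abel
        rw [this]
        exact A.sub_mem hu (A.add_mem (A.smul_mem _ heA) (hMA a ha))
      exact Submodule.disjoint_def.1 hAB _ h2 h1
    have hz' : α' • e + a' = 0 := by
      have h1 : α' • e + a' ∈ A := A.add_mem (A.smul_mem _ heA) (hMA a' ha')
      have h2 : α' • e + a' ∈ B := by
        have : α' • e + a' = w - (β' • f + b') := by rw [hw1]; abel
        rw [this]
        exact B.sub_mem hw (B.add_mem (B.smul_mem _ hfB) (hNB b' hb'))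
      exact Submodule.disjoint_def.1 hAB _ h1 h2
    rw [hz, add_zero] at hu1
    rw [hz', zero_add] at hw1
    have h1 := hst2 f a e b' ha.2.2 hb'.2.2
    rw [YY_apply ψ f a e, YY_apply ψ f a b', anti halt e a, ha.1, hb'.1] at h1
    simp only [neg_zero, zero_smul, add_zero, zero_add, YYs_sl, YYs_sr] at h1
    have h2 : YY ψ a b' ∈ L := by
      have h3 := L.smul_mem (ψ e f)⁻¹ (L.sub_mem h1 (L.smul_mem (ψ b' a) hh))
      rw [add_sub_cancel_right, smul_smul, inv_mul_cancel₀ hef, one_smul] at h3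
      exact h3
    rw [hu1, hw1]
    simp only [YYs_al, YYs_ar, YYs_sl, YYs_sr]
    have h3 : YY ψ a f ∈ L := by rw [YYs_comm]; exact ha.2.2
    exact L.add_mem (L.smul_mem _ (L.add_mem (L.smul_mem _ hh) h3))
      (L.add_mem (L.smul_mem _ hb'.2.2) h2)

end Pool.Agent.H91U.SpS
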