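import Pool.Agent.H91U.Basic

/-! Tate vectors form a stable subspace. -/

set_option linter.unusedSectionVars false

namespace Pool.Agent.H91U

open Pool.Agent.H91.Mono Pool.Agent.H91S

variable {K V : Type*} [Field K] [CharZero K] [AddCommGroup V] [Module K V]
  [FiniteDimensional K V] {ψ : V →ₗ[K] V →ₗ[K] K} {Γ : Subgroup (V ≃ₗ[K] V)}

lemma ts_char {G : Type*} [Group G] (ρ : G →* (V ≃ₗ[K] V)) {v : V} (hv : v ≠ 0)
    (h : ∀ g, ∃ a : K, ρ g v = a • v) : ∃ χ : G →* K, ∀ g, ρ g v = χ g • v := by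
  choose a ha using h
  have hinj : ∀ b c : K, b • v = c • v → b = c := fun b c hbc => smul_left_injective K hv hbc
  refine ⟨{ toFun := a, map_one' := ?_, map_mul' := ?_ }, ha⟩
  · apply hinj
    rw [← ha 1, map_one, one_smul]
    rfl
  · intro g g'
    apply hinj
    rw [← ha, map_mul]
    show ρ g (ρ g' v) = _
    rw [ha g', map_smul, ha g, smul_smul, mul_comm]

lemma ts_add (hc : Ctx ψ Γ) {v w : V} (hv : TateVec ψ Γ v) (hw : TateVec ψ Γ w) :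
    TateVec ψ Γ (v + w) := by
  by_cases hv0 : v = 0
  · rw [hv0, zero_add]
    exact hw
  by_cases hw0 : w = 0
  · rw [hw0, add_zero]
    exact hv
  obtain ⟨Δ1, hf1, h1⟩ := hv
  obtain ⟨Δ2, hf2, h2⟩ := hw
  have := hf1
  have := hf2
  set G : Subgroup Γ := Δ1 ⊓ Δ2 with hG
  set ρ : G →* (V ≃ₗ[K] V) := Γ.subtype.comp G.subtype with hρ
  have hρa : ∀ (g : G) (x : V), ρ g x = ((g : Γ) : V ≃ₗ[K] V) x := fun g x => rfl
  obtain ⟨χ1, hχ1⟩ := ts_char ρ hv0 (fun g => by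
    obtain ⟨a, ha, _⟩ := h1 g g.2.1
    exact ⟨a, ha⟩)
  obtain ⟨χ2, hχ2⟩ := ts_char ρ hw0 (fun g => by
    obtain ⟨a, ha, _⟩ := h2 g g.2.2
    exact ⟨a, ha⟩)
  have s1 : ∀ (g : G) (x y : V), ψ (ρ g x) (ρ g y) = χ1 g ^ 2 * ψ x y := by
    intro g x y
    obtain ⟨a, ha, hs⟩ := h1 g g.2.1
    have e : a = χ1 g := smul_left_injective K hv0 (by
      show a • v = χ1 g • v
      rw [← ha, ← hχ1]
      rfl)
    rw [← e]
    exact hs x y
  have s2 : ∀ (g : G) (x y : V), ψ (ρ g x) (ρ g y) = χ2 g ^ 2 * ψ x y := by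
    intro g x y
    obtain ⟨a, ha, hs⟩ := h2 g g.2.2
    have e : a = χ2 g := smul_left_injective K hw0 (by
      show a • w = χ2 g • w
      rw [← ha, ← hχ2]
      rfl)
    rw [← e]
    exact hs x y
  obtain ⟨u, hu⟩ : ∃ u, ψ v u ≠ 0 := by
    by_contra hcon
    push Not at hcon
    exact hv0 (hc.nd v hcon)
  have hsq : ∀ g : G, χ1 g ^ 2 = χ2 g ^ 2 := by
    intro g
    have e := (s1 g v u).symm.trans (s2 g v u)
    exact mul_right_cancel₀ hu e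
  set f : G →* Kˣ := χ1.toHomUnits * (χ2.toHomUnits)⁻¹ with hf
  have hval : ∀ g, χ1 g = χ2 g ∨ χ1 g = -χ2 g := fun g => sq_eq_sq_iff_eq_or_eq_neg.1 (hsq g)
  have hfin : Finite f.range := by
    have hsub : (f.range : Set Kˣ) ⊆ {1, -1} := by
      rintro _ ⟨g, rfl⟩
      have e1 : f g = χ1.toHomUnits g * (χ2.toHomUnits g)⁻¹ := rfl
      rw [e1]
      rcases hval g with h | h
      · left
        rw [mul_inv_eq_one]
        apply Units.ext
        exact h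
      · right
        rw [Set.mem_singleton_iff, mul_inv_eq_iff_eq_mul]
        apply Units.ext
        show χ1 g = (-1 : K) * χ2 g
        rw [h]
        ring
    exact Set.Finite.subset (Set.toFinite _) hsub
  have := hfin
  have hker : f.ker.FiniteIndex := inferInstance
  have hGf : G.FiniteIndex := by
    rw [hG]
    infer_instance
  refine ⟨f.ker.map G.subtype, ⟨?_⟩, ?_⟩
  · rw [Subgroup.index_map_subtype]
    exact mul_ne_zero hker.index_ne_zero hGf.index_ne_zero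
  · rintro γ hγ
    obtain ⟨g, hg, rfl⟩ := Subgroup.mem_map.1 hγ
    have e1 : f g = χ1.toHomUnits g * (χ2.toHomUnits g)⁻¹ := rfl
    rw [MonoidHom.mem_ker, e1, mul_inv_eq_one] at hg
    have e2 : χ1 g = χ2 g := congrArg Units.val hg
    refine ⟨χ1 g, ?_, fun x y => s1 g x y⟩
    show ρ g (v + w) = χ1 g • (v + w)
    rw [map_add, smul_add, hχ1, hχ2, e2]

theorem tate_subS [IsAlgClosed K] (hc : Ctx ψ Γ) : ∃ V0 : Submodule K V,
    (∀ v, v ∈ V0 ↔ TateVec ψ Γ v) ∧ ∀ γ ∈ Γ, ∀ v ∈ V0, (γ : V ≃ₗ[K] V) v ∈ V0 := by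
  have hzero : TateVec ψ Γ (0 : V) := by
    refine ⟨⊤, inferInstance, fun γ _ => ?_⟩
    obtain ⟨μ, hμ⟩ := hc.sim γ γ.2
    obtain ⟨a, ha⟩ := IsAlgClosed.exists_pow_nat_eq μ two_pos
    refine ⟨a, by rw [map_zero, smul_zero], fun u w => ?_⟩
    rw [ha]
    exact hμ u w
  have hsmul : ∀ (c : K) (v : V), TateVec ψ Γ v → TateVec ψ Γ (c • v) := by
    rintro c v ⟨Δ, hΔ, h⟩
    refine ⟨Δ, hΔ, fun γ hγ => ?_⟩
    obtain ⟨a, ha, hs⟩ := h γ hγ
    exact ⟨a, by rw [map_smul, ha, smul_comm], hs⟩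
  refine ⟨{ carrier := {v | TateVec ψ Γ v}
            add_mem' := fun {a b} ha hb => ts_add hc ha hb
            zero_mem' := hzero
            smul_mem' := fun c v hv => hsmul c v hv }, fun v => Iff.rfl, ?_⟩
  intro δ hδ v hv
  obtain ⟨Δ, hΔ, h⟩ := hv
  have := hΔ
  set d : Γ := ⟨δ, hδ⟩ with hd
  have hinv : ∀ x, δ (δ⁻¹ x) = x := fun x => δ.apply_symm_apply x
  have hinv' : ∀ x, (δ⁻¹ : V ≃ₗ[K] V) (δ x) = x := fun x => δ.symm_apply_apply x
  refine ⟨Δ.comap (MulAut.conj d⁻¹).toMonoidHom, ⟨?_⟩, fun γ hγ => ?_⟩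
  · rw [Subgroup.index_comap_of_surjective Δ (MulAut.conj d⁻¹).surjective]
    exact hΔ.index_ne_zero
  have hγ' : d⁻¹ * γ * d ∈ Δ := by
    have := Subgroup.mem_comap.1 hγ
    simpa [MulAut.conj_apply] using this
  obtain ⟨a, ha, hs⟩ := h _ hγ'
  have hval : ∀ x, ((d⁻¹ * γ * d : Γ) : V ≃ₗ[K] V) x = (δ⁻¹ : V ≃ₗ[K] V) ((γ : V ≃ₗ[K] V) (δ x)) :=
    fun x => rfl
  refine ⟨a, ?_, fun x y => ?_⟩
  · rw [hval] at ha
    have e := congrArg δ ha
    rw [hinv, map_smul] at e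
    exact e
  · obtain ⟨μ, hμ⟩ := hc.sim δ hδ
    have e := hs (δ⁻¹ x) (δ⁻¹ y)
    rw [hval, hval, hinv, hinv] at e
    have e1 := hμ ((δ⁻¹ : V ≃ₗ[K] V) ((γ : V ≃ₗ[K] V) x)) ((δ⁻¹ : V ≃ₗ[K] V) ((γ : V ≃ₗ[K] V) y))
    rw [hinv, hinv] at e1
    have e2 := hμ (δ⁻¹ x) (δ⁻¹ y)
    rw [hinv, hinv] at e2
    rw [e1, e, e2]
    ring

end Pool.Agent.H91U
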